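import Pool.Agent.H8.KS6.BoxC
import Pool.Agent.H98.OC.H23
import Pool.Agent.H97.OC.OCDT

/-!
# The local U-step: telescopes

`tele` is the abstract telescope: contexts `b j`, each of which is a function of the next one up to
a bounded number of values, variables `N j` which are the same variable up to a bounded number of
values, and data `V j` which is a function of the next context.

The event forms: a dependence or a loss of entropy under the law conditioned on a large event.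
-/

set_option autoImplicit false

namespace Pool.S6U

open Finset Real
open Pool.Agent.H49.Ent Pool.Agent.H32.Dense Pool.STK Pool.KA Pool.KSAT Pool.K2S

section abs

variable {Ω S T U V β γ : Type} [Fintype Ω] {p : Ω → ℝ}

/-- The dependence of `N` on `V` given `b`. -/
noncomputable def dp (p : Ω → ℝ) (N : Ω → S) (V : Ω → T) (b : Ω → β) : ℝ :=
  CH p N b - CH p N (fun ω => (V ω, b ω))

theorem dp_nonneg (hp : ∀ ω, 0 ≤ p ω) (N : Ω → S) (V : Ω → T) (b : Ω → β) : 0 ≤ dp p N V b := by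
  unfold dp
  have : CH p N (fun ω => (V ω, b ω)) ≤ CH p N b :=
    CH_mono_cond hp (fun ω ω' _ _ h => (Prod.ext_iff.mp h).2)
  linarith

theorem dp_le_CH (hp : IsLaw p) (N : Ω → S) (V : Ω → T) (b : Ω → β) : dp p N V b ≤ CH p N b := by
  unfold dp
  have := CH_nonneg hp.nonneg N (fun ω => (V ω, b ω))
  linarith

/-- **The telescope.** -/
theorem tele (hp : IsLaw p) (n : ℕ) (N : ℕ → Ω → S) (V : ℕ → Ω → T) (b : ℕ → Ω → β)
    {c₁ c₂ : ℝ} (hc₁ : 0 ≤ c₁) (hc₂ : 0 ≤ c₂)
    (h1 : ∀ j, j + 1 < n → CH p (fun ω => (V j ω, b j ω)) (b (j + 1)) ≤ c₁)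
    (h2 : ∀ j, j + 1 < n →
      CH p (N (j + 1)) (fun ω => (N j ω, ((V j ω, b j ω), b (j + 1) ω))) ≤ c₂) :
    ∑ j ∈ Finset.range n, dp p (N j) (V j) (b j) ≤ CH p (N 0) (b 0) + n * (c₁ + c₂) := by
  have hp0 := hp.nonneg
  have key : ∀ k, k + 1 ≤ n → ∑ j ∈ Finset.range (k + 1), dp p (N j) (V j) (b j) ≤
      CH p (N 0) (b 0) - CH p (N k) (fun ω => (V k ω, b k ω)) + k * (c₁ + c₂) := by
    intro k
    induction k with
    | zero =>
      intro _
      simp [dp]
    | succ k ih =>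
      intro hk
      rw [Finset.sum_range_succ]
      have i1 := ih (by omega)
      have i2 := H2.chain_step hp0 (N k) (N (k + 1)) (V k) (b k) (b (k + 1)) (h1 k (by omega))
        (h2 k (by omega))
      have e1 : dp p (N (k + 1)) (V (k + 1)) (b (k + 1)) = CH p (N (k + 1)) (b (k + 1)) -
        CH p (N (k + 1)) (fun ω => (V (k + 1) ω, b (k + 1) ω)) := rfl
      push_cast
      linarith
  rcases Nat.eq_zero_or_pos n with h0 | h0
  · subst h0
    simp only [Finset.range_zero, Finset.sum_empty, Nat.cast_zero, zero_mul, add_zero]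
    exact CH_nonneg hp0 _ _
  · obtain ⟨k, rfl⟩ : ∃ k, n = k + 1 := ⟨n - 1, by omega⟩
    have h3 := key k le_rfl
    have h4 := CH_nonneg hp0 (N k) (fun ω => (V k ω, b k ω))
    have h5 : 0 ≤ c₁ + c₂ := by linarith
    push_cast
    linarith

/-! ### Monotonicity of the dependence -/

/-- The chain rule for a function of the variable. -/
theorem CH_of_det (hp : ∀ ω, 0 ≤ p ω) {N : Ω → S} {N' : Ω → U} {Z : Ω → γ}
    (hN : Det p (fun ω => (N ω, Z ω)) N') :
    CH p N Z = CH p N' Z + CH p N (fun ω => (N' ω, Z ω)) := by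
  rw [← CH_chain hp N N' Z]
  refine CH_congr hp ?_ ?_ (fun _ _ _ _ h => h) (fun _ _ _ _ h => h)
  · intro ω ω' hω hω' h
    exact Prod.ext (Prod.ext_iff.mp h).1 (hN ω ω' hω hω' h)
  · intro ω ω' _ _ h
    exact (Prod.ext_iff.mp (Prod.ext_iff.mp h).1).1

/-- Functions of the variables. -/
theorem dp_mono (hp : ∀ ω, 0 ≤ p ω) {N : Ω → S} {N' : Ω → U} {V : Ω → T} {V' : Ω → γ}
    {b : Ω → β} (hN : Det p (fun ω => (N ω, b ω)) N')
    (hV : Det p (fun ω => (V ω, b ω)) V') : dp p N' V' b ≤ dp p N V b := by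
  have a0 : CH p N (fun ω => (N' ω, (V ω, b ω))) ≤ CH p N (fun ω => (N' ω, b ω)) :=
    CH_mono_cond hp (fun ω ω' _ _ h => by
      have h1 := Prod.ext_iff.mp h
      have h2 := Prod.ext_iff.mp h1.2
      exact Prod.ext h1.1 h2.2)
  have f1 := CH_of_det hp (N := N) (N' := N') (Z := b) hN
  have f2 := CH_of_det hp (N := N) (N' := N') (Z := fun ω => (V ω, b ω))
    (fun ω ω' hω hω' h => by
      have h1 := Prod.ext_iff.mp h
      have h2 := Prod.ext_iff.mp h1.2
      exact hN ω ω' hω hω' (Prod.ext h1.1 h2.2))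
  have f3 : CH p N' (fun ω => (V ω, b ω)) ≤ CH p N' (fun ω => (V' ω, b ω)) :=
    CH_mono_cond hp (fun ω ω' hω hω' h =>
      Prod.ext (hV ω ω' hω hω' h) (Prod.ext_iff.mp h).2)
  unfold dp
  linarith

/-- Symmetry. -/
theorem dp_symm (hp : ∀ ω, 0 ≤ p ω) (N : Ω → S) (V : Ω → T) (b : Ω → β) :
    dp p N V b = dp p V N b := by
  have h1 := CH_chain hp N V b
  have h2 := CH_chain hp V N b
  have h3 : CH p (fun ω => (N ω, V ω)) b = CH p (fun ω => (V ω, N ω)) b := by
    refine CH_congr hp ?_ ?_ (fun _ _ _ _ h => h) (fun _ _ _ _ h => h)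
    · intro ω ω' _ _ h
      have := Prod.ext_iff.mp (Prod.ext_iff.mp h).1
      exact Prod.ext this.2 this.1
    · intro ω ω' _ _ h
      have := Prod.ext_iff.mp (Prod.ext_iff.mp h).1
      exact Prod.ext this.2 this.1
  unfold dp
  linarith

theorem MI_eq_dp (hp : ∀ ω, 0 ≤ p ω) (N : Ω → S) (V : Ω → T) (b : Ω → β) :
    Pool.KVA.MI p N V b = dp p N V b := by
  have h1 := CH_chain hp N V b
  unfold Pool.KVA.MI dp
  linarith

/-- The chain rule for the dependence. -/
theorem dp_add (hp : ∀ ω, 0 ≤ p ω) (N : Ω → S) (N' : Ω → U) (V : Ω → T) (b : Ω → β) :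
    dp p (fun ω => (N ω, N' ω)) V b = dp p N' V b + dp p N V (fun ω => (N' ω, b ω)) := by
  have h1 := CH_chain hp N N' b
  have h2 := CH_chain hp N N' (fun ω => (V ω, b ω))
  have h3 : CH p N (fun ω => (N' ω, (V ω, b ω))) = CH p N (fun ω => (V ω, (N' ω, b ω))) := by
    refine CH_congr hp ?_ ?_ ?_ ?_ <;>
    · intro ω ω' _ _ h
      simp only [Prod.mk.injEq] at h ⊢
      tauto
  unfold dp
  linarith

/-- The same for the second variable. -/
theorem dp_add_right (hp : ∀ ω, 0 ≤ p ω) (N : Ω → S) (V : Ω → T) (V' : Ω → U) (b : Ω → β) :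
    dp p N (fun ω => (V ω, V' ω)) b = dp p N V' b + dp p N V (fun ω => (V' ω, b ω)) := by
  have h3 : CH p N (fun ω => ((V ω, V' ω), b ω)) = CH p N (fun ω => (V ω, (V' ω, b ω))) := by
    refine CH_congr hp ?_ ?_ ?_ ?_ <;>
    · intro ω ω' _ _ h
      simp only [Prod.mk.injEq] at h ⊢
      tauto
  unfold dp
  rw [h3]
  ring

/-- Change of the variable up to a bounded number of values. -/
theorem dp_le_add (hp : ∀ ω, 0 ≤ p ω) {N : Ω → S} {N' : Ω → U} {V : Ω → T} {b : Ω → β}
    {c : ℝ} (h1 : CH p N (fun ω => (N' ω, b ω)) ≤ c) :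
    dp p N V b ≤ dp p N' V b + c := by
  have b1 : dp p N V b ≤ dp p (fun ω => (N ω, N' ω)) V b :=
    dp_mono hp (fun _ _ _ _ h => (Prod.ext_iff.mp (Prod.ext_iff.mp h).1).1)
      (fun _ _ _ _ h => (Prod.ext_iff.mp h).1)
  have b2 := dp_add hp N N' V b
  have b3 : dp p N V (fun ω => (N' ω, b ω)) ≤ c := by
    unfold dp
    have := CH_nonneg hp N (fun ω => (V ω, (N' ω, b ω)))
    linarith
  linarith

/-- Change of the data up to a bounded number of values. -/
theorem dp_le_add_right (hp : ∀ ω, 0 ≤ p ω) {N : Ω → S} {V : Ω → T} {V' : Ω → U} {b : Ω → β}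
    {c : ℝ} (h1 : CH p V (fun ω => (V' ω, b ω)) ≤ c) :
    dp p N V b ≤ dp p N V' b + c := by
  rw [dp_symm hp N V b, dp_symm hp N V' b]
  exact dp_le_add hp h1

/-- Equivalent conditions. -/
theorem dp_congr_cond (hp : ∀ ω, 0 ≤ p ω) {N : Ω → S} {V : Ω → T} {b : Ω → β} {b' : Ω → γ}
    (h1 : Det p b b') (h2 : Det p b' b) : dp p N V b = dp p N V b' := by
  unfold dp
  rw [CH_congr hp (X := N) (X' := N) (W := b) (W' := b') (fun _ _ _ _ h => (Prod.ext_iff.mp h).1)
    (fun _ _ _ _ h => (Prod.ext_iff.mp h).1) h1 h2,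
    CH_congr hp (X := N) (X' := N) (W := fun ω => (V ω, b ω)) (W' := fun ω => (V ω, b' ω))
    (fun _ _ _ _ h => (Prod.ext_iff.mp h).1) (fun _ _ _ _ h => (Prod.ext_iff.mp h).1)
    (fun ω ω' a b h => Prod.ext (Prod.ext_iff.mp h).1 (h1 ω ω' a b (Prod.ext_iff.mp h).2))
    (fun ω ω' a b h => Prod.ext (Prod.ext_iff.mp h).1 (h2 ω ω' a b (Prod.ext_iff.mp h).2))]

/-! ### Events -/

theorem CH_event_two (hp : IsLaw p) (E : Ω → Prop) (Z : Ω → γ) : CH p E Z ≤ Real.log 2 := by
  classical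
  have h3 := CH_le_card hp.nonneg hp.sum_one E Z (fun _ => ({True, False} : Finset Prop))
    (fun v _ => by
      by_cases h : E v
      · simp [h]
      · simp [h])
  refine h3.trans ?_
  have h4 : Ex p (fun _ : Ω => Real.log (({True, False} : Finset Prop).card : ℝ)) =
      Real.log (({True, False} : Finset Prop).card : ℝ) := Ex_const hp.sum_one _
  refine (le_of_eq h4).trans (Real.log_le_log ?_ ?_)
  · have : 0 < ({True, False} : Finset Prop).card := Finset.card_pos.2 ⟨True, by simp⟩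
    exact_mod_cast this
  · have := Finset.card_le_two (a := True) (b := False)
    exact_mod_cast this

theorem CH_and_event (hp : IsLaw p) (E : Ω → Prop) (N : Ω → S) (Z : Ω → γ) :
    CH p N Z ≤ CH p N (fun ω => (Z ω, E ω)) + Real.log 2 := by
  have h1 := CH_le_add hp.nonneg N E Z
  have h2 := CH_event_two hp E Z
  have h3 : CH p N (fun ω => (E ω, Z ω)) = CH p N (fun ω => (Z ω, E ω)) := by
    refine CH_congr hp.nonneg (fun _ _ _ _ h => (Prod.ext_iff.mp h).1)
      (fun _ _ _ _ h => (Prod.ext_iff.mp h).1) ?_ ?_ <;>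
    · intro ω ω' _ _ h
      have := Prod.ext_iff.mp h
      exact Prod.ext this.2 this.1
  linarith

/-- **Dependences on events.** -/
theorem dp_event (hp : IsLaw p) (E : Ω → Prop) (N : Ω → S) (V : Ω → T) (b : Ω → β) :
    law p E True * dp (cond p E True) N V b ≤ dp p N V b + Real.log 2 := by
  classical
  have hp0 := hp.nonneg
  have a1 : dp p N V (fun ω => (b ω, E ω)) ≤ dp p N V b + Real.log 2 := by
    have b1 : CH p N (fun ω => (b ω, E ω)) ≤ CH p N b :=
      CH_mono_cond hp0 (fun _ _ _ _ h => (Prod.ext_iff.mp h).1)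
    have b2 := CH_and_event hp E N (fun ω => (V ω, b ω))
    have b3 : CH p N (fun ω => ((V ω, b ω), E ω)) = CH p N (fun ω => (V ω, (b ω, E ω))) := by
      refine CH_congr hp0 ?_ ?_ ?_ ?_ <;>
      · intro ω ω' _ _ h
        simp only [Prod.mk.injEq] at h ⊢
        tauto
    unfold dp
    linarith
  have a2 : dp p N V (fun ω => (b ω, E ω)) =
      ∑ j ∈ univ.image E, law p E j * dp (cond p E j) N V b := by
    have b3 : CH p N (fun ω => (V ω, (b ω, E ω))) = CH p N (fun ω => ((V ω, b ω), E ω)) := by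
      refine CH_congr hp0 ?_ ?_ ?_ ?_ <;>
      · intro ω ω' _ _ h
        simp only [Prod.mk.injEq] at h ⊢
        tauto
    unfold dp
    rw [b3, CH_split hp0, CH_split hp0, ← Finset.sum_sub_distrib]
    exact Finset.sum_congr rfl fun j _ => by ring
  refine le_trans ?_ a1
  rw [a2]
  by_cases hm : True ∈ univ.image E
  · exact Finset.single_le_sum (f := fun j => law p E j * dp (cond p E j) N V b)
      (fun j _ => mul_nonneg (law_nonneg hp0 _ _) (dp_nonneg (cond_nonneg hp0 _ _) _ _ _)) hm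
  · rw [law_eq_zero_of_notMem p E hm, zero_mul]
    exact Finset.sum_nonneg fun j _ => mul_nonneg (law_nonneg hp0 _ _)
      (dp_nonneg (cond_nonneg hp0 _ _) _ _ _)

/-- The same with a bound from below for the probability. -/
theorem dp_event' (hp : IsLaw p) {E : Ω → Prop} {ϖ : ℝ} (hϖ : 0 < ϖ) (hE : ϖ ≤ Pe p E)
    (N : Ω → S) (V : Ω → T) (b : Ω → β) :
    dp (cond p E True) N V b ≤ (dp p N V b + Real.log 2) / ϖ := by
  have h1 := dp_event hp E N V b
  have h2 : 0 ≤ dp (cond p E True) N V b := dp_nonneg (cond_nonneg hp.nonneg _ _) _ _ _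
  rw [le_div_iff₀ hϖ]
  have h3 : ϖ ≤ law p E True := hE
  nlinarith

end abs

end Pool.S6U
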