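import Pool.Agent.H10.S6U.Chn

/-!
# The local U-step: the data of theorem OC in a context

The label `F.lbr w c M r` is the natural box `(w, c + r)` in the frame `M`. The line data of the
block of length `X` are the fractions `F.mu`, `F.md` in the box at `r = 0`, rounded to `X` digits,
and moved to the box at `r`: `rd X r x`.
-/

set_option autoImplicit false

namespace Pool.S6U

open Finset Real
open Pool.Agent.H49.Ent Pool.Agent.H32.Dense Pool.STK Pool.KA Pool.KSAT Pool.K2S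

variable {m J : ℕ}

/-! ### Rounding -/

/-- The number rounded to `X` digits, seen after `r` digits. -/
noncomputable def rd (X r : ℕ) (x : ℝ) : ℝ := Int.fract ((⌊(2 : ℝ) ^ X * x⌋ : ℝ) / 2 ^ (X - r))

theorem fl_div {X r : ℕ} (h : r ≤ X) (x : ℝ) :
    ⌊((⌊(2 : ℝ) ^ X * x⌋ : ℤ) : ℝ) / 2 ^ (X - r)⌋ = ⌊(2 : ℝ) ^ r * x⌋ := by
  have h1 : (((⌊(2 : ℝ) ^ X * x⌋ : ℤ) : ℝ) / 2 ^ (X - r)) =
      ((⌊(2 : ℝ) ^ X * x⌋ : ℤ) : ℝ) / ((2 ^ (X - r) : ℕ) : ℝ) := by push_cast; rfl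
  rw [h1, Int.floor_div_natCast, Int.floor_intCast]
  have := Uni.floor_row h x
  exact_mod_cast this

theorem rd_mem (X r : ℕ) (x : ℝ) : 0 ≤ rd X r x ∧ rd X r x < 1 :=
  ⟨Int.fract_nonneg _, Int.fract_lt_one _⟩

/-- The rounded number after `r` digits from the rounded number. -/
theorem rd_eq {X r : ℕ} (h : r ≤ X) (x : ℝ) (hx : 0 ≤ x ∧ x < 1) :
    rd X r x = 2 ^ r * rd X 0 x - ⌊(2 : ℝ) ^ r * x⌋ := by
  have h0 : rd X 0 x = (⌊(2 : ℝ) ^ X * x⌋ : ℝ) / 2 ^ X := by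
    have h1 := fl_div (X := X) (r := 0) (Nat.zero_le _) x
    rw [pow_zero, one_mul, Int.floor_eq_zero_iff.2 ⟨hx.1, hx.2⟩] at h1
    unfold rd Int.fract
    rw [h1]
    simp
  rw [h0]
  unfold rd Int.fract
  rw [fl_div h]
  have e : (2 : ℝ) ^ X = 2 ^ r * 2 ^ (X - r) := by
    rw [← pow_add]
    congr 1
    omega
  rw [e]
  field_simp

/-- The digits of the rounded number. -/
theorem fl_rd {X r X' : ℕ} (h : r + X' ≤ X) (x : ℝ) :
    ⌊(2 : ℝ) ^ X' * rd X r x⌋ = ⌊(2 : ℝ) ^ X' * Int.fract (2 ^ r * x)⌋ := by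
  unfold rd
  rw [Lab.floor_fract, Lab.floor_fract, fl_div (by omega)]
  have e1 : (2 : ℝ) ^ X' * ((⌊(2 : ℝ) ^ X * x⌋ : ℝ) / 2 ^ (X - r)) =
      (⌊(2 : ℝ) ^ X * x⌋ : ℝ) / 2 ^ (X - (r + X')) := by
    have e : (2 : ℝ) ^ (X - r) = 2 ^ X' * 2 ^ (X - (r + X')) := by
      rw [← pow_add]
      congr 1
      omega
    rw [e]
    field_simp
  have e2 : (2 : ℝ) ^ X' * (2 ^ r * x) = 2 ^ (r + X') * x := by rw [pow_add]; ring
  rw [e1, e2, fl_div h]

/-- The rounded number is near the number. -/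
theorem rd_near {X r : ℕ} (h : r ≤ X) (x : ℝ) :
    |rd X r x - Int.fract (2 ^ r * x)| ≤ 1 / 2 ^ (X - r) := by
  unfold rd Int.fract
  rw [fl_div h]
  have e : (2 : ℝ) ^ X = 2 ^ r * 2 ^ (X - r) := by
    rw [← pow_add]
    congr 1
    omega
  have h1 := Int.floor_le ((2 : ℝ) ^ X * x)
  have h2 := Int.lt_floor_add_one ((2 : ℝ) ^ X * x)
  have e3 : (⌊(2 : ℝ) ^ X * x⌋ : ℝ) / 2 ^ (X - r) - ⌊(2 : ℝ) ^ r * x⌋ -
      (2 ^ r * x - ⌊(2 : ℝ) ^ r * x⌋) =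
      ((⌊(2 : ℝ) ^ X * x⌋ : ℝ) - 2 ^ X * x) / 2 ^ (X - r) := by
    rw [e]
    field_simp
    ring
  rw [e3, abs_div, abs_of_pos (by positivity : (0 : ℝ) < 2 ^ (X - r))]
  refine div_le_div_of_nonneg_right ?_ (by positivity)
  rw [abs_le]
  constructor <;> linarith

/-- The fraction after `r` digits of the fraction. -/
theorem fract_fract (k r : ℕ) (x : ℝ) :
    Int.fract ((2 : ℝ) ^ r * Int.fract (2 ^ k * x)) = Int.fract ((2 : ℝ) ^ (k + r) * x) := by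
  have e : (2 : ℝ) ^ r * Int.fract (2 ^ k * x) =
      2 ^ (k + r) * x - ((2 ^ r * ⌊(2 : ℝ) ^ k * x⌋ : ℤ) : ℝ) := by
    unfold Int.fract
    push_cast
    rw [pow_add]
    ring
  rw [e, Int.fract_sub_intCast]

/-! ### The labels -/

/-- The natural box `(w, c + r)`. -/
noncomputable def _root_.Pool.KA.Fam.lbr (F : Fam m J) (w : ℕ) (c : Fin m → ℕ)
    (M : F.Ω → Fin m → Fin m → ℝ) (r : ℕ) := F.blb w (fun i => c i + r) M

section lab

variable {F : Fam m J} {w : ℕ} {c : Fin m → ℕ} {M : F.Ω → Fin m → Fin m → ℝ} {r s X : ℕ}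
  {ω ω' : F.Ω}

theorem cell_mono {k j : ℕ} {x y : ℝ} (h : ⌊(2 : ℝ) ^ (k + j) * x⌋ = ⌊(2 : ℝ) ^ (k + j) * y⌋) :
    ⌊(2 : ℝ) ^ k * x⌋ = ⌊(2 : ℝ) ^ k * y⌋ := by
  have h1 := Uni.floor_row (X := k + j) (r := k) (by omega) x
  have h2 := Uni.floor_row (X := k + j) (r := k) (by omega) y
  rw [← h1, ← h2, h]

/-- The coarser label is a function of the finer one. -/
theorem lbr_mono (h : r ≤ s) (he : F.lbr w c M s ω = F.lbr w c M s ω') :
    F.lbr w c M r ω = F.lbr w c M r ω' := by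
  obtain ⟨j, rfl⟩ := Nat.exists_eq_add_of_le h
  obtain ⟨h1, h2, h3, h4, h5⟩ := Box.mlb_ext he
  refine Box.mlb_mk h1 h2 ?_ ?_ h5
  · funext i
    have := congrFun h3 i
    refine cell_mono (j := j) ?_
    have e : c i + r + w + j = c i + (r + j) + w := by ring
    rw [e]
    exact this
  · funext i
    have := congrFun h4 i
    refine cell_mono (j := j) ?_
    have e : c i + r + j = c i + (r + j) := by ring
    rw [e]
    exact this

/-- The digits of the fractions. -/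
theorem lbr_dig (h : r ≤ X) (he : F.lbr w c M X ω = F.lbr w c M X ω') (i : Fin m) :
    ⌊(2 : ℝ) ^ r * F.mu w (fun i => c i + w) M ω i⌋ =
      ⌊(2 : ℝ) ^ r * F.mu w (fun i => c i + w) M ω' i⌋ ∧
    ⌊(2 : ℝ) ^ r * F.md c M ω i⌋ = ⌊(2 : ℝ) ^ r * F.md c M ω' i⌋ := by
  have h0 := lbr_mono (Nat.zero_le _) he
  have hr := lbr_mono h he
  refine Box.digits_det (k := fun i => c i + w) (c := c) ?_ ?_ i
  · exact h0
  · have e : (fun i => c i + w + r) = fun i => c i + r + w := by funext i; ring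
    rw [e]
    exact hr

/-- The fractions at `r`. -/
theorem mu_lbr (i : Fin m) : F.mu w (fun i => c i + r + w) M ω i =
    Int.fract (2 ^ r * F.mu w (fun i => c i + w) M ω i) := by
  unfold Fam.mu
  rw [fract_fract]
  congr 3
  ring

theorem md_lbr (i : Fin m) : F.md (fun i => c i + r) M ω i =
    Int.fract (2 ^ r * F.md c M ω i) := by
  unfold Fam.md
  rw [fract_fract]

end lab

/-! ### The data -/

section dat

variable (F : Fam m J) (w : ℕ) (c : Fin m → ℕ) (M : F.Ω → Fin m → Fin m → ℝ) (X r : ℕ)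

/-- The rounded position. -/
noncomputable def rmu (i : Fin m) (ω : F.Ω) : ℝ := rd X r (F.mu w (fun i => c i + w) M ω i)

/-- The rounded velocity. -/
noncomputable def rmd (i : Fin m) (ω : F.Ω) : ℝ := rd X r (F.md c M ω i)

/-- The row of the rounded line. -/
noncomputable def rnu (i₀ iu : Fin m) (S : F.Ω → ℝ) (ω : F.Ω) : ℝ :=
  rmu F w c M X r iu ω + F.wt w ω * rmd F c M X r iu ω -
    S ω * (rmu F w c M X r i₀ ω + F.wt w ω * rmd F c M X r i₀ ω)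

/-- The row of the line. -/
noncomputable def tnu (i₀ iu : Fin m) (S : F.Ω → ℝ) (ω : F.Ω) : ℝ :=
  F.mx w c M ω iu - S ω * F.mx w c M ω i₀

variable {F w c M X r}

theorem wt_det {ω ω' : F.Ω} (h : F.T ω = F.T ω') : F.wt w ω = F.wt w ω' := by
  unfold Fam.wt
  rw [h]

/-- **The dictionary.** -/
theorem ocdata {Θ : Type} {p : F.Ω → ℝ} (hp : IsLaw p) (i₀ iu : Fin m)
    {T : F.Ω → Θ} (hT : Det p T F.T) {S : F.Ω → ℝ}
    (hS : Det p (fun ω => (F.lbr w c M r ω, T ω)) S) (hS4 : ∀ ω, 0 < p ω → |S ω| ≤ 4) :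
    OCData p (F.lbr w c M r) (F.lbr w c M X) T (rmu F w c M X r i₀) (rmd F c M X r i₀)
      (rmd F c M X r iu) (rmu F w c M X r iu) (F.wt w) S (rnu F w c M X r i₀ iu S) := by
  refine ⟨hp, ?_, ?_, ?_, ?_, ?_, hS, fun _ _ => rd_mem _ _ _, fun _ _ => rd_mem _ _ _,
    fun _ _ => rd_mem _ _ _, fun ω _ => Lab.wt_mem F w ω, hS4, fun _ _ => rfl⟩
  · intro ω ω' _ _ e
    have h := (lbr_dig le_rfl (Prod.ext_iff.mp e).2 i₀).1
    unfold rmu rd
    rw [h]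
  · intro ω ω' _ _ e
    have h := (lbr_dig le_rfl (Prod.ext_iff.mp e).2 i₀).2
    unfold rmd rd
    rw [h]
  · intro ω ω' _ _ e
    have h := (lbr_dig le_rfl (Prod.ext_iff.mp e).2 iu).2
    unfold rmd rd
    rw [h]
  · intro ω ω' _ _ e
    have h := (lbr_dig le_rfl (Prod.ext_iff.mp e).2 iu).1
    unfold rmu rd
    rw [h]
  · intro ω ω' hω hω' e
    exact wt_det (hT ω ω' hω hω' (Prod.ext_iff.mp e).2)

/-- **The link** between the rows. -/
theorem oclink {Θ : Type} {p : F.Ω → ℝ} (i₀ iu : Fin m) {T : F.Ω → Θ} (hT : Det p T F.T)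
    {S : F.Ω → ℝ} (hS : Det p (fun ω => (F.lbr w c M r ω, T ω)) S) (hr : r ≤ X) :
    ∃ κ : F.Ω → ℝ, Det p (fun ω => (F.lbr w c M r ω, T ω)) κ ∧
      ∀ ω, 0 < p ω → |2 ^ r * rnu F w c M X 0 i₀ iu S ω - rnu F w c M X r i₀ iu S ω - κ ω| *
        2 ^ (X - r) ≤ 0 := by
  refine ⟨fun ω => ⌊(2 : ℝ) ^ r * F.mu w (fun i => c i + w) M ω iu⌋ +
    F.wt w ω * ⌊(2 : ℝ) ^ r * F.md c M ω iu⌋ -
    S ω * (⌊(2 : ℝ) ^ r * F.mu w (fun i => c i + w) M ω i₀⌋ +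
      F.wt w ω * ⌊(2 : ℝ) ^ r * F.md c M ω i₀⌋), ?_, ?_⟩
  · intro ω ω' hω hω' e
    have e1 := (Prod.ext_iff.mp e).1
    have e2 : F.T ω = F.T ω' := hT ω ω' hω hω' (Prod.ext_iff.mp e).2
    have e3 : S ω = S ω' := hS ω ω' hω hω' e
    have e4 := lbr_dig le_rfl e1 iu
    have e5 := lbr_dig le_rfl e1 i₀
    have e6 : F.wt w ω = F.wt w ω' := wt_det e2
    simp only
    rw [e3, e4.1, e4.2, e5.1, e5.2, e6]
  · intro ω _
    have a1 := rd_eq hr (F.mu w (fun i => c i + w) M ω iu) (Box.mu_mem F w _ M ω iu)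
    have a2 := rd_eq hr (F.mu w (fun i => c i + w) M ω i₀) (Box.mu_mem F w _ M ω i₀)
    have a3 := rd_eq hr (F.md c M ω iu) (Box.md_mem F c M ω iu)
    have a4 := rd_eq hr (F.md c M ω i₀) (Box.md_mem F c M ω i₀)
    have e : 2 ^ r * rnu F w c M X 0 i₀ iu S ω - rnu F w c M X r i₀ iu S ω -
        (⌊(2 : ℝ) ^ r * F.mu w (fun i => c i + w) M ω iu⌋ +
        F.wt w ω * ⌊(2 : ℝ) ^ r * F.md c M ω iu⌋ -
        S ω * (⌊(2 : ℝ) ^ r * F.mu w (fun i => c i + w) M ω i₀⌋ +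
        F.wt w ω * ⌊(2 : ℝ) ^ r * F.md c M ω i₀⌋)) = 0 := by
      unfold rnu rmu rmd
      rw [a1, a2, a3, a4]
      ring
    rw [e]
    simp

/-- The rounded row is near the row. -/
theorem rnu_near {S : F.Ω → ℝ} {i₀ iu : Fin m} (hr : r ≤ X) {ω : F.Ω} (hS4 : |S ω| ≤ 4) :
    |rnu F w c M X r i₀ iu S ω - tnu F w (fun i => c i + r) M i₀ iu S ω| ≤ 10 / 2 ^ (X - r) := by
  have a1 := rd_near hr (F.mu w (fun i => c i + w) M ω iu)
  have a2 := rd_near hr (F.mu w (fun i => c i + w) M ω i₀)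
  have a3 := rd_near hr (F.md c M ω iu)
  have a4 := rd_near hr (F.md c M ω i₀)
  have t0 := Lab.wt_mem F w ω
  unfold rnu tnu Fam.mx rmu rmd
  rw [mu_lbr, mu_lbr, md_lbr, md_lbr]
  obtain ⟨E, hE⟩ : ∃ E : ℝ, E = 1 / 2 ^ (X - r) := ⟨_, rfl⟩
  have hE0 : 0 ≤ E := by rw [hE]; positivity
  have e10 : (10 : ℝ) / 2 ^ (X - r) = 10 * E := by rw [hE]; ring
  rw [← hE] at a1 a2 a3 a4
  rw [e10]
  generalize rd X r (F.mu w (fun i => c i + w) M ω iu) = A1 at a1 ⊢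
  generalize rd X r (F.mu w (fun i => c i + w) M ω i₀) = A2 at a2 ⊢
  generalize rd X r (F.md c M ω iu) = A3 at a3 ⊢
  generalize rd X r (F.md c M ω i₀) = A4 at a4 ⊢
  generalize Int.fract (2 ^ r * F.mu w (fun i => c i + w) M ω iu) = B1 at a1 ⊢
  generalize Int.fract (2 ^ r * F.mu w (fun i => c i + w) M ω i₀) = B2 at a2 ⊢
  generalize Int.fract (2 ^ r * F.md c M ω iu) = B3 at a3 ⊢
  generalize Int.fract (2 ^ r * F.md c M ω i₀) = B4 at a4 ⊢
  generalize F.wt w ω = t at t0 ⊢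
  have e : A1 + t * A3 - S ω * (A2 + t * A4) - (B1 + t * B3 - S ω * (B2 + t * B4)) =
      (A1 - B1) + t * (A3 - B3) - S ω * ((A2 - B2) + t * (A4 - B4)) := by ring
  rw [e]
  have k1 : |t * (A3 - B3)| ≤ E := by
    rw [abs_mul, abs_of_nonneg t0.1]
    nlinarith [abs_nonneg (A3 - B3), t0.1, t0.2]
  have k2 : |t * (A4 - B4)| ≤ E := by
    rw [abs_mul, abs_of_nonneg t0.1]
    nlinarith [abs_nonneg (A4 - B4), t0.1, t0.2]
  have k3 : |(A2 - B2) + t * (A4 - B4)| ≤ 2 * E := (abs_add_le _ _).trans (by linarith)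
  have k4 : |S ω * ((A2 - B2) + t * (A4 - B4))| ≤ 4 * (2 * E) := by
    rw [abs_mul]
    exact mul_le_mul hS4 k3 (abs_nonneg _) (by norm_num)
  have k5 : |(A1 - B1) + t * (A3 - B3)| ≤ 2 * E := (abs_add_le _ _).trans (by linarith)
  refine (abs_sub _ _).trans ?_
  linarith

/-- The range of the row. -/
theorem tnu_mem {S : F.Ω → ℝ} {i₀ iu : Fin m} {ω : F.Ω} (hS4 : |S ω| ≤ 4) :
    |tnu F w c M i₀ iu S ω| ≤ 10 := by
  have a1 := Box.mu_mem F w (fun i => c i + w) M ω iu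
  have a2 := Box.mu_mem F w (fun i => c i + w) M ω i₀
  have a3 := Box.md_mem F c M ω iu
  have a4 := Box.md_mem F c M ω i₀
  have t0 := Lab.wt_mem F w ω
  unfold tnu Fam.mx
  generalize F.mu w (fun i => c i + w) M ω iu = B1 at a1 ⊢
  generalize F.mu w (fun i => c i + w) M ω i₀ = B2 at a2 ⊢
  generalize F.md c M ω iu = B3 at a3 ⊢
  generalize F.md c M ω i₀ = B4 at a4 ⊢
  generalize F.wt w ω = t at t0 ⊢
  have k1 : 0 ≤ t * B3 ∧ t * B3 ≤ 1 := ⟨mul_nonneg t0.1 a3.1, mul_le_one₀ t0.2.le a3.1 a3.2.le⟩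
  have k2 : 0 ≤ t * B4 ∧ t * B4 ≤ 1 := ⟨mul_nonneg t0.1 a4.1, mul_le_one₀ t0.2.le a4.1 a4.2.le⟩
  have k3 : |S ω * (B2 + t * B4)| ≤ 4 * 2 := by
    rw [abs_mul]
    refine mul_le_mul hS4 ?_ (abs_nonneg _) (by norm_num)
    rw [abs_le]
    constructor <;> linarith
  have k4 : |B1 + t * B3| ≤ 2 := by
    rw [abs_le]
    constructor <;> linarith
  refine (abs_sub _ _).trans ?_
  linarith

end dat

end Pool.S6U
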