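import Pool.Agent.H10.S6U.Sum

/-!
# The local U-step on a rectangle, `v > 0`

All contexts `(w, q)` of the rectangle except a small proportion: the block of rows of the pair
`(x_e, x_u)` is full given the context, the exact time and the frame at the exact point, and the
rows of `x_u` are full given the line data.
-/

set_option autoImplicit false

namespace Pool.S6U

open Finset Real
open Pool.Agent.H49.Ent Pool.Agent.H32.Dense Pool.STK Pool.KA Pool.KSAT Pool.K2S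

variable {J : ℕ} {F : Fam 3 J} {p : F.Ω → ℝ} {σ : Fin 3 → Fin 3} {wa wb : ℕ} {vp : ℕ → ℕ}
  {D : ℕ} {a : ℕ → F.Ω → ℝ} {s t al : F.Ω → ℝ} {κ X : ℕ}

/-- **(B)** on the rectangle. -/
theorem totB (h : Rc F p σ wa wb vp D a s t al) (hX : 0 < X) (Q : Finset ℕ) :
    ∑ q ∈ Q, ∑ w ∈ Finset.Icc wa wb, TB F p σ vp D a s t al κ X w q ≤
      Q.card * (X * (X * Real.log 2 + Real.log 7) + cst * (Finset.Icc wa wb).card) := by
  have hl2 : 0 ≤ Real.log 2 := Real.log_nonneg (by norm_num)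
  have hl7 : 0 ≤ Real.log 7 := Real.log_nonneg (by norm_num)
  have key : ∀ q ∈ Q, ∑ w ∈ Finset.Icc wa wb, TB F p σ vp D a s t al κ X w q ≤
      X * (X * Real.log 2 + Real.log 7) + cst * (Finset.Icc wa wb).card := by
    intro q _
    refine H23.sum_class (fun w => TB F p σ vp D a s t al κ X w q) (Finset.Icc wa wb) X hX
      (by positivity) ?_
    intro S' hS' hne hsep
    exact sumB h q S' (fun w hw => Finset.mem_Icc.1 (hS' hw)) hne hsep
  refine (Finset.sum_le_sum key).trans ?_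
  rw [Finset.sum_const, nsmul_eq_mul]

/-- **(M)** on the rectangle. -/
theorem totM (h : Rc F p σ wa wb vp D a s t al) (hX : 0 < X) (Q : Finset ℕ) :
    ∑ w ∈ Finset.Icc wa wb, ∑ q ∈ Q, TM F p σ vp D a s t al κ X w q ≤
      (Finset.Icc wa wb).card * (X * ((D - vp wa : ℕ) * Real.log 2 + Real.log 15)) := by
  have hl2 : 0 ≤ Real.log 2 := Real.log_nonneg (by norm_num)
  have hl15 : 0 ≤ Real.log 15 := Real.log_nonneg (by norm_num)
  have key : ∀ w ∈ Finset.Icc wa wb, ∑ q ∈ Q, TM F p σ vp D a s t al κ X w q ≤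
      X * ((D - vp wa : ℕ) * Real.log 2 + Real.log 15) := by
    intro w hw
    obtain ⟨h1, h2⟩ := Finset.mem_Icc.1 hw
    have k1 := H23.sum_class (fun q => TM F p σ vp D a s t al κ X w q) Q X hX
      (B := (D - vp w : ℕ) * Real.log 2 + Real.log 15) (C := 0) (by positivity) (by
        intro S' _ hne hsep
        exact sumM h h1 h2 S' hne hsep)
    refine k1.trans ?_
    rw [zero_mul, add_zero]
    refine mul_le_mul_of_nonneg_left ?_ (Nat.cast_nonneg _)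
    have k2 := h.mono wa w le_rfl h1 h2
    have k3 : ((D - vp w : ℕ) : ℝ) ≤ (D - vp wa : ℕ) := by
      have : D - vp w ≤ D - vp wa := by omega
      exact_mod_cast this
    have := mul_le_mul_of_nonneg_right k3 hl2
    linarith only [this]
  refine (Finset.sum_le_sum key).trans ?_
  rw [Finset.sum_const, nsmul_eq_mul]

/-- **(A)** on the rectangle. -/
theorem totA (h : Rc F p σ wa wb vp D a s t al) {tt qa qb : ℕ} (hX0 : 0 < X) (hX : X ≤ tt)
    (ht : ∀ w w', wa ≤ w → w + tt ≤ w' → w' ≤ wb → vp w + X ≤ vp w') :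
    ∑ x ∈ Finset.Icc wa wb ×ˢ Finset.Ico qa qb, TA F p σ vp D a s t al κ X x.1 x.2 ≤
      (Finset.Ico (wa + vp wa + qa) (wb + vp wb + qb)).card *
        (tt * (X * Real.log 2 + Real.log 70)) +
      (cst + Real.log 5) * (Finset.Icc wa wb ×ˢ Finset.Ico qa qb).card := by
  classical
  have hl2 : 0 ≤ Real.log 2 := Real.log_nonneg (by norm_num)
  have hl70 : 0 ≤ Real.log 70 := Real.log_nonneg (by norm_num)
  obtain ⟨R, hR⟩ : ∃ R, R = Finset.Ico (wa + vp wa + qa) (wb + vp wb + qb) := ⟨_, rfl⟩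
  obtain ⟨P, hP⟩ : ∃ P, P = Finset.Icc wa wb ×ˢ Finset.Ico qa qb := ⟨_, rfl⟩
  rw [← hR, ← hP]
  have hPm : ∀ x ∈ P, wa ≤ x.1 ∧ x.1 ≤ wb ∧ qa ≤ x.2 ∧ x.2 < qb := by
    intro x hx
    rw [hP, Finset.mem_product, Finset.mem_Icc, Finset.mem_Ico] at hx
    exact ⟨hx.1.1, hx.1.2, hx.2.1, hx.2.2⟩
  have hmap : ∀ x ∈ P, x.1 + vp x.1 + x.2 ∈ R := by
    intro x hx
    obtain ⟨h1, h2, h3, h4⟩ := hPm x hx
    have h5 := h.mono wa x.1 le_rfl h1 h2
    have h6 := h.mono x.1 wb h1 h2 le_rfl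
    rw [hR, Finset.mem_Ico]
    omega
  rw [← Finset.sum_fiberwise_of_maps_to hmap]
  -- one row
  have one : ∀ U ∈ R, ∑ x ∈ P.filter (fun x => x.1 + vp x.1 + x.2 = U),
      TA F p σ vp D a s t al κ X x.1 x.2 ≤ tt * (X * Real.log 2 + Real.log 70) +
        (cst + Real.log 5) * (P.filter (fun x => x.1 + vp x.1 + x.2 = U)).card := by
    intro U _
    obtain ⟨WU, hWU⟩ : ∃ WU, WU = (P.filter (fun x => x.1 + vp x.1 + x.2 = U)).image
      (fun x => x.1) := ⟨_, rfl⟩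
    have hinj : ∀ x ∈ P.filter (fun x => x.1 + vp x.1 + x.2 = U),
        ∀ y ∈ P.filter (fun x => x.1 + vp x.1 + x.2 = U), x.1 = y.1 → x = y := by
      intro x hx y hy hxy
      have h1 := (Finset.mem_filter.1 hx).2
      have h2 := (Finset.mem_filter.1 hy).2
      rw [hxy] at h1
      exact Prod.ext hxy (by omega)
    have hcard : WU.card = (P.filter (fun x => x.1 + vp x.1 + x.2 = U)).card := by
      rw [hWU, Finset.card_image_of_injOn]
      intro x hx y hy hxy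
      exact hinj x hx y hy hxy
    have hsum : ∑ x ∈ P.filter (fun x => x.1 + vp x.1 + x.2 = U),
        TA F p σ vp D a s t al κ X x.1 x.2 =
        ∑ w ∈ WU, TA F p σ vp D a s t al κ X w (U - (w + vp w)) := by
      rw [hWU, Finset.sum_image (fun x hx y hy hxy => hinj x hx y hy hxy)]
      refine Finset.sum_congr rfl fun x hx => ?_
      have h1 := (Finset.mem_filter.1 hx).2
      have h2 : U - (x.1 + vp x.1) = x.2 := by omega
      rw [h2]
    rw [hsum, ← hcard]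
    refine H23.sum_class (fun w => TA F p σ vp D a s t al κ X w (U - (w + vp w))) WU tt
      (by omega) (by positivity) ?_
    intro S' hS' hne hsep
    refine sumA h (fun w => U - (w + vp w)) S' (fun w hw => ?_) hne hX ht hsep (U := U)
    have h1 := hS' hw
    rw [hWU, Finset.mem_image] at h1
    obtain ⟨x, hx, rfl⟩ := h1
    have h2 := Finset.mem_filter.1 hx
    obtain ⟨h3, h4, h5, h6⟩ := hPm x h2.1
    refine ⟨h3, h4, ?_⟩
    have := h2.2
    omega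
  refine (Finset.sum_le_sum one).trans ?_
  rw [Finset.sum_add_distrib, Finset.sum_const, nsmul_eq_mul, ← Finset.mul_sum, ← Nat.cast_sum,
    ← Finset.card_eq_sum_card_fiberwise hmap]

/-- The contexts in which one of the dependences is large. -/
theorem card_bad (h : Rc F p σ wa wb vp D a s t al) {tt qa qb : ℕ} (hX0 : 0 < X) (hX : X ≤ tt)
    (ht : ∀ w w', wa ≤ w → w + tt ≤ w' → w' ≤ wb → vp w + X ≤ vp w') {δ : ℝ} (_hδ : 0 ≤ δ)
    (B : Finset (ℕ × ℕ)) (hB : B ⊆ Finset.Icc wa wb ×ˢ Finset.Ico qa qb)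
    (hbad : ∀ x ∈ B, ¬ (TA F p σ vp D a s t al κ X x.1 x.2 ≤ δ * X ∧
      TB F p σ vp D a s t al κ X x.1 x.2 ≤ δ * X ∧
      TM F p σ vp D a s t al κ X x.1 x.2 ≤ δ * X)) :
    B.card * (δ * X) ≤
      (Finset.Ico (wa + vp wa + qa) (wb + vp wb + qb)).card *
        (tt * (X * Real.log 2 + Real.log 70)) +
      (cst + Real.log 5) * ((Finset.Icc wa wb).card * (Finset.Ico qa qb).card) +
      (Finset.Ico qa qb).card *
        (X * (X * Real.log 2 + Real.log 7) + cst * (Finset.Icc wa wb).card) +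
      (Finset.Icc wa wb).card * (X * ((D - vp wa : ℕ) * Real.log 2 + Real.log 15)) := by
  classical
  have hp := h.law
  have a1 := totA (κ := κ) (qa := qa) (qb := qb) h hX0 hX ht
  have a2 := totB (κ := κ) h hX0 (Finset.Ico qa qb)
  have a3 := totM (κ := κ) h hX0 (Finset.Ico qa qb)
  rw [Finset.sum_comm] at a2
  rw [← Finset.sum_product'] at a2 a3
  rw [Finset.card_product] at a1
  push_cast at a1
  have b1 : ∑ x ∈ B, (TA F p σ vp D a s t al κ X x.1 x.2 + TB F p σ vp D a s t al κ X x.1 x.2 +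
      TM F p σ vp D a s t al κ X x.1 x.2) ≤
      ∑ x ∈ Finset.Icc wa wb ×ˢ Finset.Ico qa qb, (TA F p σ vp D a s t al κ X x.1 x.2 +
        TB F p σ vp D a s t al κ X x.1 x.2 + TM F p σ vp D a s t al κ X x.1 x.2) := by
    refine Finset.sum_le_sum_of_subset_of_nonneg hB fun x _ _ => ?_
    have c1 := TA_nonneg (σ := σ) (vp := vp) (D := D) (a := a) (s := s) (t := t) (al := al)
      (κ := κ) (X := X) hp x.1 x.2
    have c2 := TB_nonneg (σ := σ) (vp := vp) (D := D) (a := a) (s := s) (t := t) (al := al)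
      (κ := κ) (X := X) hp x.1 x.2
    have c3 := TM_nonneg (σ := σ) (vp := vp) (D := D) (a := a) (s := s) (t := t) (al := al)
      (κ := κ) (X := X) hp x.1 x.2
    linarith only [c1, c2, c3]
  have b2 : (B.card : ℝ) * (δ * X) ≤ ∑ x ∈ B, (TA F p σ vp D a s t al κ X x.1 x.2 +
      TB F p σ vp D a s t al κ X x.1 x.2 + TM F p σ vp D a s t al κ X x.1 x.2) := by
    rw [← nsmul_eq_mul, ← Finset.sum_const]
    refine Finset.sum_le_sum fun x hx => ?_
    have c1 := TA_nonneg (σ := σ) (vp := vp) (D := D) (a := a) (s := s) (t := t) (al := al)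
      (κ := κ) (X := X) hp x.1 x.2
    have c2 := TB_nonneg (σ := σ) (vp := vp) (D := D) (a := a) (s := s) (t := t) (al := al)
      (κ := κ) (X := X) hp x.1 x.2
    have c3 := TM_nonneg (σ := σ) (vp := vp) (D := D) (a := a) (s := s) (t := t) (al := al)
      (κ := κ) (X := X) hp x.1 x.2
    by_contra hcon
    have hcon := not_le.1 hcon
    exact hbad x hx ⟨by linarith, by linarith, by linarith⟩
  have b3 : ∑ x ∈ Finset.Icc wa wb ×ˢ Finset.Ico qa qb, (TA F p σ vp D a s t al κ X x.1 x.2 +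
      TB F p σ vp D a s t al κ X x.1 x.2 + TM F p σ vp D a s t al κ X x.1 x.2) =
      ∑ x ∈ Finset.Icc wa wb ×ˢ Finset.Ico qa qb, TA F p σ vp D a s t al κ X x.1 x.2 +
      ∑ x ∈ Finset.Icc wa wb ×ˢ Finset.Ico qa qb, TB F p σ vp D a s t al κ X x.1 x.2 +
      ∑ x ∈ Finset.Icc wa wb ×ˢ Finset.Ico qa qb, TM F p σ vp D a s t al κ X x.1 x.2 := by
    rw [Finset.sum_add_distrib, Finset.sum_add_distrib]
  linarith only [a2, a3, a1, b1, b2, b3]

/-- The arithmetic of the counting. -/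
theorem arith {n nU nQ nQ' nW X tt Dv u l70 l7 l5 l15 C γ δ ρ bad : ℝ} (hn : 1 ≤ n) (hu : 0 < u)
    (hX : 0 < X) (hnW : 0 ≤ nW) (hnQ' : 0 ≤ nQ') (hγ : 0 < γ) (hγ1 : γ ≤ 1) (hC : 0 ≤ C)
    (hl5 : 0 ≤ l5) (ht : tt ≤ γ * nW) (hXt : X ≤ tt) (hXQ : X ≤ γ * nQ')
    (hnQ : nQ = nQ' + X) (hU : nU ≤ nQ' + nQ) (_hU0 : 0 ≤ nU) (hD : Dv ≤ γ * nQ')
    (h70 : l70 ≤ u * X) (h7 : l7 ≤ u * X) (h15 : l15 ≤ u * X) (h70' : 0 ≤ l70) (h7' : 0 ≤ l7)
    (hδ : 0 < δ) (hγ2 : 28 * (n * u) * γ ≤ ρ * δ) (hbig : 2 * n * (4 * C + 2 * l5) ≤ ρ * δ * X)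
    (hb : bad * (δ * X) ≤ nU * (tt * (X * u + l70)) + (C + l5) * (nW * nQ) +
      nQ * (X * (X * u + l7) + C * nW) + nW * (X * (Dv * u + l15))) :
    n * bad ≤ ρ * (nW * nQ') := by
  have hXQ1 : X ≤ nQ' := by nlinarith only [hXQ, hnQ', hγ1]
  have hQ2 : nQ ≤ 2 * nQ' := by linarith only [hnQ, hXQ1]
  have hQ0 : 0 ≤ nQ := by linarith only [hX, hnQ, hXQ1]
  have hXu : 0 < X * u := mul_pos hX hu
  have t1 : nU * (tt * (X * u + l70)) ≤ 4 * nQ' * (γ * nW * (2 * (X * u))) := by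
    have a1 : nU ≤ 4 * nQ' := by linarith
    have a2 : tt * (X * u + l70) ≤ γ * nW * (2 * (X * u)) := by
      refine mul_le_mul ht (by linarith) (by linarith) ?_
      positivity
    exact mul_le_mul a1 a2 (mul_nonneg (by linarith) (by linarith)) (by positivity)
  have t2 : (C + l5) * (nW * nQ) ≤ (C + l5) * (nW * (2 * nQ')) :=
    mul_le_mul_of_nonneg_left (mul_le_mul_of_nonneg_left hQ2 hnW) (by linarith)
  have t3 : nQ * (X * (X * u + l7) + C * nW) ≤ 2 * nQ' * (γ * nW * (2 * (X * u)) + C * nW) := by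
    refine mul_le_mul hQ2 ?_ (add_nonneg (mul_nonneg hX.le (by linarith))
      (mul_nonneg hC hnW)) (by positivity)
    have a2 : X * (X * u + l7) ≤ γ * nW * (2 * (X * u)) :=
      mul_le_mul (hXt.trans ht) (by linarith only [h7]) (by linarith only [h7', hXu]) (by positivity)
    linarith only [a2]
  have t4 : nW * (X * (Dv * u + l15)) ≤ nW * (X * (2 * (γ * nQ') * u)) := by
    refine mul_le_mul_of_nonneg_left (mul_le_mul_of_nonneg_left ?_ hX.le) hnW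
    have a1 : Dv * u ≤ γ * nQ' * u := mul_le_mul_of_nonneg_right hD hu.le
    have a2 : u * X ≤ u * (γ * nQ') := mul_le_mul_of_nonneg_left hXQ hu.le
    linarith only [h15, a1, a2]
  have t5 : bad * (δ * X) ≤ (14 * γ * u * X + (4 * C + 2 * l5)) * (nW * nQ') := by
    have e : (14 * γ * u * X + (4 * C + 2 * l5)) * (nW * nQ') =
        4 * nQ' * (γ * nW * (2 * (X * u))) + (C + l5) * (nW * (2 * nQ')) +
        2 * nQ' * (γ * nW * (2 * (X * u)) + C * nW) + nW * (X * (2 * (γ * nQ') * u)) := by ring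
    rw [e]
    linarith only [hb, t1, t2, t3, t4]
  have hWQ : 0 ≤ nW * nQ' := mul_nonneg hnW hnQ'
  have t6 : n * (14 * γ * u * X + (4 * C + 2 * l5)) ≤ ρ * δ * X := by
    have a1 : 28 * (n * u) * γ * X ≤ ρ * δ * X := mul_le_mul_of_nonneg_right hγ2 hX.le
    have e : 2 * (n * (14 * γ * u * X + (4 * C + 2 * l5))) =
      28 * (n * u) * γ * X + 2 * n * (4 * C + 2 * l5) := by ring
    linarith only [hbig, a1]
  have t7 : n * bad * (δ * X) ≤ ρ * (nW * nQ') * (δ * X) := by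
    have a1 : n * (bad * (δ * X)) ≤ n * ((14 * γ * u * X + (4 * C + 2 * l5)) * (nW * nQ')) :=
      mul_le_mul_of_nonneg_left t5 (by linarith)
    have a2 : n * (14 * γ * u * X + (4 * C + 2 * l5)) * (nW * nQ') ≤ ρ * δ * X * (nW * nQ') :=
      mul_le_mul_of_nonneg_right t6 hWQ
    nlinarith only [a1, a2]
  exact le_of_mul_le_mul_right t7 (mul_pos hδ hX)

/-- **The U-step on a rectangle**, the time from the window `wa`. -/
theorem ue_rectW : ∀ ε ca ρ : ℝ, 0 < ε → 0 < ca → 0 < ρ → ∃ (x₁ ϖ δ ε₁ γ : ℝ) (n d₀ : ℕ),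
    0 < x₁ ∧ 0 < ϖ ∧ ϖ ≤ 1 ∧ 0 < δ ∧ 0 < ε₁ ∧ 0 < γ ∧ γ ≤ 1 ∧ 1 ≤ n ∧ 1 ≤ d₀ ∧
    ∀ {J : ℕ} (F : Fam 3 J) (p : F.Ω → ℝ) (σ : Fin 3 → Fin 3) (wa wb : ℕ) (vp : ℕ → ℕ) (D : ℕ)
      (a : ℕ → F.Ω → ℝ) (s t al : F.Ω → ℝ) (κ d tt qa qb : ℕ),
      Rc F p σ wa wb vp D a s t al → wa ≤ wb → qa ≤ qb → d₀ ≤ d → n * d ≤ tt → wb + n * d ≤ J →
      (∀ w w', wa ≤ w → w + tt ≤ w' → w' ≤ wb → vp w + n * d ≤ vp w') →
      (tt : ℝ) ≤ γ * (wb + 1 - wa : ℕ) → ((n * d : ℕ) : ℝ) ≤ γ * (qb - qa : ℕ) →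
      ((D - vp wa : ℕ) : ℝ) ≤ γ * (qb - qa : ℕ) → wb + vp wb ≤ wa + vp wa + (qb - qa) →
      (∀ E : F.Ω → Prop, ϖ ≤ Pe p E → ((J : ℝ) - wa) * Real.log 2 - δ * (n * d : ℕ) ≤
        CH (Pool.Agent.H49.Ent.cond p E True) F.T (slam F wa)) →
      (∀ w q, wa ≤ w → w ≤ wb → qa ≤ q → q < qb → ∀ E : F.Ω → Prop, ϖ ≤ Pe p E →
        Pool.KAF.Pr (dbl (Pool.Agent.H49.Ent.cond p E True)
          (F.blb w (cv (vp w) κ (q + n * d)) (frm σ (a w) s t)))
          {v | |sl (vp w) D (a w) al v.1 - sl (vp w) D (a w) al v.2| <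
            (2 : ℝ) ^ (-(x₁ * (n * d : ℕ)))} ≤ ε₁) →
      (∀ w q X', wa ≤ w → w ≤ wb → qa ≤ q → q + X' ≤ qb + n * d → 0 < X' → X' ≤ n * d → d ∣ X' →
        ∀ E : F.Ω → Prop, ϖ ≤ Pe p E →
        X' * Real.log 2 - δ * (n * d : ℕ) ≤ CH (Pool.Agent.H49.Ent.cond p E True)
          (Uni.dg X' (fun ω => F.mx w (cv (vp w) κ q) (frm σ (a w) s t) ω 0))
          (fun ω => (F.blb w (cv (vp w) κ q) (frm σ (a w) s t) ω, F.T ω)) ∧
        ca * X' * Real.log 2 ≤ CH (Pool.Agent.H49.Ent.cond p E True)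
          (Uni.dg X' (fun ω => F.md (cv (vp w) κ q) (frm σ (a w) s t) ω 0))
          (F.blb w (cv (vp w) κ q) (frm σ (a w) s t))) →
      ∃ B : Finset (ℕ × ℕ), (B.card : ℝ) ≤ ρ * ((wb + 1 - wa : ℕ) * (qb - qa : ℕ)) ∧
        ∀ w q, wa ≤ w → w ≤ wb → qa ≤ q → q < qb → (w, q) ∉ B →
          (1 - ε) * (n * d : ℕ) * Real.log 2 ≤
            CH p (Uni.dg (n * d) (tnu F w (cv (vp w) κ q) (frm σ (a w) s t) 0 1
              (sl (vp w) D (a w) al)))
              (fun ω => (vd F 0 1 w (cv (vp w) κ q) (frm σ (a w) s t) (n * d) ω,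
                cdn F w (cv (vp w) κ q) (frm σ (a w) s t) (Uni.dg D al) ω)) ∧
          (2 - ε) * (n * d : ℕ) * Real.log 2 ≤
            CH p (fun ω => (Uni.dg (n * d) (tnu F w (cv (vp w) κ q) (frm σ (a w) s t) 0 1
                (sl (vp w) D (a w) al)) ω,
              Uni.dg (n * d) (fun ω => F.mx w (cv (vp w) κ q) (frm σ (a w) s t) ω 0) ω))
              (cdn F w (cv (vp w) κ q) (frm σ (a w) s t) (Uni.dg D al)) := by
  classical
  intro ε ca ρ hε hca hρ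
  obtain ⟨x₁, ϖ, δ, ε₁, n, d₀, hx₁, hϖ, hϖ1, hδ, hε₁, hn, hd₀, hue⟩ := ue_pair ε ca hε hca
  obtain ⟨u, hu⟩ : ∃ u, u = Real.log 2 := ⟨_, rfl⟩
  have hu0 : 0 < u := by rw [hu]; exact Real.log_pos (by norm_num)
  have hn0 : (1 : ℝ) ≤ n := by exact_mod_cast hn
  obtain ⟨γ, hγ⟩ : ∃ γ, γ = min 1 (ρ * δ / (28 * (n * u))) := ⟨_, rfl⟩
  have hγ0 : 0 < γ := by rw [hγ]; exact lt_min one_pos (by positivity)
  have hγ1 : γ ≤ 1 := by rw [hγ]; exact min_le_left _ _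
  have hγ2 : 28 * (n * u) * γ ≤ ρ * δ := by
    have h1 : γ ≤ ρ * δ / (28 * (n * u)) := by rw [hγ]; exact min_le_right _ _
    rw [le_div_iff₀ (by positivity)] at h1
    linarith only [h1]
  have hl5 : 0 ≤ Real.log 5 := Real.log_nonneg (by norm_num)
  have hl7 : 0 ≤ Real.log 7 := Real.log_nonneg (by norm_num)
  have hl15 : 0 ≤ Real.log 15 := Real.log_nonneg (by norm_num)
  have hl70 : 0 ≤ Real.log 70 := Real.log_nonneg (by norm_num)
  obtain ⟨N₁, hN₁⟩ := exists_nat_ge ((Real.log 70 + Real.log 7 + Real.log 15) / u)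
  obtain ⟨N₂, hN₂⟩ := exists_nat_ge (2 * n * (4 * cst + 2 * Real.log 5) / (ρ * δ))
  refine ⟨x₁, ϖ, δ, ε₁, γ, n, d₀ + N₁ + N₂, hx₁, hϖ, hϖ1, hδ, hε₁, hγ0, hγ1, hn, by omega, ?_⟩
  intro J F p σ wa wb vp D a s t al κ d tt qa qb hR hw hq hd hX hJ htt htγ hXγ hDγ hrise hT h6 hE
  obtain ⟨X, hXe⟩ : ∃ X, X = n * d := ⟨_, rfl⟩
  rw [← hXe] at hX hJ htt hXγ hT h6 hE ⊢
  have hdX : d ≤ X := by
    rw [hXe]
    calc d = 1 * d := (one_mul d).symm
      _ ≤ n * d := Nat.mul_le_mul_right d hn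
  have hd1 : 1 ≤ d := by omega
  have hX0 : 0 < X := by omega
  have hX0r : (0 : ℝ) < X := by exact_mod_cast hX0
  have hp := hR.law
  -- bad contexts
  obtain ⟨B₀, hB₀⟩ : ∃ B₀, B₀ = (Finset.Icc wa wb ×ˢ Finset.Ico qa (qb + X)).filter
    (fun x => ¬ (TA F p σ vp D a s t al κ X x.1 x.2 ≤ δ * X ∧
      TB F p σ vp D a s t al κ X x.1 x.2 ≤ δ * X ∧
      TM F p σ vp D a s t al κ X x.1 x.2 ≤ δ * X)) := ⟨_, rfl⟩
  have hcb := card_bad (κ := κ) (δ := δ) hR hX0 hX htt hδ.le B₀ (by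
    rw [hB₀]; exact Finset.filter_subset _ _) (fun x hx => by
      rw [hB₀] at hx; exact (Finset.mem_filter.1 hx).2)
  obtain ⟨B, hB⟩ : ∃ B, B = (Finset.Icc wa wb ×ˢ Finset.Ico qa qb).filter
    (fun x => ∃ k < n, (x.1, x.2 + d * k) ∈ B₀) := ⟨_, rfl⟩
  have hBcard : (B.card : ℝ) ≤ n * B₀.card := by
    have h1 : B ⊆ (Finset.range n).biUnion fun k =>
        (Finset.Icc wa wb ×ˢ Finset.Ico qa qb).filter (fun x => (x.1, x.2 + d * k) ∈ B₀) := by
      intro x hx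
      rw [hB, Finset.mem_filter] at hx
      obtain ⟨h1, k, hk, h2⟩ := hx
      rw [Finset.mem_biUnion]
      exact ⟨k, Finset.mem_range.2 hk, Finset.mem_filter.2 ⟨h1, h2⟩⟩
    have h2 : B.card ≤ n * B₀.card := by
      refine (Finset.card_le_card h1).trans (Finset.card_biUnion_le.trans ?_)
      refine (Finset.sum_le_card_nsmul _ _ B₀.card ?_).trans (le_of_eq ?_)
      · intro k _
        refine Finset.card_le_card_of_injOn (fun x => (x.1, x.2 + d * k)) ?_ ?_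
        · intro x hx
          exact (Finset.mem_filter.1 (Finset.mem_coe.1 hx)).2
        · intro x _ y _ hxy
          have h3 := Prod.ext_iff.mp hxy
          have h4 : x.1 = y.1 := h3.1
          have h5 : x.2 + d * k = y.2 + d * k := h3.2
          exact Prod.ext h4 (by omega)
      · rw [Finset.card_range, smul_eq_mul]
    exact_mod_cast h2
  have hcW : (Finset.Icc wa wb).card = wb + 1 - wa := Nat.card_Icc _ _
  have hcQ : (Finset.Ico qa (qb + X)).card = qb + X - qa := Nat.card_Ico _ _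
  have hcU : (Finset.Ico (wa + vp wa + qa) (wb + vp wb + (qb + X))).card =
      wb + vp wb + (qb + X) - (wa + vp wa + qa) := Nat.card_Ico _ _
  rw [hcW, hcQ, hcU] at hcb
  have hN1 : Real.log 70 + Real.log 7 + Real.log 15 ≤ u * X := by
    have h1 : ((N₁ : ℕ) : ℝ) ≤ X := by
      have : N₁ ≤ X := by omega
      exact_mod_cast this
    have h2 := hN₁.trans h1
    rw [div_le_iff₀ hu0] at h2
    linarith only [h2]
  have hN2 : 2 * n * (4 * cst + 2 * Real.log 5) ≤ ρ * δ * X := by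
    have h1 : ((N₂ : ℕ) : ℝ) ≤ X := by
      have : N₂ ≤ X := by omega
      exact_mod_cast this
    have h2 := hN₂.trans h1
    rw [div_le_iff₀ (by positivity)] at h2
    linarith only [h2]
  have hfin := arith (n := n) (u := u) (X := X) (tt := tt) (l70 := Real.log 70)
    (l7 := Real.log 7) (l5 := Real.log 5) (l15 := Real.log 15) (C := cst) (γ := γ) (δ := δ)
    (ρ := ρ) (bad := B₀.card) (nW := (wb + 1 - wa : ℕ)) (nQ' := (qb - qa : ℕ))
    (nQ := (qb + X - qa : ℕ)) (nU := (wb + vp wb + (qb + X) - (wa + vp wa + qa) : ℕ))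
    (Dv := (D - vp wa : ℕ)) hn0 hu0 hX0r (Nat.cast_nonneg _) (Nat.cast_nonneg _) hγ0 hγ1
    cst_nonneg hl5 htγ (by exact_mod_cast hX) hXγ
    (by
      have : qb + X - qa = (qb - qa) + X := by omega
      rw [this]
      push_cast
      ring)
    (by
      have : wb + vp wb + (qb + X) - (wa + vp wa + qa) ≤ (qb - qa) + (qb + X - qa) := by omega
      exact_mod_cast this)
    (Nat.cast_nonneg _) hDγ (by linarith only [hl7, hl15, hN1]) (by linarith only [hl15, hl70, hN1]) (by linarith only [hl7, hl70, hN1]) hl70 hl7 hδ hγ2 hN2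
    (by rw [hu]; exact hcb)
  refine ⟨B, hBcard.trans hfin, ?_⟩
  intro w q h1 h2 h3 h4 hwq
  have hgood : ∀ k < n, TA F p σ vp D a s t al κ X w (q + d * k) ≤ δ * X ∧
      TB F p σ vp D a s t al κ X w (q + d * k) ≤ δ * X ∧
      TM F p σ vp D a s t al κ X w (q + d * k) ≤ δ * X := by
    intro k hk
    by_contra hcon
    refine hwq ?_
    rw [hB, Finset.mem_filter]
    refine ⟨Finset.mem_product.2 ⟨Finset.mem_Icc.2 ⟨h1, h2⟩, Finset.mem_Ico.2 ⟨h3, h4⟩⟩, k, hk, ?_⟩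
    rw [hB₀, Finset.mem_filter]
    refine ⟨Finset.mem_product.2 ⟨Finset.mem_Icc.2 ⟨h1, h2⟩, Finset.mem_Ico.2 ⟨by simp only; omega, ?_⟩⟩,
      hcon⟩
    simp only
    have : d * k < X := by
      rw [hXe, mul_comm n d]
      exact Nat.mul_lt_mul_of_pos_left hk hd1
    omega
  have hM : Det p (slam F w) (frm σ (a w) s t) := by
    intro ω ω' hω hω' e
    have e1 := hR.det w h1 h2 ω ω' hω hω' e
    have e2 := Prod.ext_iff.mp e1
    have e3 := Prod.ext_iff.mp e2.2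
    unfold frm
    have f1 : a w ω = a w ω' := e2.1
    have f2 : s ω = s ω' := e3.1
    have f3 : t ω = t ω' := e3.2
    rw [f1, f2, f3]
  have hS : Det p (fun ω => (F.blb w (cv (vp w) κ q) (frm σ (a w) s t) ω,
      (Uni.dg D al ω, F.T ω))) (sl (vp w) D (a w) al) := by
    intro ω ω' _ _ e
    have e1 := Prod.ext_iff.mp e
    exact Rc.det_sl hR.inj e1.1 (Prod.ext_iff.mp e1.2).1
  have key := hue F (Uni.dg D al) p 0 1 w (cv (vp w) κ q) (frm σ (a w) s t)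
    (sl (vp w) D (a w) al) d hp (by omega) (by rw [← hXe]; omega) hM hS
    (fun ω hω => hR.sl4 h1 h2 hω)
    (fun E hPE => ⟨by rw [← hXe]; exact tmw_up (ev_law hp hϖ hPE) h1 (by omega) (hT E hPE), by
      rw [← hXe]
      have := h6 w q h1 h2 h3 h4 E hPE
      unfold Fam.lbr
      rw [cv_add]
      exact this⟩)
    (fun r X' hr hX' hX'0 hrX E hPE => by
      rw [← hXe] at hrX ⊢
      have := hE w (q + r) X' h1 h2 (by omega) (by omega) hX'0 (by omega) hX' E hPE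
      refine ⟨?_, ?_⟩
      · rw [cv_add]
        unfold Fam.lbr
        rw [cv_add]
        exact this.1
      · rw [cv_add]
        unfold Fam.lbr
        rw [cv_add]
        exact this.2)
    (fun r hr hrX => by
      obtain ⟨k, rfl⟩ := hr
      rw [← hXe] at hrX ⊢
      have hk : k < n := by
        rw [hXe, mul_comm n d] at hrX
        exact lt_of_mul_lt_mul_left hrX (Nat.zero_le _)
      obtain ⟨g1, g2, g3⟩ := hgood k hk
      rw [cv_add]
      exact ⟨g1, g2, g3⟩)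
  rw [← hXe] at key
  exact key

/-- **The U-step on a rectangle.** -/
theorem ue_rect : ∀ ε ca ρ : ℝ, 0 < ε → 0 < ca → 0 < ρ → ∃ (x₁ ϖ δ ε₁ γ : ℝ) (n d₀ : ℕ),
    0 < x₁ ∧ 0 < ϖ ∧ ϖ ≤ 1 ∧ 0 < δ ∧ 0 < ε₁ ∧ 0 < γ ∧ γ ≤ 1 ∧ 1 ≤ n ∧ 1 ≤ d₀ ∧
    ∀ {J : ℕ} (F : Fam 3 J) (p : F.Ω → ℝ) (σ : Fin 3 → Fin 3) (wa wb : ℕ) (vp : ℕ → ℕ) (D : ℕ)
      (a : ℕ → F.Ω → ℝ) (s t al : F.Ω → ℝ) (κ d tt qa qb : ℕ),
      Rc F p σ wa wb vp D a s t al → wa ≤ wb → qa ≤ qb → d₀ ≤ d → n * d ≤ tt → wb + n * d ≤ J →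
      (∀ w w', wa ≤ w → w + tt ≤ w' → w' ≤ wb → vp w + n * d ≤ vp w') →
      (tt : ℝ) ≤ γ * (wb + 1 - wa : ℕ) → ((n * d : ℕ) : ℝ) ≤ γ * (qb - qa : ℕ) →
      ((D - vp wa : ℕ) : ℝ) ≤ γ * (qb - qa : ℕ) → wb + vp wb ≤ wa + vp wa + (qb - qa) →
      (∀ E : F.Ω → Prop, ϖ ≤ Pe p E → (J : ℝ) * Real.log 2 - δ * (n * d : ℕ) ≤
        CH (Pool.Agent.H49.Ent.cond p E True) F.T (fun ω => (F.l ω, F.Z ω))) →
      (∀ w q, wa ≤ w → w ≤ wb → qa ≤ q → q < qb → ∀ E : F.Ω → Prop, ϖ ≤ Pe p E →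
        Pool.KAF.Pr (dbl (Pool.Agent.H49.Ent.cond p E True)
          (F.blb w (cv (vp w) κ (q + n * d)) (frm σ (a w) s t)))
          {v | |sl (vp w) D (a w) al v.1 - sl (vp w) D (a w) al v.2| <
            (2 : ℝ) ^ (-(x₁ * (n * d : ℕ)))} ≤ ε₁) →
      (∀ w q X', wa ≤ w → w ≤ wb → qa ≤ q → q + X' ≤ qb + n * d → 0 < X' → X' ≤ n * d → d ∣ X' →
        ∀ E : F.Ω → Prop, ϖ ≤ Pe p E →
        X' * Real.log 2 - δ * (n * d : ℕ) ≤ CH (Pool.Agent.H49.Ent.cond p E True)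
          (Uni.dg X' (fun ω => F.mx w (cv (vp w) κ q) (frm σ (a w) s t) ω 0))
          (fun ω => (F.blb w (cv (vp w) κ q) (frm σ (a w) s t) ω, F.T ω)) ∧
        ca * X' * Real.log 2 ≤ CH (Pool.Agent.H49.Ent.cond p E True)
          (Uni.dg X' (fun ω => F.md (cv (vp w) κ q) (frm σ (a w) s t) ω 0))
          (F.blb w (cv (vp w) κ q) (frm σ (a w) s t))) →
      ∃ B : Finset (ℕ × ℕ), (B.card : ℝ) ≤ ρ * ((wb + 1 - wa : ℕ) * (qb - qa : ℕ)) ∧
        ∀ w q, wa ≤ w → w ≤ wb → qa ≤ q → q < qb → (w, q) ∉ B →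
          (1 - ε) * (n * d : ℕ) * Real.log 2 ≤
            CH p (Uni.dg (n * d) (tnu F w (cv (vp w) κ q) (frm σ (a w) s t) 0 1
              (sl (vp w) D (a w) al)))
              (fun ω => (vd F 0 1 w (cv (vp w) κ q) (frm σ (a w) s t) (n * d) ω,
                cdn F w (cv (vp w) κ q) (frm σ (a w) s t) (Uni.dg D al) ω)) ∧
          (2 - ε) * (n * d : ℕ) * Real.log 2 ≤
            CH p (fun ω => (Uni.dg (n * d) (tnu F w (cv (vp w) κ q) (frm σ (a w) s t) 0 1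
                (sl (vp w) D (a w) al)) ω,
              Uni.dg (n * d) (fun ω => F.mx w (cv (vp w) κ q) (frm σ (a w) s t) ω 0) ω))
              (cdn F w (cv (vp w) κ q) (frm σ (a w) s t) (Uni.dg D al)) := by
  intro ε ca ρ hε hca hρ
  obtain ⟨x₁, ϖ, δ, ε₁, γ, n, d₀, hx₁, hϖ, hϖ1, hδ, hε₁, hγ, hγ1, hn, hd₀, hue⟩ :=
    ue_rectW ε ca ρ hε hca hρ
  refine ⟨x₁, ϖ, δ, ε₁, γ, n, d₀, hx₁, hϖ, hϖ1, hδ, hε₁, hγ, hγ1, hn, hd₀, ?_⟩
  intro J F p σ wa wb vp D a s t al κ d tt qa qb hR hw hq hd hX hJ htt htγ hXγ hDγ hrise hT h6 hE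
  exact hue F p σ wa wb vp D a s t al κ d tt qa qb hR hw hq hd hX hJ htt htγ hXγ hDγ hrise
    (fun E hPE => tmw_of_tm (ev_law hR.law hϖ hPE) (by omega) (hT E hPE)) h6 hE

end Pool.S6U
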