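import Pool.Agent.H10.S6U.Main
import Pool.Agent.H23.S6E.Vdf

/-!
# The local U-step: the result in static boxes

`ald` is the slope at the exact point, rounded to `D` digits. The block of the pair of rows
`(x_e, x_u - ald x_e)` is full given the static box, the context, the rounded slope and the exact
time, in the mean over the rectangle of the contexts.
-/

set_option autoImplicit false

namespace Pool.S6U

open Finset Real
open Pool.Agent.H49.Ent Pool.Agent.H32.Dense Pool.STK Pool.KA Pool.KSAT Pool.K2S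

variable {J : ℕ}

/-- The slope rounded to `D` digits. -/
noncomputable def ald {F : Fam 3 J} (D : ℕ) (al : F.Ω → ℝ) (ω : F.Ω) : ℝ :=
  (Uni.dg D al ω : ℝ) / 2 ^ D

section out

variable {F : Fam 3 J} {p : F.Ω → ℝ} {σ : Fin 3 → Fin 3} {wa wb : ℕ} {vp : ℕ → ℕ} {D : ℕ}
  {a : ℕ → F.Ω → ℝ} {s t al : F.Ω → ℝ} {κ X w q : ℕ}

/-- The precisions of the context. -/
theorem vpr_cv (w v q κ : ℕ) : vpr w (w + q) (w + v + q) (w + q + κ) = cv v κ q := by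
  funext i
  fin_cases i
  · change w + q - w = q
    omega
  · change w + v + q - w = v + q
    omega
  · change w + q + κ - w = κ + q
    omega

/-- The context of the rectangle is helper8's context. -/
theorem ctx_eq (w q : ℕ) (b : F.Ω → ℝ) (v : ℕ) :
    F.ctx σ w (w + q) (w + v + q) (w + q + κ) b s t = F.blb w (cv v κ q) (frm σ b s t) := by
  unfold Fam.ctx
  rw [vpr_cv]
  rfl

/-- The condition of the result: the static box, the context, the rounded slope and the time. -/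
noncomputable def ocn (F : Fam 3 J) (σ : Fin 3 → Fin 3) (vp : ℕ → ℕ) (D : ℕ) (a : ℕ → F.Ω → ℝ)
    (s t al : F.Ω → ℝ) (κ w q N : ℕ) (ω : F.Ω) :=
  (F.sbx σ (w + q) (w + vp w + q) N (ald D al) s t ω,
    (F.ctx σ w (w + q) (w + vp w + q) (w + q + κ) (a w) s t ω, (Uni.dg D al ω, F.T ω)))

/-- The static box from the condition. -/
theorem Rc.CH_box {T : Type} (h : Rc F p σ wa wb vp D a s t al) (h1 : wa ≤ w) (h2 : w ≤ wb)
    {N : ℕ} (hN : N ≤ w + q + κ) (W : F.Ω → T)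
    (hW : Det p W (cdn F w (cv (vp w) κ q) (frm σ (a w) s t) (Uni.dg D al))) :
    CH p (F.sbx σ (w + q) (w + vp w + q) N (ald D al) s t) W ≤ (3 : ℕ) * Real.log 51 := by
  have hp := h.law
  have hwJ := h.wJ
  have hP : w ≤ w + q + κ := by omega
  refine (Box.CH_sbx_of_ctx (F := F) (σ := σ) (a := a w) (s := s) (t := t) (a' := ald D al)
    (s' := s) (t' := t) (w := w) (r := w + q) (U := w + vp w + q) (P := w + q + κ)
    (r' := w + q) (U' := w + vp w + q) (P' := N) (D := 4) hp (by omega) (by norm_num)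
    (by omega) (by omega) hP le_rfl le_rfl hN ?_ W ?_).trans (le_of_eq ?_)
  · intro ω hω
    have k1 := h.near w h1 h2 ω hω
    have k2 := dg_near D al ω
    have k3 := pw_le (h.vD w h1 h2) (zero_le_one (α := ℝ))
    refine ⟨?_, ?_, ?_⟩
    · have k4 : |ald D al ω - a w ω| ≤ 4 / 2 ^ vp w := by
        have e : (4 : ℝ) / 2 ^ vp w = 1 / 2 ^ vp w + 3 / 2 ^ vp w := by ring
        have e2 : ald D al ω - a w ω =
            ((Uni.dg D al ω : ℝ) / 2 ^ D - al ω) + (al ω - a w ω) := by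
          unfold ald
          ring
        rw [e, e2]
        refine (abs_add_le _ _).trans ?_
        linarith
      refine k4.trans (le_of_eq ?_)
      have e : (2 : ℝ) ^ (w + vp w + q) = 2 ^ (w + q) * 2 ^ vp w := by
        rw [← pow_add]
        congr 1
        ring
      rw [e]
      field_simp
    · simp only [sub_self, abs_zero]
      positivity
    · simp only [sub_self, zero_mul, add_zero, abs_zero]
      positivity
  · intro ω ω' hω hω' e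
    have e1 := hW ω ω' hω hω' e
    have e2 := Prod.ext_iff.mp e1
    have e3 := Prod.ext_iff.mp e2.2
    have hb : F.blb w (cv (vp w) κ q) (frm σ (a w) s t) ω =
      F.blb w (cv (vp w) κ q) (frm σ (a w) s t) ω' := e2.1
    have hf : frm σ (a w) s t ω = frm σ (a w) s t ω' := (Box.mlb_ext hb).2.1
    obtain ⟨f1, f2, f3⟩ := Box.tfr_eq h.inj hf
    refine ⟨?_, e3.2, ?_, f2, f3⟩
    · rw [ctx_eq]
      exact hb
    · have : Uni.dg D al ω = Uni.dg D al ω' := e3.1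
      unfold ald
      rw [this]
  · norm_num

/-- A label which gives the condition. -/
theorem Rc.dgl {T : Type} {x : F.Ω → ℝ} {Z : F.Ω → T} (hp : IsLaw p)
    (hx : ∀ ω ω', 0 < p ω → 0 < p ω' → Z ω = Z ω' → |2 ^ X * x ω - 2 ^ X * x ω'| ≤ 1) :
    CH p (Uni.dg X x) Z ≤ Real.log 5 := by
  have key := CH_int hp (Uni.dg X x) Z (c := 2) (by
    intro ω ω' hω hω' e
    exact (Plk.floor_sub_lt (c := 1) (hx ω ω' hω hω' e)).trans (by norm_num))
  refine key.trans (Real.log_le_log (by norm_num) (by norm_num))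

/-- The digits of the row from the finer static box. -/
theorem Rc.CH_dig1 {T : Type} (h : Rc F p σ wa wb vp D a s t al) (h2 : w ≤ wb)
    {r N : ℕ} (W : F.Ω → T)
    (hW : Det p W (cdn F w (cv (vp w) κ q) (frm σ (a w) s t) (Uni.dg D al))) :
    CH p (Uni.dg X (tnu F w (cv (vp w) κ q) (frm σ (a w) s t) 0 1
        (sl (vp w) D (a w) al)))
      (fun ω => (F.sbx σ r (w + vp w + q + X) N (ald D al) s t ω, W ω)) ≤ Real.log 5 := by
  have hp := h.law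
  have hwJ : w ≤ J := h2.trans h.wJ
  refine Rc.dgl hp ?_
  intro ω ω' hω hω' e
  have e0 := Prod.ext_iff.mp e
  have e1 := hW ω ω' hω hω' e0.2
  have e2 := Prod.ext_iff.mp e1
  have e3 := Prod.ext_iff.mp e2.2
  have hb : F.blb w (cv (vp w) κ q) (frm σ (a w) s t) ω =
    F.blb w (cv (vp w) κ q) (frm σ (a w) s t) ω' := e2.1
  have hG : Uni.dg D al ω = Uni.dg D al ω' := e3.1
  have hT : F.T ω = F.T ω' := e3.2
  have hs := e0.1
  have hf : frm σ (a w) s t ω = frm σ (a w) s t ω' := (Box.mlb_ext hb).2.1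
  obtain ⟨f1, f2, f3⟩ := Box.tfr_eq h.inj hf
  have hSS : (fun ω => Box.tsu (fun i => cv (vp w) κ q i + w) (cv (vp w) κ q 1 + w)
      ((Uni.dg D al ω : ℝ) / 2 ^ D - a w ω)) ω =
      (fun ω => Box.tsu (fun i => cv (vp w) κ q i + w) (cv (vp w) κ q 1 + w)
      ((Uni.dg D al ω : ℝ) / 2 ^ D - a w ω)) ω' := by
    simp only [hG, f1]
  have e1 := tnu_eq (F := F) (σ := σ) (a := a) (s := s) (t := t) (al := al) (w := w)
    (D := D) (c := cv (vp w) κ q) hwJ (v := vp w) rfl ω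
  have e2 := tnu_eq (F := F) (σ := σ) (a := a) (s := s) (t := t) (al := al) (w := w)
    (D := D) (c := cv (vp w) κ q) hwJ (v := vp w) rfl ω'
  have e3 := Box.mrk_det (F := F) (w := w) (c := cv (vp w) κ q) (M := frm σ (a w) s t)
    (S := fun ω => Box.tsu (fun i => cv (vp w) κ q i + w) (cv (vp w) κ q 1 + w)
      ((Uni.dg D al ω : ℝ) / 2 ^ D - a w ω)) hb hT hSS
  rw [e1, e2, ← e3]
  have n1 := Box.near_of_floor ((Vd.sbx_ext).1 hs).2.2.1
  have c1 : ∀ ω, Vd.co F σ (ald D al) s t 1 ω =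
      F.x ω (σ 1) - (Uni.dg D al ω : ℝ) / 2 ^ D * F.x ω (σ 0) := by
    intro ω
    unfold Vd.co
    rw [Box.mco_tfr1]
    rfl
  rw [c1, c1] at n1
  have e4 : ∀ z z' k : ℝ, 2 ^ X * (2 ^ (cv (vp w) κ q 1 + w) * z - k) -
      2 ^ X * (2 ^ (cv (vp w) κ q 1 + w) * z' - k) =
      2 ^ (w + vp w + q + X) * (z - z') := by
    intro z z' k
    have e5 : (2 : ℝ) ^ (w + vp w + q + X) = 2 ^ X * 2 ^ (cv (vp w) κ q 1 + w) := by
      rw [← pow_add]
      congr 1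
      change w + vp w + q + X = X + (vp w + q + w)
      ring
    rw [e5]
    ring
  rw [e4, abs_mul, abs_of_pos (by positivity : (0 : ℝ) < 2 ^ (w + vp w + q + X))]
  calc (2 : ℝ) ^ (w + vp w + q + X) * _ ≤ 2 ^ (w + vp w + q + X) *
        (1 / 2 ^ (w + vp w + q + X)) := mul_le_mul_of_nonneg_left n1 (by positivity)
    _ = 1 := by field_simp

/-- The digits of the position from the finer static box. -/
theorem Rc.CH_dig0 {T : Type} (h : Rc F p σ wa wb vp D a s t al) (h2 : w ≤ wb)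
    {U N : ℕ} (W : F.Ω → T)
    (hW : Det p W (cdn F w (cv (vp w) κ q) (frm σ (a w) s t) (Uni.dg D al))) :
    CH p (Uni.dg X (fun ω => F.mx w (cv (vp w) κ q) (frm σ (a w) s t) ω 0))
      (fun ω => (F.sbx σ (w + q + X) U N (ald D al) s t ω, W ω)) ≤ Real.log 5 := by
  have hp := h.law
  have hwJ : w ≤ J := h2.trans h.wJ
  refine Rc.dgl hp ?_
  intro ω ω' hω hω' e
  have e0 := Prod.ext_iff.mp e
  have e1 := hW ω ω' hω hω' e0.2
  have e2 := Prod.ext_iff.mp e1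
  have e3 := Prod.ext_iff.mp e2.2
  have hb : F.blb w (cv (vp w) κ q) (frm σ (a w) s t) ω =
    F.blb w (cv (vp w) κ q) (frm σ (a w) s t) ω' := e2.1
  have hT : F.T ω = F.T ω' := e3.2
  have hs := e0.1
  have g1 := Box.pos_eq F hwJ (cv (vp w) κ q) (frm σ (a w) s t) ω 0
  have g2 := Box.pos_eq F hwJ (cv (vp w) κ q) (frm σ (a w) s t) ω' 0
  have g3 := congrFun (Box.mkn_det hb hT) 0
  rw [mco0] at g1 g2
  have n1 := Box.near_of_floor ((Vd.sbx_ext).1 hs).2.1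
  have c1 : ∀ ω, Vd.co F σ (ald D al) s t 0 ω = F.x ω (σ 0) := by
    intro ω
    unfold Vd.co
    rw [Box.mco_tfr0]
  rw [c1, c1] at n1
  have e4 : 2 ^ X * F.mx w (cv (vp w) κ q) (frm σ (a w) s t) ω 0 -
      2 ^ X * F.mx w (cv (vp w) κ q) (frm σ (a w) s t) ω' 0 =
      2 ^ (w + q + X) * (F.x ω (σ 0) - F.x ω' (σ 0)) := by
    have e5 : (2 : ℝ) ^ (w + q + X) = 2 ^ X * 2 ^ (cv (vp w) κ q 0 + w) := by
      rw [← pow_add]
      congr 1
      change w + q + X = X + (q + w)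
      ring
    have e6 : F.mx w (cv (vp w) κ q) (frm σ (a w) s t) ω 0 =
        2 ^ (cv (vp w) κ q 0 + w) * F.x ω (σ 0) -
          F.mkn w (cv (vp w) κ q) (frm σ (a w) s t) ω 0 := by linarith
    have e7 : F.mx w (cv (vp w) κ q) (frm σ (a w) s t) ω' 0 =
        2 ^ (cv (vp w) κ q 0 + w) * F.x ω' (σ 0) -
          F.mkn w (cv (vp w) κ q) (frm σ (a w) s t) ω' 0 := by linarith
    rw [e5, e6, e7, g3]
    ring
  rw [e4, abs_mul, abs_of_pos (by positivity : (0 : ℝ) < 2 ^ (w + q + X))]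
  calc (2 : ℝ) ^ (w + q + X) * _ ≤ 2 ^ (w + q + X) *
        (1 / 2 ^ (w + q + X)) := mul_le_mul_of_nonneg_left n1 (by positivity)
    _ = 1 := by field_simp

/-- The conditions are equivalent. -/
theorem ocn_det {N : ℕ} {ω ω' : F.Ω}
    (h1 : F.sbx σ (w + q) (w + vp w + q) N (ald D al) s t ω =
      F.sbx σ (w + q) (w + vp w + q) N (ald D al) s t ω')
    (h2 : cdn F w (cv (vp w) κ q) (frm σ (a w) s t) (Uni.dg D al) ω =
      cdn F w (cv (vp w) κ q) (frm σ (a w) s t) (Uni.dg D al) ω') :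
    ocn F σ vp D a s t al κ w q N ω = ocn F σ vp D a s t al κ w q N ω' := by
  have e2 := Prod.ext_iff.mp h2
  have e3 := Prod.ext_iff.mp e2.2
  refine Prod.ext h1 (Prod.ext ?_ (Prod.ext e3.1 e3.2))
  show F.ctx σ w (w + q) (w + vp w + q) (w + q + κ) (a w) s t ω =
    F.ctx σ w (w + q) (w + vp w + q) (w + q + κ) (a w) s t ω'
  rw [ctx_eq]
  exact e2.1

/-- **The pair of rows in static boxes**, one context. -/
theorem Rc.out_pair (h : Rc F p σ wa wb vp D a s t al) (h1 : wa ≤ w) (h2 : w ≤ wb)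
    {N : ℕ} (hN : N ≤ w + q + κ) {e : ℝ}
    (hu : e ≤ CH p (fun ω => (Uni.dg X (tnu F w (cv (vp w) κ q) (frm σ (a w) s t) 0 1
        (sl (vp w) D (a w) al)) ω,
      Uni.dg X (fun ω => F.mx w (cv (vp w) κ q) (frm σ (a w) s t) ω 0) ω))
      (cdn F w (cv (vp w) κ q) (frm σ (a w) s t) (Uni.dg D al))) :
    e - ((3 : ℕ) * Real.log 51 + 2 * Real.log 5) ≤
      CH p (F.sbx σ (w + q + X) (w + vp w + q + X) N (ald D al) s t)
        (ocn F σ vp D a s t al κ w q N) := by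
  have hp := h.law
  have h0 := hp.nonneg
  obtain ⟨nu, hnu⟩ : ∃ nu, nu = Uni.dg X (tnu F w (cv (vp w) κ q) (frm σ (a w) s t) 0 1
    (sl (vp w) D (a w) al)) := ⟨_, rfl⟩
  obtain ⟨yt, hyt⟩ : ∃ yt, yt =
    Uni.dg X (fun ω => F.mx w (cv (vp w) κ q) (frm σ (a w) s t) ω 0) := ⟨_, rfl⟩
  obtain ⟨Z, hZ⟩ : ∃ Z, Z = cdn F w (cv (vp w) κ q) (frm σ (a w) s t) (Uni.dg D al) := ⟨_, rfl⟩
  obtain ⟨B, hB⟩ : ∃ B, B = F.sbx σ (w + q) (w + vp w + q) N (ald D al) s t := ⟨_, rfl⟩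
  obtain ⟨B', hB'⟩ : ∃ B', B' = F.sbx σ (w + q + X) (w + vp w + q + X) N (ald D al) s t :=
    ⟨_, rfl⟩
  have k1 := h.CH_box (q := q) h1 h2 hN Z (by rw [hZ]; exact fun _ _ _ _ e => e)
  have k2 := h.CH_dig1 (X := X) (κ := κ) (q := q) h2 (N := N) (r := w + q + X)
    (fun ω => (B ω, Z ω)) (by
    rw [hZ]
    exact fun _ _ _ _ e => (Prod.ext_iff.mp e).2)
  have k2' := h.CH_dig0 (X := X) (κ := κ) (q := q) h2 (N := N) (U := w + vp w + q + X)
    (fun ω => (B ω, Z ω)) (by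
    rw [hZ]
    exact fun _ _ _ _ e => (Prod.ext_iff.mp e).2)
  rw [← hnu, ← hyt, ← hZ] at hu
  rw [← hB] at k1
  rw [← hnu, ← hB'] at k2
  rw [← hyt, ← hB'] at k2'
  rw [← hB']
  have k3 := CH_le_add h0 (fun ω => (nu ω, yt ω)) B Z
  have k4 := CH_le_add h0 (fun ω => (nu ω, yt ω)) B' (fun ω => (B ω, Z ω))
  have k6 := CH_subadd h0 nu yt (fun ω => (B' ω, (B ω, Z ω)))
  have k5 : CH p B' (fun ω => (B ω, Z ω)) ≤ CH p B' (ocn F σ vp D a s t al κ w q N) := by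
    refine CH_mono_cond h0 ?_
    intro ω ω' _ _ e
    have e1 := Prod.ext_iff.mp e
    rw [hB, hZ] at e1
    exact ocn_det e1.1 e1.2
  linarith

/-- **The row of the second coordinate in static boxes**, given the line data `vd`. -/
theorem Rc.out_row (h : Rc F p σ wa wb vp D a s t al) (h1 : wa ≤ w) (h2 : w ≤ wb)
    {r N : ℕ} (hN : N ≤ w + q + κ) {e : ℝ}
    (hu : e ≤ CH p (Uni.dg X (tnu F w (cv (vp w) κ q) (frm σ (a w) s t) 0 1
        (sl (vp w) D (a w) al)))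
      (fun ω => (vd F 0 1 w (cv (vp w) κ q) (frm σ (a w) s t) X ω,
        cdn F w (cv (vp w) κ q) (frm σ (a w) s t) (Uni.dg D al) ω))) :
    e - ((3 : ℕ) * Real.log 51 + Real.log 5) ≤
      CH p (F.sbx σ r (w + vp w + q + X) N (ald D al) s t)
        (fun ω => (vd F 0 1 w (cv (vp w) κ q) (frm σ (a w) s t) X ω,
          ocn F σ vp D a s t al κ w q N ω)) := by
  have hp := h.law
  have h0 := hp.nonneg
  obtain ⟨nu, hnu⟩ : ∃ nu, nu = Uni.dg X (tnu F w (cv (vp w) κ q) (frm σ (a w) s t) 0 1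
    (sl (vp w) D (a w) al)) := ⟨_, rfl⟩
  obtain ⟨V, hV⟩ : ∃ V, V = vd F 0 1 w (cv (vp w) κ q) (frm σ (a w) s t) X := ⟨_, rfl⟩
  obtain ⟨Z, hZ⟩ : ∃ Z, Z = cdn F w (cv (vp w) κ q) (frm σ (a w) s t) (Uni.dg D al) := ⟨_, rfl⟩
  obtain ⟨B, hB⟩ : ∃ B, B = F.sbx σ (w + q) (w + vp w + q) N (ald D al) s t := ⟨_, rfl⟩
  obtain ⟨B', hB'⟩ : ∃ B', B' = F.sbx σ r (w + vp w + q + X) N (ald D al) s t := ⟨_, rfl⟩
  have k1 := h.CH_box (q := q) h1 h2 hN (fun ω => (V ω, Z ω))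
    (by rw [hZ]; exact fun _ _ _ _ e => (Prod.ext_iff.mp e).2)
  have k2 := h.CH_dig1 (X := X) (κ := κ) (q := q) h2 (N := N) (r := r)
    (fun ω => (B ω, (V ω, Z ω))) (by
    rw [hZ]
    exact fun _ _ _ _ e => (Prod.ext_iff.mp (Prod.ext_iff.mp e).2).2)
  rw [← hnu, ← hV, ← hZ] at hu
  rw [← hB] at k1
  rw [← hnu, ← hB'] at k2
  rw [← hB', ← hV]
  have k3 := CH_le_add h0 nu B (fun ω => (V ω, Z ω))
  have k4 := CH_le_add h0 nu B' (fun ω => (B ω, (V ω, Z ω)))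
  have k5 : CH p B' (fun ω => (B ω, (V ω, Z ω))) ≤
      CH p B' (fun ω => (V ω, ocn F σ vp D a s t al κ w q N ω)) := by
    refine CH_mono_cond h0 ?_
    intro ω ω' _ _ e
    have e1 := Prod.ext_iff.mp e
    have e2 := Prod.ext_iff.mp e1.2
    rw [hB, hZ] at e1
    rw [hZ] at e2
    exact Prod.ext e2.1 (ocn_det e1.1 e2.2)
  linarith

end out

/-! ### Side labels -/

/-- The box with a side label. -/
theorem blb_cnd {m : ℕ} {F : Fam m J} {K : Type} (Th : F.Ω → K) {w : ℕ} {c : Fin m → ℕ}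
    {M : F.Ω → Fin m → Fin m → ℝ} {ω ω' : F.Ω} :
    (F.cnd Th).blb w c M ω = (F.cnd Th).blb w c M ω' ↔
      Th ω = Th ω' ∧ F.blb w c M ω = F.blb w c M ω' := by
  constructor
  · intro h
    have h1 := Prod.ext_iff.mp h
    have h2 := Prod.ext_iff.mp h1.2
    exact ⟨h2.1, Prod.ext h1.1 h2.2⟩
  · rintro ⟨h1, h2⟩
    have h3 := Prod.ext_iff.mp h2
    exact Prod.ext h3.1 (Prod.ext h1 h3.2)

/-- The condition of the result with a side label. -/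
theorem ocn_cnd {F : Fam 3 J} {σ : Fin 3 → Fin 3} {vp : ℕ → ℕ} {D : ℕ} {a : ℕ → F.Ω → ℝ}
    {s t al : F.Ω → ℝ} {κ w q N : ℕ} {K : Type} (Th : F.Ω → K) {ω ω' : F.Ω} :
    ocn (F.cnd Th) σ vp D a s t al κ w q N ω = ocn (F.cnd Th) σ vp D a s t al κ w q N ω' ↔
      Th ω = Th ω' ∧ ocn F σ vp D a s t al κ w q N ω = ocn F σ vp D a s t al κ w q N ω' := by
  have key : (F.cnd Th).ctx σ w (w + q) (w + vp w + q) (w + q + κ) (a w) s t ω =
      (F.cnd Th).ctx σ w (w + q) (w + vp w + q) (w + q + κ) (a w) s t ω' ↔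
      Th ω = Th ω' ∧ F.ctx σ w (w + q) (w + vp w + q) (w + q + κ) (a w) s t ω =
      F.ctx σ w (w + q) (w + vp w + q) (w + q + κ) (a w) s t ω' := by
    unfold Fam.ctx
    exact blb_cnd Th
  constructor
  · intro h
    have h1 := Prod.ext_iff.mp h
    have h2 := Prod.ext_iff.mp h1.2
    obtain ⟨h3, h4⟩ := key.1 h2.1
    exact ⟨h3, Prod.ext h1.1 (Prod.ext h4 h2.2)⟩
  · rintro ⟨h1, h2⟩
    have h3 := Prod.ext_iff.mp h2
    have h4 := Prod.ext_iff.mp h3.2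
    exact Prod.ext h3.1 (Prod.ext (key.2 ⟨h1, h4.1⟩) h4.2)

/-- The hypotheses of the U-step on a rectangle, on events: time, slopes (`v > 0`), the rows of
the first coordinate and their velocities. `X` is the block. -/
structure Uh {J : ℕ} (F : Fam 3 J) (p : F.Ω → ℝ) (σ : Fin 3 → Fin 3) (wa wb : ℕ) (vp : ℕ → ℕ)
    (D : ℕ) (a : ℕ → F.Ω → ℝ) (s t al : F.Ω → ℝ) (κ d X qa qb : ℕ) (x₁ ϖ δ ε₁ ca : ℝ) :
    Prop where
  tm : ∀ E : F.Ω → Prop, ϖ ≤ Pe p E → ((J : ℝ) - wa) * Real.log 2 - δ * X ≤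
    CH (Pool.Agent.H49.Ent.cond p E True) F.T (slam F wa)
  h6 : ∀ w q, wa ≤ w → w ≤ wb → qa ≤ q → q < qb → ∀ E : F.Ω → Prop, ϖ ≤ Pe p E →
    Pool.KAF.Pr (dbl (Pool.Agent.H49.Ent.cond p E True)
      (F.blb w (cv (vp w) κ (q + X)) (frm σ (a w) s t)))
      {v | |sl (vp w) D (a w) al v.1 - sl (vp w) D (a w) al v.2| <
        (2 : ℝ) ^ (-(x₁ * X))} ≤ ε₁
  wf : ∀ w q X', wa ≤ w → w ≤ wb → qa ≤ q → q + X' ≤ qb + X → 0 < X' → X' ≤ X → d ∣ X' →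
    ∀ E : F.Ω → Prop, ϖ ≤ Pe p E →
    X' * Real.log 2 - δ * X ≤ CH (Pool.Agent.H49.Ent.cond p E True)
      (Uni.dg X' (fun ω => F.mx w (cv (vp w) κ q) (frm σ (a w) s t) ω 0))
      (fun ω => (F.blb w (cv (vp w) κ q) (frm σ (a w) s t) ω, F.T ω))
  act : ∀ w q X', wa ≤ w → w ≤ wb → qa ≤ q → q + X' ≤ qb + X → 0 < X' → X' ≤ X → d ∣ X' →
    ∀ E : F.Ω → Prop, ϖ ≤ Pe p E →
    ca * X' * Real.log 2 ≤ CH (Pool.Agent.H49.Ent.cond p E True)
      (Uni.dg X' (fun ω => F.md (cv (vp w) κ q) (frm σ (a w) s t) ω 0))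
      (F.blb w (cv (vp w) κ q) (frm σ (a w) s t))

/-- The shape of the rectangle: `X` the block, `tt` the step of the windows. -/
structure Ush (wa wb : ℕ) (vp : ℕ → ℕ) (D X tt qa qb J : ℕ) (γ : ℝ) : Prop where
  w : wa ≤ wb
  q : qa ≤ qb
  Xt : X ≤ tt
  wJ : wb + X ≤ J
  rise : ∀ w w', wa ≤ w → w + tt ≤ w' → w' ≤ wb → vp w + X ≤ vp w'
  t : (tt : ℝ) ≤ γ * (wb + 1 - wa : ℕ)
  X : (X : ℝ) ≤ γ * (qb - qa : ℕ)
  D : ((D - vp wa : ℕ) : ℝ) ≤ γ * (qb - qa : ℕ)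
  le : wb + vp wb ≤ wa + vp wa + (qb - qa)

/-- The conclusion of the U-step at one context, in static boxes. -/
def Uc {J : ℕ} (F : Fam 3 J) (p : F.Ω → ℝ) (σ : Fin 3 → Fin 3) (vp : ℕ → ℕ)
    (D : ℕ) (a : ℕ → F.Ω → ℝ) (s t al : F.Ω → ℝ) (κ X w q : ℕ) (ε : ℝ) : Prop :=
  ∀ N : ℕ, N ≤ w + q + κ →
    (2 - ε) * X * Real.log 2 ≤
      CH p (F.sbx σ (w + q + X) (w + vp w + q + X) N (ald D al) s t)
        (ocn F σ vp D a s t al κ w q N) ∧
    ∀ r, (1 - ε) * X * Real.log 2 ≤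
      CH p (F.sbx σ r (w + vp w + q + X) N (ald D al) s t)
        (fun ω => (vd F 0 1 w (cv (vp w) κ q) (frm σ (a w) s t) X ω,
          ocn F σ vp D a s t al κ w q N ω))

/-- **The U-step on a rectangle, `v > 0`, in static boxes.** -/
theorem ue_out : ∀ ε ca ρ : ℝ, 0 < ε → 0 < ca → 0 < ρ → ∃ (x₁ ϖ δ ε₁ γ : ℝ) (n d₀ : ℕ),
    0 < x₁ ∧ 0 < ϖ ∧ ϖ ≤ 1 ∧ 0 < δ ∧ 0 < ε₁ ∧ 0 < γ ∧ γ ≤ 1 ∧ 1 ≤ n ∧ 1 ≤ d₀ ∧
    ∀ {J : ℕ} (F : Fam 3 J) (p : F.Ω → ℝ) (σ : Fin 3 → Fin 3) (wa wb : ℕ) (vp : ℕ → ℕ) (D : ℕ)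
      (a : ℕ → F.Ω → ℝ) (s t al : F.Ω → ℝ) (κ d tt qa qb : ℕ),
      Rc F p σ wa wb vp D a s t al → d₀ ≤ d → Ush wa wb vp D (n * d) tt qa qb J γ →
      Uh F p σ wa wb vp D a s t al κ d (n * d) qa qb x₁ ϖ δ ε₁ ca →
      ∃ B : Finset (ℕ × ℕ), (B.card : ℝ) ≤ ρ * ((wb + 1 - wa : ℕ) * (qb - qa : ℕ)) ∧
        ∀ w q, wa ≤ w → w ≤ wb → qa ≤ q → q < qb → (w, q) ∉ B →
          Uc F p σ vp D a s t al κ (n * d) w q ε := by
  intro ε ca ρ hε hca hρ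
  obtain ⟨x₁, ϖ, δ, ε₁, γ, n, d₀, hx₁, hϖ, hϖ1, hδ, hε₁, hγ, hγ1, hn, hd₀, hue⟩ :=
    ue_rectW (ε / 2) ca ρ (by positivity) hca hρ
  obtain ⟨u, hu⟩ : ∃ u, u = Real.log 2 := ⟨_, rfl⟩
  have hu0 : 0 < u := by rw [hu]; exact Real.log_pos (by norm_num)
  obtain ⟨c, hc⟩ : ∃ c, c = (3 : ℕ) * Real.log 51 + 2 * Real.log 5 := ⟨_, rfl⟩
  have hl5 : 0 ≤ Real.log 5 := Real.log_nonneg (by norm_num)
  obtain ⟨N₁, hN₁⟩ := exists_nat_ge (c / (ε / 2 * u))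
  refine ⟨x₁, ϖ, δ, ε₁, γ, n, d₀ + N₁, hx₁, hϖ, hϖ1, hδ, hε₁, hγ, hγ1, hn, by omega, ?_⟩
  intro J F p σ wa wb vp D a s t al κ d tt qa qb hR hd hs hU
  obtain ⟨B, hB, hmain⟩ := hue F p σ wa wb vp D a s t al κ d tt qa qb hR hs.w hs.q (by omega)
    hs.Xt hs.wJ hs.rise hs.t hs.X hs.D hs.le hU.tm hU.h6 (fun w q X' h1 h2 h3 h4 h5 h6 h7 E hE =>
      ⟨hU.wf w q X' h1 h2 h3 h4 h5 h6 h7 E hE, hU.act w q X' h1 h2 h3 h4 h5 h6 h7 E hE⟩)
  refine ⟨B, hB, ?_⟩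
  intro w q h1 h2 h3 h4 hwq N hN
  obtain ⟨k1, k2⟩ := hmain w q h1 h2 h3 h4 hwq
  have hdX : d ≤ n * d := by
    calc d = 1 * d := (one_mul d).symm
      _ ≤ n * d := Nat.mul_le_mul_right d hn
  obtain ⟨X, hX⟩ : ∃ X, X = n * d := ⟨_, rfl⟩
  rw [← hX] at k1 k2 hdX ⊢
  have hbig : c ≤ ε / 2 * u * X := by
    have g1 : ((N₁ : ℕ) : ℝ) ≤ X := by
      have : N₁ ≤ X := by omega
      exact_mod_cast this
    have g2 := hN₁.trans g1
    rw [div_le_iff₀ (by positivity)] at g2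
    linarith
  rw [← hu] at k1 k2 ⊢
  have o1 := hR.out_pair (q := q) h1 h2 hN k2
  refine ⟨?_, ?_⟩
  · refine le_trans ?_ o1
    rw [← hc]
    have : (2 - ε / 2) * X * u = (2 - ε) * X * u + ε / 2 * u * X := by ring
    rw [this]
    linarith
  · intro r
    have o2 := hR.out_row (q := q) (r := r) h1 h2 hN k1
    refine le_trans ?_ o2
    have hc' : (3 : ℕ) * Real.log 51 + Real.log 5 ≤ c := by
      rw [hc]
      linarith
    have : (1 - ε / 2) * X * u = (1 - ε) * X * u + ε / 2 * u * X := by ring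
    rw [this]
    have h6 := hc'.trans hbig
    linarith

/-- **The same in the mean over the rectangle.** -/
theorem ue_sum : ∀ ε ca : ℝ, 0 < ε → 0 < ca → ∃ (x₁ ϖ δ ε₁ γ : ℝ) (n d₀ : ℕ),
    0 < x₁ ∧ 0 < ϖ ∧ ϖ ≤ 1 ∧ 0 < δ ∧ 0 < ε₁ ∧ 0 < γ ∧ γ ≤ 1 ∧ 1 ≤ n ∧ 1 ≤ d₀ ∧
    ∀ {J : ℕ} (F : Fam 3 J) (p : F.Ω → ℝ) (σ : Fin 3 → Fin 3) (wa wb : ℕ) (vp : ℕ → ℕ) (D : ℕ)
      (a : ℕ → F.Ω → ℝ) (s t al : F.Ω → ℝ) (κ d tt qa qb : ℕ) (N : ℕ → ℕ → ℕ),
      Rc F p σ wa wb vp D a s t al → d₀ ≤ d → Ush wa wb vp D (n * d) tt qa qb J γ →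
      Uh F p σ wa wb vp D a s t al κ d (n * d) qa qb x₁ ϖ δ ε₁ ca →
      (∀ w q, wa ≤ w → w ≤ wb → qa ≤ q → q < qb → N w q ≤ w + q + κ) →
      ∑ x ∈ Finset.Icc wa wb ×ˢ Finset.Ico qa qb, (2 * (n * d : ℕ) * Real.log 2 -
        CH p (F.sbx σ (x.1 + x.2 + n * d) (x.1 + vp x.1 + x.2 + n * d) (N x.1 x.2) (ald D al) s t)
          (ocn F σ vp D a s t al κ x.1 x.2 (N x.1 x.2))) ≤
        ε * (n * d : ℕ) * ((wb + 1 - wa : ℕ) * (qb - qa : ℕ)) := by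
  classical
  intro ε ca hε hca
  obtain ⟨u, hu⟩ : ∃ u, u = Real.log 2 := ⟨_, rfl⟩
  have hu0 : 0 < u := by rw [hu]; exact Real.log_pos (by norm_num)
  obtain ⟨x₁, ϖ, δ, ε₁, γ, n, d₀, hx₁, hϖ, hϖ1, hδ, hε₁, hγ, hγ1, hn, hd₀, hue⟩ :=
    ue_out (ε / (2 * u)) ca (ε / (4 * u)) (by positivity) hca (by positivity)
  refine ⟨x₁, ϖ, δ, ε₁, γ, n, d₀, hx₁, hϖ, hϖ1, hδ, hε₁, hγ, hγ1, hn, hd₀, ?_⟩
  intro J F p σ wa wb vp D a s t al κ d tt qa qb N hR hd hs hU hN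
  obtain ⟨B, hB, hmain⟩ := hue F p σ wa wb vp D a s t al κ d tt qa qb hR hd hs hU
  obtain ⟨X, hX⟩ : ∃ X : ℝ, X = (n * d : ℕ) := ⟨_, rfl⟩
  have hX0 : 0 ≤ X := by rw [hX]; exact Nat.cast_nonneg _
  rw [← hX, ← hu]
  obtain ⟨P, hP⟩ : ∃ P, P = Finset.Icc wa wb ×ˢ Finset.Ico qa qb := ⟨_, rfl⟩
  rw [← hP]
  have hPc : (P.card : ℝ) = (wb + 1 - wa : ℕ) * (qb - qa : ℕ) := by
    rw [hP, Finset.card_product, Nat.card_Icc, Nat.card_Ico]
    push_cast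
    ring
  have term : ∀ x ∈ P, 2 * X * u -
      CH p (F.sbx σ (x.1 + x.2 + n * d) (x.1 + vp x.1 + x.2 + n * d) (N x.1 x.2) (ald D al) s t)
          (ocn F σ vp D a s t al κ x.1 x.2 (N x.1 x.2)) ≤
      ε / 2 * X + if x ∈ B then 2 * X * u else 0 := by
    intro x hx
    rw [hP, Finset.mem_product, Finset.mem_Icc, Finset.mem_Ico] at hx
    by_cases hxB : x ∈ B
    · rw [if_pos hxB]
      have := CH_nonneg hR.law.nonneg
        (F.sbx σ (x.1 + x.2 + n * d) (x.1 + vp x.1 + x.2 + n * d) (N x.1 x.2) (ald D al) s t)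
          (ocn F σ vp D a s t al κ x.1 x.2 (N x.1 x.2))
      have h2 : 0 ≤ ε / 2 * X := by positivity
      linarith
    · rw [if_neg hxB, add_zero]
      have h1 := (hmain x.1 x.2 hx.1.1 hx.1.2 hx.2.1 hx.2.2 hxB (N x.1 x.2)
        (hN x.1 x.2 hx.1.1 hx.1.2 hx.2.1 hx.2.2)).1
      rw [← hX, ← hu] at h1
      have h2 : (2 - ε / (2 * u)) * X * u = 2 * X * u - ε / 2 * X := by
        field_simp
      rw [h2] at h1
      linarith
  refine (Finset.sum_le_sum term).trans ?_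
  rw [Finset.sum_add_distrib, Finset.sum_const, nsmul_eq_mul, Finset.sum_ite, Finset.sum_const_zero,
    add_zero, Finset.sum_const, nsmul_eq_mul]
  have h3 : ((P.filter (fun x => x ∈ B)).card : ℝ) ≤ B.card := by
    have : (P.filter (fun x => x ∈ B)).card ≤ B.card :=
      Finset.card_le_card fun x hx => (Finset.mem_filter.1 hx).2
    exact_mod_cast this
  have h4 : ((P.filter (fun x => x ∈ B)).card : ℝ) * (2 * X * u) ≤
      ε / (4 * u) * P.card * (2 * X * u) := by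
    refine mul_le_mul_of_nonneg_right (h3.trans ?_) (by positivity)
    rw [hPc]
    exact hB
  have h5 : ε / (4 * u) * P.card * (2 * X * u) = ε / 2 * X * P.card := by
    field_simp
    ring
  rw [← hPc]
  rw [h5] at h4
  calc (P.card : ℝ) * (ε / 2 * X) + _ ≤ P.card * (ε / 2 * X) + ε / 2 * X * P.card := by
        linarith
    _ = ε * X * P.card := by ring

end Pool.S6U
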