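import Pool.Agent.H10.S6U.Dat
import Pool.Agent.H59.OC.H1

/-!
# The local U-step at one context

`Cst` are the dependences in the context `(w, c + r)`. If they are small for the contexts
`(w, c + r)`, `d ∣ r`, then the rows of the second coordinate in the moving frame are full in the
context `(w, c)` given the exact time and the frame.
-/

set_option autoImplicit false

namespace Pool.S6U

open Finset Real
open Pool.Agent.H49.Ent Pool.Agent.H32.Dense Pool.STK Pool.KA Pool.KSAT Pool.K2S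

variable {m J : ℕ}

section ent

variable {Ω S T U β γ : Type} [Fintype Ω] {p : Ω → ℝ}

/-- Conditional laws. -/
theorem ev_pos (hp : ∀ ω, 0 ≤ p ω) {E : Ω → Prop} {ω : Ω} :
    0 < Pool.Agent.H49.Ent.cond p E True ω ↔ 0 < p ω ∧ E ω := by
  rw [cond_pos_iff hp]
  constructor
  · rintro ⟨h1, h2⟩
    exact ⟨h1, of_eq_true h2⟩
  · rintro ⟨h1, h2⟩
    exact ⟨h1, eq_true h2⟩

theorem det_ev (hp : ∀ ω, 0 ≤ p ω) {E : Ω → Prop} {X : Ω → S} {Y : Ω → T} (h : Det p X Y) :
    Det (Pool.Agent.H49.Ent.cond p E True) X Y := fun ω ω' a b e =>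
  h ω ω' ((ev_pos hp).1 a).1 ((ev_pos hp).1 b).1 e

theorem ev_law (hp : IsLaw p) {E : Ω → Prop} {ϖ : ℝ} (hϖ : 0 < ϖ) (hE : ϖ ≤ Pe p E) :
    IsLaw (Pool.Agent.H49.Ent.cond p E True) :=
  Uni.isLaw_cond' hp.nonneg E (hϖ.trans_le hE)

omit [Fintype Ω] in
/-- Digits of digits. -/
theorem dg_mono {X X' : ℕ} (h : X' ≤ X) {x : Ω → ℝ} {ω ω' : Ω}
    (he : Uni.dg X x ω = Uni.dg X x ω') : Uni.dg X' x ω = Uni.dg X' x ω' := by
  unfold Uni.dg at he ⊢
  rw [← Uni.floor_row h, ← Uni.floor_row h, he]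

/-- Integers which are near. -/
theorem CH_int (hp : IsLaw p) (X : Ω → ℤ) (W : Ω → S) {c : ℝ}
    (hX : ∀ ω ω', 0 < p ω → 0 < p ω' → W ω = W ω' → |((X ω - X ω' : ℤ) : ℝ)| ≤ c) :
    CH p X W ≤ Real.log (2 * c + 1) := by
  have h1 := Plk.CH_vec_const (m := 1) hp (fun ω _ => X ω) W (c := c)
    (fun ω ω' h1 h2 h3 _ => hX ω ω' h1 h2 h3)
  have h2 : CH p X W ≤ CH p (fun ω (_ : Fin 1) => X ω) W :=
    CH_mono_left hp.nonneg fun ω ω' _ _ h => congrFun (Prod.ext_iff.mp h).1 0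
  have h3 : ((1 : ℕ) : ℝ) * Real.log (2 * c + 1) = Real.log (2 * c + 1) := by norm_num
  linarith

end ent

/-! ### Time -/

section time

variable {F : Fam m J} {p : F.Ω → ℝ} {β Λ : Type}

/-- **Time**, from the window `w`: the number of the finer windows. -/
theorem card_T1 {w K : ℕ} (h : w + K ≤ J) (hp : IsLaw p) {Z : F.Ω → β}
    (hZ : Det p Z (F.T1 w)) : CH p (F.T1 (w + K)) Z ≤ K * Real.log 2 := by
  have h5 : CH p (F.T1 (w + K)) Z ≤ CH p (F.T1 (w + K)) (F.T1 w) :=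
    CH_mono_cond hp.nonneg hZ
  refine h5.trans ?_
  refine (CH_le_card hp.nonneg hp.sum_one (F.T1 (w + K)) _
    (fun v => Finset.Ico (v * 2 ^ K) ((v + 1) * 2 ^ K)) ?_).trans ?_
  · intro ω _
    rw [Finset.mem_Ico, T1_div F h]
    constructor
    · exact Nat.div_mul_le_self _ _
    · rw [← Nat.div_lt_iff_lt_mul (by positivity)]
      exact Nat.lt_succ_self _
  · refine le_of_eq ?_
    have : ∀ v : ℕ, (Finset.Ico (v * 2 ^ K) ((v + 1) * 2 ^ K)).card = 2 ^ K := by
      intro v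
      rw [Nat.card_Ico, add_mul, one_mul, Nat.add_sub_cancel_left]
    simp only [this]
    push_cast
    rw [Ex_const hp.sum_one, Real.log_pow]

theorem T1_top (ω : F.Ω) : F.T1 J ω = F.T ω := by
  unfold Fam.T1
  rw [Nat.sub_self, pow_zero, Nat.div_one]

/-- The digits of the time beyond a window. -/
theorem tmw_digits (hp : IsLaw p) {w K : ℕ} (h : w + K ≤ J) {e : ℝ}
    (hT : ((J : ℝ) - w) * Real.log 2 - e ≤ CH p F.T (slam F w)) :
    K * Real.log 2 - e ≤ CH p (F.T1 (w + K)) (slam F w) := by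
  have h0 := hp.nonneg
  have k1 := CH_le_add h0 F.T (F.T1 (w + K)) (slam F w)
  have k2 : CH p F.T (fun ω => (F.T1 (w + K) ω, slam F w ω)) ≤
      ((J - (w + K) : ℕ) : ℝ) * Real.log 2 := by
    have := card_T1 (F := F) (w := w + K) (K := J - (w + K)) (by omega) hp
      (Z := fun ω => (F.T1 (w + K) ω, slam F w ω)) (fun _ _ _ _ e => (Prod.ext_iff.mp e).1)
    have e1 : w + K + (J - (w + K)) = J := by omega
    rw [e1] at this
    refine le_trans (le_of_eq ?_) this
    congr 1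
    funext ω
    exact (T1_top ω).symm
  have e2 : ((J - (w + K) : ℕ) : ℝ) = (J : ℝ) - (w + K) := by
    rw [Nat.cast_sub h]
    push_cast
    ring
  rw [e2] at k2
  have e3 : ((J : ℝ) - w) * Real.log 2 = ((J : ℝ) - (w + K)) * Real.log 2 +
    K * Real.log 2 := by ring
  linarith

/-- A later window. -/
theorem tmw_up (hp : IsLaw p) {w w' : ℕ} (hw : w ≤ w') (hJ : w' ≤ J) {e : ℝ}
    (hT : ((J : ℝ) - w) * Real.log 2 - e ≤ CH p F.T (slam F w)) :
    ((J : ℝ) - w') * Real.log 2 - e ≤ CH p F.T (slam F w') := by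
  obtain ⟨K, rfl⟩ := Nat.exists_eq_add_of_le hw
  have h0 := hp.nonneg
  have k1 := CH_le_add h0 F.T (F.T1 (w + K)) (slam F w)
  have k2 := card_T1 (F := F) (w := w) (K := K) hJ hp (Z := slam F w)
    (fun _ _ _ _ e => (Prod.ext_iff.mp (Prod.ext_iff.mp e).2).2)
  have k3 : CH p F.T (fun ω => (F.T1 (w + K) ω, slam F w ω)) ≤ CH p F.T (slam F (w + K)) := by
    refine CH_mono_cond h0 ?_
    intro ω ω' _ _ e
    have e1 := Prod.ext_iff.mp e
    have e2 := Prod.ext_iff.mp e1.2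
    exact Prod.ext e2.1 (Prod.ext (Prod.ext_iff.mp e2.2).1 e1.1)
  push_cast
  have e3 : ((J : ℝ) - w) * Real.log 2 = ((J : ℝ) - (w + K)) * Real.log 2 +
    K * Real.log 2 := by ring
  linarith

/-- From the full time. -/
theorem tmw_of_tm (hp : IsLaw p) {w : ℕ} (hJ : w ≤ J) {e : ℝ}
    (hT : (J : ℝ) * Real.log 2 - e ≤ CH p F.T (fun ω => (F.l ω, F.Z ω))) :
    ((J : ℝ) - w) * Real.log 2 - e ≤ CH p F.T (slam F w) := by
  have h0 := hp.nonneg
  have k1 := CH_le_add h0 F.T (F.T1 w) (fun ω => (F.l ω, F.Z ω))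
  have k2 : CH p (F.T1 w) (fun ω => (F.l ω, F.Z ω)) ≤ w * Real.log 2 := by
    have := card_T1 (F := F) (w := 0) (K := w) (by omega) hp
      (Z := fun ω => (F.l ω, F.Z ω)) (fun ω ω' _ _ _ => by
        unfold Fam.T1
        rw [Nat.sub_zero, Nat.div_eq_of_lt (F.tim ω), Nat.div_eq_of_lt (F.tim ω')])
    rw [Nat.zero_add] at this
    exact this
  have k3 : CH p F.T (fun ω => (F.T1 w ω, (F.l ω, F.Z ω))) ≤ CH p F.T (slam F w) := by
    refine CH_mono_cond h0 ?_
    intro ω ω' _ _ e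
    have e1 := Prod.ext_iff.mp e
    have e2 := Prod.ext_iff.mp e1.2
    exact Prod.ext e2.1 (Prod.ext e2.2 e1.1)
  have e3 : (J : ℝ) * Real.log 2 = ((J : ℝ) - w) * Real.log 2 + w * Real.log 2 := by ring
  linarith

/-- The label is a function of the line and the window. -/
theorem lbr_slam {w : ℕ} {c : Fin m → ℕ} {M : F.Ω → Fin m → Fin m → ℝ}
    (hM : Det p (slam F w) M) (r : ℕ) : Det p (slam F w) (F.lbr w c M r) := by
  intro ω ω' hω hω' h
  have h1 : F.l ω = F.l ω' := (Prod.ext_iff.mp h).1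
  have h2 := Prod.ext_iff.mp (Prod.ext_iff.mp h).2
  have h3 : F.Z ω = F.Z ω' := h2.1
  have h4 : F.T1 w ω = F.T1 w ω' := h2.2
  exact (Box.label_det F h1 h4 (hM ω ω' hω hω' h) h3).1

/-- **(H1)**, first half. -/
theorem time_mi (hp : IsLaw p) {w : ℕ} (hw : w ≤ J) {b : F.Ω → β} {L : F.Ω → Λ}
    (hb : Det p b (F.T1 w)) (hL : Det p (slam F w) (fun ω => (L ω, b ω))) {e : ℝ}
    (hT : ((J : ℝ) - w) * Real.log 2 - e ≤ CH p F.T (slam F w)) :
    dp p F.T L b ≤ e := by
  have h2 : CH p F.T (slam F w) ≤ CH p F.T (fun ω => (L ω, b ω)) :=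
    CH_mono_cond hp.nonneg hL
  have h3 : CH p F.T b ≤ ((J - w : ℕ) : ℝ) * Real.log 2 := by
    have h5 : CH p F.T b ≤ CH p F.T (F.T1 w) := CH_mono_cond hp.nonneg hb
    refine h5.trans ?_
    refine (CH_le_card hp.nonneg hp.sum_one F.T _
      (fun v => Finset.Ico (v * 2 ^ (J - w)) ((v + 1) * 2 ^ (J - w))) ?_).trans ?_
    · intro ω _
      rw [Finset.mem_Ico]
      show F.T1 w ω * 2 ^ (J - w) ≤ F.T ω ∧ F.T ω < (F.T1 w ω + 1) * 2 ^ (J - w)
      unfold Fam.T1
      constructor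
      · exact Nat.div_mul_le_self _ _
      · rw [← Nat.div_lt_iff_lt_mul (by positivity)]
        exact Nat.lt_succ_self _
    · refine le_of_eq ?_
      have : ∀ v : ℕ, (Finset.Ico (v * 2 ^ (J - w)) ((v + 1) * 2 ^ (J - w))).card =
          2 ^ (J - w) := by
        intro v
        rw [Nat.card_Ico, add_mul, one_mul, Nat.add_sub_cancel_left]
      simp only [this]
      push_cast
      rw [Ex_const hp.sum_one, Real.log_pow]
  have h4 : ((J - w : ℕ) : ℝ) = (J : ℝ) - w := by rw [Nat.cast_sub hw]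
  rw [h4] at h3
  unfold dp
  linarith

/-- **(H1)**, second half: the digits of the time in the window. -/
theorem time_dig (hp : IsLaw p) {w : ℕ} {G : F.Ω → β} (hG : Det p (slam F w) G) {e : ℝ}
    (hT : ((J : ℝ) - w) * Real.log 2 - e ≤ CH p F.T (slam F w))
    {i : ℕ} (hi : w + i ≤ J) :
    i * Real.log 2 - e ≤ CH p (Uni.dg i (F.wt w)) G := by
  have h4 := tmw_digits hp hi hT
  refine h4.trans ?_
  have h5 : CH p (F.T1 (w + i)) (slam F w) ≤
      CH p (Uni.dg i (F.wt w)) (slam F w) := by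
    refine CH_mono_left hp.nonneg fun ω ω' _ _ h => ?_
    have a1 : ⌊(2 : ℝ) ^ i * F.wt w ω⌋ = ⌊(2 : ℝ) ^ i * F.wt w ω'⌋ := (Prod.ext_iff.mp h).1
    have a2 : F.T1 w ω = F.T1 w ω' := (Prod.ext_iff.mp (Prod.ext_iff.mp
      (Prod.ext_iff.mp h).2).2).2
    have hw : w ≤ J := by omega
    have h6 : (F.T1 (w + i) ω : ℤ) = F.T1 (w + i) ω' := by
      rw [H1.floor_tw F hi ω, H1.floor_tw F hi ω', Lab.tw_eq F hw, Lab.tw_eq F hw, a1, a2]
    exact_mod_cast h6
  exact h5.trans (CH_mono_cond hp.nonneg hG)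

end time

/-! ### The terms -/

section terms

variable {Γ : Type} (F : Fam m J) (p : F.Ω → ℝ) (i₀ iu : Fin m) (w : ℕ) (c : Fin m → ℕ)
  (M : F.Ω → Fin m → Fin m → ℝ) (S : F.Ω → ℝ) (G : F.Ω → Γ) (X : ℕ)

/-- The condition: the label, the frame and the exact time. -/
noncomputable def cdn (ω : F.Ω) := (F.blb w c M ω, (G ω, F.T ω))

/-- The line data. -/
noncomputable def vd (ω : F.Ω) : ℤ × (ℤ × ℤ) :=
  (Uni.dg X (fun ω => F.mu w (fun i => c i + w) M ω i₀) ω,
    (Uni.dg X (fun ω => F.md c M ω i₀) ω, Uni.dg X (fun ω => F.md c M ω iu) ω))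

/-- The row and the line data. -/
noncomputable def tA : ℝ :=
  dp p (Uni.dg X (tnu F w c M i₀ iu S)) (vd F i₀ iu w c M X) (cdn F w c M G)

/-- The velocity and the position. -/
noncomputable def tB : ℝ :=
  dp p (Uni.dg X (fun ω => F.md c M ω i₀)) (Uni.dg X (fun ω => F.mx w c M ω i₀))
    (cdn F w c M G)

/-- The frame and the line. -/
noncomputable def tM : ℝ :=
  dp p G (F.lbr w c M X) (fun ω => (F.blb w c M ω, F.T ω))

end terms

/-! ### The hypotheses of theorem OC -/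

section hyp

variable {Γ : Type} {F : Fam m J} {p : F.Ω → ℝ} {i₀ iu : Fin m} {w : ℕ} {c : Fin m → ℕ}
  {M : F.Ω → Fin m → Fin m → ℝ} {S : F.Ω → ℝ} {G : F.Ω → Γ} {X r X' : ℕ}

/-- The digits of the rounded data are the digits of the data. -/
theorem dg_rmu (h : r + X' ≤ X) (i : Fin m) : Uni.dg X' (rmu F w c M X r i) =
    Uni.dg X' (fun ω => F.mu w (fun i => c i + r + w) M ω i) := by
  funext ω
  change ⌊(2 : ℝ) ^ X' * rd X r (F.mu w (fun i => c i + w) M ω i)⌋ =
    ⌊(2 : ℝ) ^ X' * F.mu w (fun i => c i + r + w) M ω i⌋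
  rw [fl_rd h, mu_lbr]

theorem dg_rmd (h : r + X' ≤ X) (i : Fin m) : Uni.dg X' (rmd F c M X r i) =
    Uni.dg X' (fun ω => F.md (fun i => c i + r) M ω i) := by
  funext ω
  change ⌊(2 : ℝ) ^ X' * rd X r (F.md c M ω i)⌋ =
    ⌊(2 : ℝ) ^ X' * F.md (fun i => c i + r) M ω i⌋
  rw [fl_rd h, md_lbr]

/-- The digits of the row of the rounded line. -/
theorem CH_rnu {T : Type} (hp : IsLaw p) (h : r + X' ≤ X) (hS4 : ∀ ω, 0 < p ω → |S ω| ≤ 4)
    (Z : F.Ω → T) : CH p (Uni.dg X' (rnu F w c M X r i₀ iu S))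
      (fun ω => (Uni.dg X' (tnu F w (fun i => c i + r) M i₀ iu S) ω, Z ω)) ≤ Real.log 45 := by
  have key := CH_int hp (Uni.dg X' (rnu F w c M X r i₀ iu S))
    (fun ω => (Uni.dg X' (tnu F w (fun i => c i + r) M i₀ iu S) ω, Z ω)) (c := 22) (by
      intro ω ω' hω hω' e
      have e1 : ⌊(2 : ℝ) ^ X' * tnu F w (fun i => c i + r) M i₀ iu S ω⌋ =
        ⌊(2 : ℝ) ^ X' * tnu F w (fun i => c i + r) M i₀ iu S ω'⌋ := (Prod.ext_iff.mp e).1
      have key : ∀ ω, 0 < p ω → |(2 : ℝ) ^ X' * rnu F w c M X r i₀ iu S ω -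
          2 ^ X' * tnu F w (fun i => c i + r) M i₀ iu S ω| ≤ 10 := by
        intro ω hω
        have h1 := rnu_near (F := F) (w := w) (c := c) (M := M) (X := X) (r := r) (i₀ := i₀)
          (iu := iu) (by omega) (hS4 ω hω)
        rw [← mul_sub, abs_mul, abs_of_pos (by positivity : (0 : ℝ) < 2 ^ X')]
        calc (2 : ℝ) ^ X' * |rnu F w c M X r i₀ iu S ω -
              tnu F w (fun i => c i + r) M i₀ iu S ω| ≤ 2 ^ X' * (10 / 2 ^ (X - r)) :=
              mul_le_mul_of_nonneg_left h1 (by positivity)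
          _ ≤ 2 ^ X' * (10 / 2 ^ X') := by
              refine mul_le_mul_of_nonneg_left ?_ (by positivity)
              exact div_le_div_of_nonneg_left (by norm_num) (by positivity)
                (pow_le_pow_right₀ (by norm_num) (by omega))
          _ = 10 := by field_simp
      have k1 := abs_le.1 (key ω hω)
      have k2 := abs_le.1 (key ω' hω')
      have k3 := abs_le.1 (Plk.abs_sub_lt_of_floor e1)
      refine (Plk.floor_sub_lt (c := 21) ?_).trans (by norm_num)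
      rw [abs_le]
      constructor <;> linarith [k1.1, k1.2, k2.1, k2.2, k3.1, k3.2])
  refine key.trans (Real.log_le_log (by norm_num) (by norm_num))

/-- The position at the time of the sample from the position and the velocity. -/
theorem CH_mx {T : Type} (hp : IsLaw p) (i : Fin m) {Z : F.Ω → T} (hZ : Det p Z F.T) (n : ℕ) :
    CH p (Uni.dg n (fun ω => F.mx w c M ω i))
      (fun ω => ((Uni.dg n (fun ω => F.mu w (fun i => c i + w) M ω i) ω,
        Uni.dg n (fun ω => F.md c M ω i) ω), Z ω)) ≤ Real.log 7 := by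
  have key := CH_int hp (Uni.dg n (fun ω => F.mx w c M ω i))
    (fun ω => ((Uni.dg n (fun ω => F.mu w (fun i => c i + w) M ω i) ω,
        Uni.dg n (fun ω => F.md c M ω i) ω), Z ω)) (c := 3) (by
      intro ω ω' hω hω' e
      have e0 := Prod.ext_iff.mp e
      have e1 : ⌊(2 : ℝ) ^ n * F.mu w (fun i => c i + w) M ω i⌋ =
        ⌊(2 : ℝ) ^ n * F.mu w (fun i => c i + w) M ω' i⌋ := (Prod.ext_iff.mp e0.1).1
      have e2 : ⌊(2 : ℝ) ^ n * F.md c M ω i⌋ = ⌊(2 : ℝ) ^ n * F.md c M ω' i⌋ :=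
        (Prod.ext_iff.mp e0.1).2
      have e3 : F.wt w ω = F.wt w ω' := wt_det (hZ ω ω' hω hω' e0.2)
      have k1 := Plk.abs_sub_lt_of_floor e1
      have k2 := Plk.abs_sub_lt_of_floor e2
      have t0 := Lab.wt_mem F w ω
      refine (Plk.floor_sub_lt (c := 2) ?_).trans (by norm_num)
      have e4 : (2 : ℝ) ^ n * F.mx w c M ω i - 2 ^ n * F.mx w c M ω' i =
        (2 ^ n * F.mu w (fun i => c i + w) M ω i - 2 ^ n * F.mu w (fun i => c i + w) M ω' i) +
        F.wt w ω * (2 ^ n * F.md c M ω i - 2 ^ n * F.md c M ω' i) := by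
        unfold Fam.mx
        rw [← e3]
        ring
      rw [e4]
      have k3 : |F.wt w ω * (2 ^ n * F.md c M ω i - 2 ^ n * F.md c M ω' i)| ≤ 1 := by
        rw [abs_mul, abs_of_nonneg t0.1]
        nlinarith [abs_nonneg ((2 : ℝ) ^ n * F.md c M ω i - 2 ^ n * F.md c M ω' i), t0.1, t0.2]
      refine (abs_add_le _ _).trans ?_
      linarith)
  refine key.trans (Real.log_le_log (by norm_num) (by norm_num))

/-- The position from the position at the time of the sample and the velocity. -/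
theorem CH_mx' {T : Type} (hp : IsLaw p) (i : Fin m) {Z : F.Ω → T} (hZ : Det p Z F.T) (n : ℕ) :
    CH p (Uni.dg n (fun ω => F.mx w c M ω i))
      (fun ω => (Uni.dg n (fun ω => F.mu w (fun i => c i + w) M ω i) ω,
        (Uni.dg n (fun ω => F.md c M ω i) ω, Z ω))) ≤ Real.log 7 := by
  refine (CH_mono_cond hp.nonneg ?_).trans (CH_mx (w := w) (c := c) (M := M) hp i hZ n)
  intro ω ω' _ _ e
  simp only [Prod.mk.injEq] at e ⊢
  tauto

/-- **The hypotheses of theorem OC** for the block `(r, r + X']` under the law `q` of a large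
event; the bounds for the dependences under `q` are `eA`, `eB`, `eM`. -/
theorem ochyp {q : F.Ω → ℝ} (hq : IsLaw q) (hw : w ≤ J) (hwX : w + X' ≤ J) (hrX : r + X' ≤ X)
    (hM : Det q (slam F w) M) (hS4 : ∀ ω, 0 < q ω → |S ω| ≤ 4)
    {eT eA eB eM eW x₀ ι ca ε₁ : ℝ}
    (hT : ((J : ℝ) - w) * Real.log 2 - eT ≤ CH q F.T (slam F w))
    (hA : tA F q i₀ iu w (fun i => c i + r) M S G X ≤ eA)
    (hB : tB F q i₀ w (fun i => c i + r) M G X ≤ eB)
    (hm : tM F q w (fun i => c i + r) M G X ≤ eM)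
    (hwf : X' * Real.log 2 - eW ≤ CH q (Uni.dg X' (fun ω => F.mx w (fun i => c i + r) M ω i₀))
      (fun ω => (F.lbr w c M r ω, F.T ω)))
    (hact : ca * X' * Real.log 2 ≤
      CH q (Uni.dg X' (fun ω => F.md (fun i => c i + r) M ω i₀)) (F.lbr w c M r))
    (h6 : Pool.KAF.Pr (dbl q (fun ω => (F.lbr w c M X ω, F.lbr w c M r ω)))
      {v | |S v.1 - S v.2| < (2 : ℝ) ^ (-(x₀ * X'))} ≤ ε₁)
    (i1 : eT + eM ≤ ι * X') (i2 : eT ≤ ι * X' * Real.log 2) (i3 : eA + Real.log 45 ≤ ι * X')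
    (i4 : eW + eB + eM + 2 * Real.log 7 ≤ ι * X' * Real.log 2) :
    OCHyp q (F.lbr w c M r) (F.lbr w c M X) (fun ω => (G ω, F.T ω)) (rmu F w c M X r i₀)
      (rmd F c M X r i₀) (rmd F c M X r iu) (F.wt w) S (rnu F w c M X r i₀ iu S)
      X' x₀ ι ca ε₁ := by
  have h0 := hq.nonneg
  have db : Det q (F.lbr w c M r) (F.T1 w) := fun ω ω' _ _ h => (Box.mlb_ext h).1
  have dL : Det q (slam F w) (fun ω => (F.lbr w c M X ω, F.lbr w c M r ω)) :=
    fun ω ω' a b h => Prod.ext (lbr_slam hM X ω ω' a b h) (lbr_slam hM r ω ω' a b h)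
  have hsh : ∀ n, F.lbr w (fun i => c i + r) M n = F.lbr w c M (r + n) := by
    intro n
    unfold Fam.lbr
    congr 1
    funext i
    ring
  -- the frame and the line
  have eqM : tM F q w (fun i => c i + r) M G X =
    dp q G (F.lbr w c M (r + X)) (fun ω => (F.lbr w c M r ω, F.T ω)) := by
    unfold tM
    rw [hsh]
    rfl
  refine ⟨?_, ?_, ?_, ?_, ?_, h6⟩
  · rw [MI_eq_dp h0, dp_add h0 G F.T]
    have a1 := time_mi hq hw db dL hT
    have a2 : dp q G (F.lbr w c M X) (fun ω => (F.T ω, F.lbr w c M r ω)) ≤ eM := by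
      refine le_trans ?_ (eqM ▸ hm)
      rw [dp_congr_cond h0 (b' := fun ω => (F.lbr w c M r ω, F.T ω))
        (fun ω ω' _ _ h => Prod.ext (Prod.ext_iff.mp h).2 (Prod.ext_iff.mp h).1)
        (fun ω ω' _ _ h => Prod.ext (Prod.ext_iff.mp h).2 (Prod.ext_iff.mp h).1)]
      exact dp_mono h0 (fun ω ω' _ _ h => (Prod.ext_iff.mp h).1)
        (fun ω ω' _ _ h => lbr_mono (by omega) (Prod.ext_iff.mp h).1)
    linarith
  · have a1 := time_dig hq dL hT hwX
    linarith
  · have a1 := dp_le_add h0 (V := fun ω => (Uni.dg X' (rmu F w c M X r i₀) ω,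
      (Uni.dg X' (rmd F c M X r i₀) ω, Uni.dg X' (rmd F c M X r iu) ω)))
      (CH_rnu (w := w) (c := c) (M := M) (i₀ := i₀) (iu := iu) hq hrX hS4
        (fun ω => (F.lbr w c M r ω, (G ω, F.T ω))))
    have a2 : dp q (Uni.dg X' (tnu F w (fun i => c i + r) M i₀ iu S))
        (fun ω => (Uni.dg X' (rmu F w c M X r i₀) ω,
        (Uni.dg X' (rmd F c M X r i₀) ω, Uni.dg X' (rmd F c M X r iu) ω)))
        (fun ω => (F.lbr w c M r ω, (G ω, F.T ω))) ≤
        tA F q i₀ iu w (fun i => c i + r) M S G X := by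
      unfold tA
      refine dp_mono h0 (fun ω ω' _ _ h => dg_mono (by omega) (Prod.ext_iff.mp h).1) ?_
      intro ω ω' _ _ h
      have h1 := Prod.ext_iff.mp (Prod.ext_iff.mp h).1
      have h2 := Prod.ext_iff.mp h1.2
      rw [dg_rmu hrX, dg_rmd hrX, dg_rmd hrX]
      have g1 : Uni.dg X (fun ω => F.mu w (fun i => c i + r + w) M ω i₀) ω =
        Uni.dg X (fun ω => F.mu w (fun i => c i + r + w) M ω i₀) ω' := h1.1
      have g2 : Uni.dg X (fun ω => F.md (fun i => c i + r) M ω i₀) ω =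
        Uni.dg X (fun ω => F.md (fun i => c i + r) M ω i₀) ω' := h2.1
      have g3 : Uni.dg X (fun ω => F.md (fun i => c i + r) M ω iu) ω =
        Uni.dg X (fun ω => F.md (fun i => c i + r) M ω iu) ω' := h2.2
      exact Prod.ext (dg_mono (by omega) g1)
        (Prod.ext (dg_mono (by omega) g2) (dg_mono (by omega) g3))
    unfold dp at a1
    unfold dp at a2
    linarith
  · rw [dg_rmu hrX, dg_rmd hrX]
    obtain ⟨yt, hyt⟩ : ∃ yt, yt = Uni.dg X' (fun ω => F.mx w (fun i => c i + r) M ω i₀) :=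
      ⟨_, rfl⟩
    obtain ⟨y, hy⟩ : ∃ y, y = Uni.dg X' (fun ω => F.mu w (fun i => c i + r + w) M ω i₀) :=
      ⟨_, rfl⟩
    obtain ⟨om, hom⟩ : ∃ om, om = Uni.dg X' (fun ω => F.md (fun i => c i + r) M ω i₀) :=
      ⟨_, rfl⟩
    obtain ⟨Z, hZ⟩ : ∃ Z, Z = fun ω => (F.lbr w c M r ω, (G ω, F.T ω)) := ⟨_, rfl⟩
    have dZ : Det q Z F.T := fun ω ω' _ _ h => by
      rw [hZ] at h
      exact (Prod.ext_iff.mp (Prod.ext_iff.mp h).2).2
    rw [← hyt] at hwf
    rw [← hy, ← hom]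
    have s1 : CH q y (fun ω => (om ω, Z ω)) ≤ CH q y (fun ω => (om ω, F.lbr w c M r ω)) :=
      CH_mono_cond h0 (fun ω ω' _ _ h => by
        rw [hZ] at h
        exact Prod.ext (Prod.ext_iff.mp h).1 (Prod.ext_iff.mp (Prod.ext_iff.mp h).2).1)
    have s2 : CH q yt (fun ω => (om ω, Z ω)) ≤ CH q y (fun ω => (om ω, Z ω)) + Real.log 7 := by
      have b1 := CH_le_add h0 yt y (fun ω => (om ω, Z ω))
      have b2 : CH q yt (fun ω => (y ω, (om ω, Z ω))) ≤ Real.log 7 := by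
        rw [hyt, hy, hom]
        exact CH_mx' (c := fun i => c i + r) hq i₀ dZ X'
      linarith
    have s3 : dp q yt om Z ≤ eB := by
      rw [dp_symm h0]
      refine le_trans ?_ hB
      unfold tB
      rw [hZ, hom, hyt]
      exact dp_mono h0 (fun ω ω' _ _ h => dg_mono (by omega) (Prod.ext_iff.mp h).1)
        (fun ω ω' _ _ h => dg_mono (by omega) (Prod.ext_iff.mp h).1)
    have s4 : CH q yt Z = CH q yt (fun ω => (G ω, (F.lbr w c M r ω, F.T ω))) := by
      rw [hZ]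
      refine CH_congr h0 (fun _ _ _ _ h => (Prod.ext_iff.mp h).1)
        (fun _ _ _ _ h => (Prod.ext_iff.mp h).1) ?_ ?_ <;>
      · intro ω ω' _ _ h
        simp only [Prod.mk.injEq] at h ⊢
        tauto
    have s5 : dp q yt G (fun ω => (F.lbr w c M r ω, F.T ω)) ≤ eM + Real.log 7 := by
      have b1 := dp_le_add h0 (V := G) (CH_mx (c := fun i => c i + r) (M := M) (w := w) hq i₀
        (Z := fun ω => (F.lbr w c M r ω, F.T ω)) (fun ω ω' _ _ h => (Prod.ext_iff.mp h).2) X')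
      rw [← hyt] at b1
      refine b1.trans ?_
      rw [dp_symm h0]
      have b2 : dp q G (fun ω => (Uni.dg X' (fun ω => F.mu w (fun i => c i + r + w) M ω i₀) ω,
          Uni.dg X' (fun ω => F.md (fun i => c i + r) M ω i₀) ω))
          (fun ω => (F.lbr w c M r ω, F.T ω)) ≤ eM := by
        refine le_trans ?_ hm
        rw [eqM]
        refine dp_mono h0 (fun _ _ _ _ h => (Prod.ext_iff.mp h).1) ?_
        intro ω ω' _ _ h
        have h1 : F.lbr w (fun i => c i + r) M X ω = F.lbr w (fun i => c i + r) M X ω' := by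
          rw [hsh]
          exact (Prod.ext_iff.mp h).1
        have h2 := lbr_dig (r := X') (by omega) h1 i₀
        exact Prod.ext h2.1 h2.2
      linarith
    have e1 : dp q yt om Z = CH q yt Z - CH q yt (fun ω => (om ω, Z ω)) := rfl
    have e2 : dp q yt G (fun ω => (F.lbr w c M r ω, F.T ω)) =
      CH q yt (fun ω => (F.lbr w c M r ω, F.T ω)) -
        CH q yt (fun ω => (G ω, (F.lbr w c M r ω, F.T ω))) := rfl
    nlinarith
  · rw [dg_rmd hrX]
    exact hact

end hyp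

end Pool.S6U
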