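import Pool.Agent.H10.S6U.Ue

/-!
# The local U-step: the telescopes on a rectangle of windows and velocity scales

In dimension three; the context `(w, q)` has the triangular frame `(a w, s, t)`, the precisions
`(q, vp w + q, κ + q)` of the velocity. `s, t` and `κ` are constant on the rectangle.
-/

set_option autoImplicit false

namespace Pool.S6U

open Finset Real
open Pool.Agent.H49.Ent Pool.Agent.H32.Dense Pool.STK Pool.KA Pool.KSAT Pool.K2S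

variable {J : ℕ}

/-- The precisions of the velocity in the context `(w, q)`, `v = vp w`. -/
def cv (v κ q : ℕ) (i : Fin 3) : ℕ := ![q, v + q, κ + q] i

theorem cv_add (v κ q r : ℕ) : (fun i => cv v κ q i + r) = cv v κ (q + r) := by
  funext i
  fin_cases i
  · rfl
  · change v + q + r = v + (q + r)
    ring
  · change κ + q + r = κ + (q + r)
    ring

/-- The frame of the window. -/
def frm {F : Fam 3 J} (σ : Fin 3 → Fin 3) (a s t : F.Ω → ℝ) (ω : F.Ω) : Fin 3 → Fin 3 → ℝ :=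
  tfr σ (a ω) (s ω) (t ω)

/-- **The frames on the rectangle.** `al` is the slope at the exact point, `a w` the slope of the
window, a multiple of `2 ^ (- vp w)`. -/
structure Rc (F : Fam 3 J) (p : F.Ω → ℝ) (σ : Fin 3 → Fin 3) (wa wb : ℕ) (vp : ℕ → ℕ) (D : ℕ)
    (a : ℕ → F.Ω → ℝ) (s t al : F.Ω → ℝ) : Prop where
  law : IsLaw p
  inj : Function.Injective σ
  wJ : wb ≤ J
  mono : ∀ w w', wa ≤ w → w ≤ w' → w' ≤ wb → vp w ≤ vp w'
  vD : ∀ w, wa ≤ w → w ≤ wb → vp w ≤ D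
  near : ∀ w, wa ≤ w → w ≤ wb → ∀ ω, 0 < p ω → |al ω - a w ω| ≤ 3 / 2 ^ vp w
  grid : ∀ w, wa ≤ w → w ≤ wb → ∀ ω, 0 < p ω → ∃ n : ℤ, a w ω = n / 2 ^ vp w
  det : ∀ w, wa ≤ w → w ≤ wb → Det p (slam F w) (fun ω => (a w ω, (s ω, t ω)))

/-- The slope seen in the context. -/
noncomputable def sl {F : Fam 3 J} (v D : ℕ) (a al : F.Ω → ℝ) (ω : F.Ω) : ℝ :=
  2 ^ v * ((Uni.dg D al ω : ℝ) / 2 ^ D - a ω)

section basic

variable {F : Fam 3 J} {p : F.Ω → ℝ} {σ : Fin 3 → Fin 3} {wa wb : ℕ} {vp : ℕ → ℕ} {D : ℕ}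
  {a : ℕ → F.Ω → ℝ} {s t al : F.Ω → ℝ} {w w' : ℕ}

theorem dg_near (D : ℕ) (al : F.Ω → ℝ) (ω : F.Ω) :
    |(Uni.dg D al ω : ℝ) / 2 ^ D - al ω| ≤ 1 / 2 ^ D := by
  have h1 := Int.floor_le ((2 : ℝ) ^ D * al ω)
  have h2 := Int.lt_floor_add_one ((2 : ℝ) ^ D * al ω)
  have e : (Uni.dg D al ω : ℝ) / 2 ^ D - al ω =
      ((⌊(2 : ℝ) ^ D * al ω⌋ : ℝ) - 2 ^ D * al ω) / 2 ^ D := by
    unfold Uni.dg
    field_simp
  rw [e, abs_div, abs_of_pos (by positivity : (0 : ℝ) < 2 ^ D)]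
  refine div_le_div_of_nonneg_right ?_ (by positivity)
  rw [abs_le]
  constructor <;> linarith

theorem pw_le {x y : ℕ} (h : x ≤ y) {c : ℝ} (hc : 0 ≤ c) : c / (2 : ℝ) ^ y ≤ c / 2 ^ x :=
  div_le_div_of_nonneg_left hc (by positivity) (pow_le_pow_right₀ (by norm_num) h)

theorem Rc.sl4 (h : Rc F p σ wa wb vp D a s t al) (h1 : wa ≤ w) (h2 : w ≤ wb) {ω : F.Ω}
    (hω : 0 < p ω) : |sl (vp w) D (a w) al ω| ≤ 4 := by
  have k1 := h.near w h1 h2 ω hω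
  have k2 := dg_near D al ω
  have k3 := pw_le (h.vD w h1 h2) (zero_le_one (α := ℝ))
  unfold sl
  rw [abs_mul, abs_of_pos (by positivity : (0 : ℝ) < 2 ^ vp w)]
  have k4 : |(Uni.dg D al ω : ℝ) / 2 ^ D - a w ω| ≤ 4 / 2 ^ vp w := by
    have e : (4 : ℝ) / 2 ^ vp w = 1 / 2 ^ vp w + 3 / 2 ^ vp w := by ring
    have e2 : (Uni.dg D al ω : ℝ) / 2 ^ D - a w ω =
        ((Uni.dg D al ω : ℝ) / 2 ^ D - al ω) + (al ω - a w ω) := by ring
    rw [e, e2]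
    refine (abs_add_le _ _).trans ?_
    linarith
  calc (2 : ℝ) ^ vp w * |(Uni.dg D al ω : ℝ) / 2 ^ D - a w ω| ≤ 2 ^ vp w * (4 / 2 ^ vp w) :=
        mul_le_mul_of_nonneg_left k4 (by positivity)
    _ = 4 := by field_simp

/-- The frame of the window from the frame of the exact point. -/
theorem Rc.CH_a {T : Type} (h : Rc F p σ wa wb vp D a s t al) (h1 : wa ≤ w) (h2 : w ≤ wb)
    {Z : F.Ω → T} (hZ : Det p Z (Uni.dg D al)) : CH p (a w) Z ≤ Real.log 17 := by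
  have hp := h.law
  have k1 := CH_int hp (fun ω => ⌊(2 : ℝ) ^ vp w * a w ω⌋) Z (c := 8) (by
    intro ω ω' hω hω' e
    have e1 : ⌊(2 : ℝ) ^ D * al ω⌋ = ⌊(2 : ℝ) ^ D * al ω'⌋ := hZ ω ω' hω hω' e
    have n1 := Plk.abs_sub_lt_of_floor e1
    have n2 := h.near w h1 h2 ω hω
    have n3 := h.near w h1 h2 ω' hω'
    have n4 : |al ω - al ω'| ≤ 1 / 2 ^ D := by
      rw [← mul_sub, abs_mul, abs_of_pos (by positivity : (0 : ℝ) < 2 ^ D)] at n1
      rw [le_div_iff₀ (by positivity), mul_comm]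
      exact n1
    have n5 := pw_le (h.vD w h1 h2) (zero_le_one (α := ℝ))
    have n6 : |a w ω - a w ω'| ≤ 7 / 2 ^ vp w := by
      have e3 : (7 : ℝ) / 2 ^ vp w = 3 / 2 ^ vp w + 1 / 2 ^ vp w + 3 / 2 ^ vp w := by ring
      rw [e3]
      rw [abs_le] at n2 n3 n4 ⊢
      constructor <;> linarith [n2.1, n2.2, n3.1, n3.2, n4.1, n4.2]
    refine (Plk.floor_sub_lt (c := 7) ?_).trans (by norm_num)
    rw [← mul_sub, abs_mul, abs_of_pos (by positivity : (0 : ℝ) < 2 ^ vp w)]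
    calc (2 : ℝ) ^ vp w * |a w ω - a w ω'| ≤ 2 ^ vp w * (7 / 2 ^ vp w) :=
          mul_le_mul_of_nonneg_left n6 (by positivity)
      _ = 7 := by field_simp)
  have k2 : CH p (a w) Z ≤ CH p (fun ω => ⌊(2 : ℝ) ^ vp w * a w ω⌋) Z := by
    refine CH_mono_left hp.nonneg ?_
    intro ω ω' hω hω' e
    have e1 : ⌊(2 : ℝ) ^ vp w * a w ω⌋ = ⌊(2 : ℝ) ^ vp w * a w ω'⌋ := (Prod.ext_iff.mp e).1
    obtain ⟨n, hn⟩ := h.grid w h1 h2 ω hω
    obtain ⟨n', hn'⟩ := h.grid w h1 h2 ω' hω'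
    have e2 : (2 : ℝ) ^ vp w * a w ω = n := by rw [hn]; field_simp
    have e3 : (2 : ℝ) ^ vp w * a w ω' = n' := by rw [hn']; field_simp
    rw [e2, e3, Int.floor_intCast, Int.floor_intCast] at e1
    rw [hn, hn', e1]
  refine (k2.trans k1).trans (Real.log_le_log (by norm_num) (by norm_num))

/-- The frames of two windows. -/
theorem Rc.two (h : Rc F p σ wa wb vp D a s t al) (h1 : wa ≤ w) (h2 : w ≤ wb) (h1' : wa ≤ w')
    (h2' : w' ≤ wb) {v : ℕ} (hv : v ≤ vp w) (hv' : v ≤ vp w') {ω : F.Ω} (hω : 0 < p ω) :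
    |a w ω - a w' ω| ≤ 6 / 2 ^ v := by
  have n1 := h.near w h1 h2 ω hω
  have n2 := h.near w' h1' h2' ω hω
  have n3 := pw_le hv (by norm_num : (0 : ℝ) ≤ 3)
  have n4 := pw_le hv' (by norm_num : (0 : ℝ) ≤ 3)
  have e : (6 : ℝ) / 2 ^ v = 3 / 2 ^ v + 3 / 2 ^ v := by ring
  rw [e]
  rw [abs_le] at n1 n2 ⊢
  constructor <;> linarith [n1.1, n1.2, n2.1, n2.2]

/-- The row of the line is the row of the frame of the exact point. -/
theorem tnu_eq {c : Fin 3 → ℕ} (hw : w ≤ J) {v : ℕ} (hc : c 1 = v + c 0) (ω : F.Ω) :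
    tnu F w c (frm σ (a w) s t) 0 1 (sl v D (a w) al) ω =
      2 ^ (c 1 + w) * (F.x ω (σ 1) - (Uni.dg D al ω : ℝ) / 2 ^ D * F.x ω (σ 0)) -
        F.mrk w c (frm σ (a w) s t)
          (fun ω => Box.tsu (fun i => c i + w) (c 1 + w) ((Uni.dg D al ω : ℝ) / 2 ^ D - a w ω)) ω := by
  have h1 := Box.cf_tfr1 σ (fun i => c i + w) (c 1 + w) (a w ω) (s ω) (t ω)
    ((Uni.dg D al ω : ℝ) / 2 ^ D) 0 0
  have h2 := Box.row_eq F hw (c := c) (M := frm σ (a w) s t)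
    (S := fun ω => Box.tsu (fun i => c i + w) (c 1 + w) ((Uni.dg D al ω : ℝ) / 2 ^ D - a w ω))
    (ω := ω) (n := tfr σ ((Uni.dg D al ω : ℝ) / 2 ^ D) 0 0 1) (k := c 1 + w) h1
  have h3 : ∑ j, tfr σ ((Uni.dg D al ω : ℝ) / 2 ^ D) 0 0 1 j * F.x ω j =
      F.x ω (σ 1) - (Uni.dg D al ω : ℝ) / 2 ^ D * F.x ω (σ 0) := by
    have := Box.mco_tfr1 σ ((Uni.dg D al ω : ℝ) / 2 ^ D) 0 0 (F.x ω)
    exact this
  rw [h3] at h2
  rw [← h2]
  unfold Fam.mr tnu sl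
  rw [Fin.sum_univ_three]
  simp only [Box.tsu, Matrix.cons_val_zero, Matrix.cons_val_one, Matrix.cons_val_two,
    Matrix.tail_cons, Matrix.head_cons]
  have e1 : (2 : ℝ) ^ (c 1 + w) / 2 ^ (c 0 + w) = 2 ^ v := by
    rw [hc]
    have : (2 : ℝ) ^ (v + c 0 + w) = 2 ^ v * 2 ^ (c 0 + w) := by
      rw [← pow_add]
      congr 1
      ring
    rw [this]
    field_simp
  have e2 : (2 : ℝ) ^ (c 1 + w) / 2 ^ (c 1 + w) = 1 := by field_simp
  rw [e1, e2]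
  ring

/-- The slope is a function of the context and of the frame of the exact point. -/
theorem Rc.det_sl (hσ : Function.Injective σ) {c : Fin 3 → ℕ} {v : ℕ} {ω ω' : F.Ω}
    (hb : F.blb w c (frm σ (a w) s t) ω = F.blb w c (frm σ (a w) s t) ω')
    (hG : Uni.dg D al ω = Uni.dg D al ω') :
    sl v D (a w) al ω = sl v D (a w) al ω' := by
  have h1 : frm σ (a w) s t ω = frm σ (a w) s t ω' := (Box.mlb_ext hb).2.1
  have h2 := (Box.tfr_eq hσ h1).1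
  unfold sl
  rw [h2, hG]

end basic

end Pool.S6U
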