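import Pool.Agent.H10.S6U.Rect

/-!
# The local U-step: one step of the telescopes
-/

set_option autoImplicit false

namespace Pool.S6U

open Finset Real
open Pool.Agent.H49.Ent Pool.Agent.H32.Dense Pool.STK Pool.KA Pool.KSAT Pool.K2S

variable {J : ℕ} {F : Fam 3 J} {p : F.Ω → ℝ} {σ : Fin 3 → Fin 3} {wa wb : ℕ} {vp : ℕ → ℕ}
  {D : ℕ} {a : ℕ → F.Ω → ℝ} {s t al : F.Ω → ℝ} {w w' κ q q' X : ℕ}

/-- The sum of the constants. -/
noncomputable def cst : ℝ := Real.log 17 + 6 * Real.log 75 + Real.log 7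

theorem cst_nonneg : 0 ≤ cst := by
  unfold cst
  have h1 : 0 ≤ Real.log 17 := Real.log_nonneg (by norm_num)
  have h2 : 0 ≤ Real.log 75 := Real.log_nonneg (by norm_num)
  have h3 : 0 ≤ Real.log 7 := Real.log_nonneg (by norm_num)
  linarith

theorem frm_st (hσ : Function.Injective σ) {c : Fin 3 → ℕ} {b : F.Ω → ℝ} {ω ω' : F.Ω}
    (h : F.blb w c (frm σ b s t) ω = F.blb w c (frm σ b s t) ω') :
    b ω = b ω' ∧ s ω = s ω' ∧ t ω = t ω' :=
  Box.tfr_eq hσ (Box.mlb_ext h).2.1

/-- The base coordinate does not depend on the frame. -/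
theorem mco0 (b : F.Ω → ℝ) (ω : F.Ω) (x : Fin 3 → ℝ) : mco (frm σ b s t ω) x 0 = x (σ 0) :=
  Box.mco_tfr0 σ (b ω) (s ω) (t ω) x

/-- **(B)**, one step: `w + X ≤ w'`, the same velocity scale. -/
theorem stepB (h : Rc F p σ wa wb vp D a s t al) (h1 : wa ≤ w) (hX : w + X ≤ w')
    (h2 : w' ≤ wb) :
    CH p (fun ω => (Uni.dg X (fun ω => F.mx w (cv (vp w) κ q) (frm σ (a w) s t) ω 0) ω,
        cdn F w (cv (vp w) κ q) (frm σ (a w) s t) (Uni.dg D al) ω))
      (cdn F w' (cv (vp w') κ q) (frm σ (a w') s t) (Uni.dg D al)) ≤ cst := by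
  have hp := h.law
  have h0 := hp.nonneg
  have hwJ : w' ≤ J := h2.trans h.wJ
  have hww : w ≤ w' := by omega
  obtain ⟨Z', hZ'⟩ : ∃ Z', Z' = cdn F w' (cv (vp w') κ q) (frm σ (a w') s t) (Uni.dg D al) :=
    ⟨_, rfl⟩
  obtain ⟨Z, hZ⟩ : ∃ Z, Z = cdn F w (cv (vp w) κ q) (frm σ (a w) s t) (Uni.dg D al) := ⟨_, rfl⟩
  obtain ⟨V, hV⟩ : ∃ V, V = Uni.dg X (fun ω => F.mx w (cv (vp w) κ q) (frm σ (a w) s t) ω 0) :=
    ⟨_, rfl⟩
  obtain ⟨B, hB⟩ : ∃ B, B = F.blb w (cv (vp w) κ q) (frm σ (a w) s t) := ⟨_, rfl⟩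
  rw [← hZ', ← hZ, ← hV]
  have zd : ∀ ω ω', Z' ω = Z' ω' →
      F.blb w' (cv (vp w') κ q) (frm σ (a w') s t) ω =
        F.blb w' (cv (vp w') κ q) (frm σ (a w') s t) ω' ∧
      Uni.dg D al ω = Uni.dg D al ω' ∧ F.T ω = F.T ω' := by
    intro ω ω' e
    rw [hZ'] at e
    have e1 := Prod.ext_iff.mp e
    have e2 := Prod.ext_iff.mp e1.2
    exact ⟨e1.1, e2.1, e2.2⟩
  have s1 := h.CH_a h1 (by omega : w ≤ wb) (Z := Z') (fun ω ω' _ _ e => (zd ω ω' e).2.1)
  have s2 : CH p B (fun ω => (a w ω, Z' ω)) ≤ 2 * ((3 : ℕ) * Real.log (12 * 6 + 3)) := by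
    rw [hB]
    refine Box.CH_blb_vel (F := F) (p := p) (w := w') (w' := w) (c := cv (vp w') κ q)
      (c' := cv (vp w) κ q) (σ := σ) (a := a w') (s := s) (t := t) (a' := a w) (s' := s)
      (t' := t) (D := 6) hp hwJ hww (by norm_num) ?_ ?_ ?_ ?_ (fun ω => (a w ω, Z' ω)) ?_
    · intro i
      have := h.mono w w' h1 hww h2
      fin_cases i
      · exact le_rfl
      · change vp w + q ≤ vp w' + q
        omega
      · exact le_rfl
    · intro ω hω
      have k1 := h.two h1 (by omega : w ≤ wb) (by omega : wa ≤ w') h2 (le_refl (vp w))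
        (h.mono w w' h1 hww h2) hω
      refine k1.trans (le_of_eq ?_)
      change (6 : ℝ) / 2 ^ vp w = 6 * 2 ^ q / 2 ^ (vp w + q)
      rw [pow_add]
      field_simp
    · intro ω _
      rw [sub_self, abs_zero]
      positivity
    · intro ω _
      rw [sub_self, sub_self, zero_mul, add_zero, abs_zero]
      positivity
    · intro ω ω' _ _ e
      have e1 := Prod.ext_iff.mp e
      obtain ⟨g1, g2, g3⟩ := zd ω ω' e1.2
      obtain ⟨f1, f2, f3⟩ := frm_st h.inj g1
      exact ⟨g1, e1.1, f2, f3⟩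
  have s3 : CH p V (fun ω => (B ω, (a w ω, Z' ω))) ≤ Real.log 7 := by
    have k1 := CH_int hp V (fun ω => (B ω, (a w ω, Z' ω))) (c := 3) (by
      intro ω ω' _ _ e
      have e1 := Prod.ext_iff.mp e
      obtain ⟨g1, g2, g3⟩ := zd ω ω' (Prod.ext_iff.mp e1.2).2
      have eB : F.blb w (cv (vp w) κ q) (frm σ (a w) s t) ω =
          F.blb w (cv (vp w) κ q) (frm σ (a w) s t) ω' := by
        have := e1.1
        rw [hB] at this
        exact this
      have n1 := Box.mx_near hwJ g1 g3 0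
      rw [mco0, mco0] at n1
      have p1 := Box.pos_eq F (w := w) (by omega) (cv (vp w) κ q) (frm σ (a w) s t) ω 0
      have p2 := Box.pos_eq F (w := w) (by omega) (cv (vp w) κ q) (frm σ (a w) s t) ω' 0
      rw [mco0] at p1 p2
      have m1 := congrFun (Box.mkn_det (F := F) eB g3) 0
      rw [hV]
      refine (Plk.floor_sub_lt (c := 2) ?_).trans (by norm_num)
      have e4 : (2 : ℝ) ^ X * F.mx w (cv (vp w) κ q) (frm σ (a w) s t) ω 0 -
          2 ^ X * F.mx w (cv (vp w) κ q) (frm σ (a w) s t) ω' 0 =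
          2 ^ (X + (cv (vp w) κ q 0 + w)) * (F.x ω (σ 0) - F.x ω' (σ 0)) := by
        rw [pow_add]
        have : F.mx w (cv (vp w) κ q) (frm σ (a w) s t) ω 0 -
          F.mx w (cv (vp w) κ q) (frm σ (a w) s t) ω' 0 =
          2 ^ (cv (vp w) κ q 0 + w) * (F.x ω (σ 0) - F.x ω' (σ 0)) := by
          rw [m1] at p1
          rw [mul_sub, p1, p2]
          ring
        rw [← mul_sub, this]
        ring
      rw [e4, abs_mul, abs_of_pos (by positivity : (0 : ℝ) < 2 ^ (X + (cv (vp w) κ q 0 + w)))]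
      rw [← mul_sub, abs_mul, abs_of_pos
        (by positivity : (0 : ℝ) < 2 ^ (cv (vp w') κ q 0 + w'))] at n1
      refine le_trans (mul_le_mul_of_nonneg_right ?_ (abs_nonneg _)) n1
      refine pow_le_pow_right₀ (by norm_num) ?_
      change X + (q + w) ≤ q + w'
      omega)
    refine k1.trans (Real.log_le_log (by norm_num) (by norm_num))
  have t1 := CH_le_add h0 (fun ω => (V ω, Z ω)) (a w) Z'
  have t2 := CH_le_add h0 (fun ω => (V ω, Z ω)) B (fun ω => (a w ω, Z' ω))
  have t3 : CH p (fun ω => (V ω, Z ω)) (fun ω => (B ω, (a w ω, Z' ω))) ≤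
      CH p V (fun ω => (B ω, (a w ω, Z' ω))) := by
    refine CH_mono_left h0 ?_
    intro ω ω' _ _ e
    have e1 := Prod.ext_iff.mp e
    have e2 := Prod.ext_iff.mp e1.2
    obtain ⟨g1, g2, g3⟩ := zd ω ω' (Prod.ext_iff.mp e2.2).2
    refine Prod.ext e1.1 ?_
    have e3 : B ω = B ω' := e2.1
    rw [hZ]
    rw [hB] at e3
    exact Prod.ext e3 (Prod.ext g2 g3)
  have e75 : (12 : ℝ) * 6 + 3 = 75 := by norm_num
  rw [e75] at s2
  push_cast at s2
  unfold cst
  linarith

/-- **(A)**, one step: `w' + X ≤ w`, the same row of the second coordinate. -/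
theorem stepA (h : Rc F p σ wa wb vp D a s t al) (h1 : wa ≤ w') (hX : w' + X ≤ w)
    (h2 : w ≤ wb) (hv : vp w' + X ≤ vp w) (hq : q + w + vp w = q' + w' + vp w') :
    CH p (fun ω => (vd F 0 1 w (cv (vp w) κ q) (frm σ (a w) s t) X ω,
        cdn F w (cv (vp w) κ q) (frm σ (a w) s t) (Uni.dg D al) ω))
      (cdn F w' (cv (vp w') κ q') (frm σ (a w') s t) (Uni.dg D al)) ≤ cst ∧
    CH p (Uni.dg X (tnu F w' (cv (vp w') κ q') (frm σ (a w') s t) 0 1
        (sl (vp w') D (a w') al)))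
      (fun ω => (Uni.dg X (tnu F w (cv (vp w) κ q) (frm σ (a w) s t) 0 1
          (sl (vp w) D (a w) al)) ω,
        ((vd F 0 1 w (cv (vp w) κ q) (frm σ (a w) s t) X ω,
          cdn F w (cv (vp w) κ q) (frm σ (a w) s t) (Uni.dg D al) ω),
          cdn F w' (cv (vp w') κ q') (frm σ (a w') s t) (Uni.dg D al) ω))) ≤ Real.log 5 := by
  have hp := h.law
  have h0 := hp.nonneg
  have hwJ : w ≤ J := h2.trans h.wJ
  have hww : w' ≤ w := by omega
  have hwJ' : w' ≤ J := by omega
  obtain ⟨Z', hZ'⟩ : ∃ Z', Z' = cdn F w' (cv (vp w') κ q') (frm σ (a w') s t) (Uni.dg D al) :=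
    ⟨_, rfl⟩
  obtain ⟨Z, hZ⟩ : ∃ Z, Z = cdn F w (cv (vp w) κ q) (frm σ (a w) s t) (Uni.dg D al) := ⟨_, rfl⟩
  obtain ⟨V, hV⟩ : ∃ V, V = vd F 0 1 w (cv (vp w) κ q) (frm σ (a w) s t) X := ⟨_, rfl⟩
  rw [← hZ', ← hZ, ← hV]
  have zd : ∀ ω ω', Z' ω = Z' ω' →
      F.blb w' (cv (vp w') κ q') (frm σ (a w') s t) ω =
        F.blb w' (cv (vp w') κ q') (frm σ (a w') s t) ω' ∧
      Uni.dg D al ω = Uni.dg D al ω' ∧ F.T ω = F.T ω' := by
    intro ω ω' e
    rw [hZ'] at e
    have e1 := Prod.ext_iff.mp e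
    have e2 := Prod.ext_iff.mp e1.2
    exact ⟨e1.1, e2.1, e2.2⟩
  constructor
  · -- the fine label
    obtain ⟨kf, hkf⟩ : ∃ kf : Fin 3 → ℕ, kf = ![q + w + X, vp w + q + w, κ + q + w] := ⟨_, rfl⟩
    obtain ⟨cf, hcf⟩ : ∃ cf : Fin 3 → ℕ, cf = ![q + X, vp w + q + X, κ + q] := ⟨_, rfl⟩
    obtain ⟨B, hB⟩ : ∃ B, B = F.mlb w kf cf (frm σ (a w) s t) := ⟨_, rfl⟩
    have s1 := h.CH_a (by omega : wa ≤ w) h2 (Z := Z') (fun ω ω' _ _ e => (zd ω ω' e).2.1)
    have s2 : CH p B (fun ω => (a w ω, Z' ω)) ≤ 2 * ((3 : ℕ) * Real.log (4 * (3 : ℕ) * 6 + 3)) := by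
      rw [hB]
      refine Box.CH_mlb (F := F) (p := p) (g := w') (g' := w)
        (k := fun i => cv (vp w') κ q' i + w') (c := cv (vp w') κ q')
        (k' := kf) (c' := cf) (kk := fun i => cv (vp w') κ q' i + min w' w)
        (M := frm σ (a w') s t) (M' := frm σ (a w) s t) (D := 6) hp hwJ' hwJ (by norm_num)
        ?_ (fun i => le_rfl) ?_ (fun ω => (a w ω, Z' ω)) ?_
      · intro i
        have := min_le_left w' w
        change cv (vp w') κ q' i + min w' w ≤ cv (vp w') κ q' i + w'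
        omega
      · intro ω hω
        have hmin : min w' w = w' := min_eq_left hww
        have k1 := h.two (by omega : wa ≤ w) h2 h1 (by omega : w' ≤ wb) (by omega : vp w' ≤ vp w)
          (le_refl (vp w')) hω
        refine ⟨_, Box.cg_tfr σ (a w' ω) (s ω) (t ω) (a w ω) (s ω) (t ω), ?_, ?_⟩
        · intro i j
          rw [hmin]
          refine Box.tch_le (k := fun i => cv (vp w') κ q' i + w') (k' := kf) (D := 6)
            (by norm_num) ?_ ?_ ?_ ?_ ?_ ?_ i j
          · rw [hkf]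
            change q + w + X ≤ q' + w'
            omega
          · rw [hkf]
            change vp w + q + w ≤ vp w' + q' + w'
            omega
          · rw [hkf]
            change κ + q + w ≤ κ + q' + w'
            omega
          · refine k1.trans (le_of_eq ?_)
            rw [hkf]
            change (6 : ℝ) / 2 ^ vp w' = 6 * 2 ^ (q' + w') / 2 ^ (vp w + q + w)
            have e : vp w + q + w = vp w' + (q' + w') := by omega
            rw [e, pow_add (2 : ℝ) (vp w')]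
            field_simp
          · rw [sub_self, abs_zero]
            positivity
          · rw [sub_self, sub_self, zero_mul, add_zero, abs_zero]
            positivity
        · intro i j
          refine Box.tch_le (k := cv (vp w') κ q') (k' := cf) (D := 6)
            (by norm_num) ?_ ?_ ?_ ?_ ?_ ?_ i j
          · rw [hcf]
            change q + X ≤ q'
            omega
          · rw [hcf]
            change vp w + q + X ≤ vp w' + q'
            omega
          · rw [hcf]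
            change κ + q ≤ κ + q'
            omega
          · refine k1.trans ?_
            rw [hcf]
            change (6 : ℝ) / 2 ^ vp w' ≤ 6 * 2 ^ q' / 2 ^ (vp w + q + X)
            rw [div_le_div_iff₀ (by positivity) (by positivity), mul_assoc, ← pow_add]
            refine mul_le_mul_of_nonneg_left (pow_le_pow_right₀ (by norm_num) ?_) (by norm_num)
            omega
          · rw [sub_self, abs_zero]
            positivity
          · rw [sub_self, sub_self, zero_mul, add_zero, abs_zero]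
            positivity
      · intro ω ω' _ _ e
        have e1 := Prod.ext_iff.mp e
        obtain ⟨g1, g2, g3⟩ := zd ω ω' e1.2
        obtain ⟨f1, f2, f3⟩ := frm_st h.inj g1
        refine ⟨g1, Lab.T1_of_T g3, ?_⟩
        change tfr σ (a w ω) (s ω) (t ω) = tfr σ (a w ω') (s ω') (t ω')
        have e2 : a w ω = a w ω' := e1.1
        rw [e2, f2, f3]
    -- everything is a function of the fine label
    have hdet : ∀ ω ω', B ω = B ω' →
        F.blb w (cv (vp w) κ q) (frm σ (a w) s t) ω =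
          F.blb w (cv (vp w) κ q) (frm σ (a w) s t) ω' ∧ V ω = V ω' := by
      intro ω ω' e
      rw [hB] at e
      obtain ⟨g1, g2, g3, g4, g5⟩ := Box.mlb_ext e
      have r0 : ⌊(2 : ℝ) ^ (q + w + X) * mco (frm σ (a w) s t ω) (F.x1 w ω) 0⌋ =
          ⌊(2 : ℝ) ^ (q + w + X) * mco (frm σ (a w) s t ω') (F.x1 w ω') 0⌋ := by
        have := congrFun g3 0
        rw [hkf] at this
        exact this
      have r1 : ⌊(2 : ℝ) ^ (vp w + q + w) * mco (frm σ (a w) s t ω) (F.x1 w ω) 1⌋ =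
          ⌊(2 : ℝ) ^ (vp w + q + w) * mco (frm σ (a w) s t ω') (F.x1 w ω') 1⌋ := by
        have := congrFun g3 1
        rw [hkf] at this
        exact this
      have r2 : ⌊(2 : ℝ) ^ (κ + q + w) * mco (frm σ (a w) s t ω) (F.x1 w ω) 2⌋ =
          ⌊(2 : ℝ) ^ (κ + q + w) * mco (frm σ (a w) s t ω') (F.x1 w ω') 2⌋ := by
        have := congrFun g3 2
        rw [hkf] at this
        exact this
      have v0 : ⌊(2 : ℝ) ^ (q + X) * mco (frm σ (a w) s t ω) (F.d ω) 0⌋ =
          ⌊(2 : ℝ) ^ (q + X) * mco (frm σ (a w) s t ω') (F.d ω') 0⌋ := by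
        have := congrFun g4 0
        rw [hcf] at this
        exact this
      have v1 : ⌊(2 : ℝ) ^ (vp w + q + X) * mco (frm σ (a w) s t ω) (F.d ω) 1⌋ =
          ⌊(2 : ℝ) ^ (vp w + q + X) * mco (frm σ (a w) s t ω') (F.d ω') 1⌋ := by
        have := congrFun g4 1
        rw [hcf] at this
        exact this
      have v2 : ⌊(2 : ℝ) ^ (κ + q) * mco (frm σ (a w) s t ω) (F.d ω) 2⌋ =
          ⌊(2 : ℝ) ^ (κ + q) * mco (frm σ (a w) s t ω') (F.d ω') 2⌋ := by
        have := congrFun g4 2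
        rw [hcf] at this
        exact this
      have r0' := cell_mono r0
      have v0' := cell_mono v0
      have v1' := cell_mono v1
      constructor
      · refine Box.mlb_mk g1 g2 ?_ ?_ g5
        · funext i
          fin_cases i
          · exact r0'
          · exact r1
          · exact r2
        · funext i
          fin_cases i
          · exact v0'
          · exact v1'
          · exact v2
      · have fl : ∀ (k : ℕ) (x y : ℝ), ⌊(2 : ℝ) ^ (k + X) * x⌋ = ⌊(2 : ℝ) ^ (k + X) * y⌋ →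
            ⌊(2 : ℝ) ^ X * Int.fract (2 ^ k * x)⌋ = ⌊(2 : ℝ) ^ X * Int.fract (2 ^ k * y)⌋ := by
          intro k x y e
          have e2 := cell_mono e
          rw [Lab.floor_fract, Lab.floor_fract, e2]
          have e3 : ∀ z : ℝ, (2 : ℝ) ^ X * (2 ^ k * z) = 2 ^ (k + X) * z := by
            intro z
            rw [pow_add]
            ring
          rw [e3, e3, e]
        rw [hV]
        exact Prod.ext (fl _ _ _ r0) (Prod.ext (fl _ _ _ v0) (fl _ _ _ v1))
    have t1 := CH_le_add h0 (fun ω => (V ω, Z ω)) (a w) Z'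
    have t2 := CH_le_add h0 (fun ω => (V ω, Z ω)) B (fun ω => (a w ω, Z' ω))
    have t3 : CH p (fun ω => (V ω, Z ω)) (fun ω => (B ω, (a w ω, Z' ω))) = 0 := by
      refine CH_eq_zero h0 ?_
      intro ω ω' _ _ e
      have e1 := Prod.ext_iff.mp e
      obtain ⟨g1, g2, g3⟩ := zd ω ω' (Prod.ext_iff.mp e1.2).2
      obtain ⟨f1, f2⟩ := hdet ω ω' e1.1
      rw [hZ]
      exact Prod.ext f2 (Prod.ext f1 (Prod.ext g2 g3))
    have e75 : (4 : ℝ) * (3 : ℕ) * 6 + 3 = 75 := by norm_num
    rw [e75] at s2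
    push_cast at s2
    have hl7 : 0 ≤ Real.log 7 := Real.log_nonneg (by norm_num)
    unfold cst
    linarith
  · have k1 := CH_int hp (Uni.dg X (tnu F w' (cv (vp w') κ q') (frm σ (a w') s t) 0 1
        (sl (vp w') D (a w') al)))
      (fun ω => (Uni.dg X (tnu F w (cv (vp w) κ q) (frm σ (a w) s t) 0 1
          (sl (vp w) D (a w) al)) ω, ((V ω, Z ω), Z' ω))) (c := 2) (by
      intro ω ω' _ _ e
      have e1 := Prod.ext_iff.mp e
      have e2 := Prod.ext_iff.mp e1.2
      obtain ⟨g1, g2, g3⟩ := zd ω ω' e2.2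
      have e3 : Z ω = Z ω' := (Prod.ext_iff.mp e2.1).2
      rw [hZ] at e3
      have e4 : F.blb w (cv (vp w) κ q) (frm σ (a w) s t) ω =
          F.blb w (cv (vp w) κ q) (frm σ (a w) s t) ω' := (Prod.ext_iff.mp e3).1
      have n1 : ⌊(2 : ℝ) ^ X * tnu F w (cv (vp w) κ q) (frm σ (a w) s t) 0 1
          (sl (vp w) D (a w) al) ω⌋ = ⌊(2 : ℝ) ^ X * tnu F w (cv (vp w) κ q)
            (frm σ (a w) s t) 0 1 (sl (vp w) D (a w) al) ω'⌋ := e1.1
      have n2 := Plk.abs_sub_lt_of_floor n1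
      have q1 := tnu_eq (F := F) (σ := σ) (a := a) (s := s) (t := t) (al := al) (D := D)
        (c := cv (vp w) κ q) hwJ (v := vp w) rfl
      have q2 := tnu_eq (F := F) (σ := σ) (a := a) (s := s) (t := t) (al := al) (D := D)
        (c := cv (vp w') κ q') hwJ' (v := vp w') rfl
      have hl : cv (vp w) κ q 1 + w = cv (vp w') κ q' 1 + w' := by
        change vp w + q + w = vp w' + q' + w'
        omega
      have m1 := Box.mrk_det (F := F) (S := fun ω => Box.tsu (fun i => cv (vp w) κ q i + w)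
        (cv (vp w) κ q 1 + w) ((Uni.dg D al ω : ℝ) / 2 ^ D - a w ω)) e4 g3 (by
          have := (frm_st h.inj e4).1
          rw [this, g2])
      have m2 := Box.mrk_det (F := F) (S := fun ω => Box.tsu (fun i => cv (vp w') κ q' i + w')
        (cv (vp w') κ q' 1 + w') ((Uni.dg D al ω : ℝ) / 2 ^ D - a w' ω)) g1 g3 (by
          have := (frm_st h.inj g1).1
          rw [this, g2])
      refine (Plk.floor_sub_lt (c := 1) ?_).trans (by norm_num)
      refine le_trans (le_of_eq ?_) n2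
      congr 1
      rw [q1 ω, q1 ω', q2 ω, q2 ω', m1, m2, hl]
      ring)
    refine k1.trans (Real.log_le_log (by norm_num) (by norm_num))

end Pool.S6U
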