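import Pool.Agent.H10.S6U.Step

/-!
# The local U-step: the sums of the telescopes
-/

set_option autoImplicit false

namespace Pool.S6U

open Finset Real
open Pool.Agent.H49.Ent Pool.Agent.H32.Dense Pool.STK Pool.KA Pool.KSAT Pool.K2S

variable {J : ℕ} {F : Fam 3 J} {p : F.Ω → ℝ} {σ : Fin 3 → Fin 3} {wa wb : ℕ} {vp : ℕ → ℕ}
  {D : ℕ} {a : ℕ → F.Ω → ℝ} {s t al : F.Ω → ℝ} {κ X : ℕ}

section defs

variable (F p σ vp D a s t al κ X)

/-- The terms at the context `(w, q)`. -/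
noncomputable def TA (w q : ℕ) : ℝ := tA F p 0 1 w (cv (vp w) κ q) (frm σ (a w) s t)
  (sl (vp w) D (a w) al) (Uni.dg D al) X

noncomputable def TB (w q : ℕ) : ℝ := tB F p 0 w (cv (vp w) κ q) (frm σ (a w) s t)
  (Uni.dg D al) X

noncomputable def TM (w q : ℕ) : ℝ := tM F p w (cv (vp w) κ q) (frm σ (a w) s t)
  (Uni.dg D al) X

end defs

theorem TA_nonneg (hp : IsLaw p) (w q : ℕ) : 0 ≤ TA F p σ vp D a s t al κ X w q :=
  dp_nonneg hp.nonneg _ _ _

theorem TB_nonneg (hp : IsLaw p) (w q : ℕ) : 0 ≤ TB F p σ vp D a s t al κ X w q :=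
  dp_nonneg hp.nonneg _ _ _

theorem TM_nonneg (hp : IsLaw p) (w q : ℕ) : 0 ≤ TM F p σ vp D a s t al κ X w q :=
  dp_nonneg hp.nonneg _ _ _

/-- The digits of a number between `-B` and `B`. -/
theorem CH_dg_le {T : Type} (hp : IsLaw p) (x : F.Ω → ℝ) {B : ℝ} (hB : 1 ≤ B)
    (hx : ∀ ω, 0 < p ω → |x ω| ≤ B) (Z : F.Ω → T) (n : ℕ) :
    CH p (Uni.dg n x) Z ≤ n * Real.log 2 + Real.log (7 * B) := by
  have k1 := CH_int hp (Uni.dg n x) Z (c := 3 * B * 2 ^ n) (by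
    intro ω ω' hω hω' _
    have h1 := hx ω hω
    have h2 := hx ω' hω'
    have h3 : (1 : ℝ) ≤ 2 ^ n := one_le_pow₀ (by norm_num)
    refine (Plk.floor_sub_lt (c := 2 * B * 2 ^ n) ?_).trans (by nlinarith)
    rw [← mul_sub, abs_mul, abs_of_pos (by positivity : (0 : ℝ) < 2 ^ n), mul_comm]
    refine mul_le_mul_of_nonneg_right ?_ (by positivity)
    rw [abs_le] at h1 h2 ⊢
    constructor <;> linarith [h1.1, h1.2, h2.1, h2.2])
  refine k1.trans ?_
  have h3 : (1 : ℝ) ≤ 2 ^ n := one_le_pow₀ (by norm_num)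
  have h4 : Real.log (2 * (3 * B * 2 ^ n) + 1) ≤ Real.log (2 ^ n * (7 * B)) :=
    Real.log_le_log (by positivity) (by nlinarith)
  rw [Real.log_mul (by positivity) (by positivity), Real.log_pow] at h4
  exact h4

/-- **(B)** on a separated set of windows. -/
theorem sumB (h : Rc F p σ wa wb vp D a s t al) (q : ℕ) (S : Finset ℕ)
    (hS : ∀ w ∈ S, wa ≤ w ∧ w ≤ wb) (hne : S.Nonempty)
    (hsep : ∀ x ∈ S, ∀ y ∈ S, x < y → x + X ≤ y) :
    ∑ w ∈ S, TB F p σ vp D a s t al κ X w q ≤ (X * Real.log 2 + Real.log 7) + cst * S.card := by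
  have hp := h.law
  obtain ⟨w, h1, h2, h3⟩ := H23.enum_asc X S hne hsep
  rw [← h3 (fun w => TB F p σ vp D a s t al κ X w q)]
  have key := tele hp S.card
    (fun j => Uni.dg X (fun ω => F.md (cv (vp (w j)) κ q) (frm σ (a (w j)) s t) ω 0))
    (fun j => Uni.dg X (fun ω => F.mx (w j) (cv (vp (w j)) κ q) (frm σ (a (w j)) s t) ω 0))
    (fun j => cdn F (w j) (cv (vp (w j)) κ q) (frm σ (a (w j)) s t) (Uni.dg D al))
    (c₁ := cst) (c₂ := 0) cst_nonneg le_rfl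
    (fun j hj => stepB h (hS _ (h1 j)).1 (h2 j hj) (hS _ (h1 (j + 1))).2)
    (fun j _ => by
      refine (CH_eq_zero hp.nonneg ?_).le
      intro ω ω' _ _ e
      have e1 : ⌊(2 : ℝ) ^ X * F.md (cv (vp (w j)) κ q) (frm σ (a (w j)) s t) ω 0⌋ =
        ⌊(2 : ℝ) ^ X * F.md (cv (vp (w j)) κ q) (frm σ (a (w j)) s t) ω' 0⌋ :=
        (Prod.ext_iff.mp e).1
      have key : ∀ (b : F.Ω → ℝ) (v : ℕ) (ω : F.Ω),
          F.md (cv v κ q) (frm σ b s t) ω 0 = Int.fract (2 ^ q * F.d ω (σ 0)) := by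
        intro b v ω
        unfold Fam.md
        rw [mco0]
        rfl
      show ⌊(2 : ℝ) ^ X * F.md (cv (vp (w (j + 1))) κ q) (frm σ (a (w (j + 1))) s t) ω 0⌋ =
        ⌊(2 : ℝ) ^ X * F.md (cv (vp (w (j + 1))) κ q) (frm σ (a (w (j + 1))) s t) ω' 0⌋
      rw [key, key]
      rw [key, key] at e1
      exact e1)
  have k2 : CH p (Uni.dg X (fun ω => F.md (cv (vp (w 0)) κ q) (frm σ (a (w 0)) s t) ω 0))
      (cdn F (w 0) (cv (vp (w 0)) κ q) (frm σ (a (w 0)) s t) (Uni.dg D al)) ≤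
      X * Real.log 2 + Real.log 7 := by
    have := CH_dg_le hp (fun ω => F.md (cv (vp (w 0)) κ q) (frm σ (a (w 0)) s t) ω 0) le_rfl
      (fun ω _ => by
        have := Box.md_mem F (cv (vp (w 0)) κ q) (frm σ (a (w 0)) s t) ω 0
        rw [abs_le]
        constructor <;> linarith)
      (cdn F (w 0) (cv (vp (w 0)) κ q) (frm σ (a (w 0)) s t) (Uni.dg D al)) X
    simpa using this
  refine key.trans ?_
  linarith

/-- **(A)** on a separated set of windows; `q w + w + vp w = U`. -/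
theorem sumA (h : Rc F p σ wa wb vp D a s t al) {U tt : ℕ} (q : ℕ → ℕ) (S : Finset ℕ)
    (hS : ∀ w ∈ S, wa ≤ w ∧ w ≤ wb ∧ q w + w + vp w = U) (hne : S.Nonempty) (hX : X ≤ tt)
    (ht : ∀ w w', wa ≤ w → w + tt ≤ w' → w' ≤ wb → vp w + X ≤ vp w')
    (hsep : ∀ x ∈ S, ∀ y ∈ S, x < y → x + tt ≤ y) :
    ∑ w ∈ S, TA F p σ vp D a s t al κ X w (q w) ≤
      (X * Real.log 2 + Real.log 70) + (cst + Real.log 5) * S.card := by
  have hp := h.law
  obtain ⟨w, h1, h2, h3⟩ := H23.enum_desc tt S hne hsep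
  rw [← h3 (fun w => TA F p σ vp D a s t al κ X w (q w))]
  have hl5 : 0 ≤ Real.log 5 := Real.log_nonneg (by norm_num)
  have key := tele hp S.card
    (fun j => Uni.dg X (tnu F (w j) (cv (vp (w j)) κ (q (w j))) (frm σ (a (w j)) s t) 0 1
      (sl (vp (w j)) D (a (w j)) al)))
    (fun j => vd F 0 1 (w j) (cv (vp (w j)) κ (q (w j))) (frm σ (a (w j)) s t) X)
    (fun j => cdn F (w j) (cv (vp (w j)) κ (q (w j))) (frm σ (a (w j)) s t) (Uni.dg D al))
    (c₁ := cst) (c₂ := Real.log 5) cst_nonneg hl5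
    (fun j hj => (stepA h (hS _ (h1 (j + 1))).1 (by have := h2 j hj; omega) (hS _ (h1 j)).2.1
      (ht _ _ (hS _ (h1 (j + 1))).1 (h2 j hj) (hS _ (h1 j)).2.1)
      (by rw [(hS _ (h1 (j + 1))).2.2, (hS _ (h1 j)).2.2])).1)
    (fun j hj => (stepA h (hS _ (h1 (j + 1))).1 (by have := h2 j hj; omega) (hS _ (h1 j)).2.1
      (ht _ _ (hS _ (h1 (j + 1))).1 (h2 j hj) (hS _ (h1 j)).2.1)
      (by rw [(hS _ (h1 (j + 1))).2.2, (hS _ (h1 j)).2.2])).2)
  have k2 : CH p (Uni.dg X (tnu F (w 0) (cv (vp (w 0)) κ (q (w 0))) (frm σ (a (w 0)) s t) 0 1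
      (sl (vp (w 0)) D (a (w 0)) al)))
      (cdn F (w 0) (cv (vp (w 0)) κ (q (w 0))) (frm σ (a (w 0)) s t) (Uni.dg D al)) ≤
      X * Real.log 2 + Real.log 70 := by
    have := CH_dg_le hp (tnu F (w 0) (cv (vp (w 0)) κ (q (w 0))) (frm σ (a (w 0)) s t) 0 1
      (sl (vp (w 0)) D (a (w 0)) al)) (B := 10) (by norm_num)
      (fun ω hω => tnu_mem (h.sl4 (hS _ (h1 0)).1 (hS _ (h1 0)).2.1 hω))
      (cdn F (w 0) (cv (vp (w 0)) κ (q (w 0))) (frm σ (a (w 0)) s t) (Uni.dg D al)) X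
    refine this.trans (le_of_eq ?_)
    norm_num
  refine key.trans ?_
  linarith

/-- The entropy of the frame of the exact point given the frame of the window. -/
theorem Rc.CH_G {T : Type} {w : ℕ} (h : Rc F p σ wa wb vp D a s t al) (h1 : wa ≤ w)
    (h2 : w ≤ wb) {Z : F.Ω → T} (hZ : Det p Z (a w)) :
    CH p (Uni.dg D al) Z ≤ (D - vp w : ℕ) * Real.log 2 + Real.log 15 := by
  have hp := h.law
  have hv := h.vD w h1 h2
  have k1 := CH_int hp (Uni.dg D al) Z (c := 7 * 2 ^ (D - vp w)) (by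
    intro ω ω' hω hω' e
    have e1 := hZ ω ω' hω hω' e
    have n2 := h.near w h1 h2 ω hω
    have n3 := h.near w h1 h2 ω' hω'
    have h3 : (1 : ℝ) ≤ 2 ^ (D - vp w) := one_le_pow₀ (by norm_num)
    have n4 : |al ω - al ω'| ≤ 6 / 2 ^ vp w := by
      have e3 : (6 : ℝ) / 2 ^ vp w = 3 / 2 ^ vp w + 3 / 2 ^ vp w := by ring
      rw [e1] at n2
      rw [e3]
      rw [abs_le] at n2 n3 ⊢
      constructor <;> linarith [n2.1, n2.2, n3.1, n3.2]
    refine (Plk.floor_sub_lt (c := 6 * 2 ^ (D - vp w)) ?_).trans (by linarith)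
    rw [← mul_sub, abs_mul, abs_of_pos (by positivity : (0 : ℝ) < 2 ^ D)]
    have e5 : (2 : ℝ) ^ D = 2 ^ (D - vp w) * 2 ^ vp w := by
      rw [← pow_add]
      congr 1
      omega
    calc (2 : ℝ) ^ D * |al ω - al ω'| ≤ 2 ^ D * (6 / 2 ^ vp w) :=
          mul_le_mul_of_nonneg_left n4 (by positivity)
      _ = 6 * 2 ^ (D - vp w) := by
          rw [e5]
          field_simp)
  refine k1.trans ?_
  have h3 : (1 : ℝ) ≤ 2 ^ (D - vp w) := one_le_pow₀ (by norm_num)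
  have h4 : Real.log (2 * (7 * 2 ^ (D - vp w)) + 1) ≤ Real.log (2 ^ (D - vp w) * 15) :=
    Real.log_le_log (by positivity) (by nlinarith)
  rw [Real.log_mul (by positivity) (by norm_num), Real.log_pow] at h4
  exact h4

/-- **(M)** on a separated set of velocity scales. -/
theorem sumM {w : ℕ} (h : Rc F p σ wa wb vp D a s t al) (h1 : wa ≤ w) (h2 : w ≤ wb)
    (S : Finset ℕ) (hne : S.Nonempty) (hsep : ∀ x ∈ S, ∀ y ∈ S, x < y → x + X ≤ y) :
    ∑ q ∈ S, TM F p σ vp D a s t al κ X w q ≤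
      ((D - vp w : ℕ) * Real.log 2 + Real.log 15) + 0 * S.card := by
  have hp := h.law
  obtain ⟨q, g1, g2, g3⟩ := H23.enum_asc X S hne hsep
  rw [← g3 (fun q => TM F p σ vp D a s t al κ X w q)]
  have key := tele hp S.card (fun _ => Uni.dg D al)
    (fun j => F.lbr w (cv (vp w) κ (q j)) (frm σ (a w) s t) X)
    (fun j ω => (F.blb w (cv (vp w) κ (q j)) (frm σ (a w) s t) ω, F.T ω))
    (c₁ := 0) (c₂ := 0) le_rfl le_rfl
    (fun j hj => by
      refine (CH_eq_zero hp.nonneg ?_).le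
      intro ω ω' _ _ e
      have e1 := Prod.ext_iff.mp e
      have e2 : F.lbr w (cv (vp w) κ 0) (frm σ (a w) s t) (q (j + 1)) ω =
          F.lbr w (cv (vp w) κ 0) (frm σ (a w) s t) (q (j + 1)) ω' := by
        unfold Fam.lbr
        rw [cv_add, Nat.zero_add]
        exact e1.1
      have e3 := lbr_mono (r := q j + X) (g2 j hj) e2
      have e4 := lbr_mono (r := q j) (by omega) e3
      unfold Fam.lbr at e3 e4 ⊢
      rw [cv_add, Nat.zero_add] at e3 e4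
      refine Prod.ext ?_ (Prod.ext e4 e1.2)
      simp only
      rw [cv_add]
      exact e3)
    (fun j _ => by
      refine (CH_eq_zero hp.nonneg ?_).le
      intro ω ω' _ _ e
      exact (Prod.ext_iff.mp e).1)
  have k2 := h.CH_G h1 h2 (Z := fun ω =>
    (F.blb w (cv (vp w) κ (q 0)) (frm σ (a w) s t) ω, F.T ω)) (fun ω ω' _ _ e =>
      (frm_st h.inj (Prod.ext_iff.mp e).1).1)
  refine key.trans ?_
  linarith

end Pool.S6U
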