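import Pool.Agent.H10.S6U.Pt

/-!
# The local U-step at one context: the constants
-/

set_option autoImplicit false

namespace Pool.S6U

open Finset Real
open Pool.Agent.H49.Ent Pool.Agent.H32.Dense Pool.STK Pool.KA Pool.KSAT Pool.K2S

/-- The hypotheses of the U-step which do not depend on the block, under the law `q` of an event:
the time, and the slopes. -/
structure Tq {m J : ℕ} (F : Fam m J) (w : ℕ) (c : Fin m → ℕ) (M : F.Ω → Fin m → Fin m → ℝ)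
    (S : F.Ω → ℝ) (X : ℕ) (δ x₁ ε₁ : ℝ) (q : F.Ω → ℝ) : Prop where
  tm : ((J : ℝ) - w) * Real.log 2 - δ * X ≤ CH q F.T (slam F w)
  h6 : Pool.KAF.Pr (dbl q (F.lbr w c M X))
    {v | |S v.1 - S v.2| < (2 : ℝ) ^ (-(x₁ * X))} ≤ ε₁

/-- The hypotheses of the U-step on the block `(r, r + X']` under the law `q` of an event: the
first coordinate is full, its velocity is active. -/
structure Bq {m J : ℕ} (F : Fam m J) (i₀ : Fin m) (w : ℕ) (c : Fin m → ℕ)
    (M : F.Ω → Fin m → Fin m → ℝ) (X r X' : ℕ) (δ ca : ℝ) (q : F.Ω → ℝ) : Prop where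
  wf : X' * Real.log 2 - δ * X ≤ CH q (Uni.dg X' (fun ω => F.mx w (fun i => c i + r) M ω i₀))
    (fun ω => (F.lbr w c M r ω, F.T ω))
  act : ca * X' * Real.log 2 ≤
    CH q (Uni.dg X' (fun ω => F.md (fun i => c i + r) M ω i₀)) (F.lbr w c M r)

/-- The dependences in the context `(w, c)` are small. -/
structure Dq {m J : ℕ} {Γ : Type} (F : Fam m J) (p : F.Ω → ℝ) (i₀ iu : Fin m) (w : ℕ)
    (c : Fin m → ℕ) (M : F.Ω → Fin m → Fin m → ℝ) (S : F.Ω → ℝ) (G : F.Ω → Γ) (X : ℕ)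
    (δ : ℝ) : Prop where
  a : tA F p i₀ iu w c M S G X ≤ δ * X
  b : tB F p i₀ w c M G X ≤ δ * X
  m : tM F p w c M G X ≤ δ * X

/-- **The U-step at one context.** -/
theorem ue_nu : ∀ ε ca : ℝ, 0 < ε → 0 < ca → ∃ (x₁ ϖ δ ε₁ : ℝ) (n d₀ : ℕ), 0 < x₁ ∧ 0 < ϖ ∧
    ϖ ≤ 1 ∧ 0 < δ ∧ 0 < ε₁ ∧ 1 ≤ n ∧ 1 ≤ d₀ ∧
    ∀ {m J : ℕ} (F : Fam m J) {Γ : Type} (G : F.Ω → Γ) (p : F.Ω → ℝ) (i₀ iu : Fin m) (w : ℕ)
      (c : Fin m → ℕ) (M : F.Ω → Fin m → Fin m → ℝ) (S : F.Ω → ℝ) (d : ℕ), IsLaw p →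
      d₀ ≤ d → w + n * d ≤ J → Det p (slam F w) M →
      Det p (fun ω => (F.blb w c M ω, (G ω, F.T ω))) S → (∀ ω, 0 < p ω → |S ω| ≤ 4) →
      (∀ E : F.Ω → Prop, ϖ ≤ Pe p E →
        Tq F w c M S (n * d) δ x₁ ε₁ (Pool.Agent.H49.Ent.cond p E True)) →
      (∀ r X', d ∣ r → d ∣ X' → 0 < X' → r + X' ≤ n * d → ∀ E : F.Ω → Prop, ϖ ≤ Pe p E →
        Bq F i₀ w c M (n * d) r X' δ ca (Pool.Agent.H49.Ent.cond p E True)) →
      (∀ r, d ∣ r → r < n * d → Dq F p i₀ iu w (fun i => c i + r) M S G (n * d) δ) →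
      (1 - ε) * (n * d : ℕ) * Real.log 2 ≤
        CH p (Uni.dg (n * d) (rnu F w c M (n * d) 0 i₀ iu S))
          (fun ω => (F.blb w c M ω, (G ω, F.T ω))) := by
  intro ε ca hε hca
  obtain ⟨x₀, η, ϖ, ι, ε₁, n₀, hx₀, hη, hϖ, hι, hε₁, hoc⟩ := ocd ε ca 0 hε hca le_rfl
  obtain ⟨u, hu⟩ : ∃ u, u = Real.log 2 := ⟨_, rfl⟩
  have hu0 : 0 < u := by rw [hu]; exact Real.log_pos (by norm_num)
  obtain ⟨ϖ', hϖ'⟩ : ∃ ϖ', ϖ' = min ϖ 1 := ⟨_, rfl⟩
  have hϖ'0 : 0 < ϖ' := by rw [hϖ']; exact lt_min hϖ one_pos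
  have hϖ'1 : ϖ' ≤ 1 := by rw [hϖ']; exact min_le_right _ _
  have hϖ'ϖ : ϖ' ≤ ϖ := by rw [hϖ']; exact min_le_left _ _
  -- the loss: `δ X ≤ δ X' / η`
  obtain ⟨ℓ, hl⟩ : ∃ ℓ, ℓ = ι * η * (min u 1) * ϖ' / 8 := ⟨_, rfl⟩
  have hm0 : 0 < min u 1 := lt_min hu0 one_pos
  have hl0 : 0 < ℓ := by rw [hl]; positivity
  obtain ⟨N₁, hN₁⟩ := exists_nat_ge ((u + Real.log 45 + 2 * Real.log 7) / ℓ)
  have hl45 : 0 ≤ Real.log 45 := Real.log_nonneg (by norm_num)
  have hl7 : 0 ≤ Real.log 7 := Real.log_nonneg (by norm_num)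
  refine ⟨x₀ * η, ϖ', ℓ, ε₁, n₀ + 1, N₁ + 1, by positivity, hϖ'0, hϖ'1, hl0, hε₁, by omega,
    by omega, ?_⟩
  intro m J F Γ G p i₀ iu w c M S d hp hd hwX hM hS hS4 hT hB hD
  obtain ⟨X, hX⟩ : ∃ X, X = (n₀ + 1) * d := ⟨_, rfl⟩
  rw [← hX] at hwX hT hB hD ⊢
  have hdX : n₀ * d ≤ X := by rw [hX]; exact Nat.mul_le_mul_right d (by omega)
  have hd1 : 1 ≤ d := by omega
  have hXd : d ≤ X := by
    rw [hX]
    calc d = 1 * d := (one_mul d).symm
      _ ≤ (n₀ + 1) * d := Nat.mul_le_mul_right d (by omega)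
  have hX0 : (0 : ℝ) < X := by
    have : 0 < X := by omega
    exact_mod_cast this
  have hb0 : F.lbr w c M 0 = F.blb w c M := rfl
  -- the constants are small against the block
  have hbig : u + Real.log 45 + 2 * Real.log 7 ≤ ℓ * X := by
    have h1 : ((N₁ : ℕ) : ℝ) ≤ X := by
      have : N₁ ≤ X := by omega
      exact_mod_cast this
    have h2 := hN₁.trans h1
    rw [div_le_iff₀ hl0] at h2
    linarith only [h2]
  have hSr : ∀ r, Det p (fun ω => (F.lbr w c M r ω, (G ω, F.T ω))) S := by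
    intro r ω ω' a b e
    refine hS ω ω' a b ?_
    exact Prod.ext (lbr_mono (r := 0) (Nat.zero_le _) (Prod.ext_iff.mp e).1) (Prod.ext_iff.mp e).2
  have dT : Det p (fun ω => (G ω, F.T ω)) F.T := fun _ _ _ _ h => (Prod.ext_iff.mp h).2
  rw [← hb0]
  refine hoc F.Ω _ _ _ p (fun r => F.lbr w c M r) (F.lbr w c M X) (fun ω => (G ω, F.T ω))
    (fun r => rmu F w c M X r i₀) (fun r => rmd F c M X r i₀) (fun r => rmd F c M X r iu)
    (fun r => rmu F w c M X r iu) (fun _ => S) (fun r => rnu F w c M X r i₀ iu S) (F.wt w) d X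
    hd1 hdX ?_ ?_ ?_ ?_
  · intro r _ _
    exact ocdata hp i₀ iu dT (hSr r) hS4
  · intro r _ _ ω ω' _ _ e
    exact lbr_mono (r := 0) (Nat.zero_le _) (Prod.ext_iff.mp e).1
  · intro r _ hr
    exact oclink i₀ iu dT (hSr r) hr
  · intro r X' hdr hdX' hηX hrX E hE
    have hE' : ϖ' ≤ Pe p E := hϖ'ϖ.trans hE
    obtain ⟨q, hqe⟩ : ∃ q, q = Pool.Agent.H49.Ent.cond p E True := ⟨_, rfl⟩
    have hq : IsLaw q := by rw [hqe]; exact ev_law hp hϖ'0 hE'
    have hX'0 : (0 : ℝ) < X' := by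
      have : 0 < η * X := by positivity
      linarith only [hηX, this]
    have hX'1 : 0 < X' := by exact_mod_cast hX'0
    have t1 := hT E hE'
    have t2 := hB r X' hdr hdX' hX'1 hrX E hE'
    have t3 := hD r hdr (by omega)
    rw [← hqe] at t1 t2
    -- dependences on the event
    have ev : ∀ {A B C : Type} (N : F.Ω → A) (V : F.Ω → B) (b : F.Ω → C),
        dp p N V b ≤ ℓ * X → dp q N V b ≤ 2 * (ℓ * X) / ϖ' := by
      intro A B C N V b h
      rw [hqe]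
      refine (dp_event' hp hϖ'0 hE' N V b).trans ?_
      refine div_le_div_of_nonneg_right ?_ hϖ'0.le
      rw [← hu]
      linarith only [hl45, hl7, hbig, h]
    have kA : tA F q i₀ iu w (fun i => c i + r) M S G X ≤ 2 * (ℓ * X) / ϖ' := ev _ _ _ t3.a
    have kB : tB F q i₀ w (fun i => c i + r) M G X ≤ 2 * (ℓ * X) / ϖ' := ev _ _ _ t3.b
    have kM : tM F q w (fun i => c i + r) M G X ≤ 2 * (ℓ * X) / ϖ' := ev _ _ _ t3.m
    have e1 : 2 * (ℓ * X) / ϖ' ≤ ι * min u 1 / 4 * (η * X) := by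
      rw [hl]
      refine le_of_eq ?_
      field_simp
      ring
    have e2 : ι * min u 1 / 4 * (η * X) ≤ ι * min u 1 / 4 * X' :=
      mul_le_mul_of_nonneg_left hηX (by positivity)
    have e3 : ℓ * X ≤ ι * min u 1 / 8 * (η * X) := by
      have h1 : ℓ * X = ι * min u 1 / 8 * (η * X) * ϖ' := by rw [hl]; ring
      rw [h1]
      have h2 : 0 ≤ ι * min u 1 / 8 * (η * X) := by positivity
      nlinarith only [h1, hu0, hϖ'1, hϖ'0, hl45, hl7, hbig]
    have e4 : ι * min u 1 / 8 * (η * X) ≤ ι * min u 1 / 8 * X' :=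
      mul_le_mul_of_nonneg_left hηX (by positivity)
    obtain ⟨Y, hY⟩ : ∃ Y, Y = ι * min u 1 / 8 * X' := ⟨_, rfl⟩
    have hY0 : 0 ≤ Y := by rw [hY]; positivity
    have y1 : 8 * Y ≤ ι * X' := by
      rw [hY]
      have : ι * min u 1 * X' ≤ ι * 1 * X' :=
        mul_le_mul_of_nonneg_right (mul_le_mul_of_nonneg_left (min_le_right _ _) hι.le) hX'0.le
      linarith only [this]
    have y2 : 8 * Y ≤ ι * X' * u := by
      rw [hY]
      have : ι * min u 1 * X' ≤ ι * u * X' :=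
        mul_le_mul_of_nonneg_right (mul_le_mul_of_nonneg_left (min_le_left _ _) hι.le) hX'0.le
      linarith only [this]
    have y3 : 2 * (ℓ * X) / ϖ' ≤ 2 * Y := by
      rw [hY]
      linarith only [e1, e2]
    have y4 : ℓ * X ≤ Y := by rw [hY]; linarith only [e2, e3]
    rw [← hqe]
    refine ochyp (eT := ℓ * X) (eA := 2 * (ℓ * X) / ϖ') (eB := 2 * (ℓ * X) / ϖ')
      (eM := 2 * (ℓ * X) / ϖ') (eW := ℓ * X) hq (by omega) (by omega) hrX
      (by rw [hqe]; exact det_ev hp.nonneg hM) ?_ t1.tm kA kB kM t2.wf t2.act ?_ ?_ ?_ ?_ ?_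
    · intro ω hω
      rw [hqe] at hω
      exact hS4 ω ((ev_pos hp.nonneg).1 hω).1
    · refine le_trans ?_ t1.h6
      have g1 : dbl q (fun ω => (F.lbr w c M X ω, F.lbr w c M r ω)) = dbl q (F.lbr w c M X) := by
        have hl : ∀ ω, law q (fun ω => (F.lbr w c M X ω, F.lbr w c M r ω))
            (F.lbr w c M X ω, F.lbr w c M r ω) = law q (F.lbr w c M X) (F.lbr w c M X ω) := by
          intro ω
          unfold law
          refine Finset.sum_congr rfl fun v _ => ?_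
          by_cases h : F.lbr w c M X v = F.lbr w c M X ω
          · rw [if_pos h, if_pos (Prod.ext h (lbr_mono (by omega) h))]
          · rw [if_neg h, if_neg]
            intro h1
            exact h (Prod.ext_iff.mp h1).1
        funext x
        unfold dbl glue
        rw [hl x.1]
        by_cases h : F.lbr w c M X x.1 = F.lbr w c M X x.2
        · rw [if_pos h, if_pos (Prod.ext h (lbr_mono (by omega) h))]
        · rw [if_neg h, if_neg]
          intro h1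
          exact h (Prod.ext_iff.mp h1).1
      rw [g1]
      refine Uni.Pr_le_of (fun x => glue_nonneg hq.nonneg hq.nonneg x) fun x _ hx => ?_
      have hx' : |S x.1 - S x.2| < (2 : ℝ) ^ (-(x₀ * X')) := hx
      show |S x.1 - S x.2| < (2 : ℝ) ^ (-(x₀ * η * X))
      refine hx'.trans_le (Real.rpow_le_rpow_of_exponent_le (by norm_num) ?_)
      have := mul_le_mul_of_nonneg_left hηX hx₀.le
      linarith only [this]
    · linarith only [hu0, hl45, hl7, hbig, e1, e2, e3, hY, y1]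
    · rw [← hu]; linarith only [hu0, hl45, hl7, hbig, e2, e3, hY, y2]
    · have : Real.log 45 ≤ Y := by linarith only [hu0, hl7, hbig, e2, e3, hY]
      linarith only [hu0, hl45, hl7, hbig, e1, e2, e3, hY, y1]
    · have : 2 * Real.log 7 ≤ Y := by linarith only [hu0, hl45, hbig, e2, e3, hY]
      rw [← hu]
      linarith only [hu0, hl45, hl7, hbig, e1, e2, e3, hY, y2]

/-- The pair of rows and the row given the line data. -/
theorem pair_of {m J : ℕ} {F : Fam m J} {Γ : Type} {G : F.Ω → Γ} {p : F.Ω → ℝ} {i₀ iu : Fin m}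
    {w : ℕ} {c : Fin m → ℕ} {M : F.Ω → Fin m → Fin m → ℝ} {S : F.Ω → ℝ} {X : ℕ} (hp : IsLaw p)
    (hS4 : ∀ ω, 0 < p ω → |S ω| ≤ 4) {e eA eM eW : ℝ}
    (hnu : X * Real.log 2 - e ≤ CH p (Uni.dg X (rnu F w c M X 0 i₀ iu S))
      (fun ω => (F.blb w c M ω, (G ω, F.T ω))))
    (hA : tA F p i₀ iu w c M S G X ≤ eA) (hm : tM F p w c M G X ≤ eM)
    (hwf : X * Real.log 2 - eW ≤ CH p (Uni.dg X (fun ω => F.mx w c M ω i₀))
      (fun ω => (F.blb w c M ω, F.T ω))) :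
    X * Real.log 2 - e - eA - Real.log 45 ≤
      CH p (Uni.dg X (tnu F w c M i₀ iu S)) (fun ω => (vd F i₀ iu w c M X ω, cdn F w c M G ω)) ∧
    2 * X * Real.log 2 - e - eA - eM - eW - Real.log 45 - 2 * Real.log 7 ≤
      CH p (fun ω => (Uni.dg X (tnu F w c M i₀ iu S) ω, Uni.dg X (fun ω => F.mx w c M ω i₀) ω))
        (cdn F w c M G) := by
  have h0 := hp.nonneg
  have hc0 : (fun i => c i + 0) = c := by funext i; ring
  obtain ⟨Z, hZ⟩ : ∃ Z, Z = cdn F w c M G := ⟨_, rfl⟩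
  have hZ' : Z = fun ω => (F.blb w c M ω, (G ω, F.T ω)) := by rw [hZ]; rfl
  have dZ : Det p Z F.T := fun ω ω' _ _ h => by
    rw [hZ'] at h
    exact (Prod.ext_iff.mp (Prod.ext_iff.mp h).2).2
  obtain ⟨nu, hnu'⟩ : ∃ nu, nu = Uni.dg X (tnu F w c M i₀ iu S) := ⟨_, rfl⟩
  obtain ⟨yt, hyt⟩ : ∃ yt, yt = Uni.dg X (fun ω => F.mx w c M ω i₀) := ⟨_, rfl⟩
  obtain ⟨V, hV⟩ : ∃ V, V = vd F i₀ iu w c M X := ⟨_, rfl⟩
  rw [← hnu', ← hyt, ← hV, ← hZ]
  rw [← hZ'] at hnu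
  rw [← hyt] at hwf
  -- the row
  have s1 : CH p (Uni.dg X (rnu F w c M X 0 i₀ iu S)) Z ≤ CH p nu Z + Real.log 45 := by
    have b1 := CH_le_add h0 (Uni.dg X (rnu F w c M X 0 i₀ iu S)) nu Z
    have b2 : CH p (Uni.dg X (rnu F w c M X 0 i₀ iu S)) (fun ω => (nu ω, Z ω)) ≤
        Real.log 45 := by
      have := CH_rnu (F := F) (w := w) (c := c) (M := M) (i₀ := i₀) (iu := iu) (X := X) (r := 0)
        (X' := X) (S := S) hp (by omega) hS4 Z
      rw [hc0] at this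
      rw [hnu']
      exact this
    linarith only [b1, b2]
  have s2 : dp p nu V Z ≤ eA := by
    rw [hnu', hV, hZ]
    exact hA
  -- the position
  have s3 : dp p nu yt Z ≤ eA + Real.log 7 := by
    have b1 : CH p yt (fun ω => (V ω, Z ω)) ≤ Real.log 7 := by
      refine le_trans ?_ (CH_mx (w := w) (c := c) (M := M) hp i₀ dZ X)
      rw [← hyt]
      refine CH_mono_cond h0 ?_
      intro ω ω' _ _ h
      rw [hV] at h
      have h1 := Prod.ext_iff.mp (Prod.ext_iff.mp h).1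
      exact Prod.ext (Prod.ext h1.1 (Prod.ext_iff.mp h1.2).1) (Prod.ext_iff.mp h).2
    have b2 := dp_le_add_right h0 (N := nu) b1
    linarith only [s2, b2]
  have s4 : dp p yt G (fun ω => (F.blb w c M ω, F.T ω)) ≤ eM + Real.log 7 := by
    have b1 := dp_le_add h0 (V := G) (CH_mx (c := c) (M := M) (w := w) hp i₀
      (Z := fun ω => (F.blb w c M ω, F.T ω)) (fun ω ω' _ _ h => (Prod.ext_iff.mp h).2) X)
    rw [← hyt] at b1
    refine b1.trans ?_
    rw [dp_symm h0]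
    have b2 : dp p G (fun ω => (Uni.dg X (fun ω => F.mu w (fun i => c i + w) M ω i₀) ω,
        Uni.dg X (fun ω => F.md c M ω i₀) ω)) (fun ω => (F.blb w c M ω, F.T ω)) ≤ eM := by
      refine le_trans ?_ hm
      unfold tM
      refine dp_mono h0 (fun _ _ _ _ h => (Prod.ext_iff.mp h).1) ?_
      intro ω ω' _ _ h
      have h2 := lbr_dig (r := X) le_rfl (Prod.ext_iff.mp h).1 i₀
      exact Prod.ext h2.1 h2.2
    linarith only [b2]
  have s5 : CH p yt Z = CH p yt (fun ω => (G ω, (F.blb w c M ω, F.T ω))) := by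
    rw [hZ']
    refine CH_congr h0 (fun _ _ _ _ h => (Prod.ext_iff.mp h).1)
      (fun _ _ _ _ h => (Prod.ext_iff.mp h).1) ?_ ?_ <;>
    · intro ω ω' _ _ h
      simp only [Prod.mk.injEq] at h ⊢
      tauto
  have s6 := CH_chain h0 nu yt Z
  unfold dp at s2 s3 s4
  constructor
  · linarith only [hnu, s1, s2]
  · linarith only [hnu, hwf, s1, s3, s4, s5, s6]

/-- **The U-step at one context, the pair.** -/
theorem ue_pair : ∀ ε ca : ℝ, 0 < ε → 0 < ca → ∃ (x₁ ϖ δ ε₁ : ℝ) (n d₀ : ℕ), 0 < x₁ ∧ 0 < ϖ ∧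
    ϖ ≤ 1 ∧ 0 < δ ∧ 0 < ε₁ ∧ 1 ≤ n ∧ 1 ≤ d₀ ∧
    ∀ {m J : ℕ} (F : Fam m J) {Γ : Type} (G : F.Ω → Γ) (p : F.Ω → ℝ) (i₀ iu : Fin m) (w : ℕ)
      (c : Fin m → ℕ) (M : F.Ω → Fin m → Fin m → ℝ) (S : F.Ω → ℝ) (d : ℕ), IsLaw p →
      d₀ ≤ d → w + n * d ≤ J → Det p (slam F w) M →
      Det p (fun ω => (F.blb w c M ω, (G ω, F.T ω))) S → (∀ ω, 0 < p ω → |S ω| ≤ 4) →
      (∀ E : F.Ω → Prop, ϖ ≤ Pe p E →
        Tq F w c M S (n * d) δ x₁ ε₁ (Pool.Agent.H49.Ent.cond p E True)) →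
      (∀ r X', d ∣ r → d ∣ X' → 0 < X' → r + X' ≤ n * d → ∀ E : F.Ω → Prop, ϖ ≤ Pe p E →
        Bq F i₀ w c M (n * d) r X' δ ca (Pool.Agent.H49.Ent.cond p E True)) →
      (∀ r, d ∣ r → r < n * d → Dq F p i₀ iu w (fun i => c i + r) M S G (n * d) δ) →
      (1 - ε) * (n * d : ℕ) * Real.log 2 ≤
        CH p (Uni.dg (n * d) (tnu F w c M i₀ iu S))
          (fun ω => (vd F i₀ iu w c M (n * d) ω, cdn F w c M G ω)) ∧
      (2 - ε) * (n * d : ℕ) * Real.log 2 ≤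
        CH p (fun ω => (Uni.dg (n * d) (tnu F w c M i₀ iu S) ω,
          Uni.dg (n * d) (fun ω => F.mx w c M ω i₀) ω)) (cdn F w c M G) := by
  intro ε ca hε hca
  obtain ⟨x₁, ϖ, δ, ε₁, n, d₀, hx₁, hϖ, hϖ1, hδ, hε₁, hn, hd₀, hue⟩ :=
    ue_nu (ε / 2) ca (by positivity) hca
  obtain ⟨u, hu⟩ : ∃ u, u = Real.log 2 := ⟨_, rfl⟩
  have hu0 : 0 < u := by rw [hu]; exact Real.log_pos (by norm_num)
  obtain ⟨δ', hδ'⟩ : ∃ δ', δ' = min δ (ε * u / 16) := ⟨_, rfl⟩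
  have hδ'0 : 0 < δ' := by rw [hδ']; exact lt_min hδ (by positivity)
  have hδ'δ : δ' ≤ δ := by rw [hδ']; exact min_le_left _ _
  have hδ'ε : δ' ≤ ε * u / 16 := by rw [hδ']; exact min_le_right _ _
  have hl45 : 0 ≤ Real.log 45 := Real.log_nonneg (by norm_num)
  have hl7 : 0 ≤ Real.log 7 := Real.log_nonneg (by norm_num)
  obtain ⟨N₁, hN₁⟩ := exists_nat_ge ((Real.log 45 + 2 * Real.log 7) / (ε * u / 16))
  refine ⟨x₁, ϖ, δ', ε₁, n, d₀ + N₁, hx₁, hϖ, hϖ1, hδ'0, hε₁, hn, by omega, ?_⟩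
  intro m J F Γ G p i₀ iu w c M S d hp hd hwX hM hS hS4 hT hB hD
  obtain ⟨X, hX⟩ : ∃ X, X = n * d := ⟨_, rfl⟩
  have hX0 : (0 : ℝ) ≤ X := Nat.cast_nonneg _
  have hmono : δ' * X ≤ δ * X := mul_le_mul_of_nonneg_right hδ'δ hX0
  have hdX : d ≤ X := by
    rw [hX]
    calc d = 1 * d := (one_mul d).symm
      _ ≤ n * d := Nat.mul_le_mul_right d hn
  have key := hue F G p i₀ iu w c M S d hp (by omega) hwX hM hS hS4
    (fun E hE => by
      have h1 := hT E hE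
      rw [← hX] at h1 ⊢
      exact ⟨by linarith only [hmono, h1, h1.tm], h1.h6⟩)
    (fun r X' h1 h2 h3 h4 E hE => by
      have h5 := hB r X' h1 h2 h3 h4 E hE
      rw [← hX] at h5 ⊢
      exact ⟨by linarith only [hmono, h5, h5.wf], h5.act⟩)
    (fun r h1 h2 => by
      have h5 := hD r h1 h2
      rw [← hX] at h5 ⊢
      exact ⟨h5.a.trans hmono, h5.b.trans hmono, h5.m.trans hmono⟩)
  -- the whole block at `r = 0`, on the event `True`
  have hP1 : Pe p (fun _ => True) = 1 := by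
    rw [Pe_eq]
    simp only [if_true]
    exact hp.sum_one
  have hcT : Pool.Agent.H49.Ent.cond p (fun _ : F.Ω => True) True = p := by
    funext ω
    unfold Pool.Agent.H49.Ent.cond
    rw [if_pos rfl]
    have : law p (fun _ : F.Ω => True) True = 1 := hP1
    rw [this, div_one]
  rw [← hX] at hT hB hD key ⊢
  have hXpos : 0 < X := by omega
  have hb := hB 0 X (dvd_zero _) (by rw [hX]; exact Dvd.intro_left n rfl) hXpos (by omega)
    (fun _ => True) (by rw [hP1]; exact hϖ1)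
  rw [hcT] at hb
  have hd0 := hD 0 (dvd_zero _) hXpos
  have hc0 : (fun i => c i + 0) = c := by funext i; ring
  have hwf := hb.wf
  rw [hc0] at hd0 hwf
  have hbl : F.lbr w c M 0 = F.blb w c M := rfl
  have hbig : Real.log 45 + 2 * Real.log 7 ≤ ε * u / 16 * X := by
    have h1 : ((N₁ : ℕ) : ℝ) ≤ X := by
      have : N₁ ≤ X := by omega
      exact_mod_cast this
    have h2 := hN₁.trans h1
    rw [div_le_iff₀ (by positivity)] at h2
    linarith only [h2]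
  have hδX : δ' * X ≤ ε * u / 16 * X := mul_le_mul_of_nonneg_right hδ'ε hX0
  have fin := pair_of (G := G) (i₀ := i₀) (iu := iu) (w := w) (c := c) (M := M) (S := S)
    (X := X) hp hS4 (e := ε / 2 * X * u) (eA := δ' * X) (eM := δ' * X) (eW := δ' * X) (by
      refine le_trans (le_of_eq ?_) key
      rw [← hu]
      ring) hd0.a hd0.m hwf
  rw [← hu] at fin ⊢
  have e3 : ε * u / 16 * X = ε * X * u / 16 := by ring
  rw [e3] at hbig hδX
  have e5 : 0 ≤ ε * X * u := by positivity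
  refine ⟨le_trans ?_ fin.1, le_trans ?_ fin.2⟩
  · have e4 : (1 - ε) * X * u = X * u - ε * X * u := by ring
    rw [e4]
    linarith only [hl45, hl7, hbig, hδX]
  · have e4 : (2 - ε) * X * u = 2 * X * u - ε * X * u := by ring
    rw [e4]
    linarith only [hl45, hl7, hbig, hδX]

end Pool.S6U
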