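import Pool.Agent.H10.S6U.Out

/-!
# Laws with bounded density, and pairs of samples

`CH_dens`: a lower bound for the conditional entropy on all large events holds for all laws with
bounded density. `dbl p Z` is the law of two samples which are independent given `Z`.
-/

set_option autoImplicit false

namespace Pool.S6U

open Finset Real
open Pool.Agent.H49.Ent Pool.Agent.H32.Dense Pool.STK Pool.KA Pool.KSAT Pool.K2S

variable {Ω S T U V : Type} [Fintype Ω]

/-! ### Weights -/

/-- Weights on two copies. -/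
def two (μ ν : Ω → ℝ) (b : Bool × Ω) : ℝ := if b.1 then μ b.2 else ν b.2

theorem H_two (μ ν : Ω → ℝ) (X : Ω → S) :
    H (two μ ν) (fun b => (X b.2, b.1)) = H μ X + H ν X := by
  classical
  have l1 : ∀ x, law (two μ ν) (fun b => (X b.2, b.1)) (x, true) = law μ X x := by
    intro x
    unfold law
    rw [Fintype.sum_prod_type, Fintype.sum_bool]
    simp [two]
  have l2 : ∀ x, law (two μ ν) (fun b => (X b.2, b.1)) (x, false) = law ν X x := by
    intro x
    unfold law
    rw [Fintype.sum_prod_type, Fintype.sum_bool]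
    simp [two]
  unfold H
  rw [Fintype.sum_prod_type, Fintype.sum_bool]
  simp only [l1, l2]
  simp only [two, if_true, Bool.false_eq_true, if_false]
  ring

theorem H_two' (μ ν : Ω → ℝ) (X : Ω → S) :
    H (two μ ν) (fun b => X b.2) = H (fun ω => μ ω + ν ω) X := by
  classical
  refine H_eq_of_marginal Prod.snd (fun ω => ?_) X
  rw [Fintype.sum_prod_type, Fintype.sum_bool]
  simp [two]

/-- **Conditional entropy is superadditive.** -/
theorem CH_superadd {μ ν : Ω → ℝ} (hμ : ∀ ω, 0 ≤ μ ω) (hν : ∀ ω, 0 ≤ ν ω) (X : Ω → S)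
    (W : Ω → T) : CH μ X W + CH ν X W ≤ CH (fun ω => μ ω + ν ω) X W := by
  have hr : ∀ b, 0 ≤ two μ ν b := by
    rintro ⟨b, ω⟩
    unfold two
    split_ifs
    · exact hμ ω
    · exact hν ω
  have k1 : CH (two μ ν) (fun b => X b.2) (fun b => (W b.2, b.1)) ≤
      CH (two μ ν) (fun b => X b.2) (fun b => W b.2) :=
    CH_mono_cond hr fun _ _ _ _ e => (Prod.ext_iff.mp e).1
  have k2 : CH (two μ ν) (fun b => X b.2) (fun b => W b.2) =
      CH (fun ω => μ ω + ν ω) X W := by
    unfold CH
    rw [H_two' μ ν (fun ω => (X ω, W ω)), H_two' μ ν W]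
  have k3 : CH (two μ ν) (fun b => X b.2) (fun b => (W b.2, b.1)) = CH μ X W + CH ν X W := by
    unfold CH
    have e1 : H (two μ ν) (fun b => (X b.2, (W b.2, b.1))) =
        H (two μ ν) (fun b => ((X b.2, W b.2), b.1)) := by
      refine H_congr hr ?_ ?_ <;>
      · intro b b' _ _ e
        simp only [Prod.mk.injEq] at e ⊢
        tauto
    rw [e1, H_two μ ν (fun ω => (X ω, W ω)), H_two μ ν W]
    ring
  linarith

theorem law_smul (c : ℝ) (p : Ω → ℝ) (X : Ω → S) (x : S) :
    law (fun ω => c * p ω) X x = c * law p X x := by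
  classical
  unfold law
  rw [Finset.mul_sum]
  refine Finset.sum_congr rfl fun ω _ => ?_
  split_ifs
  · rfl
  · ring

/-- Conditional entropy is homogeneous. -/
theorem CH_smul {p : Ω → ℝ} (hp : ∀ ω, 0 ≤ p ω) {c : ℝ} (hc : 0 ≤ c) (X : Ω → S) (W : Ω → T) :
    CH (fun ω => c * p ω) X W = c * CH p X W := by
  have key : ∀ {τ : Type} (Y : Ω → τ), H (fun ω => c * p ω) Y =
      c * H p Y - c * Real.log c * ∑ ω, p ω := by
    intro τ Y
    unfold H
    simp only [law_smul]
    rcases hc.eq_or_lt with h0 | h0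
    · rw [← h0]
      simp
    · rw [mul_neg, Finset.mul_sum, Finset.mul_sum, ← Finset.sum_neg_distrib,
        ← Finset.sum_neg_distrib, ← Finset.sum_sub_distrib]
      refine Finset.sum_congr rfl fun ω _ => ?_
      rcases (hp ω).eq_or_lt with h1 | h1
      · rw [← h1]
        ring
      · rw [Real.log_mul h0.ne' (law_pos hp Y h1).ne']
        ring
  unfold CH
  rw [key, key]
  ring

theorem CH_nonneg_w {μ : Ω → ℝ} (hμ : ∀ ω, 0 ≤ μ ω) (X : Ω → S) (W : Ω → T) :
    0 ≤ CH μ X W := CH_nonneg hμ X W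

/-- The weights on an event. -/
theorem CH_on {p : Ω → ℝ} (hp : IsLaw p) (E : Ω → Prop) [DecidablePred E] (X : Ω → S)
    (W : Ω → T) : CH (fun ω => if E ω then p ω else 0) X W =
      Pe p E * CH (Pool.Agent.H49.Ent.cond p E True) X W := by
  classical
  have hPe : Pe p E = law p E True := rfl
  have h0 : 0 ≤ Pe p E := law_nonneg hp.nonneg _ _
  have e : (fun ω => if E ω then p ω else 0) =
      fun ω => Pe p E * Pool.Agent.H49.Ent.cond p E True ω := by
    funext ω
    unfold Pool.Agent.H49.Ent.cond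
    by_cases hE : E ω
    · rw [if_pos hE, if_pos (eq_true hE), hPe]
      rcases (hp.nonneg ω).eq_or_lt with h1 | h1
      · rw [← h1]
        simp
      · have h2 : 0 < law p E True := by
          have := law_pos hp.nonneg E h1
          rw [eq_true hE] at this
          exact this
        field_simp
    · rw [if_neg hE, if_neg (fun h => hE (of_eq_true h))]
      simp
  rw [e, CH_smul (cond_nonneg hp.nonneg _ _) h0]

/-- **Laws with bounded density.** -/
theorem CH_dens {p : Ω → ℝ} (hp : IsLaw p) {X : Ω → S} {W : Ω → T} {c θ : ℝ} (hc : 0 ≤ c)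
    (hθ : 0 ≤ θ) (h : ∀ E : Ω → Prop, θ ≤ Pe p E → c ≤ CH (Pool.Agent.H49.Ent.cond p E True) X W) :
    ∀ (n : ℕ) (f : Ω → ℝ) (M : ℝ), (univ.filter (fun ω => 0 < f ω)).card = n →
      (∀ ω, 0 ≤ f ω) → (∀ ω, f ω ≤ M) → 0 ≤ M →
      c * (∑ ω, f ω * p ω) - c * θ * M ≤ CH (fun ω => f ω * p ω) X W := by
  classical
  intro n
  induction n using Nat.strong_induction_on with
  | _ n ih =>
    intro f M hn hf hM hM0
    rcases Finset.eq_empty_or_nonempty (univ.filter (fun ω => 0 < f ω)) with h0 | h0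
    · -- `f = 0`
      have hf0 : ∀ ω, f ω = 0 := by
        intro ω
        by_contra hne
        have : ω ∈ univ.filter (fun ω => 0 < f ω) :=
          Finset.mem_filter.2 ⟨mem_univ _, lt_of_le_of_ne (hf ω) (Ne.symm hne)⟩
        rw [h0] at this
        exact absurd this (Finset.notMem_empty _)
      have e1 : ∑ ω, f ω * p ω = 0 := Finset.sum_eq_zero fun ω _ => by rw [hf0, zero_mul]
      have e2 := CH_nonneg_w (μ := fun ω => f ω * p ω)
        (fun ω => mul_nonneg (hf ω) (hp.nonneg ω)) X W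
      rw [e1]
      have : 0 ≤ c * θ * M := by positivity
      linarith
    · obtain ⟨ω₀, hω₀, hmin⟩ := Finset.exists_min_image _ f h0
      obtain ⟨v, hv⟩ : ∃ v, v = f ω₀ := ⟨_, rfl⟩
      have hv0 : 0 < v := by
        rw [hv]
        exact (Finset.mem_filter.1 hω₀).2
      obtain ⟨E, hE⟩ : ∃ E : Ω → Prop, E = fun ω => 0 < f ω := ⟨_, rfl⟩
      obtain ⟨g, hg⟩ : ∃ g : Ω → ℝ, g = fun ω => if E ω then f ω - v else 0 := ⟨_, rfl⟩
      have hle : ∀ ω, E ω → v ≤ f ω := by
        intro ω hω
        rw [hE] at hω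
        rw [hv]
        exact hmin ω (Finset.mem_filter.2 ⟨mem_univ _, hω⟩)
      have hEf : ∀ ω, ¬ E ω → f ω = 0 := by
        intro ω hω
        rw [hE] at hω
        exact le_antisymm (not_lt.1 hω) (hf ω)
      have hg0 : ∀ ω, 0 ≤ g ω := by
        intro ω
        rw [hg]
        dsimp only
        split_ifs with h1
        · have := hle ω h1
          linarith
        · exact le_rfl
      have hMv : v ≤ M := by rw [hv]; exact hM ω₀
      have hgM : ∀ ω, g ω ≤ M - v := by
        intro ω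
        rw [hg]
        dsimp only
        split_ifs with h1
        · have := hM ω
          linarith
        · linarith
      have hsub : (univ.filter (fun ω => 0 < g ω)) ⊂ (univ.filter (fun ω => 0 < f ω)) := by
        rw [Finset.ssubset_iff_of_subset]
        · refine ⟨ω₀, hω₀, ?_⟩
          rw [Finset.mem_filter]
          rintro ⟨-, h1⟩
          rw [hg] at h1
          dsimp only at h1
          split_ifs at h1
          · rw [hv] at h1
            linarith
          · exact lt_irrefl _ h1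
        · intro ω hω
          rw [Finset.mem_filter] at hω ⊢
          refine ⟨mem_univ _, ?_⟩
          by_contra hcon
          have h1 : ¬ E ω := by rw [hE]; exact hcon
          have h2 := hω.2
          rw [hg] at h2
          dsimp only at h2
          rw [if_neg h1] at h2
          exact lt_irrefl _ h2
      have hcard : (univ.filter (fun ω => 0 < g ω)).card < n := by
        rw [← hn]
        exact Finset.card_lt_card hsub
      have hi := ih _ hcard g (M - v) rfl hg0 hgM (by linarith)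
      -- the decomposition
      have hdec : (fun ω => f ω * p ω) =
          fun ω => g ω * p ω + v * (if E ω then p ω else 0) := by
        funext ω
        rw [hg]
        dsimp only
        by_cases h1 : E ω
        · rw [if_pos h1, if_pos h1]
          ring
        · rw [if_neg h1, if_neg h1, hEf ω h1]
          ring
      have hsup := CH_superadd (μ := fun ω => g ω * p ω)
        (ν := fun ω => v * (if E ω then p ω else 0))
        (fun ω => mul_nonneg (hg0 ω) (hp.nonneg ω)) (fun ω => by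
          refine mul_nonneg hv0.le ?_
          split_ifs
          · exact hp.nonneg ω
          · exact le_rfl) X W
      have hon := CH_on hp E X W
      have hsm := CH_smul (p := fun ω => if E ω then p ω else 0) (fun ω => by
          split_ifs
          · exact hp.nonneg ω
          · exact le_rfl) hv0.le X W
      rw [hdec]
      have hsum : ∑ ω, (g ω * p ω + v * (if E ω then p ω else 0)) =
          ∑ ω, g ω * p ω + v * Pe p E := by
        rw [Finset.sum_add_distrib, ← Finset.mul_sum, Pe_eq]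
      rw [hsum]
      have hPe0 : 0 ≤ Pe p E := law_nonneg hp.nonneg _ _
      have hev : c * Pe p E - c * θ ≤ Pe p E * CH (Pool.Agent.H49.Ent.cond p E True) X W := by
        by_cases h1 : θ ≤ Pe p E
        · have h2 := h E h1
          have h3 : Pe p E * c ≤ Pe p E * CH (Pool.Agent.H49.Ent.cond p E True) X W :=
            mul_le_mul_of_nonneg_left h2 hPe0
          have : 0 ≤ c * θ := mul_nonneg hc hθ
          linarith
        · have h2 : 0 ≤ CH (Pool.Agent.H49.Ent.cond p E True) X W :=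
            CH_nonneg (cond_nonneg hp.nonneg _ _) X W
          have h3 : 0 ≤ Pe p E * CH (Pool.Agent.H49.Ent.cond p E True) X W :=
            mul_nonneg hPe0 h2
          have h4 : c * Pe p E ≤ c * θ := mul_le_mul_of_nonneg_left (not_le.1 h1).le hc
          linarith
      have hev' := mul_le_mul_of_nonneg_left hev hv0.le
      rw [hsm, hon] at hsup
      refine le_trans ?_ hsup
      have e5 : c * (∑ ω, g ω * p ω + v * Pe p E) - c * θ * M =
        (c * (∑ ω, g ω * p ω) - c * θ * (M - v)) + v * (c * Pe p E - c * θ) := by ring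
      rw [e5]
      linarith

/-! ### Pairs of samples -/

section pair

variable {p : Ω → ℝ} {Z : Ω → V}

theorem dbl_law (hp : IsLaw p) (Z : Ω → V) : IsLaw (dbl p Z) :=
  ⟨fun w => glue_nonneg hp.nonneg hp.nonneg w, by
    unfold dbl
    rw [sum_glue hp.nonneg (fun _ => rfl), hp.sum_one]⟩

theorem dbl_pos (hp : IsLaw p) {w : Ω × Ω} (h : 0 < dbl p Z w) :
    0 < p w.1 ∧ 0 < p w.2 ∧ Z w.1 = Z w.2 :=
  (glue_pos_iff hp.nonneg hp.nonneg w).1 h

theorem CH_fst (hp : IsLaw p) (Z : Ω → V) (X : Ω → S) (W : Ω → T) :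
    CH (dbl p Z) (fun w => X w.1) (fun w => W w.1) = CH p X W := by
  unfold CH dbl
  rw [H_glue_fst hp.nonneg (fun _ => rfl) (fun ω => (X ω, W ω)),
    H_glue_fst hp.nonneg (fun _ => rfl) W]

theorem CH_snd (hp : IsLaw p) (Z : Ω → V) (X : Ω → S) (W : Ω → T) :
    CH (dbl p Z) (fun w => X w.2) (fun w => W w.2) = CH p X W := by
  unfold CH dbl
  rw [H_glue_snd hp.nonneg (fun _ => rfl) (fun ω => (X ω, W ω)),
    H_glue_snd hp.nonneg (fun _ => rfl) W]

/-- **Independence** of the two samples given `Z`. -/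
theorem CH_ci (hp : IsLaw p) (Z : Ω → V) (X : Ω → S) (Y : Ω → U) :
    CH (dbl p Z) (fun w => X w.1) (fun w => (Z w.1, Y w.2)) = CH p X Z := by
  have h0 := (dbl_law hp Z).nonneg
  have k1 := H_glue_pair (p₁ := p) (p₂ := p) (Z₁ := Z) (Z₂ := Z) hp.nonneg hp.nonneg
    (fun _ => rfl) (X := fun ω => (X ω, Z ω)) (Y := fun ω => (Y ω, Z ω))
    (fun _ _ _ _ e => (Prod.ext_iff.mp e).2) (fun _ _ _ _ e => (Prod.ext_iff.mp e).2)
  have k2 := H_glue_pair (p₁ := p) (p₂ := p) (Z₁ := Z) (Z₂ := Z) hp.nonneg hp.nonneg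
    (fun _ => rfl) (X := Z) (Y := fun ω => (Y ω, Z ω))
    (fun _ _ _ _ e => e) (fun _ _ _ _ e => (Prod.ext_iff.mp e).2)
  have e1 : H (dbl p Z) (fun w => (X w.1, (Z w.1, Y w.2))) =
      H (dbl p Z) (fun w => ((X w.1, Z w.1), (Y w.2, Z w.2))) := by
    refine H_congr h0 ?_ ?_
    · intro w w' _ _ e
      simp only [Prod.mk.injEq] at e ⊢
      tauto
    · intro w w' hw hw' e
      have a1 := (dbl_pos hp hw).2.2
      have a2 := (dbl_pos hp hw').2.2
      simp only [Prod.mk.injEq] at e ⊢
      rw [← a1, ← a2]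
      tauto
  have e2 : H (dbl p Z) (fun w => (Z w.1, Y w.2)) =
      H (dbl p Z) (fun w => (Z w.1, (Y w.2, Z w.2))) := by
    refine H_congr h0 ?_ ?_
    · intro w w' _ _ e
      simp only [Prod.mk.injEq] at e ⊢
      tauto
    · intro w w' hw hw' e
      have a1 := (dbl_pos hp hw).2.2
      have a2 := (dbl_pos hp hw').2.2
      simp only [Prod.mk.injEq] at e ⊢
      rw [← a1, ← a2]
      tauto
  unfold CH
  rw [e1, e2]
  unfold dbl
  rw [k1, k2]
  ring

/-- A lower bound given less than `Z` and the other sample. -/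
theorem CH_ci_le (hp : IsLaw p) (Z : Ω → V) (X : Ω → S) (Y : Ω → U) (W : Ω × Ω → T)
    (hW : Det (dbl p Z) (fun w => (Z w.1, Y w.2)) W) :
    CH p X Z ≤ CH (dbl p Z) (fun w => X w.1) W := by
  rw [← CH_ci hp Z X Y]
  exact CH_mono_cond (dbl_law hp Z).nonneg hW

/-- Events of pairs: the second sample has bounded density. -/
theorem CH_dbl_event (hp : IsLaw p) {X : Ω → S} {W : Ω → T} {c θ ϖ : ℝ} (hc : 0 ≤ c)
    (hθ : 0 ≤ θ) (hϖ : 0 < ϖ)
    (h : ∀ E : Ω → Prop, θ ≤ Pe p E → c ≤ CH (Pool.Agent.H49.Ent.cond p E True) X W)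
    {A : Ω × Ω → Prop} (hA : ϖ ≤ Pe (dbl p Z) A) :
    c - c * θ / ϖ ≤ CH (Pool.Agent.H49.Ent.cond (dbl p Z) A True) (fun w => X w.2)
      (fun w => W w.2) := by
  classical
  have hl := dbl_law hp Z
  have hq := ev_law hl hϖ hA
  obtain ⟨Q, hQ⟩ : ∃ Q, Q = Pool.Agent.H49.Ent.cond (dbl p Z) A True := ⟨_, rfl⟩
  rw [← hQ] at hq ⊢
  obtain ⟨q, hqd⟩ : ∃ q : Ω → ℝ, q = fun ω => ∑ ω', Q (ω', ω) := ⟨_, rfl⟩
  have hmarg : ∀ {τ : Type} (Y : Ω → τ), H Q (fun w => Y w.2) = H q Y := by
    intro τ Y
    refine H_eq_of_marginal Prod.snd (fun ω => ?_) Y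
    rw [Fintype.sum_prod_type, Finset.sum_comm, Finset.sum_eq_single ω]
    · rw [hqd]
      simp
    · intro b _ hb
      simp [hb]
    · intro h
      exact absurd (mem_univ _) h
  have hPA : 0 < Pe (dbl p Z) A := hϖ.trans_le hA
  have hqle : ∀ ω, q ω ≤ p ω / ϖ := by
    intro ω
    have k1 : ∀ ω', Q (ω', ω) ≤ dbl p Z (ω', ω) / ϖ := by
      intro ω'
      rw [hQ]
      unfold Pool.Agent.H49.Ent.cond
      have h0 := hl.nonneg (ω', ω)
      split_ifs
      · exact div_le_div_of_nonneg_left h0 hϖ hA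
      · exact div_nonneg h0 hϖ.le
    have k2 : ∑ ω', dbl p Z (ω', ω) = p ω := glue_snd hp.nonneg (fun _ => rfl) ω
    rw [hqd]
    calc ∑ ω', Q (ω', ω) ≤ ∑ ω', dbl p Z (ω', ω) / ϖ := Finset.sum_le_sum fun ω' _ => k1 ω'
      _ = p ω / ϖ := by rw [← Finset.sum_div, k2]
  have hq0 : ∀ ω, 0 ≤ q ω := by
    intro ω
    rw [hqd]
    exact Finset.sum_nonneg fun ω' _ => hq.nonneg _
  have hq1 : ∑ ω, q ω = 1 := by
    rw [hqd, ← hq.sum_one, Fintype.sum_prod_type, Finset.sum_comm]
  obtain ⟨f, hf⟩ : ∃ f : Ω → ℝ, f = fun ω => if 0 < p ω then q ω / p ω else 0 := ⟨_, rfl⟩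
  have hfp : ∀ ω, f ω * p ω = q ω := by
    intro ω
    rw [hf]
    dsimp only
    by_cases h1 : 0 < p ω
    · rw [if_pos h1]
      field_simp
    · have h2 : p ω = 0 := le_antisymm (not_lt.1 h1) (hp.nonneg ω)
      have h3 := hqle ω
      rw [h2, zero_div] at h3
      rw [if_neg h1, zero_mul]
      exact le_antisymm (hq0 ω) h3
  have hf0 : ∀ ω, 0 ≤ f ω := by
    intro ω
    rw [hf]
    dsimp only
    split_ifs with h1
    · exact div_nonneg (hq0 ω) h1.le
    · exact le_rfl
  have hfM : ∀ ω, f ω ≤ 1 / ϖ := by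
    intro ω
    rw [hf]
    dsimp only
    split_ifs with h1
    · rw [div_le_iff₀ h1]
      have := hqle ω
      calc q ω ≤ p ω / ϖ := this
        _ = 1 / ϖ * p ω := by ring
    · positivity
  have key := CH_dens hp hc hθ h _ f (1 / ϖ) rfl hf0 hfM (by positivity)
  have e1 : ∑ ω, f ω * p ω = 1 := by
    rw [← hq1]
    exact Finset.sum_congr rfl fun ω _ => hfp ω
  have e2 : (fun ω => f ω * p ω) = q := by
    funext ω
    exact hfp ω
  rw [e1, e2] at key
  have e3 : CH Q (fun w => X w.2) (fun w => W w.2) = CH q X W := by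
    unfold CH
    rw [hmarg (fun ω => (X ω, W ω)), hmarg W]
  rw [e3]
  refine le_trans (le_of_eq ?_) key
  ring

/-- The law of the pair. -/
theorem dbl_eq (p : Ω → ℝ) (Z : Ω → V) (x y : Ω) :
    dbl p Z (x, y) = p x * Pool.Agent.H49.Ent.cond p Z (Z x) y := by
  classical
  unfold dbl glue Pool.Agent.H49.Ent.cond
  dsimp only
  by_cases h : Z x = Z y
  · rw [if_pos h, if_pos h.symm]
    ring
  · rw [if_neg h, if_neg (Ne.symm h), mul_zero]

/-- Three samples which are independent given `Z`. -/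
theorem sum_three (hp : IsLaw p) (Z : Ω → V) (h : Ω → Ω → ℝ) :
    ∑ x, p x * ∑ y, ∑ y', Pool.Agent.H49.Ent.cond p Z (Z x) y *
      Pool.Agent.H49.Ent.cond p Z (Z x) y' * h y y' = ∑ w, dbl p Z w * h w.1 w.2 := by
  classical
  rw [Fintype.sum_prod_type]
  calc ∑ x, p x * ∑ y, ∑ y', Pool.Agent.H49.Ent.cond p Z (Z x) y *
      Pool.Agent.H49.Ent.cond p Z (Z x) y' * h y y' =
      ∑ x, ∑ y, ∑ y', p x * (Pool.Agent.H49.Ent.cond p Z (Z x) y *
      Pool.Agent.H49.Ent.cond p Z (Z x) y' * h y y') := by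
        refine Finset.sum_congr rfl fun x _ => ?_
        rw [Finset.mul_sum]
        exact Finset.sum_congr rfl fun y _ => Finset.mul_sum _ _ _
    _ = ∑ y, ∑ y', ∑ x, p x * (Pool.Agent.H49.Ent.cond p Z (Z x) y *
      Pool.Agent.H49.Ent.cond p Z (Z x) y' * h y y') := by
        rw [Finset.sum_comm]
        exact Finset.sum_congr rfl fun y _ => Finset.sum_comm
    _ = ∑ y, ∑ y', dbl p Z (y, y') * h y y' := by
        refine Finset.sum_congr rfl fun y _ => Finset.sum_congr rfl fun y' _ => ?_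
        have e1 : ∀ x, p x * (Pool.Agent.H49.Ent.cond p Z (Z x) y *
            Pool.Agent.H49.Ent.cond p Z (Z x) y' * h y y') =
            (if Z x = Z y then p x else 0) * (Pool.Agent.H49.Ent.cond p Z (Z y) y *
            Pool.Agent.H49.Ent.cond p Z (Z y) y' * h y y') := by
          intro x
          by_cases h1 : Z x = Z y
          · rw [if_pos h1, h1]
          · rw [if_neg h1]
            have : Pool.Agent.H49.Ent.cond p Z (Z x) y = 0 := by
              unfold Pool.Agent.H49.Ent.cond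
              rw [if_neg (Ne.symm h1)]
            rw [this]
            ring
        rw [Finset.sum_congr rfl fun x _ => e1 x, ← Finset.sum_mul, dbl_eq]
        have e2 : ∑ x, (if Z x = Z y then p x else 0) = law p Z (Z y) := rfl
        rw [e2]
        rcases (hp.nonneg y).eq_or_lt with h0 | h0
        · have : Pool.Agent.H49.Ent.cond p Z (Z y) y = 0 := by
            unfold Pool.Agent.H49.Ent.cond
            rw [← h0, zero_div, ite_self]
          rw [this, ← h0]
          ring
        · have h1 := law_pos hp.nonneg Z h0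
          have e3 : Pool.Agent.H49.Ent.cond p Z (Z y) y = p y / law p Z (Z y) := by
            unfold Pool.Agent.H49.Ent.cond
            rw [if_pos rfl]
          rw [e3]
          field_simp

open Classical in
theorem Pr_sum {Ω' : Type} [Fintype Ω'] (q : Ω' → ℝ) (E : Ω' → Prop) :
    Pool.KAF.Pr q {w | E w} = ∑ w, if E w then q w else 0 := by
  have := Pe_eq q E
  refine Eq.trans ?_ (this.trans ?_)
  · rfl
  · refine Finset.sum_congr rfl fun w _ => ?_
    by_cases h : E w
    · simp [h]
    · simp [h]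

open Classical in
/-- **The threshold.** If the two samples of a line rarely have slopes nearer than `2 δ`, then no
number is near the slope of a reference through a typical position. -/
theorem thr (hp : IsLaw p) (Z : Ω → V) (S : Ω → ℝ) (V' : Ω → T) {δ ε : ℝ} (hε : 0 < ε)
    (h : Pool.KAF.Pr (dbl p Z) {w | |S w.1 - S w.2| < 2 * δ} ≤ ε ^ 4) :
    Pool.KAF.Pr (dbl p Z) {w | ∃ s : ℝ, ε < Pool.KAF.Pr
      (Pool.Agent.H49.Ent.cond (dbl p Z) (fun w => V' w.1) (V' w.1))
      {w' | |S w'.2 - s| < δ}} ≤ ε := by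
  have hl := dbl_law hp Z
  obtain ⟨Q, hQ⟩ : ∃ Q, Q = dbl p Z := ⟨_, rfl⟩
  rw [← hQ] at hl h ⊢
  obtain ⟨Bad, hBad⟩ : ∃ Bad : T → Prop, Bad = fun v => ∃ s : ℝ, ε < Pool.KAF.Pr
      (Pool.Agent.H49.Ent.cond Q (fun w => V' w.1) v) {w' | |S w'.2 - s| < δ} := ⟨_, rfl⟩
  obtain ⟨s, hs⟩ : ∃ s : T → ℝ, ∀ v, Bad v → ε < Pool.KAF.Pr
      (Pool.Agent.H49.Ent.cond Q (fun w => V' w.1) v) {w' | |S w'.2 - s v| < δ} := by
    refine ⟨fun v => if hv : Bad v then (by rw [hBad] at hv; exact hv.choose) else 0, ?_⟩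
    intro v hv
    dsimp only
    rw [dif_pos hv]
    have hv' := hv
    rw [hBad] at hv'
    exact hv'.choose_spec
  obtain ⟨D, hD⟩ : ∃ D : Ω → Ω → ℝ, D = fun x y =>
    if Bad (V' x) ∧ |S y - s (V' x)| < δ then (1 : ℝ) else 0 := ⟨_, rfl⟩
  obtain ⟨b, hb⟩ : ∃ b, b = Pool.KAF.Pr Q {w | ∃ s : ℝ, ε < Pool.KAF.Pr
      (Pool.Agent.H49.Ent.cond Q (fun w => V' w.1) (V' w.1)) {w' | |S w'.2 - s| < δ}} := ⟨_, rfl⟩
  rw [← hb]
  by_contra hcon
  have hcon := not_le.1 hcon
  -- step 1
  have hb2 : b = ∑ w, if Bad (V' w.1) then Q w else 0 := by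
    rw [hb, hBad, Pr_sum]
  have s1 : ε * b ≤ ∑ w, Q w * D w.1 w.2 := by
    have k1 : b = ∑ v ∈ univ.image (fun w : Ω × Ω => V' w.1),
        if Bad v then law Q (fun w => V' w.1) v else 0 := by
      rw [hb2]
      have := Finset.sum_fiberwise_of_maps_to (s := (univ : Finset (Ω × Ω)))
        (t := univ.image (fun w : Ω × Ω => V' w.1)) (g := fun w => V' w.1)
        (fun w _ => Finset.mem_image_of_mem _ (mem_univ w))
        (fun w => if Bad (V' w.1) then Q w else 0)
      rw [← this]
      refine Finset.sum_congr rfl fun v _ => ?_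
      rw [Finset.sum_filter]
      by_cases hv : Bad v
      · rw [if_pos hv]
        unfold law
        refine Finset.sum_congr rfl fun w _ => ?_
        by_cases h1 : V' w.1 = v
        · rw [if_pos h1, if_pos h1, if_pos (h1 ▸ hv)]
        · rw [if_neg h1, if_neg h1]
      · rw [if_neg hv]
        refine Finset.sum_eq_zero fun w _ => ?_
        by_cases h1 : V' w.1 = v
        · rw [if_pos h1, if_neg (fun h2 => hv (h1 ▸ h2))]
        · rw [if_neg h1]
    have k2 : ∑ w, Q w * D w.1 w.2 = ∑ v ∈ univ.image (fun w : Ω × Ω => V' w.1),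
        ∑ w, if V' w.1 = v then Q w * D w.1 w.2 else 0 := by
      have := Finset.sum_fiberwise_of_maps_to (s := (univ : Finset (Ω × Ω)))
        (t := univ.image (fun w : Ω × Ω => V' w.1)) (g := fun w => V' w.1)
        (fun w _ => Finset.mem_image_of_mem _ (mem_univ w))
        (fun w => Q w * D w.1 w.2)
      rw [← this]
      exact Finset.sum_congr rfl fun v _ => Finset.sum_filter _ _
    rw [k1, k2, Finset.mul_sum]
    refine Finset.sum_le_sum fun v _ => ?_
    by_cases hv : Bad v
    · rw [if_pos hv]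
      have h1 := hs v hv
      have h2 : 0 ≤ law Q (fun w => V' w.1) v := law_nonneg hl.nonneg _ _
      have h3 : Pool.KAF.Pr (Pool.Agent.H49.Ent.cond Q (fun w => V' w.1) v)
          {w' | |S w'.2 - s v| < δ} * law Q (fun w => V' w.1) v =
          ∑ w, if V' w.1 = v then Q w * D w.1 w.2 else 0 := by
        rw [Pr_sum, Finset.sum_mul]
        refine Finset.sum_congr rfl fun w _ => ?_
        unfold Pool.Agent.H49.Ent.cond
        rw [hD]
        dsimp only
        by_cases h4 : V' w.1 = v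
        · rw [if_pos h4, if_pos h4, h4]
          by_cases h5 : |S w.2 - s v| < δ
          · rw [if_pos h5, if_pos ⟨hv, h5⟩]
            rcases (hl.nonneg w).eq_or_lt with h6 | h6
            · rw [← h6]
              simp
            · have h7 := law_pos hl.nonneg (fun w => V' w.1) h6
              rw [h4] at h7
              field_simp
          · rw [if_neg h5, if_neg (fun h6 => h5 h6.2)]
            ring
        · rw [if_neg h4, if_neg h4]
          simp
      rw [← h3]
      exact mul_le_mul_of_nonneg_right h1.le h2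
    · rw [if_neg hv, mul_zero]
      refine Finset.sum_nonneg fun w _ => ?_
      split_ifs
      · refine mul_nonneg (hl.nonneg w) ?_
        rw [hD]
        dsimp only
        split_ifs <;> norm_num
      · exact le_rfl
  -- step 2
  obtain ⟨g, hg⟩ : ∃ g : Ω → ℝ, g = fun x =>
    ∑ y, Pool.Agent.H49.Ent.cond p Z (Z x) y * D x y := ⟨_, rfl⟩
  have s2 : ∑ w, Q w * D w.1 w.2 = ∑ x, p x * g x := by
    rw [Fintype.sum_prod_type]
    refine Finset.sum_congr rfl fun x _ => ?_
    rw [hg, hQ]
    dsimp only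
    rw [Finset.mul_sum]
    refine Finset.sum_congr rfl fun y _ => ?_
    rw [dbl_eq]
    ring
  -- step 3, 4
  have s3 : ∑ x, p x * (g x * g x) ≤ Pool.KAF.Pr Q {w | |S w.1 - S w.2| < 2 * δ} := by
    have e1 : Pool.KAF.Pr Q {w | |S w.1 - S w.2| < 2 * δ} =
        ∑ w, dbl p Z w * (if |S w.1 - S w.2| < 2 * δ then (1 : ℝ) else 0) := by
      rw [Pr_sum, hQ]
      refine Finset.sum_congr rfl fun w _ => ?_
      by_cases h1 : |S w.1 - S w.2| < 2 * δ
      · rw [if_pos h1, if_pos h1, mul_one]
      · rw [if_neg h1, if_neg h1, mul_zero]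
    rw [e1, ← sum_three hp Z (fun y y' => if |S y - S y'| < 2 * δ then (1 : ℝ) else 0)]
    refine Finset.sum_le_sum fun x _ => mul_le_mul_of_nonneg_left ?_ (hp.nonneg x)
    rw [hg]
    dsimp only
    rw [Finset.sum_mul_sum]
    refine Finset.sum_le_sum fun y _ => Finset.sum_le_sum fun y' _ => ?_
    have c1 := cond_nonneg hp.nonneg Z (Z x) y
    have c2 := cond_nonneg hp.nonneg Z (Z x) y'
    have e2 : Pool.Agent.H49.Ent.cond p Z (Z x) y * D x y *
        (Pool.Agent.H49.Ent.cond p Z (Z x) y' * D x y') =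
        Pool.Agent.H49.Ent.cond p Z (Z x) y * Pool.Agent.H49.Ent.cond p Z (Z x) y' *
          (D x y * D x y') := by ring
    rw [e2]
    refine mul_le_mul_of_nonneg_left ?_ (mul_nonneg c1 c2)
    rw [hD]
    dsimp only
    by_cases h1 : Bad (V' x) ∧ |S y - s (V' x)| < δ
    · by_cases h2 : Bad (V' x) ∧ |S y' - s (V' x)| < δ
      · have h3 : |S y - S y'| < 2 * δ := by
          have a1 := abs_lt.1 h1.2
          have a2 := abs_lt.1 h2.2
          rw [abs_lt]
          constructor <;> linarith [a1.1, a1.2, a2.1, a2.2]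
        rw [if_pos h1, if_pos h2, if_pos h3]
        norm_num
      · rw [if_neg h2, mul_zero]
        split_ifs <;> norm_num
    · rw [if_neg h1, zero_mul]
      split_ifs <;> norm_num
  -- step 5
  have s5 : (∑ x, p x * g x) * (∑ x, p x * g x) ≤ ∑ x, p x * (g x * g x) := by
    obtain ⟨μ, hμ⟩ : ∃ μ, μ = ∑ x, p x * g x := ⟨_, rfl⟩
    have h1 : 0 ≤ ∑ x, p x * ((g x - μ) * (g x - μ)) :=
      Finset.sum_nonneg fun x _ => mul_nonneg (hp.nonneg x) (mul_self_nonneg _)
    have h2 : ∑ x, p x * ((g x - μ) * (g x - μ)) =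
        ∑ x, p x * (g x * g x) - 2 * μ * ∑ x, p x * g x + μ * μ * ∑ x, p x := by
      rw [Finset.mul_sum, Finset.mul_sum, ← Finset.sum_sub_distrib, ← Finset.sum_add_distrib]
      exact Finset.sum_congr rfl fun x _ => by ring
    rw [h2, hp.sum_one, ← hμ] at h1
    rw [← hμ]
    linarith
  have hεb : ε * ε < ε * b := mul_lt_mul_of_pos_left hcon hε
  have h6 : ε * ε < ∑ x, p x * g x := by
    rw [← s2]
    exact hεb.trans_le s1
  have h7 : ε * ε * (ε * ε) < (∑ x, p x * g x) * (∑ x, p x * g x) :=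
    mul_lt_mul'' h6 h6 (by positivity) (by positivity)
  have h8 : ε ^ 4 = ε * ε * (ε * ε) := by ring
  rw [h8] at h
  linarith

end pair

end Pool.S6U
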