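import Pool.Agent.H10.S6U.Uz1
import Pool.Agent.H46.S6.PlvT

/-!
# The local U-step at one context, `v = 0`

The frame and the precision of the second coordinate are constant on the rectangle. The block of
the position (both coordinates) is full by theorem PLV with one reference time; then the own
coordinate is full given the own slope.
-/

set_option autoImplicit false

namespace Pool.S6U

open Finset Real
open Pool.Agent.H49.Ent Pool.Agent.H32.Dense Pool.STK Pool.KA Pool.KSAT Pool.K2S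

variable {m J : ℕ}

section post

variable {Γ : Type} {F : Fam m J} {p : F.Ω → ℝ} {i₀ iu : Fin m} {w : ℕ} {c : Fin m → ℕ}
  {M : F.Ω → Fin m → Fin m → ℝ} {S : F.Ω → ℝ} {G : F.Ω → Γ} {X : ℕ}

/-- The block of the position. -/
noncomputable def xt (F : Fam m J) (i₀ iu : Fin m) (w : ℕ) (c : Fin m → ℕ)
    (M : F.Ω → Fin m → Fin m → ℝ) (X : ℕ) (ω : F.Ω) : ℤ × ℤ :=
  (Uni.dg X (fun ω => F.mx w c M ω i₀) ω, Uni.dg X (fun ω => F.mx w c M ω iu) ω)

/-- The block of the velocity. -/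
noncomputable def vt (F : Fam m J) (i₀ iu : Fin m) (c : Fin m → ℕ)
    (M : F.Ω → Fin m → Fin m → ℝ) (X : ℕ) (ω : F.Ω) : ℤ × ℤ :=
  (Uni.dg X (fun ω => F.md c M ω i₀) ω, Uni.dg X (fun ω => F.md c M ω iu) ω)

/-- The condition without the frame of the exact point. -/
noncomputable def bt (F : Fam m J) (w : ℕ) (c : Fin m → ℕ)
    (M : F.Ω → Fin m → Fin m → ℝ) (ω : F.Ω) := (F.blb w c M ω, F.T ω)

theorem CH_floor {Ω T : Type} [Fintype Ω] {q : Ω → ℝ} (hq : IsLaw q) {X : ℕ} {x : Ω → ℝ}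
    {Z : Ω → T} {K : ℝ} (hx : ∀ ω ω', 0 < q ω → 0 < q ω' → Z ω = Z ω' →
      |2 ^ X * x ω - 2 ^ X * x ω'| ≤ K) : CH q (Uni.dg X x) Z ≤ Real.log (2 * K + 3) := by
  have key := CH_int hq (Uni.dg X x) Z (c := K + 1) (by
    intro ω ω' hω hω' e
    exact Plk.floor_sub_lt (hx ω ω' hω hω' e))
  refine key.trans (le_of_eq ?_)
  congr 1
  ring

/-- The position at the time of the sample is known from the line block. -/
theorem CH_xt_lbr (hp : IsLaw p) {T : Type} {Z : F.Ω → T} (hZ : Det p Z (F.lbr w c M X))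
    (hT : Det p Z F.T) : CH p (xt F i₀ iu w c M X) Z ≤ 2 * Real.log 7 := by
  have h0 := hp.nonneg
  have key : ∀ i, CH p (Uni.dg X (fun ω => F.mx w c M ω i)) Z ≤ Real.log 7 := by
    intro i
    refine le_trans (CH_mono_cond h0 ?_) (CH_mx (w := w) (c := c) (M := M) hp i hT X)
    intro ω ω' hω hω' e
    have e1 := lbr_dig (r := X) le_rfl (hZ ω ω' hω hω' e) i
    exact Prod.ext (Prod.ext e1.1 e1.2) e
  have k1 := CH_subadd h0 (Uni.dg X (fun ω => F.mx w c M ω i₀))
    (Uni.dg X (fun ω => F.mx w c M ω iu)) Z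
  have k2 := key i₀
  have k3 := key iu
  have k4 : CH p (xt F i₀ iu w c M X) Z = CH p (fun ω => (Uni.dg X (fun ω => F.mx w c M ω i₀) ω,
    Uni.dg X (fun ω => F.mx w c M ω iu) ω)) Z := rfl
  rw [k4]
  linarith only [k1, k2, k3]

theorem CH_le_two {Ω T : Type} [Fintype Ω] {q : Ω → ℝ} (hq : IsLaw q) (X : ℕ) {x : Ω → ℝ}
    (Z : Ω → T) (hx : ∀ ω, 0 < q ω → |x ω| ≤ 2) :
    CH q (Uni.dg X x) Z ≤ X * Real.log 2 + Real.log 11 := by
  have key := CH_floor hq (X := X) (x := x) (Z := Z) (K := 4 * 2 ^ X) (by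
    intro ω ω' hω hω' _
    have h1 := abs_le.1 (hx ω hω)
    have h2 := abs_le.1 (hx ω' hω')
    rw [← mul_sub, abs_mul, abs_of_pos (by positivity : (0 : ℝ) < 2 ^ X), mul_comm]
    refine mul_le_mul_of_nonneg_right ?_ (by positivity)
    rw [abs_le]
    constructor <;> linarith only [h1, h2])
  refine key.trans ?_
  have h1 : (1 : ℝ) ≤ 2 ^ X := one_le_pow₀ (by norm_num)
  have h2 : Real.log (2 * (4 * 2 ^ X) + 3) ≤ Real.log (2 ^ X * 11) := by
    refine Real.log_le_log (by positivity) ?_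
    linarith only [h1]
  rw [Real.log_mul (by positivity) (by norm_num), Real.log_pow] at h2
  exact h2

theorem mx_two (F : Fam m J) (w : ℕ) (c : Fin m → ℕ) (M : F.Ω → Fin m → Fin m → ℝ) (ω : F.Ω)
    (i : Fin m) : |F.mx w c M ω i| ≤ 2 := by
  have a1 := Box.mu_mem F w (fun i => c i + w) M ω i
  have a2 := Box.md_mem F c M ω i
  have t0 := Lab.wt_mem F w ω
  unfold Fam.mx
  generalize F.mu w (fun i => c i + w) M ω i = B1 at a1 ⊢
  generalize F.md c M ω i = B2 at a2 ⊢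
  generalize F.wt w ω = t at t0 ⊢
  have k1 : 0 ≤ t * B2 ∧ t * B2 ≤ 1 := ⟨mul_nonneg t0.1 a2.1, mul_le_one₀ t0.2.le a2.1 a2.2.le⟩
  rw [abs_le]
  constructor <;> linarith only [a1, k1]

/-- The row of the own coordinate gives the second coordinate, and conversely. -/
theorem CH_mx_nu (hp : IsLaw p) (hS4 : ∀ ω, 0 < p ω → |S ω| ≤ 4) {T : Type} {Z : F.Ω → T}
    (hS : Det p Z S) (h1 : Det p Z (Uni.dg X (tnu F w c M i₀ iu S)))
    {K : ℝ} (_hK : 0 ≤ K) (h2 : ∀ ω ω', 0 < p ω → 0 < p ω' → Z ω = Z ω' →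
      |2 ^ X * F.mx w c M ω i₀ - 2 ^ X * F.mx w c M ω' i₀| ≤ K) :
    CH p (Uni.dg X (fun ω => F.mx w c M ω iu)) Z ≤ Real.log (2 * (4 * K + 1) + 3) := by
  refine CH_floor hp ?_
  intro ω ω' hω hω' e
  have e1 : ⌊(2 : ℝ) ^ X * tnu F w c M i₀ iu S ω⌋ = ⌊(2 : ℝ) ^ X * tnu F w c M i₀ iu S ω'⌋ :=
    h1 ω ω' hω hω' e
  have e2 := Plk.abs_sub_lt_of_floor e1
  have e3 := hS ω ω' hω hω' e
  have e4 := h2 ω ω' hω hω' e
  have e5 : 2 ^ X * F.mx w c M ω iu - 2 ^ X * F.mx w c M ω' iu =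
      (2 ^ X * tnu F w c M i₀ iu S ω - 2 ^ X * tnu F w c M i₀ iu S ω') +
      S ω * (2 ^ X * F.mx w c M ω i₀ - 2 ^ X * F.mx w c M ω' i₀) := by
    unfold tnu
    rw [← e3]
    ring
  rw [e5]
  refine (abs_add_le _ _).trans ?_
  rw [abs_mul]
  have e6 : |S ω| * |2 ^ X * F.mx w c M ω i₀ - 2 ^ X * F.mx w c M ω' i₀| ≤ 4 * K :=
    mul_le_mul (hS4 ω hω) e4 (abs_nonneg _) (by norm_num)
  linarith only [e2, e6]

/-- **From the block of the position to the own coordinates.** -/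
theorem post (hp : IsLaw p) (hS4 : ∀ ω, 0 < p ω → |S ω| ≤ 4)
    (hS : Det p (fun ω => (F.blb w c M ω, G ω)) S) {e eB eM : ℝ}
    (hx : e ≤ CH p (xt F i₀ iu w c M X) (bt F w c M))
    (hB : dp p (xt F i₀ iu w c M X) (vt F i₀ iu c M X) (bt F w c M) ≤ eB)
    (hM : tM F p w c M G X ≤ eM) :
    e - eM - 2 * Real.log 7 - Real.log 13 ≤
      CH p (fun ω => (Uni.dg X (tnu F w c M i₀ iu S) ω,
        Uni.dg X (fun ω => F.mx w c M ω i₀) ω)) (cdn F w c M G) ∧
    e - eB - eM - X * Real.log 2 - 3 * Real.log 7 - Real.log 11 - Real.log 21 ≤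
      CH p (Uni.dg X (tnu F w c M i₀ iu S)) (fun ω => (vd F i₀ iu w c M X ω, cdn F w c M G ω)) := by
  have h0 := hp.nonneg
  obtain ⟨x, hxd⟩ : ∃ x, x = xt F i₀ iu w c M X := ⟨_, rfl⟩
  obtain ⟨v, hvd⟩ : ∃ v, v = vt F i₀ iu c M X := ⟨_, rfl⟩
  obtain ⟨B, hBd⟩ : ∃ B, B = bt F w c M := ⟨_, rfl⟩
  obtain ⟨Z, hZd⟩ : ∃ Z, Z = cdn F w c M G := ⟨_, rfl⟩
  obtain ⟨nu, hnu⟩ : ∃ nu, nu = Uni.dg X (tnu F w c M i₀ iu S) := ⟨_, rfl⟩
  obtain ⟨yt, hyt⟩ : ∃ yt, yt = Uni.dg X (fun ω => F.mx w c M ω i₀) := ⟨_, rfl⟩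
  obtain ⟨mt, hmt⟩ : ∃ mt, mt = Uni.dg X (fun ω => F.mx w c M ω iu) := ⟨_, rfl⟩
  have hxym : ∀ ω, x ω = (yt ω, mt ω) := by
    intro ω
    rw [hxd, hyt, hmt]
    rfl
  have hZB : ∀ ω ω' : F.Ω, Z ω = Z ω' → B ω = B ω' ∧ G ω = G ω' := by
    intro ω ω' h
    rw [hZd] at h
    rw [hBd]
    have e1 := Prod.ext_iff.mp h
    have e2 := Prod.ext_iff.mp e1.2
    exact ⟨Prod.ext e1.1 e2.2, e2.1⟩
  have hBZ : ∀ ω ω' : F.Ω, B ω = B ω' → G ω = G ω' → Z ω = Z ω' := by
    intro ω ω' h h'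
    rw [hBd] at h
    rw [hZd]
    have e1 := Prod.ext_iff.mp h
    exact Prod.ext e1.1 (Prod.ext h' e1.2)
  have hBT : ∀ ω ω' : F.Ω, B ω = B ω' → F.T ω = F.T ω' := by
    intro ω ω' h
    rw [hBd] at h
    exact (Prod.ext_iff.mp h).2
  have hBb : ∀ ω ω' : F.Ω, B ω = B ω' → F.blb w c M ω = F.blb w c M ω' := by
    intro ω ω' h
    rw [hBd] at h
    exact (Prod.ext_iff.mp h).1
  have hSZ : Det p Z S := by
    intro ω ω' hω hω' h
    obtain ⟨h1, h2⟩ := hZB ω ω' h
    exact hS ω ω' hω hω' (Prod.ext (hBb ω ω' h1) h2)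
  rw [← hxd, ← hBd] at hx
  rw [← hxd, ← hvd, ← hBd] at hB
  rw [← hnu, ← hyt, ← hZd]
  -- the frame costs little
  have s1 : dp p x G (fun ω => (v ω, B ω)) ≤ eM + 2 * Real.log 7 := by
    have b1 := dp_le_add h0 (N := x) (N' := F.lbr w c M X) (V := G)
      (b := fun ω => (v ω, B ω)) (c := 2 * Real.log 7) (by
        rw [hxd]
        exact CH_xt_lbr hp (fun _ _ _ _ h => (Prod.ext_iff.mp h).1) (fun ω ω' _ _ h =>
          hBT ω ω' (Prod.ext_iff.mp (Prod.ext_iff.mp h).2).2))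
    have b2 : dp p (F.lbr w c M X) G (fun ω => (v ω, B ω)) ≤
        dp p (fun ω => (F.lbr w c M X ω, v ω)) G B := by
      have h1 := dp_add h0 (F.lbr w c M X) v G B
      have h2 := dp_nonneg h0 v G B
      linarith only [h1, h2]
    have b3 : dp p (fun ω => (F.lbr w c M X ω, v ω)) G B ≤ dp p (F.lbr w c M X) G B := by
      refine dp_mono h0 ?_ (fun _ _ _ _ h => (Prod.ext_iff.mp h).1)
      intro ω ω' _ _ h
      have e1 := (Prod.ext_iff.mp h).1
      have e2 := lbr_dig (r := X) le_rfl e1 i₀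
      have e3 := lbr_dig (r := X) le_rfl e1 iu
      rw [hvd]
      exact Prod.ext e1 (Prod.ext e2.2 e3.2)
    have b4 : dp p (F.lbr w c M X) G B ≤ eM := by
      rw [dp_symm h0]
      refine le_trans (le_of_eq ?_) hM
      rw [hBd]
      rfl
    linarith only [b1, b2, b3, b4]
  have s1' : dp p x G B ≤ eM + 2 * Real.log 7 := by
    have b1 := dp_le_add h0 (N := x) (N' := F.lbr w c M X) (V := G)
      (b := B) (c := 2 * Real.log 7) (by
        rw [hxd]
        exact CH_xt_lbr hp (fun _ _ _ _ h => (Prod.ext_iff.mp h).1) (fun ω ω' _ _ h =>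
          hBT ω ω' (Prod.ext_iff.mp h).2))
    have b4 : dp p (F.lbr w c M X) G B ≤ eM := by
      rw [dp_symm h0]
      refine le_trans (le_of_eq ?_) hM
      rw [hBd]
      rfl
    linarith only [b1, b4]
  have s2 : CH p x (fun ω => (G ω, B ω)) = CH p x Z := by
    refine CH_congr h0 (fun _ _ _ _ h => (Prod.ext_iff.mp h).1)
      (fun _ _ _ _ h => (Prod.ext_iff.mp h).1) ?_ ?_
    · intro ω ω' _ _ h
      exact hBZ ω ω' (Prod.ext_iff.mp h).2 (Prod.ext_iff.mp h).1
    · intro ω ω' _ _ h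
      obtain ⟨h1, h2⟩ := hZB ω ω' h
      exact Prod.ext h2 h1
  have s3 : CH p x (fun ω => (G ω, (v ω, B ω))) = CH p x (fun ω => (v ω, Z ω)) := by
    refine CH_congr h0 (fun _ _ _ _ h => (Prod.ext_iff.mp h).1)
      (fun _ _ _ _ h => (Prod.ext_iff.mp h).1) ?_ ?_
    · intro ω ω' _ _ h
      have e1 := Prod.ext_iff.mp h
      have e2 := Prod.ext_iff.mp e1.2
      exact Prod.ext e2.1 (hBZ ω ω' e2.2 e1.1)
    · intro ω ω' _ _ h
      have e1 := Prod.ext_iff.mp h
      obtain ⟨h1, h2⟩ := hZB ω ω' e1.2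
      exact Prod.ext h2 (Prod.ext e1.1 h1)
  have e1 : dp p x G B = CH p x B - CH p x (fun ω => (G ω, B ω)) := rfl
  have e2 : dp p x G (fun ω => (v ω, B ω)) =
    CH p x (fun ω => (v ω, B ω)) - CH p x (fun ω => (G ω, (v ω, B ω))) := rfl
  have e3 : dp p x v B = CH p x B - CH p x (fun ω => (v ω, B ω)) := rfl
  constructor
  · -- the pair
    have k1 := CH_le_add h0 x (fun ω => (nu ω, yt ω)) Z
    have k2 : CH p x (fun ω => ((nu ω, yt ω), Z ω)) ≤ Real.log 13 := by
      have k3 : CH p x (fun ω => ((nu ω, yt ω), Z ω)) ≤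
          CH p mt (fun ω => ((nu ω, yt ω), Z ω)) := by
        refine CH_mono_left h0 ?_
        intro ω ω' _ _ h
        have e1 := Prod.ext_iff.mp h
        have e2 := Prod.ext_iff.mp e1.2
        have e3 := Prod.ext_iff.mp e2.1
        rw [hxym, hxym]
        exact Prod.ext e3.2 e1.1
      refine k3.trans ?_
      rw [hmt]
      refine (CH_mx_nu (i₀ := i₀) (iu := iu) hp hS4 (K := 1) ?_ ?_ zero_le_one ?_).trans (le_of_eq (by norm_num))
      · intro ω ω' hω hω' h
        exact hSZ ω ω' hω hω' (Prod.ext_iff.mp h).2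
      · intro ω ω' hω hω' h
        have e1 := (Prod.ext_iff.mp (Prod.ext_iff.mp h).1).1
        rw [hnu] at e1
        exact e1
      · intro ω ω' hω hω' h
        have e1 := (Prod.ext_iff.mp (Prod.ext_iff.mp h).1).2
        rw [hyt] at e1
        exact Plk.abs_sub_lt_of_floor e1
    linarith only [hx, s1', s2, e1, k1, k2]
  · -- the row given the line data
    obtain ⟨V, hV⟩ : ∃ V, V = vd F i₀ iu w c M X := ⟨_, rfl⟩
    rw [← hV]
    have k0 : CH p x (fun ω => (v ω, Z ω)) = CH p yt (fun ω => (v ω, Z ω)) +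
        CH p mt (fun ω => (yt ω, (v ω, Z ω))) := by
      have k1 : CH p x (fun ω => (v ω, Z ω)) = CH p (fun ω => (mt ω, yt ω))
          (fun ω => (v ω, Z ω)) := by
        refine CH_congr h0 ?_ ?_ (fun _ _ _ _ h => h) (fun _ _ _ _ h => h)
        · intro ω ω' _ _ h
          have e1 : x ω = x ω' := (Prod.ext_iff.mp h).1
          rw [hxym, hxym] at e1
          have e2 := Prod.ext_iff.mp e1
          exact Prod.ext e2.2 e2.1
        · intro ω ω' _ _ h
          have e2 := Prod.ext_iff.mp (Prod.ext_iff.mp h).1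
          show x ω = x ω'
          rw [hxym, hxym]
          exact Prod.ext e2.2 e2.1
      rw [k1]
      have := CH_chain h0 mt yt (fun ω => (v ω, Z ω))
      linarith only [this]
    have k1 : CH p yt (fun ω => (v ω, Z ω)) ≤ X * Real.log 2 + Real.log 11 := by
      rw [hyt]
      exact CH_le_two hp X _ fun ω _ => mx_two F w c M ω i₀
    -- `y` from `y_t`, `om` and the time
    obtain ⟨y, hy⟩ : ∃ y, y = Uni.dg X (fun ω => F.mu w (fun i => c i + w) M ω i₀) := ⟨_, rfl⟩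
    have k2 : CH p y (fun ω => (yt ω, (v ω, Z ω))) ≤ Real.log 7 := by
      rw [hy]
      refine (CH_floor hp (K := 2) ?_).trans (le_of_eq (by norm_num))
      intro ω ω' hω hω' h
      have e1 := Prod.ext_iff.mp h
      have e2 := Prod.ext_iff.mp e1.2
      have e3 : ⌊(2 : ℝ) ^ X * F.mx w c M ω i₀⌋ = ⌊(2 : ℝ) ^ X * F.mx w c M ω' i₀⌋ := by
        have := e1.1
        rw [hyt] at this
        exact this
      have e4 : ⌊(2 : ℝ) ^ X * F.md c M ω i₀⌋ = ⌊(2 : ℝ) ^ X * F.md c M ω' i₀⌋ := by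
        have := e2.1
        rw [hvd] at this
        exact (Prod.ext_iff.mp this).1
      have e5 : F.wt w ω = F.wt w ω' := wt_det (hBT ω ω' (hZB ω ω' e2.2).1)
      have n1 := Plk.abs_sub_lt_of_floor e3
      have n2 := Plk.abs_sub_lt_of_floor e4
      have t0 := Lab.wt_mem F w ω
      have e6 : 2 ^ X * F.mu w (fun i => c i + w) M ω i₀ -
          2 ^ X * F.mu w (fun i => c i + w) M ω' i₀ =
          (2 ^ X * F.mx w c M ω i₀ - 2 ^ X * F.mx w c M ω' i₀) -
          F.wt w ω * (2 ^ X * F.md c M ω i₀ - 2 ^ X * F.md c M ω' i₀) := by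
        unfold Fam.mx
        rw [← e5]
        ring
      rw [e6]
      refine (abs_sub _ _).trans ?_
      rw [abs_mul, abs_of_nonneg t0.1]
      have : F.wt w ω * |2 ^ X * F.md c M ω i₀ - 2 ^ X * F.md c M ω' i₀| ≤ 1 * 1 :=
        mul_le_mul t0.2.le n2 (abs_nonneg _) zero_le_one
      linarith only [n1, this]
    have k3 := CH_le_add h0 mt y (fun ω => (yt ω, (v ω, Z ω)))
    have k4 : CH p mt (fun ω => (y ω, (yt ω, (v ω, Z ω)))) ≤ CH p mt (fun ω => (V ω, Z ω)) := by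
      refine CH_mono_cond h0 ?_
      intro ω ω' _ _ h
      simp only [Prod.mk.injEq] at h
      obtain ⟨h1, h2, h3, h4⟩ := h
      rw [hy] at h1
      rw [hvd] at h3
      have h5 := Prod.ext_iff.mp h3
      rw [hV]
      exact Prod.ext (Prod.ext h1 (Prod.ext h5.1 h5.2)) h4
    have k5 := CH_le_add h0 mt nu (fun ω => (V ω, Z ω))
    have k6 : CH p mt (fun ω => (nu ω, (V ω, Z ω))) ≤ Real.log 21 := by
      rw [hmt]
      refine (CH_mx_nu (i₀ := i₀) (iu := iu) hp hS4 (K := 2) ?_ ?_ zero_le_two ?_).trans (le_of_eq (by norm_num))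
      · intro ω ω' hω hω' h
        exact hSZ ω ω' hω hω' (Prod.ext_iff.mp (Prod.ext_iff.mp h).2).2
      · intro ω ω' hω hω' h
        have e1 := (Prod.ext_iff.mp h).1
        rw [hnu] at e1
        exact e1
      · intro ω ω' hω hω' h
        have e1 := Prod.ext_iff.mp (Prod.ext_iff.mp h).2
        have e2 := e1.1
        rw [hV] at e2
        have e3 : ⌊(2 : ℝ) ^ X * F.mu w (fun i => c i + w) M ω i₀⌋ =
          ⌊(2 : ℝ) ^ X * F.mu w (fun i => c i + w) M ω' i₀⌋ := (Prod.ext_iff.mp e2).1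
        have e4 : ⌊(2 : ℝ) ^ X * F.md c M ω i₀⌋ = ⌊(2 : ℝ) ^ X * F.md c M ω' i₀⌋ :=
          (Prod.ext_iff.mp (Prod.ext_iff.mp e2).2).1
        have e5 : F.wt w ω = F.wt w ω' := wt_det (hBT ω ω' (hZB ω ω' e1.2).1)
        have n1 := Plk.abs_sub_lt_of_floor e3
        have n2 := Plk.abs_sub_lt_of_floor e4
        have t0 := Lab.wt_mem F w ω
        have e6 : 2 ^ X * F.mx w c M ω i₀ - 2 ^ X * F.mx w c M ω' i₀ =
            (2 ^ X * F.mu w (fun i => c i + w) M ω i₀ -
              2 ^ X * F.mu w (fun i => c i + w) M ω' i₀) +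
            F.wt w ω * (2 ^ X * F.md c M ω i₀ - 2 ^ X * F.md c M ω' i₀) := by
          unfold Fam.mx
          rw [← e5]
          ring
        rw [e6]
        refine (abs_add_le _ _).trans ?_
        rw [abs_mul, abs_of_nonneg t0.1]
        have : F.wt w ω * |2 ^ X * F.md c M ω i₀ - 2 ^ X * F.md c M ω' i₀| ≤ 1 * 1 :=
          mul_le_mul t0.2.le n2 (abs_nonneg _) zero_le_one
        linarith only [n1, this]
    linarith only [hB, hx, s1, s3, e2, e3, k0, k1, k2, k3, k4, k5, k6]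

end post

/-! ### Time -/

section tim

variable {F : Fam m J} {p : F.Ω → ℝ}

theorem CH_T_le {β : Type} (hp : IsLaw p) {w : ℕ} (hw : w ≤ J) {b : F.Ω → β}
    (hb : Det p b (F.T1 w)) : CH p F.T b ≤ ((J : ℝ) - w) * Real.log 2 := by
  have := card_T1 (F := F) (w := w) (K := J - w) (by omega) hp hb
  have e1 : w + (J - w) = J := by omega
  rw [e1] at this
  have e2 : ((J - w : ℕ) : ℝ) = (J : ℝ) - w := by rw [Nat.cast_sub hw]
  rw [e2] at this
  refine le_trans (le_of_eq ?_) this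
  congr 1
  funext ω
  exact (T1_top ω).symm

end tim

/-! ### The hypotheses of theorem PLV -/

section hyp0

variable {Γ τ : Type} {F : Fam m J} {p : F.Ω → ℝ} {i₀ iu : Fin m} {w : ℕ} {c : Fin m → ℕ}
  {M : F.Ω → Fin m → Fin m → ℝ} {S : F.Ω → ℝ} {G : F.Ω → Γ} {P : F.Ω → τ} {X : ℕ}

/-- The exact points see the frame and the velocity. -/
def Str (F : Fam m J) (p : F.Ω → ℝ) (i₀ iu : Fin m) (w : ℕ) (c : Fin m → ℕ)
    (M : F.Ω → Fin m → Fin m → ℝ) (S : F.Ω → ℝ) (P : F.Ω → τ) (X : ℕ) (K : ℝ) : Prop :=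
  ∃ u v W : F.Ω → ℝ, Det p (fun ω => (P ω, F.blb w c M ω)) (fun ω => (u ω, (v ω, W ω))) ∧
    ∀ ω, 0 < p ω → |F.mx w c M ω i₀ - u ω| * 2 ^ X ≤ K ∧ |F.mx w c M ω iu - v ω| * 2 ^ X ≤ K ∧
      |F.md c M ω iu - S ω * F.md c M ω i₀ - W ω| * 2 ^ X ≤ K

theorem blb_of_slam (hM : Det p (slam F w) M) : Det p (slam F w) (F.blb w c M) := by
  intro ω ω' hω hω' h
  have h1 : F.l ω = F.l ω' := (Prod.ext_iff.mp h).1
  have h2 := Prod.ext_iff.mp (Prod.ext_iff.mp h).2
  have h3 : F.Z ω = F.Z ω' := h2.1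
  have h4 : F.T1 w ω = F.T1 w ω' := h2.2
  exact (Box.label_det F h1 h4 (hM ω ω' hω hω' h) h3).1

theorem mu_of_slam (hM : Det p (slam F w) M) {k : Fin m → ℕ} :
    Det p (slam F w) (fun ω => (F.mu w k M ω, F.md c M ω)) := by
  intro ω ω' hω hω' h
  have h1 : F.l ω = F.l ω' := (Prod.ext_iff.mp h).1
  have h2 := Prod.ext_iff.mp (Prod.ext_iff.mp h).2
  have h3 : F.Z ω = F.Z ω' := h2.1
  have h4 : F.T1 w ω = F.T1 w ω' := h2.2
  have h5 := Box.label_det F (k := k) (c := c) h1 h4 (hM ω ω' hω hω' h) h3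
  exact Prod.ext h5.2.1 h5.2.2

/-- The data of theorem PLV on the pairs of samples of a line and window. -/
theorem pvdata (hp : IsLaw p) {K : ℝ} (hK : 4 ≤ K) (hM : Det p (slam F w) M)
    (hS : Det p (fun ω => (F.blb w c M ω, G ω)) S) (hS4 : ∀ ω, 0 < p ω → |S ω| ≤ 4)
    (hst : Str F p i₀ iu w c M S P X K) :
    Pool.PLV.PVData 1 K (dbl p (slam F w)) (fun x => F.blb w c M x.1) (fun _ => ())
      (fun x => slam F w x.1) (fun x => F.T x.1) (fun x => (G x.2, F.T x.2)) (fun x => P x.2)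
      (fun x => F.mu w (fun i => c i + w) M x.1 i₀) (fun x => F.md c M x.1 i₀)
      (fun x _ => F.mu w (fun i => c i + w) M x.1 iu) (fun x _ => F.md c M x.1 iu)
      (fun x => F.wt w x.1) (fun x => F.wt w x.2) (fun x _ => S x.2)
      (fun x => F.mx w c M x.1 i₀) (fun x _ => F.mx w c M x.1 iu) X := by
  have hl := dbl_law hp (slam F w)
  have hpos : ∀ x, 0 < dbl p (slam F w) x → 0 < p x.1 ∧ 0 < p x.2 ∧
      slam F w x.1 = slam F w x.2 := fun x h => dbl_pos hp h
  have hmu : ∀ x y : F.Ω × F.Ω, 0 < dbl p (slam F w) x → 0 < dbl p (slam F w) y →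
      slam F w x.1 = slam F w y.1 → (F.mu w (fun i => c i + w) M x.1, F.md c M x.1) =
        (F.mu w (fun i => c i + w) M y.1, F.md c M y.1) := fun x y hx hy h =>
    mu_of_slam hM x.1 y.1 (hpos x hx).1 (hpos y hy).1 h
  have hbb : ∀ x, 0 < dbl p (slam F w) x → F.blb w c M x.1 = F.blb w c M x.2 := fun x hx =>
    blb_of_slam hM x.1 x.2 (hpos x hx).1 (hpos x hx).2.1 (hpos x hx).2.2
  have hmm : ∀ x, 0 < dbl p (slam F w) x → (F.mu w (fun i => c i + w) M x.1, F.md c M x.1) =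
      (F.mu w (fun i => c i + w) M x.2, F.md c M x.2) := fun x hx =>
    mu_of_slam hM x.1 x.2 (hpos x hx).1 (hpos x hx).2.1 (hpos x hx).2.2
  refine ⟨hl, ?_, ?_, ?_, ?_, ?_, ?_, ?_, ?_, ?_, ?_, ?_, ?_, ?_, ?_, ?_⟩
  · intro x y hx hy h
    exact congrFun (Prod.ext_iff.mp (hmu x y hx hy (Prod.ext_iff.mp h).2)).1 i₀
  · intro x y hx hy h
    exact congrFun (Prod.ext_iff.mp (hmu x y hx hy (Prod.ext_iff.mp h).2)).2 i₀
  · intro x y hx hy h
    funext _
    exact congrFun (Prod.ext_iff.mp (hmu x y hx hy (Prod.ext_iff.mp h).2)).1 iu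
  · intro x y hx hy h
    funext _
    exact congrFun (Prod.ext_iff.mp (hmu x y hx hy (Prod.ext_iff.mp h).2)).2 iu
  · intro x y _ _ h
    exact wt_det (Prod.ext_iff.mp h).2
  · intro x y _ _ h
    exact wt_det (Prod.ext_iff.mp (Prod.ext_iff.mp h).2).2
  · intro x y hx hy h
    funext _
    have h1 := Prod.ext_iff.mp h
    have h2 : F.blb w c M x.1 = F.blb w c M y.1 := (Prod.ext_iff.mp h1.1).1
    refine hS x.2 y.2 (hpos x hx).2.1 (hpos y hy).2.1 (Prod.ext ?_ (Prod.ext_iff.mp h1.2).1)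
    show F.blb w c M x.2 = F.blb w c M y.2
    rw [← hbb x hx, ← hbb y hy, h2]
  · intro x _
    exact Box.md_mem F c M x.1 i₀
  · intro x _
    exact Lab.wt_mem F w x.1
  · intro x _
    have := Lab.wt_mem F w x.2
    rw [abs_of_nonneg this.1]
    exact this.2.le
  · intro x hx _
    exact (hS4 x.2 (hpos x hx).2.1).trans hK
  · intro x _
    have := mx_two F w c M x.1 i₀
    linarith
  · refine ⟨fun _ => 0, fun _ _ _ _ _ => rfl, fun x _ => ?_⟩
    unfold Fam.mx
    ring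
  · refine ⟨fun _ _ => 0, fun _ _ _ _ _ => rfl, fun x _ _ => ?_⟩
    unfold Fam.mx
    ring
  · obtain ⟨u, v, W, hd, hb⟩ := hst
    refine ⟨fun x => u x.2, fun x _ => v x.2, fun x _ => W x.2, ?_, ?_⟩
    · intro x y hx hy h
      have h1 := Prod.ext_iff.mp h
      have h2 := Prod.ext_iff.mp (Prod.ext_iff.mp h1.2).2
      have h3 : F.blb w c M x.1 = F.blb w c M y.1 := h2.1
      have h4 := hd x.2 y.2 (hpos x hx).2.1 (hpos y hy).2.1 (Prod.ext h1.1 (by
        show F.blb w c M x.2 = F.blb w c M y.2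
        rw [← hbb x hx, ← hbb y hy, h3]))
      have h5 := Prod.ext_iff.mp h4
      have h6 := Prod.ext_iff.mp h5.2
      refine Prod.ext h5.1 (Prod.ext ?_ ?_)
      · funext _
        exact h6.1
      · funext _
        exact h6.2
    · intro x hx
      obtain ⟨b1, b2, b3⟩ := hb x.2 (hpos x hx).2.1
      have h1 := Prod.ext_iff.mp (hmm x hx)
      have e1 : F.mu w (fun i => c i + w) M x.1 i₀ = F.mu w (fun i => c i + w) M x.2 i₀ :=
        congrFun h1.1 i₀
      have e2 : F.md c M x.1 i₀ = F.md c M x.2 i₀ := congrFun h1.2 i₀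
      have e3 : F.mu w (fun i => c i + w) M x.1 iu = F.mu w (fun i => c i + w) M x.2 iu :=
        congrFun h1.1 iu
      have e4 : F.md c M x.1 iu = F.md c M x.2 iu := congrFun h1.2 iu
      rw [e1, e2]
      refine ⟨b1, ?_, ?_⟩
      · intro _
        rw [e3, e4]
        exact b2
      · intro _
        rw [e4]
        exact b3

/-- Three conditions which are equivalent. -/
theorem pvhyp (hp : IsLaw p) (hwX : w + X ≤ J) (hM : Det p (slam F w) M)
    (hS4 : ∀ ω, 0 < p ω → |S ω| ≤ 4)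
    (hP : Det p P (fun ω => (G ω, F.T ω))) {eT eB eM x₀ η ϖ ι ε₁ ca : ℝ} (hϖ : 0 < ϖ)
    (hε₁ : 0 < ε₁) (hca : 0 ≤ ca)
    (tm : ((J : ℝ) - w) * Real.log 2 - eT ≤ CH p F.T (slam F w))
    (h6 : Pool.KAF.Pr (dbl p (slam F w))
      {v | |S v.1 - S v.2| < 2 * (8 * (2 : ℝ) ^ (-(x₀ * X)))} ≤ ε₁ ^ 4)
    (hx : (2 : ℝ) ^ (-(x₀ * X)) ≤ 1 / 2)
    (act : ∀ r X' : ℕ, η * X ≤ X' → r + X' ≤ X → ∀ E : F.Ω → Prop, ϖ / 2 ≤ Pe p E →
      2 * ca * X' * Real.log 2 ≤ CH (Pool.Agent.H49.Ent.cond p E True)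
        (Uni.dg (r + X') (fun ω => F.md c M ω i₀))
        (fun ω => (Uni.dg r (fun ω => F.md c M ω i₀) ω, (P ω, F.blb w c M ω))))
    (hB : dp p (xt F i₀ iu w c M X) (vt F i₀ iu c M X) (bt F w c M) ≤ eB)
    (hm : tM F p w c M G X ≤ eM)
    (i1 : eT ≤ ι * X) (i2 : eT ≤ ι * X * Real.log 2)
    (i3 : eB + eM + 2 * eT + 2 * Real.log 7 ≤ ι * X) :
    Pool.PLV.PVHyp 1 (dbl p (slam F w)) (fun x => F.blb w c M x.1) (fun _ => ())
      (fun x => slam F w x.1) (fun x => F.T x.1) (fun x => (G x.2, F.T x.2)) (fun x => P x.2)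
      (fun x => F.md c M x.1 i₀) (fun x _ => F.md c M x.1 iu)
      (fun x => F.wt w x.1) (fun x _ => S x.2)
      (fun x => F.mx w c M x.1 i₀) (fun x _ => F.mx w c M x.1 iu) X x₀ η ϖ ι ε₁ ca := by
  have hl := dbl_law hp (slam F w)
  have h0 := hl.nonneg
  have hp0 := hp.nonneg
  have hpos : ∀ x, 0 < dbl p (slam F w) x → 0 < p x.1 ∧ 0 < p x.2 ∧
      slam F w x.1 = slam F w x.2 := fun x h => dbl_pos hp h
  have hbb : ∀ x, 0 < dbl p (slam F w) x → F.blb w c M x.1 = F.blb w c M x.2 := fun x hx =>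
    blb_of_slam hM x.1 x.2 (hpos x hx).1 (hpos x hx).2.1 (hpos x hx).2.2
  have hmm : ∀ x, 0 < dbl p (slam F w) x → F.md c M x.1 = F.md c M x.2 := fun x hx =>
    (Prod.ext_iff.mp (mu_of_slam (k := fun i => c i + w) hM x.1 x.2 (hpos x hx).1 (hpos x hx).2.1
      (hpos x hx).2.2)).2
  have hlX : ∀ x, 0 < dbl p (slam F w) x → F.lbr w c M X x.1 = F.lbr w c M X x.2 := fun x hx =>
    lbr_slam hM X x.1 x.2 (hpos x hx).1 (hpos x hx).2.1 (hpos x hx).2.2
  have dbT : Det p (F.blb w c M) (F.T1 w) := fun ω ω' _ _ h => (Box.mlb_ext h).1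
  have hw : w ≤ J := by omega
  -- the context under the law of the pairs
  obtain ⟨b, hb⟩ : ∃ b : F.Ω → _, b = F.blb w c M := ⟨_, rfl⟩
  -- time given the line and the reference
  have tim : ∀ {α β : Type} (f : F.Ω → α) (W : F.Ω × F.Ω → β),
      Det (dbl p (slam F w)) (fun x => (slam F w x.1, (G x.2, F.T x.2))) W →
      CH p f (slam F w) ≤ CH (dbl p (slam F w)) (fun x => f x.1) W := fun f W hW =>
    CH_ci_le hp (slam F w) f (fun ω => (G ω, F.T ω)) W hW
  have hTle : CH p F.T (F.blb w c M) ≤ ((J : ℝ) - w) * Real.log 2 := CH_T_le hp hw dbT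
  refine ⟨?_, ?_, ?_, ?_, ?_, ?_⟩
  · -- h1
    rw [MI_eq_dp h0]
    unfold dp
    have k1 : CH (dbl p (slam F w)) (fun x => F.T x.1) (fun x => (F.blb w c M x.1, ())) ≤
        ((J : ℝ) - w) * Real.log 2 := by
      refine le_trans (le_of_eq ?_) hTle
      rw [← CH_fst hp (slam F w) F.T (F.blb w c M)]
      refine CH_congr h0 (fun _ _ _ _ h => (Prod.ext_iff.mp h).1)
        (fun _ _ _ _ h => (Prod.ext_iff.mp h).1) ?_ ?_
      · intro x y _ _ h
        exact (Prod.ext_iff.mp h).1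
      · intro x y _ _ h
        exact Prod.ext h rfl
    have k2 := tim F.T (fun x => ((slam F w x.1, (G x.2, F.T x.2)), (F.blb w c M x.1, ()))) (by
      intro x y hx hy h
      refine Prod.ext h (Prod.ext ?_ rfl)
      exact blb_of_slam hM x.1 y.1 (hpos x hx).1 (hpos y hy).1 (Prod.ext_iff.mp h).1)
    linarith only [tm, i1, k1, k2]
  · -- h1'
    have k1 := time_dig (i := X) hp (w := w) (G := slam F w) (fun _ _ _ _ h => h) tm hwX
    have k2 := tim (Uni.dg X (F.wt w))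
      (fun x => (slam F w x.1, ((G x.2, F.T x.2), (F.blb w c M x.1, ())))) (by
      intro x y hx hy h
      have h1 := Prod.ext_iff.mp h
      refine Prod.ext h1.1 (Prod.ext h1.2 (Prod.ext ?_ rfl))
      exact blb_of_slam hM x.1 y.1 (hpos x hx).1 (hpos y hy).1 h1.1)
    have k3 : (1 - ι) * X * Real.log 2 ≤ X * Real.log 2 - eT := by
      have : (1 - ι) * X * Real.log 2 = X * Real.log 2 - ι * X * Real.log 2 := by ring
      rw [this]
      linarith only [i2]
    exact k3.trans (k1.trans k2)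
  · -- h2
    rw [MI_eq_dp h0]
    obtain ⟨N, hN⟩ : ∃ N : F.Ω × F.Ω → ℤ × ℤ, N = fun x => xt F i₀ iu w c M X x.1 := ⟨_, rfl⟩
    obtain ⟨V, hV⟩ : ∃ V : F.Ω × F.Ω → ℤ × ℤ, V = fun x => vt F i₀ iu c M X x.1 := ⟨_, rfl⟩
    obtain ⟨R, hR⟩ : ∃ R : F.Ω × F.Ω → Γ × ℕ, R = fun x => (G x.2, F.T x.2) := ⟨_, rfl⟩
    obtain ⟨B, hBd⟩ : ∃ B : F.Ω × F.Ω → _, B = fun x => bt F w c M x.1 := ⟨_, rfl⟩
    obtain ⟨L, hL⟩ : ∃ L : F.Ω × F.Ω → _, L = fun x => F.lbr w c M X x.1 := ⟨_, rfl⟩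
    have e1 : dp (dbl p (slam F w)) (Pool.PLV.blk X (fun x => F.mx w c M x.1 i₀)
        (fun x (_ : Fin 1) => F.mx w c M x.1 iu))
        (fun x => ((Uni.dg X (fun x => F.md c M x.1 i₀) x,
          Pool.PLV.dgv X (fun x (_ : Fin 1) => F.md c M x.1 iu) x), (G x.2, F.T x.2)))
        (fun x => ((F.blb w c M x.1, ()), F.T x.1)) ≤
        dp (dbl p (slam F w)) N (fun x => (R x, V x)) B := by
      rw [dp_congr_cond h0 (b' := B)]
      · refine dp_mono h0 ?_ ?_
        · intro x y _ _ h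
          have h1 : N x = N y := (Prod.ext_iff.mp h).1
          rw [hN] at h1
          have h2 := Prod.ext_iff.mp h1
          refine Prod.ext h2.1 ?_
          funext _
          exact h2.2
        · intro x y _ _ h
          have h1 := Prod.ext_iff.mp (Prod.ext_iff.mp h).1
          have h2 : V x = V y := h1.2
          rw [hV] at h2
          have h3 := Prod.ext_iff.mp h2
          have h4 : R x = R y := h1.1
          rw [hR] at h4
          refine Prod.ext (Prod.ext h3.1 ?_) h4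
          funext _
          exact h3.2
      · intro x y _ _ h
        rw [hBd]
        have h1 := Prod.ext_iff.mp h
        exact Prod.ext (Prod.ext_iff.mp h1.1).1 h1.2
      · intro x y _ _ h
        rw [hBd] at h
        have h1 := Prod.ext_iff.mp h
        exact Prod.ext (Prod.ext h1.1 rfl) h1.2
    refine e1.trans ?_
    rw [dp_add_right h0 N R V B]
    have a1 : dp (dbl p (slam F w)) N V B ≤ eB := by
      refine le_trans (le_of_eq ?_) hB
      rw [hN, hV, hBd]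
      unfold dp
      rw [CH_fst hp (slam F w) (xt F i₀ iu w c M X) (bt F w c M),
        CH_fst hp (slam F w) (xt F i₀ iu w c M X) (fun ω => (vt F i₀ iu c M X ω, bt F w c M ω))]
    have a2 : dp (dbl p (slam F w)) N R (fun x => (V x, B x)) ≤
        dp (dbl p (slam F w)) L R (fun x => (V x, B x)) + 2 * Real.log 7 := by
      refine dp_le_add h0 ?_
      have : CH (dbl p (slam F w)) N (fun x => (L x, (V x, B x))) =
          CH p (xt F i₀ iu w c M X) (fun ω => (F.lbr w c M X ω,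
            (vt F i₀ iu c M X ω, bt F w c M ω))) := by
        rw [hN, hL, hV, hBd]
        exact CH_fst hp (slam F w) (xt F i₀ iu w c M X)
          (fun ω => (F.lbr w c M X ω, (vt F i₀ iu c M X ω, bt F w c M ω)))
      rw [this]
      exact CH_xt_lbr hp (fun _ _ _ _ h => (Prod.ext_iff.mp h).1) (fun _ _ _ _ h =>
        (Prod.ext_iff.mp (Prod.ext_iff.mp (Prod.ext_iff.mp h).2).2).2)
    have a3 : dp (dbl p (slam F w)) L R (fun x => (V x, B x)) ≤
        dp (dbl p (slam F w)) L R B := by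
      have b1 := dp_add h0 L V R B
      have b2 := dp_nonneg h0 V R B
      have b3 : dp (dbl p (slam F w)) (fun x => (L x, V x)) R B ≤
          dp (dbl p (slam F w)) L R B := by
        refine dp_mono h0 ?_ (fun _ _ _ _ h => (Prod.ext_iff.mp h).1)
        intro x y _ _ h
        have e1 : L x = L y := (Prod.ext_iff.mp h).1
        rw [hL] at e1
        have e2 := lbr_dig (r := X) le_rfl e1 i₀
        have e3 := lbr_dig (r := X) le_rfl e1 iu
        rw [hL, hV]
        exact Prod.ext e1 (Prod.ext e2.2 e3.2)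
      linarith only [b1, b2, b3]
    obtain ⟨b1, hb1⟩ : ∃ b1 : F.Ω × F.Ω → _, b1 = fun x => F.blb w c M x.1 := ⟨_, rfl⟩
    obtain ⟨T1, hT1⟩ : ∃ T1 : F.Ω × F.Ω → ℕ, T1 = fun x => F.T x.1 := ⟨_, rfl⟩
    have a4 : dp (dbl p (slam F w)) L R B ≤ dp (dbl p (slam F w)) L R b1 +
        dp (dbl p (slam F w)) T1 R (fun x => (L x, b1 x)) := by
      have c1 : dp (dbl p (slam F w)) L R B = dp (dbl p (slam F w)) L R
          (fun x => (T1 x, b1 x)) := by
        refine dp_congr_cond h0 ?_ ?_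
        · intro x y _ _ h
          rw [hBd] at h
          rw [hT1, hb1]
          have := Prod.ext_iff.mp h
          exact Prod.ext this.2 this.1
        · intro x y _ _ h
          rw [hT1, hb1] at h
          rw [hBd]
          have := Prod.ext_iff.mp h
          exact Prod.ext this.2 this.1
      have c2 := dp_add h0 L T1 R b1
      have c3 := dp_add h0 T1 L R b1
      have c4 : dp (dbl p (slam F w)) (fun x => (L x, T1 x)) R b1 =
          dp (dbl p (slam F w)) (fun x => (T1 x, L x)) R b1 := by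
        refine le_antisymm ?_ ?_ <;>
        · refine dp_mono h0 ?_ (fun _ _ _ _ h => (Prod.ext_iff.mp h).1)
          intro x y _ _ h
          have := Prod.ext_iff.mp (Prod.ext_iff.mp h).1
          exact Prod.ext this.2 this.1
      have c5 := dp_nonneg h0 T1 R b1
      linarith only [c1, c2, c3, c4, c5]
    have a5 : dp (dbl p (slam F w)) T1 R (fun x => (L x, b1 x)) ≤ eT := by
      unfold dp
      have k1 : CH (dbl p (slam F w)) T1 (fun x => (L x, b1 x)) ≤ ((J : ℝ) - w) * Real.log 2 := by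
        refine le_trans ?_ hTle
        rw [← CH_fst hp (slam F w) F.T (F.blb w c M), hT1, hb1]
        exact CH_mono_cond h0 (fun _ _ _ _ h => (Prod.ext_iff.mp h).2)
      have k2 := tim F.T (fun x => (R x, (L x, b1 x))) (by
        intro x y hx hy h
        have h1 := Prod.ext_iff.mp h
        rw [hR, hL, hb1]
        exact Prod.ext h1.2 (Prod.ext
          (lbr_slam hM X x.1 y.1 (hpos x hx).1 (hpos y hy).1 h1.1)
          (blb_of_slam hM x.1 y.1 (hpos x hx).1 (hpos y hy).1 h1.1)))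
      rw [hT1] at k1 ⊢
      linarith only [tm, k1, k2]
    have a6 : dp (dbl p (slam F w)) L R b1 ≤ eT + eM := by
      have c1 : dp (dbl p (slam F w)) L R b1 = dp p (F.lbr w c M X)
          (fun ω => (G ω, F.T ω)) (F.blb w c M) := by
        unfold dp
        rw [← CH_snd hp (slam F w) (F.lbr w c M X) (F.blb w c M),
          ← CH_snd hp (slam F w) (F.lbr w c M X) (fun ω => ((G ω, F.T ω), F.blb w c M ω))]
        congr 1
        · rw [hL, hb1]
          refine CH_congr h0 ?_ ?_ ?_ ?_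
          · intro x y hx hy h
            have := (Prod.ext_iff.mp h).1
            show F.lbr w c M X x.2 = F.lbr w c M X y.2
            rw [← hlX x hx, ← hlX y hy]
            exact this
          · intro x y hx hy h
            have := (Prod.ext_iff.mp h).1
            show F.lbr w c M X x.1 = F.lbr w c M X y.1
            rw [hlX x hx, hlX y hy]
            exact this
          · intro x y hx hy h
            show F.blb w c M x.2 = F.blb w c M y.2
            rw [← hbb x hx, ← hbb y hy]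
            exact h
          · intro x y hx hy h
            show F.blb w c M x.1 = F.blb w c M y.1
            rw [hbb x hx, hbb y hy]
            exact h
        · rw [hL, hb1, hR]
          refine CH_congr h0 ?_ ?_ ?_ ?_
          · intro x y hx hy h
            have := (Prod.ext_iff.mp h).1
            show F.lbr w c M X x.2 = F.lbr w c M X y.2
            rw [← hlX x hx, ← hlX y hy]
            exact this
          · intro x y hx hy h
            have := (Prod.ext_iff.mp h).1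
            show F.lbr w c M X x.1 = F.lbr w c M X y.1
            rw [hlX x hx, hlX y hy]
            exact this
          · intro x y hx hy h
            have h1 := Prod.ext_iff.mp h
            refine Prod.ext h1.1 ?_
            show F.blb w c M x.2 = F.blb w c M y.2
            rw [← hbb x hx, ← hbb y hy]
            exact h1.2
          · intro x y hx hy h
            have h1 := Prod.ext_iff.mp h
            refine Prod.ext h1.1 ?_
            show F.blb w c M x.1 = F.blb w c M y.1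
            rw [hbb x hx, hbb y hy]
            exact h1.2
      rw [c1, dp_add_right hp0]
      have c2 : dp p (F.lbr w c M X) F.T (F.blb w c M) ≤ eT := by
        rw [dp_symm hp0]
        exact time_mi hp hw dbT (fun ω ω' a b h => Prod.ext (lbr_slam hM X ω ω' a b h)
          (blb_of_slam hM ω ω' a b h)) tm
      have c3 : dp p (F.lbr w c M X) G (fun ω => (F.T ω, F.blb w c M ω)) ≤ eM := by
        rw [dp_symm hp0]
        refine le_trans (le_of_eq ?_) hm
        unfold tM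
        refine dp_congr_cond hp0 ?_ ?_ <;>
        · intro ω ω' _ _ h
          have := Prod.ext_iff.mp h
          exact Prod.ext this.2 this.1
      linarith only [c2, c3]
    linarith only [i3, a1, a2, a3, a4, a5, a6]
  · -- h4
    intro r X' hηX hrX A hA
    have hc : 0 ≤ 2 * ca * X' * Real.log 2 := by
      have : 0 ≤ Real.log 2 := Real.log_nonneg (by norm_num)
      positivity
    have key := CH_dbl_event (Z := slam F w) hp (X := Uni.dg (r + X') (fun ω => F.md c M ω i₀))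
      (W := fun ω => (Uni.dg r (fun ω => F.md c M ω i₀) ω, (P ω, F.blb w c M ω)))
      (c := 2 * ca * X' * Real.log 2) (θ := ϖ / 2) hc (by positivity) hϖ
      (fun E hE => act r X' hηX hrX E hE) hA
    have e1 : 2 * ca * X' * Real.log 2 - 2 * ca * X' * Real.log 2 * (ϖ / 2) / ϖ =
        ca * X' * Real.log 2 := by
      field_simp
      ring
    rw [e1] at key
    refine key.trans (le_of_eq ?_)
    have hq := (ev_law hl hϖ hA).nonneg
    have hq2 : ∀ x, 0 < Pool.Agent.H49.Ent.cond (dbl p (slam F w)) A True x →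
        0 < dbl p (slam F w) x := fun x hx => ((ev_pos h0).1 hx).1
    refine CH_congr hq ?_ ?_ ?_ ?_
    · intro x y hx hy h
      have h1 := (Prod.ext_iff.mp h).1
      show ⌊(2 : ℝ) ^ (r + X') * F.md c M x.1 i₀⌋ = ⌊(2 : ℝ) ^ (r + X') * F.md c M y.1 i₀⌋
      rw [hmm x (hq2 x hx), hmm y (hq2 y hy)]
      exact h1
    · intro x y hx hy h
      have h1 : ⌊(2 : ℝ) ^ (r + X') * F.md c M x.1 i₀⌋ = ⌊(2 : ℝ) ^ (r + X') * F.md c M y.1 i₀⌋ :=
        (Prod.ext_iff.mp h).1
      rw [hmm x (hq2 x hx), hmm y (hq2 y hy)] at h1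
      exact h1
    · intro x y hx hy h
      have h1 := Prod.ext_iff.mp h
      have h2 := Prod.ext_iff.mp h1.2
      have hP' := hP x.2 y.2 (hpos x (hq2 x hx)).2.1 (hpos y (hq2 y hy)).2.1 h2.1
      refine Prod.ext ?_ (Prod.ext h2.1 (Prod.ext hP' (Prod.ext ?_ rfl)))
      · show ⌊(2 : ℝ) ^ r * F.md c M x.1 i₀⌋ = ⌊(2 : ℝ) ^ r * F.md c M y.1 i₀⌋
        rw [hmm x (hq2 x hx), hmm y (hq2 y hy)]
        exact h1.1
      · show F.blb w c M x.1 = F.blb w c M y.1
        rw [hbb x (hq2 x hx), hbb y (hq2 y hy)]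
        exact h2.2
    · intro x y hx hy h
      have h1 := Prod.ext_iff.mp h
      have h2 := Prod.ext_iff.mp h1.2
      have h3 := Prod.ext_iff.mp h2.2
      have h4 := Prod.ext_iff.mp h3.2
      refine Prod.ext ?_ (Prod.ext h2.1 ?_)
      · have h5 : ⌊(2 : ℝ) ^ r * F.md c M x.1 i₀⌋ = ⌊(2 : ℝ) ^ r * F.md c M y.1 i₀⌋ := h1.1
        rw [hmm x (hq2 x hx), hmm y (hq2 y hy)] at h5
        exact h5
      · have h5 : F.blb w c M x.1 = F.blb w c M y.1 := h4.1
        rw [hbb x (hq2 x hx), hbb y (hq2 y hy)] at h5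
        exact h5
  · -- h6
    have key := thr hp (slam F w) S (fun ω => (((F.blb w c M ω, F.T ω)),
      Pool.PLV.blk X (fun ω => F.mx w c M ω i₀) (fun ω (_ : Fin 1) => F.mx w c M ω iu) ω))
      hε₁ h6
    refine le_trans (Uni.Pr_le_of h0 fun x hx hxm => ?_) key
    obtain ⟨n, hn1, ⟨i, hi⟩, hn3⟩ := hxm
    have hcl := cond_nonneg h0 (fun y : F.Ω × F.Ω => (((F.blb w c M y.1, F.T y.1)),
      Pool.PLV.blk X (fun ω => F.mx w c M ω i₀) (fun ω (_ : Fin 1) => F.mx w c M ω iu) y.1))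
      ((F.blb w c M x.1, F.T x.1),
      Pool.PLV.blk X (fun ω => F.mx w c M ω i₀) (fun ω (_ : Fin 1) => F.mx w c M ω iu) x.1)
    have hcp : ∀ y, 0 < Pool.Agent.H49.Ent.cond (dbl p (slam F w))
        (fun y : F.Ω × F.Ω => (((F.blb w c M y.1, F.T y.1)),
      Pool.PLV.blk X (fun ω => F.mx w c M ω i₀) (fun ω (_ : Fin 1) => F.mx w c M ω iu) y.1))
      ((F.blb w c M x.1, F.T x.1),
      Pool.PLV.blk X (fun ω => F.mx w c M ω i₀) (fun ω (_ : Fin 1) => F.mx w c M ω iu) x.1) y →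
        0 < dbl p (slam F w) y := fun y hy => ((cond_pos_iff h0 _ _ y).1 hy).1
    by_cases h8 : 1 / 8 ≤ |n 1|
    · refine ⟨-(n 0) / n 1, lt_of_lt_of_le hn3 ?_⟩
      refine Uni.Pr_le_of hcl fun y hy hym => ?_
      have hym' : |n 0 + ∑ i : Fin 1, n i.succ * S y.2| < (2 : ℝ) ^ (-(x₀ * X)) := hym
      rw [Fin.sum_univ_one] at hym'
      have e2 : n (Fin.succ 0) = n 1 := rfl
      rw [e2] at hym'
      have hn10 : n 1 ≠ 0 := by
        intro h9
        rw [h9, abs_zero] at h8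
        norm_num at h8
      have e3 : n 0 + n 1 * S y.2 = n 1 * (S y.2 - -(n 0) / n 1) := by
        field_simp
        ring
      rw [e3, abs_mul] at hym'
      show |S y.2 - -(n 0) / n 1| < 8 * (2 : ℝ) ^ (-(x₀ * X))
      have h9 : 1 / 8 * |S y.2 - -(n 0) / n 1| ≤ |n 1| * |S y.2 - -(n 0) / n 1| :=
        mul_le_mul_of_nonneg_right h8 (abs_nonneg _)
      linarith only [hym', h9]
    · exfalso
      have h8' := not_le.1 h8
      have h9 : |n 0| = 1 := by
        fin_cases i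
        · exact hi
        · exfalso
          have : |n 1| = 1 := hi
          rw [this] at h8'
          norm_num at h8'
      have h10 : Pool.KAF.Pr (Pool.Agent.H49.Ent.cond (dbl p (slam F w))
        (fun y : F.Ω × F.Ω => (((F.blb w c M y.1, F.T y.1)),
        Pool.PLV.blk X (fun ω => F.mx w c M ω i₀) (fun ω (_ : Fin 1) => F.mx w c M ω iu) y.1))
        ((F.blb w c M x.1, F.T x.1),
        Pool.PLV.blk X (fun ω => F.mx w c M ω i₀) (fun ω (_ : Fin 1) => F.mx w c M ω iu) x.1))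
          {y | |n 0 + ∑ i : Fin 1, n i.succ * S y.2| < (2 : ℝ) ^ (-(x₀ * X))} ≤ 0 := by
        classical
        rw [Pr_sum]
        refine Finset.sum_nonpos fun y _ => ?_
        by_cases h11 : |n 0 + ∑ i : Fin 1, n i.succ * S y.2| < (2 : ℝ) ^ (-(x₀ * X))
        · rw [if_pos h11]
          by_contra h12
          have h12 := hcp y (not_le.1 h12)
          have h13 := hS4 y.2 (hpos y h12).2.1
          rw [Fin.sum_univ_one] at h11
          have e2 : n (Fin.succ 0) = n 1 := rfl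
          rw [e2] at h11
          have h14 : |n 1 * S y.2| ≤ 1 / 8 * 4 := by
            rw [abs_mul]
            exact mul_le_mul h8'.le h13 (abs_nonneg _) (by norm_num)
          have h15 : |n 0| ≤ |n 0 + n 1 * S y.2| + |n 1 * S y.2| := by
            have := abs_sub (n 0 + n 1 * S y.2) (n 1 * S y.2)
            rw [add_sub_cancel_right] at this
            exact this
          rw [h9] at h15
          linarith
        · rw [if_neg h11]
      have hn3' : ε₁ < Pool.KAF.Pr (Pool.Agent.H49.Ent.cond (dbl p (slam F w))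
        (fun y : F.Ω × F.Ω => (((F.blb w c M y.1, F.T y.1)),
        Pool.PLV.blk X (fun ω => F.mx w c M ω i₀) (fun ω (_ : Fin 1) => F.mx w c M ω iu) y.1))
        ((F.blb w c M x.1, F.T x.1),
        Pool.PLV.blk X (fun ω => F.mx w c M ω i₀) (fun ω (_ : Fin 1) => F.mx w c M ω iu) x.1))
          {y | |n 0 + ∑ i : Fin 1, n i.succ * S y.2| < (2 : ℝ) ^ (-(x₀ * X))} := hn3
      linarith only [hε₁, h10, hn3']
  · -- h7
    rw [MI_eq_dp h0]
    have e1 : dp (dbl p (slam F w)) (Pool.PLV.blk X (fun x => F.mx w c M x.1 i₀)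
        (fun x (_ : Fin 1) => F.mx w c M x.1 iu)) (fun _ => ())
        (fun x => (F.blb w c M x.1, F.T x.1)) = 0 := by
      unfold dp
      rw [sub_eq_zero]
      refine CH_congr h0 (fun _ _ _ _ h => (Prod.ext_iff.mp h).1)
        (fun _ _ _ _ h => (Prod.ext_iff.mp h).1) ?_ ?_
      · intro x y _ _ h
        exact Prod.ext rfl h
      · intro x y _ _ h
        exact (Prod.ext_iff.mp h).2
    rw [e1]
    have h1 := dp_nonneg hp0 (xt F i₀ iu w c M X) (vt F i₀ iu c M X) (bt F w c M)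
    have h2 : 0 ≤ tM F p w c M G X := dp_nonneg hp0 _ _ _
    have h3 : CH p F.T (slam F w) ≤ ((J : ℝ) - w) * Real.log 2 :=
      CH_T_le hp hw fun ω ω' _ _ h => (Prod.ext_iff.mp (Prod.ext_iff.mp h).2).2
    have h4 : 0 ≤ Real.log 7 := Real.log_nonneg (by norm_num)
    linarith only [tm, i1, h3]

end hyp0

/-- **The U-step at one context, `v = 0`.** -/
theorem ue0_ctx : ∀ ε ca K : ℝ, 0 < ε → 0 < ca → 4 ≤ K → ∃ (x₁ η θ δ ε₁ : ℝ) (n₀ : ℕ),
    0 < x₁ ∧ 0 < η ∧ 0 < θ ∧ 0 < δ ∧ 0 < ε₁ ∧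
    ∀ {m J : ℕ} (F : Fam m J) {Γ τ : Type} (G : F.Ω → Γ) (P : F.Ω → τ) (p : F.Ω → ℝ)
      (i₀ iu : Fin m) (w : ℕ) (c : Fin m → ℕ) (M : F.Ω → Fin m → Fin m → ℝ) (S : F.Ω → ℝ)
      (X : ℕ), IsLaw p → n₀ ≤ X → w + X ≤ J → Det p (slam F w) M →
      Det p (fun ω => (F.blb w c M ω, G ω)) S → (∀ ω, 0 < p ω → |S ω| ≤ 4) →
      Det p P (fun ω => (G ω, F.T ω)) →
      ((J : ℝ) - w) * Real.log 2 - δ * X ≤ CH p F.T (slam F w) →
      Pool.KAF.Pr (dbl p (slam F w)) {v | |S v.1 - S v.2| < (2 : ℝ) ^ (-(x₁ * X))} ≤ ε₁ →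
      (∀ r X' : ℕ, η * X ≤ X' → r + X' ≤ X → ∀ E : F.Ω → Prop, θ ≤ Pe p E →
        ca * X' * Real.log 2 ≤ CH (Pool.Agent.H49.Ent.cond p E True)
          (Uni.dg (r + X') (fun ω => F.md c M ω i₀))
          (fun ω => (Uni.dg r (fun ω => F.md c M ω i₀) ω, (P ω, F.blb w c M ω)))) →
      Str F p i₀ iu w c M S P X K →
      dp p (xt F i₀ iu w c M X) (vt F i₀ iu c M X) (bt F w c M) ≤ δ * X →
      tM F p w c M G X ≤ δ * X →
      (1 - ε) * X * Real.log 2 ≤ CH p (Uni.dg X (tnu F w c M i₀ iu S))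
        (fun ω => (vd F i₀ iu w c M X ω, cdn F w c M G ω)) ∧
      (2 - ε) * X * Real.log 2 ≤ CH p (fun ω => (Uni.dg X (tnu F w c M i₀ iu S) ω,
        Uni.dg X (fun ω => F.mx w c M ω i₀) ω)) (cdn F w c M G) := by
  intro ε ca K hε hca hK
  obtain ⟨x₀, η, ϖ, ι, ε₁, n₀, hx₀, hη, hϖ, hι, hε₁, hplv⟩ :=
    Pool.PLV.plv 1 (ε / 2) (ca / 2) K (by positivity) (by positivity) (by linarith)
  obtain ⟨u, hu⟩ : ∃ u, u = Real.log 2 := ⟨_, rfl⟩
  have hu0 : 0 < u := by rw [hu]; exact Real.log_pos (by norm_num)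
  obtain ⟨c₀, hc₀⟩ : ∃ c₀, c₀ = 3 * Real.log 7 + Real.log 11 + Real.log 13 + Real.log 21 :=
    ⟨_, rfl⟩
  have l7 : 0 ≤ Real.log 7 := Real.log_nonneg (by norm_num)
  have l11 : 0 ≤ Real.log 11 := Real.log_nonneg (by norm_num)
  have l13 : 0 ≤ Real.log 13 := Real.log_nonneg (by norm_num)
  have l21 : 0 ≤ Real.log 21 := Real.log_nonneg (by norm_num)
  obtain ⟨δ, hδ⟩ : ∃ δ, δ = min (min (ι / 8) (ι * u)) (ε * u / 16) := ⟨_, rfl⟩
  have hδ0 : 0 < δ := by rw [hδ]; exact lt_min (lt_min (by positivity) (by positivity)) (by positivity)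
  have hδ1 : δ ≤ ι / 8 := by rw [hδ]; exact (min_le_left _ _).trans (min_le_left _ _)
  have hδ2 : δ ≤ ι * u := by rw [hδ]; exact (min_le_left _ _).trans (min_le_right _ _)
  have hδ3 : δ ≤ ε * u / 16 := by rw [hδ]; exact min_le_right _ _
  obtain ⟨N₁, hN₁⟩ := exists_nat_ge (8 / x₀ + 4 * Real.log 7 / ι + c₀ / (ε * u / 8))
  refine ⟨x₀ / 2, η, ϖ / 2, δ, ε₁ ^ 4, n₀ + N₁, by positivity, hη, by positivity, hδ0,
    by positivity, ?_⟩
  intro m J F Γ τ G P p i₀ iu w c M S X hp hX hwX hM hS hS4 hP tm h6 act hst hB hm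
  have hXN : (N₁ : ℝ) ≤ X := by
    have : N₁ ≤ X := by omega
    exact_mod_cast this
  have hX1 := hN₁.trans hXN
  have hc0 : 0 ≤ c₀ := by rw [hc₀]; positivity
  have t1 : 0 ≤ 8 / x₀ := by positivity
  have t2 : 0 ≤ 4 * Real.log 7 / ι := by positivity
  have t3 : 0 ≤ c₀ / (ε * u / 8) := by positivity
  have hx8 : 8 ≤ x₀ * X := by
    have : 8 / x₀ ≤ X := by linarith only [hN₁, hXN, t2, t3]
    rw [div_le_iff₀ hx₀] at this
    linarith only [this]
  have hι7 : 4 * Real.log 7 ≤ ι * X := by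
    have : 4 * Real.log 7 / ι ≤ X := by linarith only [hN₁, hXN, t1, t3]
    rw [div_le_iff₀ hι] at this
    linarith only [this]
  have hcX : c₀ ≤ ε * u / 8 * X := by
    have : c₀ / (ε * u / 8) ≤ X := by linarith only [hN₁, hXN, t1, t2]
    rw [div_le_iff₀ (by positivity)] at this
    linarith only [this]
  have hX0 : (0 : ℝ) ≤ X := Nat.cast_nonneg _
  have d1 : δ * X ≤ ι / 8 * X := mul_le_mul_of_nonneg_right hδ1 hX0
  have d2 : δ * X ≤ ι * u * X := mul_le_mul_of_nonneg_right hδ2 hX0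
  have d3 : δ * X ≤ ε * u / 16 * X := mul_le_mul_of_nonneg_right hδ3 hX0
  have hpd := pvdata (iu := iu) hp hK hM hS hS4 hst
  have h6' : Pool.KAF.Pr (dbl p (slam F w))
      {v | |S v.1 - S v.2| < 2 * (8 * (2 : ℝ) ^ (-(x₀ * X)))} ≤ ε₁ ^ 4 := by
    refine le_trans (Uni.Pr_le_of (dbl_law hp _).nonneg fun x _ hx => ?_) h6
    have hx' : |S x.1 - S x.2| < 2 * (8 * (2 : ℝ) ^ (-(x₀ * X))) := hx
    show |S x.1 - S x.2| < (2 : ℝ) ^ (-(x₀ / 2 * X))
    refine hx'.trans_le ?_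
    have e1 : 2 * (8 * (2 : ℝ) ^ (-(x₀ * X))) = (2 : ℝ) ^ (4 - x₀ * X) := by
      rw [sub_eq_add_neg, Real.rpow_add (by norm_num)]
      norm_num
      ring
    rw [e1]
    refine Real.rpow_le_rpow_of_exponent_le (by norm_num) ?_
    linarith only [hx8]
  have hhalf : (2 : ℝ) ^ (-(x₀ * X)) ≤ 1 / 2 := by
    calc (2 : ℝ) ^ (-(x₀ * X)) ≤ (2 : ℝ) ^ (-1 : ℝ) :=
          Real.rpow_le_rpow_of_exponent_le (by norm_num) (by linarith only [hx8])
      _ = 1 / 2 := by norm_num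
  have hph := pvhyp (G := G) (P := P) (iu := iu) (eT := δ * X) (eB := δ * X) (eM := δ * X)
    (x₀ := x₀) (η := η) (ϖ := ϖ) (ι := ι) (ε₁ := ε₁) (ca := ca / 2) hp hwX hM hS4 hP hϖ hε₁
    (by positivity) tm h6' hhalf (fun r X' h1 h2 E hE => by
      have h3 := act r X' h1 h2 E hE
      have e1 : 2 * (ca / 2) * X' * Real.log 2 = ca * X' * Real.log 2 := by ring
      rw [e1]
      exact h3) hB hm (by linarith only [l7, hι7, d1, mul_nonneg hι.le hX0]) (by rw [← hu]; linarith only [d2]) (by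
        linarith only [hι7, d1])
  have key := hplv (F.Ω × F.Ω) _ _ _ _ _ _ (dbl p (slam F w)) _ _ _ _ _ _ _ _ _ _ _ _ _ _ _ X
    hpd (by omega) hph
  have e1 : CH (dbl p (slam F w)) (Pool.PLV.blk X (fun x => F.mx w c M x.1 i₀)
      (fun x (_ : Fin 1) => F.mx w c M x.1 iu)) (fun x => (F.blb w c M x.1, F.T x.1)) =
      CH p (xt F i₀ iu w c M X) (bt F w c M) := by
    rw [← CH_fst hp (slam F w) (xt F i₀ iu w c M X) (bt F w c M)]
    refine CH_congr (dbl_law hp _).nonneg ?_ ?_ (fun _ _ _ _ h => h) (fun _ _ _ _ h => h)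
    · intro x y _ _ h
      have h1 := Prod.ext_iff.mp (Prod.ext_iff.mp h).1
      exact Prod.ext h1.1 (congrFun h1.2 0)
    · intro x y _ _ h
      have h1 := Prod.ext_iff.mp (Prod.ext_iff.mp h).1
      refine Prod.ext h1.1 ?_
      funext _
      exact h1.2
  rw [e1] at key
  push_cast at key
  rw [← hu] at key ⊢
  obtain ⟨o1, o2⟩ := post (e := (1 + 1 - ε / 2) * X * u) hp hS4 hS key hB hm
  rw [← hu] at o2
  have e5 : 0 ≤ ε * X * u := by positivity
  have e6 : ε * u / 16 * X = ε * X * u / 16 := by ring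
  have e7 : ε * u / 8 * X = ε * X * u / 8 := by ring
  rw [e6] at d3
  rw [e7, hc₀] at hcX
  refine ⟨le_trans ?_ o2, le_trans ?_ o1⟩
  · have e4 : (1 - ε) * X * u = X * u - ε * X * u := by ring
    have e4' : (1 + 1 - ε / 2) * X * u = 2 * (X * u) - ε * X * u / 2 := by ring
    rw [e4, e4']
    linarith only [l7, l11, l13, l21, hcX, d3]
  · have e4 : (2 - ε) * X * u = 2 * (X * u) - ε * X * u := by ring
    have e4' : (1 + 1 - ε / 2) * X * u = 2 * (X * u) - ε * X * u / 2 := by ring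
    rw [e4, e4']
    linarith only [l7, l11, l13, l21, hcX, d3]

end Pool.S6U
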