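import Pool.Agent.H10.S6U.Uz2
import Pool.Agent.H10.S6U.Out

/-!
# The local U-step at `v = 0`: the telescope in the windows

The block of the velocity does not depend on the window, up to the digits of the slope between the
windows. The frames are the natural ones.
-/

set_option autoImplicit false

namespace Pool.S6U

open Finset Real
open Pool.Agent.H49.Ent Pool.Agent.H32.Dense Pool.STK Pool.KA Pool.KSAT Pool.K2S

section abs

variable {Ω S T U V β γ : Type} [Fintype Ω] {p : Ω → ℝ}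

/-- **The telescope**, with costs which depend on the step. -/
theorem teleV (hp : IsLaw p) (n : ℕ) (N : ℕ → Ω → S) (V : ℕ → Ω → T) (b : ℕ → Ω → β)
    {c₁ : ℝ} {c₂ : ℕ → ℝ} (hc₁ : 0 ≤ c₁)
    (h1 : ∀ j, j + 1 < n → CH p (fun ω => (V j ω, b j ω)) (b (j + 1)) ≤ c₁)
    (h2 : ∀ j, j + 1 < n →
      CH p (N (j + 1)) (fun ω => (N j ω, ((V j ω, b j ω), b (j + 1) ω))) ≤ c₂ j) :
    ∑ j ∈ Finset.range n, dp p (N j) (V j) (b j) ≤
      CH p (N 0) (b 0) + n * c₁ + ∑ j ∈ Finset.range (n - 1), c₂ j := by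
  have hp0 := hp.nonneg
  have key : ∀ k, k + 1 ≤ n → ∑ j ∈ Finset.range (k + 1), dp p (N j) (V j) (b j) ≤
      CH p (N 0) (b 0) - CH p (N k) (fun ω => (V k ω, b k ω)) + k * c₁ +
        ∑ j ∈ Finset.range k, c₂ j := by
    intro k
    induction k with
    | zero =>
      intro _
      simp [dp]
    | succ k ih =>
      intro hk
      rw [Finset.sum_range_succ]
      have i1 := ih (by omega)
      have i2 := H2.chain_step hp0 (N k) (N (k + 1)) (V k) (b k) (b (k + 1)) (h1 k (by omega))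
        (h2 k (by omega))
      have e1 : dp p (N (k + 1)) (V (k + 1)) (b (k + 1)) = CH p (N (k + 1)) (b (k + 1)) -
        CH p (N (k + 1)) (fun ω => (V (k + 1) ω, b (k + 1) ω)) := rfl
      rw [Finset.sum_range_succ c₂ k]
      push_cast
      linarith
  rcases Nat.eq_zero_or_pos n with h0 | h0
  · subst h0
    have := CH_nonneg hp0 (N 0) (b 0)
    simpa using this
  · obtain ⟨k, rfl⟩ : ∃ k, n = k + 1 := ⟨n - 1, by omega⟩
    have h3 := key k le_rfl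
    have h4 := CH_nonneg hp0 (N k) (fun ω => (V k ω, b k ω))
    rw [Nat.add_sub_cancel]
    push_cast
    linarith

end abs

variable {J : ℕ} {F : Fam 3 J} {p : F.Ω → ℝ} {σ : Fin 3 → Fin 3} {wa wb : ℕ} {vp : ℕ → ℕ}
  {D : ℕ} {a : ℕ → F.Ω → ℝ} {s t al : F.Ω → ℝ} {w w' κ q q' X : ℕ}

/-- The frame of the window from the frame of a later window. -/
theorem Rc.CH_aw {T : Type} (h : Rc F p σ wa wb vp D a s t al) (h1 : wa ≤ w) (hw : w ≤ w')
    (h2 : w' ≤ wb) {Z : F.Ω → T} (hZ : Det p Z (a w')) : CH p (a w) Z ≤ Real.log 27 := by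
  have hp := h.law
  have k1 := CH_int hp (fun ω => ⌊(2 : ℝ) ^ vp w * a w ω⌋) Z (c := 13) (by
    intro ω ω' hω hω' e
    have e1 : a w' ω = a w' ω' := hZ ω ω' hω hω' e
    have n2 := h.two h1 (hw.trans h2) (h1.trans hw) h2 (le_refl (vp w)) (h.mono w w' h1 hw h2) hω
    have n3 := h.two h1 (hw.trans h2) (h1.trans hw) h2 (le_refl (vp w)) (h.mono w w' h1 hw h2) hω'
    have n6 : |a w ω - a w ω'| ≤ 12 / 2 ^ vp w := by
      have e3 : (12 : ℝ) / 2 ^ vp w = 6 / 2 ^ vp w + 6 / 2 ^ vp w := by ring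
      rw [e3]
      rw [e1] at n2
      rw [abs_le] at n2 n3 ⊢
      constructor <;> linarith [n2.1, n2.2, n3.1, n3.2]
    refine (Plk.floor_sub_lt (c := 12) ?_).trans (by norm_num)
    rw [← mul_sub, abs_mul, abs_of_pos (by positivity : (0 : ℝ) < 2 ^ vp w)]
    calc (2 : ℝ) ^ vp w * |a w ω - a w ω'| ≤ 2 ^ vp w * (12 / 2 ^ vp w) :=
          mul_le_mul_of_nonneg_left n6 (by positivity)
      _ = 12 := by field_simp)
  have k2 : CH p (a w) Z ≤ CH p (fun ω => ⌊(2 : ℝ) ^ vp w * a w ω⌋) Z := by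
    refine CH_mono_left hp.nonneg ?_
    intro ω ω' hω hω' e
    have e1 : ⌊(2 : ℝ) ^ vp w * a w ω⌋ = ⌊(2 : ℝ) ^ vp w * a w ω'⌋ := (Prod.ext_iff.mp e).1
    obtain ⟨n, hn⟩ := h.grid w h1 (hw.trans h2) ω hω
    obtain ⟨n', hn'⟩ := h.grid w h1 (hw.trans h2) ω' hω'
    have e2 : (2 : ℝ) ^ vp w * a w ω = n := by rw [hn]; field_simp
    have e3 : (2 : ℝ) ^ vp w * a w ω' = n' := by rw [hn']; field_simp
    rw [e2, e3, Int.floor_intCast, Int.floor_intCast] at e1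
    rw [hn, hn', e1]
  refine (k2.trans k1).trans (Real.log_le_log (by norm_num) (by norm_num))

/-- The constant of the step. -/
noncomputable def cs0 : ℝ := Real.log 27 + 6 * Real.log 75 + Real.log 7 + Real.log 31

theorem cs0_nonneg : 0 ≤ cs0 := by
  unfold cs0
  have h1 : 0 ≤ Real.log 27 := Real.log_nonneg (by norm_num)
  have h2 : 0 ≤ Real.log 75 := Real.log_nonneg (by norm_num)
  have h3 : 0 ≤ Real.log 7 := Real.log_nonneg (by norm_num)
  have h4 : 0 ≤ Real.log 31 := Real.log_nonneg (by norm_num)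
  linarith

theorem mco1 (b : F.Ω → ℝ) (ω : F.Ω) (x : Fin 3 → ℝ) :
    mco (frm σ b s t ω) x 1 = x (σ 1) - b ω * x (σ 0) :=
  Box.mco_tfr1 σ (b ω) (s ω) (t ω) x

/-- **(B0)**, one step, the contexts and the blocks of the position. -/
theorem stepX (h : Rc F p σ wa wb vp D a s t al) (h1 : wa ≤ w) (hX : w + X ≤ w')
    (h2 : w' ≤ wb) :
    CH p (fun ω => (xt F 0 1 w (cv (vp w) κ q) (frm σ (a w) s t) X ω,
        bt F w (cv (vp w) κ q) (frm σ (a w) s t) ω))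
      (bt F w' (cv (vp w') κ q) (frm σ (a w') s t)) ≤ cs0 := by
  have hp := h.law
  have h0 := hp.nonneg
  have hwJ : w' ≤ J := h2.trans h.wJ
  have hww : w ≤ w' := by omega
  have hmono := h.mono w w' h1 hww h2
  obtain ⟨Z', hZ'⟩ : ∃ Z', Z' = bt F w' (cv (vp w') κ q) (frm σ (a w') s t) := ⟨_, rfl⟩
  obtain ⟨Z, hZ⟩ : ∃ Z, Z = bt F w (cv (vp w) κ q) (frm σ (a w) s t) := ⟨_, rfl⟩
  obtain ⟨V, hV⟩ : ∃ V, V = xt F 0 1 w (cv (vp w) κ q) (frm σ (a w) s t) X := ⟨_, rfl⟩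
  obtain ⟨V0, hV0⟩ : ∃ V0, V0 = Uni.dg X (fun ω => F.mx w (cv (vp w) κ q) (frm σ (a w) s t) ω 0) :=
    ⟨_, rfl⟩
  obtain ⟨V1, hV1⟩ : ∃ V1, V1 = Uni.dg X (fun ω => F.mx w (cv (vp w) κ q) (frm σ (a w) s t) ω 1) :=
    ⟨_, rfl⟩
  obtain ⟨B, hB⟩ : ∃ B, B = F.blb w (cv (vp w) κ q) (frm σ (a w) s t) := ⟨_, rfl⟩
  rw [← hZ', ← hZ, ← hV]
  have zd : ∀ ω ω', Z' ω = Z' ω' →
      F.blb w' (cv (vp w') κ q) (frm σ (a w') s t) ω =
        F.blb w' (cv (vp w') κ q) (frm σ (a w') s t) ω' ∧ F.T ω = F.T ω' := by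
    intro ω ω' e
    rw [hZ'] at e
    have e1 := Prod.ext_iff.mp e
    exact ⟨e1.1, e1.2⟩
  have s1 := h.CH_aw h1 hww h2 (Z := Z') (fun ω ω' _ _ e => (frm_st h.inj (zd ω ω' e).1).1)
  have s2 : CH p B (fun ω => (a w ω, Z' ω)) ≤ 2 * ((3 : ℕ) * Real.log (12 * 6 + 3)) := by
    rw [hB]
    refine Box.CH_blb_vel (F := F) (p := p) (w := w') (w' := w) (c := cv (vp w') κ q)
      (c' := cv (vp w) κ q) (σ := σ) (a := a w') (s := s) (t := t) (a' := a w) (s' := s)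
      (t' := t) (D := 6) hp hwJ hww (by norm_num) ?_ ?_ ?_ ?_ (fun ω => (a w ω, Z' ω)) ?_
    · intro i
      fin_cases i
      · exact le_rfl
      · change vp w + q ≤ vp w' + q
        omega
      · exact le_rfl
    · intro ω hω
      have k1 := h.two h1 (by omega : w ≤ wb) (by omega : wa ≤ w') h2 (le_refl (vp w))
        (h.mono w w' h1 hww h2) hω
      refine k1.trans (le_of_eq ?_)
      change (6 : ℝ) / 2 ^ vp w = 6 * 2 ^ q / 2 ^ (vp w + q)
      rw [pow_add]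
      field_simp
    · intro ω _
      rw [sub_self, abs_zero]
      positivity
    · intro ω _
      rw [sub_self, sub_self, zero_mul, add_zero, abs_zero]
      positivity
    · intro ω ω' _ _ e
      have e1 := Prod.ext_iff.mp e
      obtain ⟨g1, g3⟩ := zd ω ω' e1.2
      obtain ⟨f1, f2, f3⟩ := frm_st h.inj g1
      exact ⟨g1, e1.1, f2, f3⟩
  -- the positions
  have pos : ∀ ω ω', 0 < p ω → 0 < p ω' → B ω = B ω' → Z' ω = Z' ω' →
      |2 ^ (q + w') * (F.x ω (σ 0) - F.x ω' (σ 0))| ≤ 2 ∧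
      |2 ^ (vp w + q + w') * ((F.x ω (σ 1) - a w ω * F.x ω (σ 0)) -
        (F.x ω' (σ 1) - a w ω' * F.x ω' (σ 0)))| ≤ 14 := by
    intro ω ω' hω hω' eB eZ
    obtain ⟨g1, g3⟩ := zd ω ω' eZ
    have n0 := Box.mx_near hwJ g1 g3 0
    have n1 := Box.mx_near hwJ g1 g3 1
    rw [mco0, mco0, ← mul_sub] at n0
    rw [mco1, mco1, ← mul_sub] at n1
    have f1 := (frm_st h.inj g1).1
    rw [hB] at eB
    have f2 := (frm_st h.inj eB).1
    have n0' : |2 ^ (q + w') * (F.x ω (σ 0) - F.x ω' (σ 0))| ≤ 2 := n0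
    refine ⟨n0', ?_⟩
    have n1' : |2 ^ (vp w' + q + w') * (F.x ω (σ 1) - a w' ω * F.x ω (σ 0) -
      (F.x ω' (σ 1) - a w' ω * F.x ω' (σ 0)))| ≤ 2 := n1
    have n2 := h.two h1 (by omega : w ≤ wb) (by omega : wa ≤ w') h2 (le_refl (vp w)) hmono hω
    have e1 : F.x ω (σ 1) - a w ω * F.x ω (σ 0) - (F.x ω' (σ 1) - a w ω' * F.x ω' (σ 0)) =
        (F.x ω (σ 1) - a w' ω * F.x ω (σ 0) - (F.x ω' (σ 1) - a w' ω * F.x ω' (σ 0))) -
          (a w ω - a w' ω) * (F.x ω (σ 0) - F.x ω' (σ 0)) := by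
      rw [← f2]
      ring
    rw [e1, mul_sub]
    refine (abs_sub _ _).trans ?_
    have e2 : |2 ^ (vp w + q + w') * (F.x ω (σ 1) - a w' ω * F.x ω (σ 0) -
        (F.x ω' (σ 1) - a w' ω * F.x ω' (σ 0)))| ≤ 2 := by
      refine le_trans ?_ n1'
      rw [abs_mul, abs_mul, abs_of_pos (by positivity : (0 : ℝ) < 2 ^ (vp w + q + w')),
        abs_of_pos (by positivity : (0 : ℝ) < 2 ^ (vp w' + q + w'))]
      refine mul_le_mul_of_nonneg_right (pow_le_pow_right₀ (by norm_num) (by omega)) (abs_nonneg _)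
    have e3 : |2 ^ (vp w + q + w') * ((a w ω - a w' ω) * (F.x ω (σ 0) - F.x ω' (σ 0)))| ≤ 12 := by
      have e4 : 2 ^ (vp w + q + w') * ((a w ω - a w' ω) * (F.x ω (σ 0) - F.x ω' (σ 0))) =
          (2 ^ vp w * (a w ω - a w' ω)) * (2 ^ (q + w') * (F.x ω (σ 0) - F.x ω' (σ 0))) := by
        have : (2 : ℝ) ^ (vp w + q + w') = 2 ^ vp w * 2 ^ (q + w') := by
          rw [← pow_add]
          congr 1
          ring
        rw [this]
        ring
      rw [e4, abs_mul]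
      have e5 : |2 ^ vp w * (a w ω - a w' ω)| ≤ 6 := by
        rw [abs_mul, abs_of_pos (by positivity : (0 : ℝ) < 2 ^ vp w)]
        calc (2 : ℝ) ^ vp w * |a w ω - a w' ω| ≤ 2 ^ vp w * (6 / 2 ^ vp w) :=
              mul_le_mul_of_nonneg_left n2 (by positivity)
          _ = 6 := by field_simp
      calc |2 ^ vp w * (a w ω - a w' ω)| * |2 ^ (q + w') * (F.x ω (σ 0) - F.x ω' (σ 0))| ≤
          6 * 2 := mul_le_mul e5 n0' (abs_nonneg _) (by norm_num)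
        _ = 12 := by norm_num
    linarith
  have pe : ∀ (i : Fin 3) (ω ω' : F.Ω), B ω = B ω' → F.T ω = F.T ω' →
      F.mx w (cv (vp w) κ q) (frm σ (a w) s t) ω i - F.mx w (cv (vp w) κ q) (frm σ (a w) s t) ω' i =
      2 ^ (cv (vp w) κ q i + w) * (mco (frm σ (a w) s t ω) (F.x ω) i -
        mco (frm σ (a w) s t ω') (F.x ω') i) := by
    intro i ω ω' eB eT
    rw [hB] at eB
    have p1 := Box.pos_eq F (w := w) (by omega) (cv (vp w) κ q) (frm σ (a w) s t) ω i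
    have p2 := Box.pos_eq F (w := w) (by omega) (cv (vp w) κ q) (frm σ (a w) s t) ω' i
    have m1 := congrFun (Box.mkn_det (F := F) eB eT) i
    rw [m1] at p1
    rw [mul_sub, p1, p2]
    ring
  have s3 : CH p V0 (fun ω => (B ω, (a w ω, Z' ω))) ≤ Real.log 7 := by
    rw [hV0]
    refine (CH_floor hp (K := 2) ?_).trans (le_of_eq (by norm_num))
    intro ω ω' hω hω' e
    have e1 := Prod.ext_iff.mp e
    have e2 := (Prod.ext_iff.mp e1.2).2
    obtain ⟨n0, n1⟩ := pos ω ω' hω hω' e1.1 e2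
    have e3 := pe 0 ω ω' e1.1 (zd ω ω' e2).2
    rw [← mul_sub, e3, mco0, mco0]
    have e4 : (2 : ℝ) ^ X * (2 ^ (cv (vp w) κ q 0 + w) * (F.x ω (σ 0) - F.x ω' (σ 0))) =
        2 ^ (X + (q + w)) * (F.x ω (σ 0) - F.x ω' (σ 0)) := by
      change (2 : ℝ) ^ X * (2 ^ (q + w) * (F.x ω (σ 0) - F.x ω' (σ 0))) = _
      rw [pow_add 2 X (q + w)]
      ring
    rw [e4]
    refine le_trans ?_ n0
    rw [abs_mul, abs_mul, abs_of_pos (by positivity : (0 : ℝ) < 2 ^ (X + (q + w))),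
        abs_of_pos (by positivity : (0 : ℝ) < 2 ^ (q + w'))]
    refine mul_le_mul_of_nonneg_right (pow_le_pow_right₀ (by norm_num) (by omega)) (abs_nonneg _)
  have s4 : CH p V1 (fun ω => (B ω, (a w ω, Z' ω))) ≤ Real.log 31 := by
    rw [hV1]
    refine (CH_floor hp (K := 14) ?_).trans (le_of_eq (by norm_num))
    intro ω ω' hω hω' e
    have e1 := Prod.ext_iff.mp e
    have e2 := (Prod.ext_iff.mp e1.2).2
    obtain ⟨n0, n1⟩ := pos ω ω' hω hω' e1.1 e2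
    have e3 := pe 1 ω ω' e1.1 (zd ω ω' e2).2
    rw [← mul_sub, e3, mco1, mco1]
    have e4 : (2 : ℝ) ^ X * (2 ^ (cv (vp w) κ q 1 + w) *
        (F.x ω (σ 1) - a w ω * F.x ω (σ 0) - (F.x ω' (σ 1) - a w ω' * F.x ω' (σ 0)))) =
        2 ^ (X + (vp w + q + w)) *
        (F.x ω (σ 1) - a w ω * F.x ω (σ 0) - (F.x ω' (σ 1) - a w ω' * F.x ω' (σ 0))) := by
      change (2 : ℝ) ^ X * (2 ^ (vp w + q + w) * _) = _
      rw [pow_add 2 X (vp w + q + w)]
      ring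
    rw [e4]
    refine le_trans ?_ n1
    rw [abs_mul, abs_mul, abs_of_pos (by positivity : (0 : ℝ) < 2 ^ (X + (vp w + q + w))),
        abs_of_pos (by positivity : (0 : ℝ) < 2 ^ (vp w + q + w'))]
    refine mul_le_mul_of_nonneg_right (pow_le_pow_right₀ (by norm_num) (by omega)) (abs_nonneg _)
  have t1 := CH_le_add h0 (fun ω => (V ω, Z ω)) (a w) Z'
  have t2 := CH_le_add h0 (fun ω => (V ω, Z ω)) B (fun ω => (a w ω, Z' ω))
  have t3 : CH p (fun ω => (V ω, Z ω)) (fun ω => (B ω, (a w ω, Z' ω))) ≤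
      CH p (fun ω => (V0 ω, V1 ω)) (fun ω => (B ω, (a w ω, Z' ω))) := by
    refine CH_mono_left h0 ?_
    intro ω ω' _ _ e
    have e1 := Prod.ext_iff.mp e
    have e2 := Prod.ext_iff.mp e1.2
    obtain ⟨g1, g3⟩ := zd ω ω' (Prod.ext_iff.mp e2.2).2
    have e3 : B ω = B ω' := e2.1
    have e4 := Prod.ext_iff.mp e1.1
    refine Prod.ext ?_ ?_
    · rw [hV]
      rw [hV0, hV1] at e4
      exact Prod.ext e4.1 e4.2
    · rw [hZ]
      rw [hB] at e3
      exact Prod.ext e3 g3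
  have t4 := CH_subadd h0 V0 V1 (fun ω => (B ω, (a w ω, Z' ω)))
  have e75 : (12 : ℝ) * 6 + 3 = 75 := by norm_num
  rw [e75] at s2
  push_cast at s2
  unfold cs0
  linarith

/-- **(B0)**, one step, the blocks of the velocity. -/
theorem stepV (h : Rc F p σ wa wb vp D a s t al) (h1 : wa ≤ w) (hw : w ≤ w')
    (h2 : w' ≤ wb) {T : Type} (W : F.Ω → T)
    (hW : Det p W (fun ω => (F.blb w (cv (vp w) κ q) (frm σ (a w) s t) ω,
      F.blb w' (cv (vp w') κ q) (frm σ (a w') s t) ω))) :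
    CH p (vt F 0 1 (cv (vp w') κ q) (frm σ (a w') s t) X)
      (fun ω => (vt F 0 1 (cv (vp w) κ q) (frm σ (a w) s t) X ω, W ω)) ≤
      ((vp w' : ℝ) - vp w) * Real.log 2 + Real.log 17 := by
  have hp := h.law
  have h0 := hp.nonneg
  have hmono := h.mono w w' h1 hw h2
  obtain ⟨V, hV⟩ : ∃ V, V = vt F 0 1 (cv (vp w) κ q) (frm σ (a w) s t) X := ⟨_, rfl⟩
  rw [← hV]
  have md0 : ∀ (b : F.Ω → ℝ) (v : ℕ) (ω : F.Ω),
      F.md (cv v κ q) (frm σ b s t) ω 0 = Int.fract (2 ^ q * F.d ω (σ 0)) := by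
    intro b v ω
    unfold Fam.md
    rw [mco0]
    rfl
  have md1 : ∀ (b : F.Ω → ℝ) (v : ℕ) (ω : F.Ω),
      F.md (cv v κ q) (frm σ b s t) ω 1 =
        Int.fract (2 ^ (v + q) * (F.d ω (σ 1) - b ω * F.d ω (σ 0))) := by
    intro b v ω
    unfold Fam.md
    rw [mco1]
    rfl
  obtain ⟨e, he⟩ : ∃ e, vp w' = vp w + e := Nat.exists_eq_add_of_le hmono
  have key : CH p (Uni.dg X (fun ω => F.md (cv (vp w') κ q) (frm σ (a w') s t) ω 1))
      (fun ω => (V ω, W ω)) ≤ Real.log (2 * (7 * 2 ^ e) + 3) := by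
    refine CH_floor hp ?_
    intro ω ω' hω hω' hh
    have e1 := Prod.ext_iff.mp hh
    have e2 := Prod.ext_iff.mp (hW ω ω' hω hω' e1.2)
    have g1 : F.blb w (cv (vp w) κ q) (frm σ (a w) s t) ω =
      F.blb w (cv (vp w) κ q) (frm σ (a w) s t) ω' := e2.1
    have g2 : F.blb w' (cv (vp w') κ q) (frm σ (a w') s t) ω =
      F.blb w' (cv (vp w') κ q) (frm σ (a w') s t) ω' := e2.2
    have a1 := (frm_st h.inj g1).1
    have a2 := (frm_st h.inj g2).1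
    have v1 := e1.1
    rw [hV] at v1
    have v2 := Prod.ext_iff.mp v1
    have d0 : ⌊(2 : ℝ) ^ X * Int.fract (2 ^ q * F.d ω (σ 0))⌋ =
        ⌊(2 : ℝ) ^ X * Int.fract (2 ^ q * F.d ω' (σ 0))⌋ := by
      have := v2.1
      rw [← md0 (a w) (vp w) ω, ← md0 (a w) (vp w) ω']
      exact this
    have d1 : ⌊(2 : ℝ) ^ X * Int.fract (2 ^ (vp w + q) * (F.d ω (σ 1) - a w ω * F.d ω (σ 0)))⌋ =
        ⌊(2 : ℝ) ^ X * Int.fract (2 ^ (vp w + q) * (F.d ω' (σ 1) - a w ω' * F.d ω' (σ 0)))⌋ := by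
      have := v2.2
      rw [← md1 (a w) (vp w) ω, ← md1 (a w) (vp w) ω']
      exact this
    have c0 : ⌊(2 : ℝ) ^ q * F.d ω (σ 0)⌋ = ⌊(2 : ℝ) ^ q * F.d ω' (σ 0)⌋ := by
      have := congrFun (Box.mlb_ext g1).2.2.2.1 0
      unfold Fam.mvl flk at this
      rw [mco0, mco0] at this
      exact this
    have c1 : ⌊(2 : ℝ) ^ (vp w + q) * (F.d ω (σ 1) - a w ω * F.d ω (σ 0))⌋ =
        ⌊(2 : ℝ) ^ (vp w + q) * (F.d ω' (σ 1) - a w ω' * F.d ω' (σ 0))⌋ := by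
      have := congrFun (Box.mlb_ext g1).2.2.2.1 1
      unfold Fam.mvl flk at this
      rw [mco1, mco1] at this
      exact this
    have c2 : ⌊(2 : ℝ) ^ (vp w' + q) * (F.d ω (σ 1) - a w' ω * F.d ω (σ 0))⌋ =
        ⌊(2 : ℝ) ^ (vp w' + q) * (F.d ω' (σ 1) - a w' ω' * F.d ω' (σ 0))⌋ := by
      have := congrFun (Box.mlb_ext g2).2.2.2.1 1
      unfold Fam.mvl flk at this
      rw [mco1, mco1] at this
      exact this
    have n0 := Plk.abs_sub_lt_of_floor (Box.fract_lift c0 d0)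
    have n1 := Plk.abs_sub_lt_of_floor (Box.fract_lift c1 d1)
    have n2 := h.two h1 (by omega : w ≤ wb) (by omega : wa ≤ w') h2 (le_refl (vp w)) hmono hω
    rw [md1, md1]
    have f1 := Int.self_sub_floor ((2 : ℝ) ^ (vp w' + q) * (F.d ω (σ 1) - a w' ω * F.d ω (σ 0)))
    have f2 := Int.self_sub_floor ((2 : ℝ) ^ (vp w' + q) *
      (F.d ω' (σ 1) - a w' ω' * F.d ω' (σ 0)))
    rw [← f1, ← f2, c2]
    have e3 : 2 ^ X * (2 ^ (vp w' + q) * (F.d ω (σ 1) - a w' ω * F.d ω (σ 0)) -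
        (⌊(2 : ℝ) ^ (vp w' + q) * (F.d ω' (σ 1) - a w' ω' * F.d ω' (σ 0))⌋ : ℝ)) -
        2 ^ X * (2 ^ (vp w' + q) * (F.d ω' (σ 1) - a w' ω' * F.d ω' (σ 0)) -
        (⌊(2 : ℝ) ^ (vp w' + q) * (F.d ω' (σ 1) - a w' ω' * F.d ω' (σ 0))⌋ : ℝ)) =
        2 ^ e * ((2 ^ (vp w + q + X) * (F.d ω (σ 1) - a w ω * F.d ω (σ 0)) -
          2 ^ (vp w + q + X) * (F.d ω' (σ 1) - a w ω' * F.d ω' (σ 0))) +
          (2 ^ vp w * (a w ω - a w' ω)) *
            (2 ^ (q + X) * F.d ω (σ 0) - 2 ^ (q + X) * F.d ω' (σ 0))) := by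
      rw [← a1, ← a2, he]
      rw [show vp w + e + q = e + (vp w + q) by ring, pow_add 2 e (vp w + q),
        pow_add 2 (vp w + q) X, pow_add 2 (vp w) q, pow_add 2 q X]
      ring
    rw [e3, abs_mul, abs_of_pos (by positivity : (0 : ℝ) < 2 ^ e), mul_comm]
    refine mul_le_mul_of_nonneg_right ?_ (by positivity)
    refine (abs_add_le _ _).trans ?_
    have e5 : |2 ^ vp w * (a w ω - a w' ω)| ≤ 6 := by
      rw [abs_mul, abs_of_pos (by positivity : (0 : ℝ) < 2 ^ vp w)]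
      calc (2 : ℝ) ^ vp w * |a w ω - a w' ω| ≤ 2 ^ vp w * (6 / 2 ^ vp w) :=
            mul_le_mul_of_nonneg_left n2 (by positivity)
        _ = 6 := by field_simp
    have e6 : |(2 ^ vp w * (a w ω - a w' ω)) *
        (2 ^ (q + X) * F.d ω (σ 0) - 2 ^ (q + X) * F.d ω' (σ 0))| ≤ 6 * 1 := by
      rw [abs_mul]
      exact mul_le_mul e5 n0 (abs_nonneg _) (by norm_num)
    linarith
  have k2 : CH p (vt F 0 1 (cv (vp w') κ q) (frm σ (a w') s t) X) (fun ω => (V ω, W ω)) ≤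
      CH p (Uni.dg X (fun ω => F.md (cv (vp w') κ q) (frm σ (a w') s t) ω 1))
        (fun ω => (V ω, W ω)) := by
    refine CH_mono_left h0 ?_
    intro ω ω' _ _ hh
    have e1 := Prod.ext_iff.mp hh
    have v1 := (Prod.ext_iff.mp e1.2).1
    rw [hV] at v1
    have v2 := (Prod.ext_iff.mp v1).1
    refine Prod.ext ?_ e1.1
    show ⌊(2 : ℝ) ^ X * F.md (cv (vp w') κ q) (frm σ (a w') s t) ω 0⌋ =
      ⌊(2 : ℝ) ^ X * F.md (cv (vp w') κ q) (frm σ (a w') s t) ω' 0⌋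
    rw [md0, md0, ← md0 (a w) (vp w) ω, ← md0 (a w) (vp w) ω']
    exact v2
  refine k2.trans (key.trans ?_)
  have h3 : (1 : ℝ) ≤ 2 ^ e := one_le_pow₀ (by norm_num)
  have h4 : Real.log (2 * (7 * 2 ^ e) + 3) ≤ Real.log (2 ^ e * 17) :=
    Real.log_le_log (by positivity) (by linarith)
  rw [Real.log_mul (by positivity) (by norm_num), Real.log_pow] at h4
  have h5 : (vp w' : ℝ) - vp w = e := by
    rw [he]
    push_cast
    ring
  rw [h5]
  exact h4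

end Pool.S6U
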