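import Pool.Agent.H10.S6U.Uz3

/-!
# The local U-step on a rectangle, `v = 0`
-/

set_option autoImplicit false

namespace Pool.S6U

open Finset Real
open Pool.Agent.H49.Ent Pool.Agent.H32.Dense Pool.STK Pool.KA Pool.KSAT Pool.K2S

variable {J : ℕ} {F : Fam 3 J} {p : F.Ω → ℝ} {σ : Fin 3 → Fin 3} {wa wb : ℕ} {vp : ℕ → ℕ}
  {D : ℕ} {a : ℕ → F.Ω → ℝ} {s t al : F.Ω → ℝ} {κ X : ℕ}

section defs

variable (F p σ vp a s t κ X)

/-- The dependence of the block of the position on the velocity. -/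
noncomputable def TX (w q : ℕ) : ℝ :=
  dp p (xt F 0 1 w (cv (vp w) κ q) (frm σ (a w) s t) X)
    (vt F 0 1 (cv (vp w) κ q) (frm σ (a w) s t) X) (bt F w (cv (vp w) κ q) (frm σ (a w) s t))

end defs

theorem TX_nonneg (hp : IsLaw p) (w q : ℕ) : 0 ≤ TX F p σ vp a s t κ X w q :=
  dp_nonneg hp.nonneg _ _ _

/-- **(B0)** on a separated set of windows. -/
theorem sumX (h : Rc F p σ wa wb vp D a s t al) (q : ℕ) (S : Finset ℕ)
    (hS : ∀ w ∈ S, wa ≤ w ∧ w ≤ wb) (hne : S.Nonempty)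
    (hsep : ∀ x ∈ S, ∀ y ∈ S, x < y → x + X ≤ y) :
    ∑ w ∈ S, TX F p σ vp a s t κ X w q ≤ (2 * (X * Real.log 2 + Real.log 7) +
      ((vp wb : ℝ) - vp wa) * Real.log 2) + (cs0 + Real.log 17) * S.card := by
  have hp := h.law
  have h0 := hp.nonneg
  have hl2 : 0 ≤ Real.log 2 := Real.log_nonneg (by norm_num)
  have hl17 : 0 ≤ Real.log 17 := Real.log_nonneg (by norm_num)
  obtain ⟨w, h1, h2, h3⟩ := H23.enum_asc X S hne hsep
  rw [← h3 (fun w => TX F p σ vp a s t κ X w q)]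
  have e0 : ∀ j, TX F p σ vp a s t κ X (w j) q =
      dp p (vt F 0 1 (cv (vp (w j)) κ q) (frm σ (a (w j)) s t) X)
        (xt F 0 1 (w j) (cv (vp (w j)) κ q) (frm σ (a (w j)) s t) X)
        (bt F (w j) (cv (vp (w j)) κ q) (frm σ (a (w j)) s t)) := fun j => dp_symm h0 _ _ _
  rw [Finset.sum_congr rfl fun j _ => e0 j]
  have key := teleV hp S.card
    (fun j => vt F 0 1 (cv (vp (w j)) κ q) (frm σ (a (w j)) s t) X)
    (fun j => xt F 0 1 (w j) (cv (vp (w j)) κ q) (frm σ (a (w j)) s t) X)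
    (fun j => bt F (w j) (cv (vp (w j)) κ q) (frm σ (a (w j)) s t))
    (c₁ := cs0) (c₂ := fun j => ((vp (w (j + 1)) : ℝ) - vp (w j)) * Real.log 2 + Real.log 17)
    cs0_nonneg
    (fun j hj => stepX h (hS _ (h1 j)).1 (h2 j hj) (hS _ (h1 (j + 1))).2)
    (fun j hj => stepV h (hS _ (h1 j)).1 (by have := h2 j hj; omega) (hS _ (h1 (j + 1))).2
      (fun ω => ((xt F 0 1 (w j) (cv (vp (w j)) κ q) (frm σ (a (w j)) s t) X ω,
        bt F (w j) (cv (vp (w j)) κ q) (frm σ (a (w j)) s t) ω),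
        bt F (w (j + 1)) (cv (vp (w (j + 1))) κ q) (frm σ (a (w (j + 1))) s t) ω))
      (fun ω ω' _ _ e => by
        have e1 := Prod.ext_iff.mp e
        have e2 := Prod.ext_iff.mp e1.1
        exact Prod.ext (Prod.ext_iff.mp e2.2).1 (Prod.ext_iff.mp e1.2).1))
  have k2 : CH p (vt F 0 1 (cv (vp (w 0)) κ q) (frm σ (a (w 0)) s t) X)
      (bt F (w 0) (cv (vp (w 0)) κ q) (frm σ (a (w 0)) s t)) ≤
      2 * (X * Real.log 2 + Real.log 7) := by
    have d : ∀ i, CH p (Uni.dg X (fun ω => F.md (cv (vp (w 0)) κ q) (frm σ (a (w 0)) s t) ω i))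
        (bt F (w 0) (cv (vp (w 0)) κ q) (frm σ (a (w 0)) s t)) ≤ X * Real.log 2 + Real.log 7 := by
      intro i
      have := CH_dg_le hp (fun ω => F.md (cv (vp (w 0)) κ q) (frm σ (a (w 0)) s t) ω i) le_rfl
        (fun ω _ => by
          have := Box.md_mem F (cv (vp (w 0)) κ q) (frm σ (a (w 0)) s t) ω i
          rw [abs_le]
          constructor <;> linarith)
        (bt F (w 0) (cv (vp (w 0)) κ q) (frm σ (a (w 0)) s t)) X
      simpa using this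
    have := CH_subadd h0 (Uni.dg X (fun ω => F.md (cv (vp (w 0)) κ q) (frm σ (a (w 0)) s t) ω 0))
      (Uni.dg X (fun ω => F.md (cv (vp (w 0)) κ q) (frm σ (a (w 0)) s t) ω 1))
      (bt F (w 0) (cv (vp (w 0)) κ q) (frm σ (a (w 0)) s t))
    have d0 := d 0
    have d1 := d 1
    have e : CH p (vt F 0 1 (cv (vp (w 0)) κ q) (frm σ (a (w 0)) s t) X)
      (bt F (w 0) (cv (vp (w 0)) κ q) (frm σ (a (w 0)) s t)) =
      CH p (fun ω => (Uni.dg X (fun ω => F.md (cv (vp (w 0)) κ q) (frm σ (a (w 0)) s t) ω 0) ω,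
        Uni.dg X (fun ω => F.md (cv (vp (w 0)) κ q) (frm σ (a (w 0)) s t) ω 1) ω))
      (bt F (w 0) (cv (vp (w 0)) κ q) (frm σ (a (w 0)) s t)) := rfl
    rw [e]
    linarith
  have k3 : ∑ j ∈ Finset.range (S.card - 1),
      (((vp (w (j + 1)) : ℝ) - vp (w j)) * Real.log 2 + Real.log 17) ≤
      ((vp wb : ℝ) - vp wa) * Real.log 2 + Real.log 17 * S.card := by
    rw [Finset.sum_add_distrib, ← Finset.sum_mul,
      Finset.sum_range_sub (fun j => (vp (w j) : ℝ)) (S.card - 1), Finset.sum_const,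
      Finset.card_range, nsmul_eq_mul]
    have m1 := h.mono _ wb (hS _ (h1 (S.card - 1))).1 (hS _ (h1 (S.card - 1))).2 le_rfl
    have m2 := h.mono wa _ le_rfl (hS _ (h1 0)).1 (hS _ (h1 0)).2
    have m1' : (vp (w (S.card - 1)) : ℝ) ≤ vp wb := by exact_mod_cast m1
    have m2' : (vp wa : ℝ) ≤ vp (w 0) := by exact_mod_cast m2
    have m3 : ((S.card - 1 : ℕ) : ℝ) ≤ S.card := by
      have : S.card - 1 ≤ S.card := Nat.sub_le _ _
      exact_mod_cast this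
    have m4 := mul_le_mul_of_nonneg_right
      (show (vp (w (S.card - 1)) : ℝ) - vp (w 0) ≤ vp wb - vp wa by linarith) hl2
    have m5 := mul_le_mul_of_nonneg_right m3 hl17
    linarith
  refine key.trans ?_
  linarith

/-- **(B0)** on the rectangle. -/
theorem totX (h : Rc F p σ wa wb vp D a s t al) (hX : 0 < X) (hw : wa ≤ wb) (Q : Finset ℕ) :
    ∑ q ∈ Q, ∑ w ∈ Finset.Icc wa wb, TX F p σ vp a s t κ X w q ≤
      Q.card * (X * (2 * (X * Real.log 2 + Real.log 7) + ((vp wb : ℝ) - vp wa) * Real.log 2) +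
        (cs0 + Real.log 17) * (Finset.Icc wa wb).card) := by
  have hl2 : 0 ≤ Real.log 2 := Real.log_nonneg (by norm_num)
  have hl7 : 0 ≤ Real.log 7 := Real.log_nonneg (by norm_num)
  have hm : (vp wa : ℝ) ≤ vp wb := by exact_mod_cast h.mono wa wb le_rfl hw le_rfl
  have hm' : 0 ≤ ((vp wb : ℝ) - vp wa) * Real.log 2 := mul_nonneg (by linarith) hl2
  have key : ∀ q ∈ Q, ∑ w ∈ Finset.Icc wa wb, TX F p σ vp a s t κ X w q ≤
      X * (2 * (X * Real.log 2 + Real.log 7) + ((vp wb : ℝ) - vp wa) * Real.log 2) +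
        (cs0 + Real.log 17) * (Finset.Icc wa wb).card := by
    intro q _
    refine H23.sum_class (fun w => TX F p σ vp a s t κ X w q) (Finset.Icc wa wb) X hX
      (by positivity) ?_
    intro S' hS' hne hsep
    exact sumX h q S' (fun w hw => Finset.mem_Icc.1 (hS' hw)) hne hsep
  refine (Finset.sum_le_sum key).trans ?_
  rw [Finset.sum_const, nsmul_eq_mul]

/-- The contexts in which one of the dependences is large. -/
theorem card_bad0 (h : Rc F p σ wa wb vp D a s t al) {qa qb : ℕ} (hX0 : 0 < X) (hw : wa ≤ wb)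
    {δ : ℝ} (B : Finset (ℕ × ℕ)) (hB : B ⊆ Finset.Icc wa wb ×ˢ Finset.Ico qa qb)
    (hbad : ∀ x ∈ B, ¬ (TX F p σ vp a s t κ X x.1 x.2 ≤ δ * X ∧
      TM F p σ vp D a s t al κ X x.1 x.2 ≤ δ * X)) :
    B.card * (δ * X) ≤
      (Finset.Ico qa qb).card *
        (X * (2 * (X * Real.log 2 + Real.log 7) + ((vp wb : ℝ) - vp wa) * Real.log 2) +
        (cs0 + Real.log 17) * (Finset.Icc wa wb).card) +
      (Finset.Icc wa wb).card * (X * ((D - vp wa : ℕ) * Real.log 2 + Real.log 15)) := by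
  classical
  have hp := h.law
  have a2 := totX (κ := κ) h hX0 hw (Finset.Ico qa qb)
  have a3 := totM (κ := κ) h hX0 (Finset.Ico qa qb)
  rw [Finset.sum_comm] at a2
  rw [← Finset.sum_product'] at a2 a3
  have b1 : ∑ x ∈ B, (TX F p σ vp a s t κ X x.1 x.2 + TM F p σ vp D a s t al κ X x.1 x.2) ≤
      ∑ x ∈ Finset.Icc wa wb ×ˢ Finset.Ico qa qb, (TX F p σ vp a s t κ X x.1 x.2 +
        TM F p σ vp D a s t al κ X x.1 x.2) := by
    refine Finset.sum_le_sum_of_subset_of_nonneg hB fun x _ _ => ?_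
    have c1 := TX_nonneg (σ := σ) (vp := vp) (a := a) (s := s) (t := t)
      (κ := κ) (X := X) hp x.1 x.2
    have c3 := TM_nonneg (σ := σ) (vp := vp) (D := D) (a := a) (s := s) (t := t) (al := al)
      (κ := κ) (X := X) hp x.1 x.2
    linarith
  have b2 : (B.card : ℝ) * (δ * X) ≤ ∑ x ∈ B, (TX F p σ vp a s t κ X x.1 x.2 +
      TM F p σ vp D a s t al κ X x.1 x.2) := by
    rw [← nsmul_eq_mul, ← Finset.sum_const]
    refine Finset.sum_le_sum fun x hx => ?_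
    have c1 := TX_nonneg (σ := σ) (vp := vp) (a := a) (s := s) (t := t)
      (κ := κ) (X := X) hp x.1 x.2
    have c3 := TM_nonneg (σ := σ) (vp := vp) (D := D) (a := a) (s := s) (t := t) (al := al)
      (κ := κ) (X := X) hp x.1 x.2
    by_contra hcon
    have hcon := not_le.1 hcon
    exact hbad x hx ⟨by linarith, by linarith⟩
  have b3 : ∑ x ∈ Finset.Icc wa wb ×ˢ Finset.Ico qa qb, (TX F p σ vp a s t κ X x.1 x.2 +
      TM F p σ vp D a s t al κ X x.1 x.2) =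
      ∑ x ∈ Finset.Icc wa wb ×ˢ Finset.Ico qa qb, TX F p σ vp a s t κ X x.1 x.2 +
      ∑ x ∈ Finset.Icc wa wb ×ˢ Finset.Ico qa qb, TM F p σ vp D a s t al κ X x.1 x.2 := by
    rw [Finset.sum_add_distrib]
  linarith

/-- The arithmetic of the counting. -/
theorem arith0 {nQ nW X dv Dv u l7 l15 C γ δ ρ bad : ℝ} (hu : 0 < u)
    (hX : 0 < X) (hnW : 0 ≤ nW) (hnQ : 0 ≤ nQ) (hdv : dv ≤ γ * nW)
    (hXW : X ≤ γ * nW) (hXQ : X ≤ γ * nQ) (hD : Dv ≤ γ * nQ)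
    (h7 : l7 ≤ u * X) (h15 : l15 ≤ u * X) (_hC : 0 ≤ C) (hδ : 0 < δ) (hγ2 : 14 * u * γ ≤ ρ * δ)
    (hbig : 2 * C ≤ ρ * δ * X)
    (hb : bad * (δ * X) ≤ nQ * (X * (2 * (X * u + l7) + dv * u) + C * nW) +
      nW * (X * (Dv * u + l15))) :
    bad ≤ ρ * (nW * nQ) := by
  have hXu : 0 < X * u := mul_pos hX hu
  have t3 : nQ * (X * (2 * (X * u + l7) + dv * u) + C * nW) ≤
      nQ * (X * (5 * (γ * nW * u)) + C * nW) := by
    refine mul_le_mul_of_nonneg_left ?_ hnQ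
    have a1 : X * u ≤ γ * nW * u := mul_le_mul_of_nonneg_right hXW hu.le
    have a2 : dv * u ≤ γ * nW * u := mul_le_mul_of_nonneg_right hdv hu.le
    have a3 : 2 * (X * u + l7) + dv * u ≤ 5 * (γ * nW * u) := by linarith
    have a4 := mul_le_mul_of_nonneg_left a3 hX.le
    linarith
  have t4 : nW * (X * (Dv * u + l15)) ≤ nW * (X * (2 * (γ * nQ * u))) := by
    refine mul_le_mul_of_nonneg_left (mul_le_mul_of_nonneg_left ?_ hX.le) hnW
    have a1 : Dv * u ≤ γ * nQ * u := mul_le_mul_of_nonneg_right hD hu.le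
    have a2 : X * u ≤ γ * nQ * u := mul_le_mul_of_nonneg_right hXQ hu.le
    linarith
  have t5 : bad * (δ * X) ≤ (7 * γ * u * X + C) * (nW * nQ) := by
    have e : (7 * γ * u * X + C) * (nW * nQ) =
        nQ * (X * (5 * (γ * nW * u)) + C * nW) + nW * (X * (2 * (γ * nQ * u))) := by ring
    rw [e]
    linarith
  have hWQ : 0 ≤ nW * nQ := mul_nonneg hnW hnQ
  have t6 : 7 * γ * u * X + C ≤ ρ * δ * X := by
    have a1 : 14 * u * γ * X ≤ ρ * δ * X := mul_le_mul_of_nonneg_right hγ2 hX.le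
    linarith
  have t7 : bad * (δ * X) ≤ ρ * (nW * nQ) * (δ * X) := by
    have a2 : (7 * γ * u * X + C) * (nW * nQ) ≤ ρ * δ * X * (nW * nQ) :=
      mul_le_mul_of_nonneg_right t6 hWQ
    linarith
  exact le_of_mul_le_mul_right t7 (mul_pos hδ hX)

/-- The shape of the rectangle, `v = 0`. -/
structure Ush0 (wa wb : ℕ) (vp : ℕ → ℕ) (D X qa qb J : ℕ) (γ : ℝ) : Prop where
  w : wa ≤ wb
  wJ : wb + X ≤ J
  Xw : (X : ℝ) ≤ γ * (wb + 1 - wa : ℕ)
  v : (vp wb : ℝ) - vp wa ≤ γ * (wb + 1 - wa : ℕ)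
  X : (X : ℝ) ≤ γ * (qb - qa : ℕ)
  D : ((D - vp wa : ℕ) : ℝ) ≤ γ * (qb - qa : ℕ)

/-- The hypotheses of the U-step, `v = 0`: time, slopes of two samples of the line and the window,
the activity given the exact point and the context, the straightness at the exact points. -/
structure Uh0 {J : ℕ} (F : Fam 3 J) {τ : Type} (P : F.Ω → τ) (p : F.Ω → ℝ) (σ : Fin 3 → Fin 3)
    (wa wb : ℕ) (vp : ℕ → ℕ) (D : ℕ) (a : ℕ → F.Ω → ℝ) (s t al : F.Ω → ℝ) (κ X qa qb : ℕ)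
    (x₁ η θ δ ε₁ ca K : ℝ) : Prop where
  pt : Det p P (fun ω => (Uni.dg D al ω, F.T ω))
  tm : ((J : ℝ) - wa) * Real.log 2 - δ * X ≤ CH p F.T (slam F wa)
  h6 : ∀ w, wa ≤ w → w ≤ wb → Pool.KAF.Pr (dbl p (slam F w))
    {v | |sl (vp w) D (a w) al v.1 - sl (vp w) D (a w) al v.2| < (2 : ℝ) ^ (-(x₁ * X))} ≤ ε₁
  act : ∀ w q r X' : ℕ, wa ≤ w → w ≤ wb → qa ≤ q → q < qb → η * X ≤ X' → r + X' ≤ X →
    ∀ E : F.Ω → Prop, θ ≤ Pe p E →
    ca * X' * Real.log 2 ≤ CH (Pool.Agent.H49.Ent.cond p E True)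
      (Uni.dg (r + X') (fun ω => F.md (cv (vp w) κ q) (frm σ (a w) s t) ω 0))
      (fun ω => (Uni.dg r (fun ω => F.md (cv (vp w) κ q) (frm σ (a w) s t) ω 0) ω,
        (P ω, F.blb w (cv (vp w) κ q) (frm σ (a w) s t) ω)))
  str : ∀ w q, wa ≤ w → w ≤ wb → qa ≤ q → q < qb →
    Str F p 0 1 w (cv (vp w) κ q) (frm σ (a w) s t) (sl (vp w) D (a w) al) P X K

/-- **The U-step on a rectangle, `v = 0`.** -/
theorem ue_rect0 : ∀ ε ca K ρ : ℝ, 0 < ε → 0 < ca → 4 ≤ K → 0 < ρ →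
    ∃ (x₁ η θ δ ε₁ γ : ℝ) (d₀ : ℕ),
    0 < x₁ ∧ 0 < η ∧ 0 < θ ∧ 0 < δ ∧ 0 < ε₁ ∧ 0 < γ ∧ γ ≤ 1 ∧ 1 ≤ d₀ ∧
    ∀ {J : ℕ} (F : Fam 3 J) {τ : Type} (P : F.Ω → τ) (p : F.Ω → ℝ) (σ : Fin 3 → Fin 3)
      (wa wb : ℕ) (vp : ℕ → ℕ) (D : ℕ) (a : ℕ → F.Ω → ℝ) (s t al : F.Ω → ℝ) (κ X qa qb : ℕ),
      Rc F p σ wa wb vp D a s t al → d₀ ≤ X → Ush0 wa wb vp D X qa qb J γ →
      Uh0 F P p σ wa wb vp D a s t al κ X qa qb x₁ η θ δ ε₁ ca K →
      ∃ B : Finset (ℕ × ℕ), (B.card : ℝ) ≤ ρ * ((wb + 1 - wa : ℕ) * (qb - qa : ℕ)) ∧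
        ∀ w q, wa ≤ w → w ≤ wb → qa ≤ q → q < qb → (w, q) ∉ B →
          (1 - ε) * X * Real.log 2 ≤
            CH p (Uni.dg X (tnu F w (cv (vp w) κ q) (frm σ (a w) s t) 0 1
              (sl (vp w) D (a w) al)))
              (fun ω => (vd F 0 1 w (cv (vp w) κ q) (frm σ (a w) s t) X ω,
                cdn F w (cv (vp w) κ q) (frm σ (a w) s t) (Uni.dg D al) ω)) ∧
          (2 - ε) * X * Real.log 2 ≤
            CH p (fun ω => (Uni.dg X (tnu F w (cv (vp w) κ q) (frm σ (a w) s t) 0 1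
                (sl (vp w) D (a w) al)) ω,
              Uni.dg X (fun ω => F.mx w (cv (vp w) κ q) (frm σ (a w) s t) ω 0) ω))
              (cdn F w (cv (vp w) κ q) (frm σ (a w) s t) (Uni.dg D al)) := by
  classical
  intro ε ca K ρ hε hca hK hρ
  obtain ⟨x₁, η, θ, δ, ε₁, n₀, hx₁, hη, hθ, hδ, hε₁, hue⟩ := ue0_ctx ε ca K hε hca hK
  obtain ⟨u, hu⟩ : ∃ u, u = Real.log 2 := ⟨_, rfl⟩
  have hu0 : 0 < u := by rw [hu]; exact Real.log_pos (by norm_num)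
  obtain ⟨γ, hγ⟩ : ∃ γ, γ = min 1 (ρ * δ / (14 * u)) := ⟨_, rfl⟩
  have hγ0 : 0 < γ := by rw [hγ]; exact lt_min one_pos (by positivity)
  have hγ1 : γ ≤ 1 := by rw [hγ]; exact min_le_left _ _
  have hγ2 : 14 * u * γ ≤ ρ * δ := by
    have h1 : γ ≤ ρ * δ / (14 * u) := by rw [hγ]; exact min_le_right _ _
    rw [le_div_iff₀ (by positivity)] at h1
    linarith
  have hl7 : 0 ≤ Real.log 7 := Real.log_nonneg (by norm_num)
  have hl15 : 0 ≤ Real.log 15 := Real.log_nonneg (by norm_num)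
  have hl17 : 0 ≤ Real.log 17 := Real.log_nonneg (by norm_num)
  have hcs := cs0_nonneg
  obtain ⟨N₁, hN₁⟩ := exists_nat_ge ((Real.log 7 + Real.log 15) / u)
  obtain ⟨N₂, hN₂⟩ := exists_nat_ge (2 * (cs0 + Real.log 17) / (ρ * δ))
  refine ⟨x₁, η, θ, δ, ε₁, γ, n₀ + N₁ + N₂ + 1, hx₁, hη, hθ, hδ, hε₁, hγ0, hγ1, by omega, ?_⟩
  intro J F τ P p σ wa wb vp D a s t al κ X qa qb hR hd hs hU
  have hp := hR.law
  have hX0 : 0 < X := by omega
  have hX0r : (0 : ℝ) < X := by exact_mod_cast hX0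
  obtain ⟨B, hB⟩ : ∃ B, B = (Finset.Icc wa wb ×ˢ Finset.Ico qa qb).filter
    (fun x => ¬ (TX F p σ vp a s t κ X x.1 x.2 ≤ δ * X ∧
      TM F p σ vp D a s t al κ X x.1 x.2 ≤ δ * X)) := ⟨_, rfl⟩
  have hcb := card_bad0 (κ := κ) (δ := δ) hR hX0 hs.w B (by
    rw [hB]; exact Finset.filter_subset _ _) (fun x hx => by
      rw [hB] at hx; exact (Finset.mem_filter.1 hx).2)
  have hcW : (Finset.Icc wa wb).card = wb + 1 - wa := Nat.card_Icc _ _
  have hcQ : (Finset.Ico qa qb).card = qb - qa := Nat.card_Ico _ _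
  rw [hcW, hcQ] at hcb
  have hN1 : Real.log 7 + Real.log 15 ≤ u * X := by
    have h1 : ((N₁ : ℕ) : ℝ) ≤ X := by
      have : N₁ ≤ X := by omega
      exact_mod_cast this
    have h2 := hN₁.trans h1
    rw [div_le_iff₀ hu0] at h2
    linarith
  have hN2 : 2 * (cs0 + Real.log 17) ≤ ρ * δ * X := by
    have h1 : ((N₂ : ℕ) : ℝ) ≤ X := by
      have : N₂ ≤ X := by omega
      exact_mod_cast this
    have h2 := hN₂.trans h1
    rw [div_le_iff₀ (by positivity)] at h2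
    linarith
  have hfin := arith0 (u := u) (X := X) (l7 := Real.log 7) (l15 := Real.log 15)
    (C := cs0 + Real.log 17) (γ := γ) (δ := δ) (ρ := ρ) (bad := B.card)
    (nW := (wb + 1 - wa : ℕ)) (nQ := (qb - qa : ℕ)) (dv := (vp wb : ℝ) - vp wa)
    (Dv := (D - vp wa : ℕ)) hu0 hX0r (Nat.cast_nonneg _) (Nat.cast_nonneg _) hs.v hs.Xw hs.X hs.D
    (by linarith) (by linarith) (by linarith) hδ hγ2 hN2 (by rw [hu]; exact hcb)
  refine ⟨B, hfin, ?_⟩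
  intro w q h1 h2 h3 h4 hwq
  have hgood : TX F p σ vp a s t κ X w q ≤ δ * X ∧ TM F p σ vp D a s t al κ X w q ≤ δ * X := by
    by_contra hcon
    refine hwq ?_
    rw [hB, Finset.mem_filter]
    exact ⟨Finset.mem_product.2 ⟨Finset.mem_Icc.2 ⟨h1, h2⟩, Finset.mem_Ico.2 ⟨h3, h4⟩⟩, hcon⟩
  have hM : Det p (slam F w) (frm σ (a w) s t) := by
    intro ω ω' hω hω' e
    have e1 := hR.det w h1 h2 ω ω' hω hω' e
    have e2 := Prod.ext_iff.mp e1
    have e3 := Prod.ext_iff.mp e2.2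
    unfold frm
    have f1 : a w ω = a w ω' := e2.1
    have f2 : s ω = s ω' := e3.1
    have f3 : t ω = t ω' := e3.2
    rw [f1, f2, f3]
  have hS : Det p (fun ω => (F.blb w (cv (vp w) κ q) (frm σ (a w) s t) ω, Uni.dg D al ω))
      (sl (vp w) D (a w) al) := by
    intro ω ω' _ _ e
    have e1 := Prod.ext_iff.mp e
    exact Rc.det_sl hR.inj e1.1 e1.2
  have hwJ := hs.wJ
  exact hue F (Uni.dg D al) P p 0 1 w (cv (vp w) κ q) (frm σ (a w) s t) (sl (vp w) D (a w) al) X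
    hp (by omega) (by omega) hM hS (fun ω hω => hR.sl4 h1 h2 hω) hU.pt
    (tmw_up hp h1 (by omega) hU.tm) (hU.h6 w h1 h2)
    (fun r X' g1 g2 E hE => hU.act w q r X' h1 h2 h3 h4 g1 g2 E hE) (hU.str w q h1 h2 h3 h4)
    hgood.1 hgood.2

/-- The conclusion in static boxes from the rows. -/
theorem Uc_of {ε : ℝ} {w q : ℕ} (hR : Rc F p σ wa wb vp D a s t al) (h1 : wa ≤ w) (h2 : w ≤ wb)
    (hbig : (3 : ℕ) * Real.log 51 + 2 * Real.log 5 ≤ ε / 2 * Real.log 2 * X)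
    (k1 : (1 - ε / 2) * X * Real.log 2 ≤
      CH p (Uni.dg X (tnu F w (cv (vp w) κ q) (frm σ (a w) s t) 0 1 (sl (vp w) D (a w) al)))
        (fun ω => (vd F 0 1 w (cv (vp w) κ q) (frm σ (a w) s t) X ω,
          cdn F w (cv (vp w) κ q) (frm σ (a w) s t) (Uni.dg D al) ω)))
    (k2 : (2 - ε / 2) * X * Real.log 2 ≤
      CH p (fun ω => (Uni.dg X (tnu F w (cv (vp w) κ q) (frm σ (a w) s t) 0 1
          (sl (vp w) D (a w) al)) ω,
        Uni.dg X (fun ω => F.mx w (cv (vp w) κ q) (frm σ (a w) s t) ω 0) ω))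
        (cdn F w (cv (vp w) κ q) (frm σ (a w) s t) (Uni.dg D al))) :
    Uc F p σ vp D a s t al κ X w q ε := by
  intro N hN
  have hl5 : 0 ≤ Real.log 5 := Real.log_nonneg (by norm_num)
  obtain ⟨u, hu⟩ : ∃ u, u = Real.log 2 := ⟨_, rfl⟩
  rw [← hu] at k1 k2 hbig ⊢
  have o1 := hR.out_pair (q := q) h1 h2 hN k2
  refine ⟨?_, ?_⟩
  · refine le_trans ?_ o1
    have : (2 - ε / 2) * X * u = (2 - ε) * X * u + ε / 2 * u * X := by ring
    rw [this]
    linarith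
  · intro r
    have o2 := hR.out_row (q := q) (r := r) h1 h2 hN k1
    refine le_trans ?_ o2
    have : (1 - ε / 2) * X * u = (1 - ε) * X * u + ε / 2 * u * X := by ring
    rw [this]
    linarith

/-- **The U-step on a rectangle, `v = 0`, in static boxes.** -/
theorem ue_out0 : ∀ ε ca K ρ : ℝ, 0 < ε → 0 < ca → 4 ≤ K → 0 < ρ →
    ∃ (x₁ η θ δ ε₁ γ : ℝ) (d₀ : ℕ),
    0 < x₁ ∧ 0 < η ∧ 0 < θ ∧ 0 < δ ∧ 0 < ε₁ ∧ 0 < γ ∧ γ ≤ 1 ∧ 1 ≤ d₀ ∧
    ∀ {J : ℕ} (F : Fam 3 J) {τ : Type} (P : F.Ω → τ) (p : F.Ω → ℝ) (σ : Fin 3 → Fin 3)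
      (wa wb : ℕ) (vp : ℕ → ℕ) (D : ℕ) (a : ℕ → F.Ω → ℝ) (s t al : F.Ω → ℝ) (κ X qa qb : ℕ),
      Rc F p σ wa wb vp D a s t al → d₀ ≤ X → Ush0 wa wb vp D X qa qb J γ →
      Uh0 F P p σ wa wb vp D a s t al κ X qa qb x₁ η θ δ ε₁ ca K →
      ∃ B : Finset (ℕ × ℕ), (B.card : ℝ) ≤ ρ * ((wb + 1 - wa : ℕ) * (qb - qa : ℕ)) ∧
        ∀ w q, wa ≤ w → w ≤ wb → qa ≤ q → q < qb → (w, q) ∉ B →
          Uc F p σ vp D a s t al κ X w q ε := by
  intro ε ca K ρ hε hca hK hρ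
  obtain ⟨x₁, η, θ, δ, ε₁, γ, d₀, hx₁, hη, hθ, hδ, hε₁, hγ, hγ1, hd₀, hue⟩ :=
    ue_rect0 (ε / 2) ca K ρ (by positivity) hca hK hρ
  have hl2 : 0 < Real.log 2 := Real.log_pos (by norm_num)
  obtain ⟨N₁, hN₁⟩ := exists_nat_ge (((3 : ℕ) * Real.log 51 + 2 * Real.log 5) /
    (ε / 2 * Real.log 2))
  refine ⟨x₁, η, θ, δ, ε₁, γ, d₀ + N₁, hx₁, hη, hθ, hδ, hε₁, hγ, hγ1, by omega, ?_⟩
  intro J F τ P p σ wa wb vp D a s t al κ X qa qb hR hd hs hU
  obtain ⟨B, hB, hmain⟩ := hue F P p σ wa wb vp D a s t al κ X qa qb hR (by omega) hs hU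
  refine ⟨B, hB, ?_⟩
  intro w q h1 h2 h3 h4 hwq
  obtain ⟨k1, k2⟩ := hmain w q h1 h2 h3 h4 hwq
  refine Uc_of hR h1 h2 ?_ k1 k2
  have g1 : ((N₁ : ℕ) : ℝ) ≤ X := by
    have : N₁ ≤ X := by omega
    exact_mod_cast this
  have g2 := hN₁.trans g1
  rw [div_le_iff₀ (by positivity)] at g2
  linarith

/-- **The mean form** from the conclusion outside a small set. -/
theorem sum_of_Uc {ε : ℝ} (hε : 0 < ε) (hp : IsLaw p) {qa qb : ℕ} {N : ℕ → ℕ → ℕ}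
    (hN : ∀ w q, wa ≤ w → w ≤ wb → qa ≤ q → q < qb → N w q ≤ w + q + κ) {B : Finset (ℕ × ℕ)}
    (hB : (B.card : ℝ) ≤ ε / (4 * Real.log 2) * ((wb + 1 - wa : ℕ) * (qb - qa : ℕ)))
    (hmain : ∀ w q, wa ≤ w → w ≤ wb → qa ≤ q → q < qb → (w, q) ∉ B →
      Uc F p σ vp D a s t al κ X w q (ε / (2 * Real.log 2))) :
    ∑ x ∈ Finset.Icc wa wb ×ˢ Finset.Ico qa qb, (2 * (X : ℝ) * Real.log 2 -
      CH p (F.sbx σ (x.1 + x.2 + X) (x.1 + vp x.1 + x.2 + X) (N x.1 x.2) (ald D al) s t)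
        (ocn F σ vp D a s t al κ x.1 x.2 (N x.1 x.2))) ≤
      ε * X * ((wb + 1 - wa : ℕ) * (qb - qa : ℕ)) := by
  classical
  obtain ⟨u, hu⟩ : ∃ u, u = Real.log 2 := ⟨_, rfl⟩
  have hu0 : 0 < u := by rw [hu]; exact Real.log_pos (by norm_num)
  have hX0 : (0 : ℝ) ≤ X := Nat.cast_nonneg _
  rw [← hu] at hB
  rw [← hu]
  obtain ⟨P, hP⟩ : ∃ P, P = Finset.Icc wa wb ×ˢ Finset.Ico qa qb := ⟨_, rfl⟩
  rw [← hP]
  have hPc : (P.card : ℝ) = (wb + 1 - wa : ℕ) * (qb - qa : ℕ) := by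
    rw [hP, Finset.card_product, Nat.card_Icc, Nat.card_Ico]
    push_cast
    ring
  have term : ∀ x ∈ P, 2 * (X : ℝ) * u -
      CH p (F.sbx σ (x.1 + x.2 + X) (x.1 + vp x.1 + x.2 + X) (N x.1 x.2) (ald D al) s t)
          (ocn F σ vp D a s t al κ x.1 x.2 (N x.1 x.2)) ≤
      ε / 2 * X + if x ∈ B then 2 * (X : ℝ) * u else 0 := by
    intro x hx
    rw [hP, Finset.mem_product, Finset.mem_Icc, Finset.mem_Ico] at hx
    by_cases hxB : x ∈ B
    · rw [if_pos hxB]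
      have := CH_nonneg hp.nonneg
        (F.sbx σ (x.1 + x.2 + X) (x.1 + vp x.1 + x.2 + X) (N x.1 x.2) (ald D al) s t)
          (ocn F σ vp D a s t al κ x.1 x.2 (N x.1 x.2))
      have h2 : 0 ≤ ε / 2 * X := by positivity
      linarith
    · rw [if_neg hxB, add_zero]
      have h1 := (hmain x.1 x.2 hx.1.1 hx.1.2 hx.2.1 hx.2.2 hxB (N x.1 x.2)
        (hN x.1 x.2 hx.1.1 hx.1.2 hx.2.1 hx.2.2)).1
      rw [← hu] at h1
      have h2 : (2 - ε / (2 * u)) * X * u = 2 * X * u - ε / 2 * X := by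
        field_simp
      rw [h2] at h1
      linarith
  refine (Finset.sum_le_sum term).trans ?_
  rw [Finset.sum_add_distrib, Finset.sum_const, nsmul_eq_mul, Finset.sum_ite, Finset.sum_const_zero,
    add_zero, Finset.sum_const, nsmul_eq_mul]
  have h3 : ((P.filter (fun x => x ∈ B)).card : ℝ) ≤ B.card := by
    have : (P.filter (fun x => x ∈ B)).card ≤ B.card :=
      Finset.card_le_card fun x hx => (Finset.mem_filter.1 hx).2
    exact_mod_cast this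
  have h4 : ((P.filter (fun x => x ∈ B)).card : ℝ) * (2 * X * u) ≤
      ε / (4 * u) * P.card * (2 * X * u) := by
    refine mul_le_mul_of_nonneg_right (h3.trans ?_) (by positivity)
    rw [hPc]
    exact hB
  have h5 : ε / (4 * u) * P.card * (2 * X * u) = ε / 2 * X * P.card := by
    field_simp
    ring
  rw [← hPc]
  rw [h5] at h4
  calc (P.card : ℝ) * (ε / 2 * X) + _ ≤ P.card * (ε / 2 * X) + ε / 2 * X * P.card := by
        linarith
    _ = ε * X * P.card := by ring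

end Pool.S6U
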