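import Pool.Agent.H10.S6U.Uz4
import Pool.Agent.H2.UST.Cls
import Pool.Agent.H36.S6.Act2

/-!
# The local U-step at `v = 0` in a class: the hypotheses at the exact points
-/

set_option autoImplicit false

namespace Pool.UST

open Finset Real
open Pool.Agent.H49.Ent Pool.Agent.H32.Dense Pool.STK Pool.KA Pool.KSAT Pool.K2S Pool.PB
  Pool.S6U Pool.S6C

section fam

variable {J : ℕ} {F : Fam 3 J} {A : F.Ω → Prop} {σ : Fin 3 → Fin 3} {wl wa wb : ℕ}
    {vp : ℕ → ℕ} {kap Hu HN : ℕ} {al nu k b : (Fin 3 → ℤ) × (ℕ × F.ζ) → ℝ} {a : ℕ → F.Ω → ℝ}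
    {s t : F.Ω → ℝ} {B C : ℝ}

theorem X_near (F : Fam 3 J) (ω : F.Ω) (i : Fin 3) : |F.x ω i - (F.X J ω i : ℝ) / 2 ^ J| ≤
    1 / 2 ^ J := by
  have h1 := Int.floor_le ((2 : ℝ) ^ J * F.x ω i)
  have h2 := Int.lt_floor_add_one ((2 : ℝ) ^ J * F.x ω i)
  have e : F.x ω i - (F.X J ω i : ℝ) / 2 ^ J =
      (2 ^ J * F.x ω i - (⌊(2 : ℝ) ^ J * F.x ω i⌋ : ℝ)) / 2 ^ J := by
    have e2 : (F.X J ω i : ℝ) = (⌊(2 : ℝ) ^ J * F.x ω i⌋ : ℝ) := rfl
    rw [e2]
    field_simp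
  rw [e, abs_div, abs_of_pos (by positivity : (0 : ℝ) < 2 ^ J)]
  refine div_le_div_of_nonneg_right ?_ (by positivity)
  rw [abs_le]
  constructor <;> linarith

/-- The straightness at the exact points, in the context. -/
theorem UFr.str (h : UFr F A σ wl wa wb vp kap Hu HN al nu k b a s t B C) {p : F.Ω → ℝ}
    (hpA : ∀ ω, 0 < p ω → A ω) {w q X D : ℕ} (h1 : wa ≤ w) (h2 : w ≤ wb)
    (g0 : w + q + X ≤ J) (g1 : (B + 4) * 2 ^ (vp w + q + w + X) ≤ 2 ^ J)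
    (gu : B * 2 ^ (vp w + q + X) ≤ 2 ^ Hu) (gD : vp w + X ≤ D) :
    Str F p 0 1 w (cv (vp w) kap q) (frm σ (a w) s t)
      (sl (vp w) D (a w) (fun ω => al (Fam.pt F ω))) (Fam.pt F) X 4 := by
  have hB := h.B1
  have hinj := h.bij.1
  have hwJ : w ≤ J := by omega
  obtain ⟨M, hM⟩ : ∃ M, M = frm σ (a w) s t := ⟨_, rfl⟩
  obtain ⟨c, hc⟩ : ∃ c, c = cv (vp w) kap q := ⟨_, rfl⟩
  obtain ⟨ald, hald⟩ : ∃ ald : F.Ω → ℝ, ald = fun ω =>
    (Uni.dg D (fun ω => al (Fam.pt F ω)) ω : ℝ) / 2 ^ D := ⟨_, rfl⟩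
  have c0 : c 0 = q := by rw [hc]; rfl
  have c1 : c 1 = vp w + q := by rw [hc]; rfl
  have m0 : ∀ (ω : F.Ω) (x : Fin 3 → ℝ), mco (M ω) x 0 = x (σ 0) := by
    intro ω x
    rw [hM]
    exact mco0 (a w) ω x
  have m1 : ∀ (ω : F.Ω) (x : Fin 3 → ℝ), mco (M ω) x 1 = x (σ 1) - a w ω * x (σ 0) := by
    intro ω x
    rw [hM]
    exact mco1 (a w) ω x
  rw [← hM, ← hc]
  refine ⟨fun ω => 2 ^ (q + w) * ((F.X J ω (σ 0) : ℝ) / 2 ^ J) - F.mkn w c M ω 0,
    fun ω => 2 ^ (vp w + q + w) * ((F.X J ω (σ 1) : ℝ) / 2 ^ J -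
      a w ω * ((F.X J ω (σ 0) : ℝ) / 2 ^ J)) - F.mkn w c M ω 1,
    fun ω => 2 ^ (vp w + q) * nu (Fam.pt F ω) +
      2 ^ vp w * (al (Fam.pt F ω) - ald ω) * F.mvl c M ω 0 - F.mvl c M ω 1 +
      sl (vp w) D (a w) (fun ω => al (Fam.pt F ω)) ω * F.mvl c M ω 0, ?_, ?_⟩
  · intro ω ω' _ _ e
    have e1 := Prod.ext_iff.mp e
    have ep : Fam.pt F ω = Fam.pt F ω' := e1.1
    have eb : F.blb w c M ω = F.blb w c M ω' := e1.2
    have ex : F.X J ω = F.X J ω' := (Prod.ext_iff.mp ep).1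
    have eT : F.T ω = F.T ω' := (Prod.ext_iff.mp (Prod.ext_iff.mp ep).2).1
    have ek := Box.mkn_det eb eT
    have ev : F.mvl c M ω = F.mvl c M ω' := (Box.mlb_ext eb).2.2.2.1
    have ea : a w ω = a w ω' := by
      rw [hM] at eb
      exact (frm_st hinj eb).1
    have ed : ald ω = ald ω' := by
      rw [hald]
      have : Uni.dg D (fun ω => al (Fam.pt F ω)) ω = Uni.dg D (fun ω => al (Fam.pt F ω)) ω' := by
        unfold Uni.dg
        simp only [ep]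
      simp only [this]
    have es : sl (vp w) D (a w) (fun ω => al (Fam.pt F ω)) ω =
        sl (vp w) D (a w) (fun ω => al (Fam.pt F ω)) ω' := by
      have e1 : ∀ ω, sl (vp w) D (a w) (fun ω => al (Fam.pt F ω)) ω =
          2 ^ vp w * (ald ω - a w ω) := by
        intro ω
        rw [hald]
        rfl
      rw [e1, e1, ed, ea]
    simp only
    rw [ex, ek, ev, ea, ed, es, ep]
  · intro ω hω
    have hA := hpA ω hω
    have haB : |a w ω| ≤ B + 3 := by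
      have b3 := h.near w h1 h2 ω hA
      have b4 := h.bal ω hA
      have b5 := abs_sub_abs_le_abs_sub (a w ω) (al (Fam.pt F ω))
      rw [abs_sub_comm] at b5
      have c3 : (3 : ℝ) / 2 ^ vp w ≤ 3 := div_le_self (by norm_num) (one_le_pow₀ (by norm_num))
      linarith
    have x0 := X_near F ω (σ 0)
    have x1 := X_near F ω (σ 1)
    have p0 := Box.pos_eq F hwJ c M ω 0
    have p1 := Box.pos_eq F hwJ c M ω 1
    have q0 := Box.mvl_add F c M ω 0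
    have q1 := Box.mvl_add F c M ω 1
    rw [m0, c0] at p0 q0
    rw [m1, c1] at p1 q1
    have hJp : (0 : ℝ) < 2 ^ J := by positivity
    have hpw : (2 : ℝ) ^ (q + w) * 2 ^ X ≤ 2 ^ J := by
      rw [← pow_add]
      exact pow_le_pow_right₀ (by norm_num) (by omega)
    refine ⟨?_, ?_, ?_⟩
    · have e1 : F.mx w c M ω 0 - (2 ^ (q + w) * ((F.X J ω (σ 0) : ℝ) / 2 ^ J) - F.mkn w c M ω 0) =
          2 ^ (q + w) * (F.x ω (σ 0) - (F.X J ω (σ 0) : ℝ) / 2 ^ J) := by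
        rw [mul_sub, p0]
        ring
      rw [e1, abs_mul, abs_of_pos (by positivity : (0 : ℝ) < 2 ^ (q + w))]
      calc (2 : ℝ) ^ (q + w) * |F.x ω (σ 0) - (F.X J ω (σ 0) : ℝ) / 2 ^ J| * 2 ^ X ≤
          2 ^ (q + w) * (1 / 2 ^ J) * 2 ^ X := by gcongr
        _ = 2 ^ (q + w) * 2 ^ X / 2 ^ J := by ring
        _ ≤ 1 := by rw [div_le_one hJp]; exact hpw
        _ ≤ 4 := by norm_num
    · have e1 : F.mx w c M ω 1 - (2 ^ (vp w + q + w) * ((F.X J ω (σ 1) : ℝ) / 2 ^ J -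
          a w ω * ((F.X J ω (σ 0) : ℝ) / 2 ^ J)) - F.mkn w c M ω 1) =
          2 ^ (vp w + q + w) * ((F.x ω (σ 1) - (F.X J ω (σ 1) : ℝ) / 2 ^ J) -
            a w ω * (F.x ω (σ 0) - (F.X J ω (σ 0) : ℝ) / 2 ^ J)) := by
        have : 2 ^ (vp w + q + w) * ((F.x ω (σ 1) - (F.X J ω (σ 1) : ℝ) / 2 ^ J) -
            a w ω * (F.x ω (σ 0) - (F.X J ω (σ 0) : ℝ) / 2 ^ J)) =
            2 ^ (vp w + q + w) * (F.x ω (σ 1) - a w ω * F.x ω (σ 0)) -
            2 ^ (vp w + q + w) * ((F.X J ω (σ 1) : ℝ) / 2 ^ J -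
              a w ω * ((F.X J ω (σ 0) : ℝ) / 2 ^ J)) := by ring
        rw [this, p1]
        ring
      have e2 : |(F.x ω (σ 1) - (F.X J ω (σ 1) : ℝ) / 2 ^ J) -
            a w ω * (F.x ω (σ 0) - (F.X J ω (σ 0) : ℝ) / 2 ^ J)| ≤ (B + 4) / 2 ^ J := by
        refine (abs_sub _ _).trans ?_
        rw [abs_mul]
        have : |a w ω| * |F.x ω (σ 0) - (F.X J ω (σ 0) : ℝ) / 2 ^ J| ≤ (B + 3) * (1 / 2 ^ J) :=
          mul_le_mul haB x0 (abs_nonneg _) (by linarith)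
        have e3 : (B + 4) / (2 : ℝ) ^ J = 1 / 2 ^ J + (B + 3) * (1 / 2 ^ J) := by ring
        rw [e3]
        linarith
      rw [e1, abs_mul, abs_of_pos (by positivity : (0 : ℝ) < 2 ^ (vp w + q + w))]
      calc (2 : ℝ) ^ (vp w + q + w) * |(F.x ω (σ 1) - (F.X J ω (σ 1) : ℝ) / 2 ^ J) -
            a w ω * (F.x ω (σ 0) - (F.X J ω (σ 0) : ℝ) / 2 ^ J)| * 2 ^ X ≤
          2 ^ (vp w + q + w) * ((B + 4) / 2 ^ J) * 2 ^ X := by gcongr
        _ = (B + 4) * 2 ^ (vp w + q + w + X) / 2 ^ J := by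
            rw [pow_add 2 (vp w + q + w) X]
            ring
        _ ≤ 1 := by rw [div_le_one hJp]; exact g1
        _ ≤ 4 := by norm_num
    · have hmd := Box.md_mem F c M ω 0
      have hsl : sl (vp w) D (a w) (fun ω => al (Fam.pt F ω)) ω = 2 ^ vp w * (ald ω - a w ω) := by
        rw [hald]
        rfl
      have dn : |ald ω - al (Fam.pt F ω)| ≤ 1 / 2 ^ D := by
        rw [hald]
        exact dg_near D (fun ω => al (Fam.pt F ω)) ω
      have on := h.on1 ω hA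
      obtain ⟨res, hres⟩ : ∃ res, res = F.d ω (σ 1) - al (Fam.pt F ω) * F.d ω (σ 0) -
        nu (Fam.pt F ω) := ⟨_, rfl⟩
      rw [← hres] at on
      have e1 : F.md c M ω 1 - sl (vp w) D (a w) (fun ω => al (Fam.pt F ω)) ω * F.md c M ω 0 -
          (2 ^ (vp w + q) * nu (Fam.pt F ω) +
            2 ^ vp w * (al (Fam.pt F ω) - ald ω) * F.mvl c M ω 0 - F.mvl c M ω 1 +
            sl (vp w) D (a w) (fun ω => al (Fam.pt F ω)) ω * F.mvl c M ω 0) =
          2 ^ (vp w + q) * res - 2 ^ vp w * (ald ω - al (Fam.pt F ω)) * F.md c M ω 0 := by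
        rw [hsl]
        have e2 : F.md c M ω 1 + F.mvl c M ω 1 =
          2 ^ (vp w + q) * (F.d ω (σ 1) - a w ω * F.d ω (σ 0)) := by linarith
        have e3 : F.md c M ω 0 + F.mvl c M ω 0 = 2 ^ q * F.d ω (σ 0) := by linarith
        have e4 : F.md c M ω 1 - 2 ^ vp w * (ald ω - a w ω) * F.md c M ω 0 -
          (2 ^ (vp w + q) * nu (Fam.pt F ω) +
            2 ^ vp w * (al (Fam.pt F ω) - ald ω) * F.mvl c M ω 0 - F.mvl c M ω 1 +
            2 ^ vp w * (ald ω - a w ω) * F.mvl c M ω 0) =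
            (F.md c M ω 1 + F.mvl c M ω 1) -
              2 ^ vp w * (ald ω - a w ω) * (F.md c M ω 0 + F.mvl c M ω 0) -
              2 ^ (vp w + q) * nu (Fam.pt F ω) +
              2 ^ vp w * (ald ω - al (Fam.pt F ω)) * F.mvl c M ω 0 := by ring
        rw [e4, e2]
        have e5 : (F.mvl c M ω 0 : ℝ) = 2 ^ q * F.d ω (σ 0) - F.md c M ω 0 := by linarith
        rw [e3, e5, hres, pow_add]
        ring
      rw [e1]
      have k1 : |2 ^ (vp w + q) * res| * 2 ^ X ≤ 1 := by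
        rw [abs_mul, abs_of_pos (by positivity : (0 : ℝ) < 2 ^ (vp w + q))]
        calc (2 : ℝ) ^ (vp w + q) * |res| * 2 ^ X ≤ 2 ^ (vp w + q) * (B / 2 ^ Hu) * 2 ^ X := by
              gcongr
          _ = B * 2 ^ (vp w + q + X) / 2 ^ Hu := by
              rw [pow_add 2 (vp w + q) X]
              ring
          _ ≤ 1 := by rw [div_le_one (by positivity)]; exact gu
      have k2 : |2 ^ vp w * (ald ω - al (Fam.pt F ω)) * F.md c M ω 0| * 2 ^ X ≤ 1 := by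
        rw [abs_mul, abs_mul, abs_of_pos (by positivity : (0 : ℝ) < 2 ^ vp w),
          abs_of_nonneg hmd.1]
        have k3 : (2 : ℝ) ^ vp w * 2 ^ X ≤ 2 ^ D := by
          rw [← pow_add]
          exact pow_le_pow_right₀ (by norm_num) gD
        calc (2 : ℝ) ^ vp w * |ald ω - al (Fam.pt F ω)| * F.md c M ω 0 * 2 ^ X ≤
            2 ^ vp w * (1 / 2 ^ D) * 1 * 2 ^ X := by
              gcongr
              · exact hmd.1
              · exact hmd.2.le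
          _ = 2 ^ vp w * 2 ^ X / 2 ^ D := by ring
          _ ≤ 1 := by rw [div_le_one (by positivity)]; exact k3
      have k3 := abs_sub (2 ^ (vp w + q) * res) (2 ^ vp w * (ald ω - al (Fam.pt F ω)) *
        F.md c M ω 0)
      have k4 : (0 : ℝ) < 2 ^ X := by positivity
      calc |2 ^ (vp w + q) * res - 2 ^ vp w * (ald ω - al (Fam.pt F ω)) * F.md c M ω 0| * 2 ^ X ≤
          (|2 ^ (vp w + q) * res| + |2 ^ vp w * (ald ω - al (Fam.pt F ω)) * F.md c M ω 0|) *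
            2 ^ X := mul_le_mul_of_nonneg_right k3 k4.le
        _ ≤ 1 + 1 := by rw [add_mul]; exact add_le_add k1 k2
        _ ≤ 4 := by norm_num

/-- The straightness with a side label. -/
theorem Str_cnd {K' : Type} (Th : F.Ω → K') {τ : Type} {P : F.Ω → τ} {p : F.Ω → ℝ} {i₀ iu : Fin 3}
    {w X : ℕ} {c : Fin 3 → ℕ} {M : F.Ω → Fin 3 → Fin 3 → ℝ} {S : F.Ω → ℝ} {K : ℝ}
    (h : Str F p i₀ iu w c M S P X K) : Str (F.cnd Th) p i₀ iu w c M S P X K := by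
  obtain ⟨u, v, W, h1, h2⟩ := h
  refine ⟨u, v, W, ?_, h2⟩
  intro ω ω' hω hω' e
  have e1 := Prod.ext_iff.mp e
  exact h1 ω ω' hω hω' (Prod.ext e1.1 ((blb_cnd Th).1 e1.2).2)

/-- The activity given the exact point and the context, for a law on the event. -/
theorem act_pt {K' : Type} {Th : F.Ω → K'} {p : F.Ω → ℝ} (hp : IsLaw p)
    (hTh : ∀ ω ω', 0 < p ω → 0 < p ω' → Fam.pt F ω = Fam.pt F ω' → Th ω = Th ω')
    {w q r X' : ℕ} {κ : ℕ} {v : ℕ} {K : ℝ} {a' : F.Ω → ℝ}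
    (hb : CH p (F.blb w (cv v κ q) (frm σ a' s t)) (ptq F (σ 0) q) ≤ K) :
    CH p (fun ω => F.D (q + r + X') ω (σ 0)) (fun ω => (F.D (q + r) ω (σ 0), Fam.pt F ω)) - K ≤
      CH p (Uni.dg (r + X') (fun ω => F.md (cv v κ q) (frm σ a' s t) ω 0))
        (fun ω => (Uni.dg r (fun ω => F.md (cv v κ q) (frm σ a' s t) ω 0) ω,
          (Fam.pt F ω, (F.cnd Th).blb w (cv v κ q) (frm σ a' s t) ω))) := by
  have h0 := hp.nonneg
  obtain ⟨bb, hbb⟩ : ∃ bb, bb = F.blb w (cv v κ q) (frm σ a' s t) := ⟨_, rfl⟩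
  have dgm : ∀ (X : ℕ) (ω : F.Ω), Uni.dg X (fun ω => F.md (cv v κ q) (frm σ a' s t) ω 0) ω =
      F.D (q + X) ω (σ 0) - 2 ^ X * F.D q ω (σ 0) := fun X ω =>
    dg_md F σ a' s t (cv v κ q) X ω
  have dq : ∀ ω ω' : F.Ω, bb ω = bb ω' → F.D q ω (σ 0) = F.D q ω' (σ 0) := by
    intro ω ω' e
    rw [hbb] at e
    have := congrFun (Box.mlb_ext e).2.2.2.1 0
    unfold Fam.mvl flk at this
    rw [mco0, mco0] at this
    exact this
  have k1 := CH_le_add h0 (fun ω => F.D (q + r + X') ω (σ 0)) bb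
    (fun ω => (F.D (q + r) ω (σ 0), Fam.pt F ω))
  have k2 : CH p bb (fun ω => (F.D (q + r) ω (σ 0), Fam.pt F ω)) ≤ K := by
    rw [hbb]
    refine le_trans (CH_mono_cond h0 ?_) hb
    intro ω ω' _ _ e
    have e1 := Prod.ext_iff.mp e
    have e2 : ⌊(2 : ℝ) ^ (q + r) * F.d ω (σ 0)⌋ = ⌊(2 : ℝ) ^ (q + r) * F.d ω' (σ 0)⌋ := e1.1
    exact Prod.ext e1.2 (cell_mono (k := q) (j := r) e2)
  have k3 : CH p (fun ω => F.D (q + r + X') ω (σ 0))
      (fun ω => (bb ω, (F.D (q + r) ω (σ 0), Fam.pt F ω))) ≤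
      CH p (Uni.dg (r + X') (fun ω => F.md (cv v κ q) (frm σ a' s t) ω 0))
        (fun ω => (bb ω, (F.D (q + r) ω (σ 0), Fam.pt F ω))) := by
    refine CH_mono_left h0 ?_
    intro ω ω' _ _ e
    have e1 := Prod.ext_iff.mp e
    have e2 := Prod.ext_iff.mp e1.2
    have e3 := dq ω ω' e2.1
    have e4 : Uni.dg (r + X') (fun ω => F.md (cv v κ q) (frm σ a' s t) ω 0) ω =
      Uni.dg (r + X') (fun ω => F.md (cv v κ q) (frm σ a' s t) ω 0) ω' := e1.1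
    rw [dgm, dgm, e3] at e4
    show F.D (q + r + X') ω (σ 0) = F.D (q + r + X') ω' (σ 0)
    rw [Nat.add_assoc]
    linarith
  have k4 : CH p (Uni.dg (r + X') (fun ω => F.md (cv v κ q) (frm σ a' s t) ω 0))
        (fun ω => (bb ω, (F.D (q + r) ω (σ 0), Fam.pt F ω))) ≤
      CH p (Uni.dg (r + X') (fun ω => F.md (cv v κ q) (frm σ a' s t) ω 0))
        (fun ω => (Uni.dg r (fun ω => F.md (cv v κ q) (frm σ a' s t) ω 0) ω,
          (Fam.pt F ω, (F.cnd Th).blb w (cv v κ q) (frm σ a' s t) ω))) := by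
    refine CH_mono_cond h0 ?_
    intro ω ω' hω hω' e
    have e1 := Prod.ext_iff.mp e
    have e2 := Prod.ext_iff.mp e1.2
    have e3 := dq ω ω' e1.1
    have e4 : F.D (q + r) ω (σ 0) = F.D (q + r) ω' (σ 0) := e2.1
    have e5 : Fam.pt F ω = Fam.pt F ω' := e2.2
    refine Prod.ext ?_ (Prod.ext e5 ?_)
    · simp only
      rw [dgm, dgm, e3, e4]
    · have e6 : bb ω = bb ω' := e1.1
      rw [hbb] at e6
      exact (blb_cnd Th).2 ⟨hTh ω ω' hω hω' e5, e6⟩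
  linarith

end fam

end Pool.UST
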