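import Pool.Agent.H10.S6U.Uz5
import Pool.Agent.H2.UST.Out

/-!
# The local U-step in a class, `v ≥ 0`
-/

set_option autoImplicit false

namespace Pool.UST

open Finset Real
open Pool.Agent.H49.Ent Pool.Agent.H32.Dense Pool.STK Pool.KA Pool.KSAT Pool.K2S Pool.PB
  Pool.S6U Pool.S6C

/-- The body of `UeStmt` for one slope `v`. -/
def UeB (ε ρ α : ℝ) (n : ℕ) (γ x₁ v : ℝ) : Prop :=
  ∀ M cw : ℝ, 0 < M → 0 < cw → ∃ κ₀ : ℝ, 0 < κ₀ ∧ ∀ κ : ℝ, 0 < κ → κ ≤ κ₀ →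
  ∃ e₂ : ℝ, 0 < e₂ ∧ ∀ (S : PCl 3) (a₁ R : ℝ) (i₀ : Fin 3) (rt act : ℚ → ℝ) (w₀ v₀ q₀ a₀ : ℝ),
    (∀ (τ : ℝ) (J : ℕ) (F : Fam 3 J) (A : F.Ω → Prop), S.St τ J F A → Fam.Stt F a₁ R τ A) →
    (∀ w : ℚ, 0 ≤ w → w ≤ 1 → PNum S (capS 1 (qRot i₀ 1 w)) (rt w)) →
    (∀ w : ℚ, 0 ≤ w → w ≤ 1 → 0 ≤ rt w) →
    ActN S i₀ act → (∀ q q' : ℚ, 0 ≤ q → q ≤ q' → q' ≤ 1 → act q ≤ act q') →
    0 < w₀ → w₀ < 1 → v₀ < 1 → 0 < q₀ → q₀ < 1 →
    Pool.Sel51.Slp rt w₀ v₀ v → Pool.Sel51.Slp act q₀ a₀ α →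
  ∃ L₀ : ℝ, 0 < L₀ ∧ ∀ L B C : ℝ, 0 < L → L ≤ L₀ → Clp S (fun J F A =>
    ∀ (σ : Fin 3 → Fin 3) (wl wa wb : ℕ) (vp : ℕ → ℕ) (kap Hu HN : ℕ)
      (al nu k b : (Fin 3 → ℤ) × (ℕ × F.ζ) → ℝ) (a : ℕ → F.Ω → ℝ) (s t : F.Ω → ℝ),
      UFr F A σ wl wa wb vp kap Hu HN al nu k b a s t B C → σ 0 = i₀ →
    ∀ qa qb d D : ℕ, UeN J w₀ v₀ v q₀ L M cw κ e₂ γ x₁ n wa wb vp kap Hu HN qa qb d D →
    (∃ Bd : Finset (ℕ × ℕ), (Bd.card : ℝ) ≤ ρ * ((wb + 1 - wa : ℕ) * (qb - qa : ℕ)) ∧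
      ∀ w q, wa ≤ w → w ≤ wb → qa ≤ q → q < qb → (w, q) ∉ Bd →
        Uc F (Pool.Agent.H49.Ent.cond F.p A True) σ vp D a s t (fun ω => al (Fam.pt F ω)) kap
          (n * d) w q ε) ∧
    ∀ (K : Type) (Th : F.Ω → K), SLb F A wl Th →
    ∃ Bd : Finset (ℕ × ℕ), (Bd.card : ℝ) ≤ ρ * ((wb + 1 - wa : ℕ) * (qb - qa : ℕ)) ∧
      ∀ w q, wa ≤ w → w ≤ wb → qa ≤ q → q < qb → (w, q) ∉ Bd →
        Uc (F.cnd Th) (Pool.Agent.H49.Ent.cond F.p A True) σ vp D a s t
          (fun ω => al (Fam.pt F ω)) kap (n * d) w q ε)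

theorem ueStmt_iff (V : Set ℝ) : UeStmt V ↔ ∀ ε ρ α : ℝ, 0 < ε → 0 < ρ → 0 < α →
    ∃ (n : ℕ) (γ x₁ : ℝ), 1 ≤ n ∧ 0 < γ ∧ γ ≤ 1 ∧ 0 < x₁ ∧ ∀ v ∈ V, UeB ε ρ α n γ x₁ v :=
  Iff.rfl

/-- The numbers with weaker constants. -/
theorem UeN.mono {J : ℕ} {w₀ v₀ v q₀ L M cw κ e₂ γ x₁ γ' x₁' : ℝ} {n wa wb : ℕ} {vp : ℕ → ℕ}
    {kap Hu HN qa qb d D : ℕ}
    (h : UeN J w₀ v₀ v q₀ L M cw κ e₂ γ' x₁' n wa wb vp kap Hu HN qa qb d D) (hγ : γ' ≤ γ)
    (hx : x₁ ≤ x₁') : UeN J w₀ v₀ v q₀ L M cw κ e₂ γ x₁ n wa wb vp kap Hu HN qa qb d D := by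
  have h1 : (0 : ℝ) ≤ (n * d : ℕ) := Nat.cast_nonneg _
  have h2 : (0 : ℝ) ≤ (qb - qa : ℕ) := Nat.cast_nonneg _
  have h3 := mul_le_mul_of_nonneg_right hx h1
  have h4 := mul_le_mul_of_nonneg_right hγ h2
  exact ⟨h.wa1, h.wb1, h.ww, h.qa1, h.qb1, h.qq, h.lin, h.hh, h.room, h.d1, h.d2, h.nd.trans h4,
    by have := h.D1; linarith only [h3, this], h.D2.trans h4, h.rise⟩

theorem UeB.mono {ε ρ α γ x₁ γ' x₁' v : ℝ} {n : ℕ} (h : UeB ε ρ α n γ x₁ v) (hγ : γ' ≤ γ)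
    (hx : x₁ ≤ x₁') : UeB ε ρ α n γ' x₁' v := by
  intro M cw hM hcw
  obtain ⟨κ₀, hκ₀, h1⟩ := h M cw hM hcw
  refine ⟨κ₀, hκ₀, fun κ hκ hκκ => ?_⟩
  obtain ⟨e₂, he₂, h2⟩ := h1 κ hκ hκκ
  refine ⟨e₂, he₂, fun S a₁ R i₀ rt act w₀ v₀ q₀ a₀ b1 b2 b3 b4 b5 b6 b7 b8 b9 b10 b11 b12 => ?_⟩
  obtain ⟨L₀, hL₀, h3⟩ := h2 S a₁ R i₀ rt act w₀ v₀ q₀ a₀ b1 b2 b3 b4 b5 b6 b7 b8 b9 b10 b11 b12
  refine ⟨L₀, hL₀, fun L B C hL hLL => Clp.mono (J₂ := 0) (h3 L B C hL hLL) ?_⟩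
  intro J _ F A hc σ wl wa wb vp kap Hu HN al nu k b a s t hU hσ qa qb d D hN
  exact hc σ wl wa wb vp kap Hu HN al nu k b a s t hU hσ qa qb d D (hN.mono hγ hx)

/-- **(UE)** in a class, `v = 0`, for every number `n`. -/
theorem ue0_body : ∀ ε ρ α : ℝ, 0 < ε → 0 < ρ → 0 < α → ∃ (γ x₁ : ℝ), 0 < γ ∧ γ ≤ 1 ∧ 0 < x₁ ∧
    ∀ n : ℕ, 1 ≤ n → UeB ε ρ α n γ x₁ 0 := by
  intro ε ρ α hε hρ hα
  obtain ⟨x₀, η, θ, δ, ε₁, γ, d₀, hx₀, hη, hθ, hδ, hε₁, hγ, hγ1, hd₀, hue⟩ :=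
    ue_out0 ε (α / 2) 4 ρ hε (by positivity) le_rfl hρ
  obtain ⟨x₁, hx₁⟩ : ∃ x₁, x₁ = max x₀ 1 := ⟨_, rfl⟩
  have hx01 : x₀ ≤ x₁ := by rw [hx₁]; exact le_max_left _ _
  have hx1 : 1 ≤ x₁ := by rw [hx₁]; exact le_max_right _ _
  have hx10 : 0 < x₁ := by linarith only [hx₀, hx01]
  refine ⟨γ, x₁, hγ, hγ1, hx10, fun n hn M cw hM hcw => ?_⟩
  have hn0 : (1 : ℝ) ≤ n := by exact_mod_cast hn
  have hnp : (0 : ℝ) < n := by linarith only [hn0]
  obtain ⟨κ₀, hκ₀⟩ : ∃ κ₀, κ₀ = min (1 / (4 * n * (1 + x₁))) (γ * cw / (8 * n)) := ⟨_, rfl⟩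
  have hκ₀0 : 0 < κ₀ := by rw [hκ₀]; exact lt_min (by positivity) (by positivity)
  refine ⟨κ₀, hκ₀0, fun κ hκ hκκ => ?_⟩
  have hκ1 : 4 * n * (1 + x₁) * κ ≤ 1 := by
    have h1 : κ ≤ 1 / (4 * n * (1 + x₁)) := hκκ.trans (by rw [hκ₀]; exact min_le_left _ _)
    rw [le_div_iff₀ (by positivity)] at h1
    linarith only [h1]
  have hκ2 : 8 * n * κ ≤ γ * cw := by
    have h1 : κ ≤ γ * cw / (8 * n) := hκκ.trans (by rw [hκ₀]; exact min_le_right _ _)
    rw [le_div_iff₀ (by positivity)] at h1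
    linarith only [h1]
  obtain ⟨e₂, he₂⟩ : ∃ e₂, e₂ = min (x₀ * n * κ / 16) (γ * cw / 16) := ⟨_, rfl⟩
  have he₂0 : 0 < e₂ := by rw [he₂]; exact lt_min (by positivity) (by positivity)
  have he₂1 : e₂ ≤ x₀ * n * κ / 16 := by rw [he₂]; exact min_le_left _ _
  have he₂2 : e₂ ≤ γ * cw / 16 := by rw [he₂]; exact min_le_right _ _
  refine ⟨e₂, he₂0, fun S a₁ R i₀ rt act w₀ v₀ q₀ a₀ hSt hrt hrt0 hact hactm hw0 hw1 hv1 hq0
    hq1 hslr hsla => ?_⟩
  obtain ⟨u, hu⟩ : ∃ u, u = Real.log 2 := ⟨_, rfl⟩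
  have hu0 : 0 < u := by rw [hu]; exact Real.log_pos (by norm_num)
  have hu1 : u ≤ 1 := by
    rw [hu]
    have := Real.log_le_sub_one_of_pos (show (0 : ℝ) < 2 by norm_num)
    linarith only [this]
  -- the error in the activity
  obtain ⟨Ea, hEa⟩ : ∃ Ea, Ea = α * η * n * κ * u / 4 := ⟨_, rfl⟩
  have hEa0 : 0 < Ea := by rw [hEa]; positivity
  obtain ⟨e₃, he₃⟩ : ∃ e₃, e₃ = Ea / (8 * (M + 2)) := ⟨_, rfl⟩
  have he₃0 : 0 < e₃ := by rw [he₃]; positivity
  have he₃m : 8 * (M + 2) * e₃ = Ea := by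
    rw [he₃]
    field_simp
  obtain ⟨δ₁, hδ₁, hs1⟩ := hslr (e₂ / 2) (by positivity)
  obtain ⟨δ₂, hδ₂, hs2⟩ := hsla e₃ he₃0
  obtain ⟨L₀, hL₀⟩ : ∃ L₀, L₀ = min (min (min (δ₁ / 4) (δ₂ / (2 * (M + 2)))) (min (w₀ / 4)
    ((1 - w₀) / 4))) (min (min (q₀ / (2 * (M + 2))) ((1 - q₀) / (2 * (M + 2))))
      ((1 - v₀) / (8 * (1 + e₂)))) := ⟨_, rfl⟩
  have hL₀0 : 0 < L₀ := by
    rw [hL₀]
    have h1 : 0 < 1 - w₀ := by linarith only [hw1]
    have h2 : 0 < 1 - q₀ := by linarith only [hq1]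
    have h3 : 0 < 1 - v₀ := by linarith only [hv1]
    exact lt_min (lt_min (lt_min (by positivity) (by positivity)) (lt_min (by positivity)
      (by positivity))) (lt_min (lt_min (by positivity) (by positivity)) (by positivity))
  refine ⟨L₀, hL₀0, fun L B C hL hLL => ?_⟩
  rw [hL₀] at hLL
  have hMp : 0 < 2 * (M + 2) := by positivity
  obtain ⟨l12, l34⟩ := le_min_iff.1 hLL
  obtain ⟨l1, l2⟩ := le_min_iff.1 l12
  obtain ⟨l3, l4⟩ := le_min_iff.1 l34
  have f1 : 4 * L ≤ δ₁ := by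
    have := (le_min_iff.1 l1).1
    linarith only [this]
  have f2 : 2 * (M + 2) * L ≤ δ₂ := by
    have := (le_min_iff.1 l1).2
    rw [le_div_iff₀ hMp] at this
    linarith only [this]
  have f3 : 4 * L ≤ w₀ := by
    have := (le_min_iff.1 l2).1
    linarith only [this]
  have f4 : 4 * L ≤ 1 - w₀ := by
    have := (le_min_iff.1 l2).2
    linarith only [this]
  have f5 : 2 * (M + 2) * L ≤ q₀ := by
    have := (le_min_iff.1 l3).1
    rw [le_div_iff₀ hMp] at this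
    linarith only [this]
  have f6 : 2 * (M + 2) * L ≤ 1 - q₀ := by
    have := (le_min_iff.1 l3).2
    rw [le_div_iff₀ hMp] at this
    linarith only [this]
  have f7 : 8 * (1 + e₂) * L ≤ 1 - v₀ := by
    rw [le_div_iff₀ (by positivity)] at l4
    linarith only [l4]
  have hML : 0 < M * L := by positivity
  -- the numbers
  obtain ⟨h, hh⟩ : ∃ h, h = x₀ * n * κ * L / 32 := ⟨_, rfl⟩
  have hh0 : 0 < h := by rw [hh]; positivity
  have hnκ0 : 0 < n * κ := by positivity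
  have hxnκ0 : 0 < x₀ * n * κ := by positivity
  have hnk : 4 * (n * κ) + 4 * (x₁ * (n * κ)) ≤ 1 := by
    have e : 4 * n * (1 + x₁) * κ = 4 * (n * κ) + 4 * (x₁ * (n * κ)) := by ring
    linarith only [hκ1]
  have hx0k : x₀ * (n * κ) ≤ x₁ * (n * κ) := mul_le_mul_of_nonneg_right hx01 hnκ0.le
  have hhL : h ≤ L := by
    have h2 : x₀ * (n * κ) * L ≤ 1 / 4 * L := mul_le_mul_of_nonneg_right (by linarith only [hκ1, hnκ0, hx0k]) hL.le
    have h3 : h = x₀ * (n * κ) * L / 32 := by rw [hh]; ring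
    linarith only [hL, hh, h2]
  obtain ⟨w₁, hw₁, hw₁'⟩ := rat_btw (show w₀ - 2 * L < w₀ - L by linarith only [hL])
  obtain ⟨w₂, hw₂, hw₂'⟩ := rat_btw (show w₀ + 2 * L < w₀ + 3 * L by linarith only [hL])
  have hwg : ∀ wg : ℚ, w₁ ≤ wg → wg ≤ w₂ → |(wg : ℝ) - w₀| ≤ 3 * L := by
    intro wg g1 g2
    have g1' : (w₁ : ℝ) ≤ wg := by exact_mod_cast g1
    have g2' : (wg : ℝ) ≤ w₂ := by exact_mod_cast g2
    rw [abs_le]
    constructor <;> linarith
  have hrtg : ∀ wg : ℚ, w₁ ≤ wg → wg ≤ w₂ → rt wg ≤ v₀ + 3 / 2 * e₂ * L := by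
    intro wg g1 g2
    have g3 := hwg wg g1 g2
    have g4 := abs_le.1 (hs1 wg (lt_of_le_of_lt g3 (by linarith only [hδ₁, f1])))
    have g5 : e₂ / 2 * |(wg : ℝ) - w₀| ≤ e₂ / 2 * (3 * L) :=
      mul_le_mul_of_nonneg_left g3 (by positivity)
    linarith only [g4, g5, g4.2]
  have hw₁0 : (0 : ℚ) ≤ w₁ := by
    have : (0 : ℝ) ≤ w₁ := by linarith only [hw0, f3, hw₁]
    exact_mod_cast this
  have hw₁₂ : w₁ < w₂ := by
    have : (w₁ : ℝ) < w₂ := by linarith only [hL, hw₁', hw₂]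
    exact_mod_cast this
  have hw₂1 : w₂ ≤ 1 := by
    have : (w₂ : ℝ) ≤ 1 := by linarith only [f4, hw₁, hw₁', hw₂']
    exact_mod_cast this
  -- the claims
  have hpos : ∀ (τ : ℝ) (J : ℕ) (F : Fam 3 J) (A : F.Ω → Prop), S.St τ J F A → 0 < Pe F.p A :=
    fun τ J F A hA => lt_of_lt_of_le (Real.exp_pos _) (hSt τ J F A hA).2.2.2
  by_cases hS : S.Ne
  swap
  · -- the class is empty
    unfold PCl.Ne at hS
    push Not at hS
    obtain ⟨τ, hτ, J₀, hS⟩ := hS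
    exact Clp.of hτ J₀ fun J hJ F A hA => absurd hA (hS J hJ F A)
  have hlip := fun q q' h0 h1 h2 => actN_lip hS hpos hact q q' h0 h1 h2
  have cP : Clp S (fun J F A => 0 < Pe F.p A) := Clp.of one_pos 0 fun J _ F A hS => hpos 1 J F A hS
  have cT := time_cls hSt (η := δ * n * κ * L / 2) (by positivity)
  have cH := h62 S a₁ R i₀ rt hSt hrt w₁ w₂ h ε₁ hw₁0 hw₁₂ hw₂1 hh0 hε₁ (by
    intro wg g1 g2
    refine ⟨hrt0 wg (hw₁0.trans g1) (g2.trans hw₂1), ?_⟩
    have g3 := hrtg wg g1 g2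
    have g8 : 0 ≤ e₂ * L := by positivity
    linarith only [hv1, hL, f7, hhL, g3]) B C
  have cA := (act_int hpos hact hactm hlip (h := Ea * L / 8) (by positivity)).ev hθ
  -- large resolutions
  obtain ⟨KK, hKK⟩ : ∃ KK, KK = Real.log 13 + visC (B + 3) (C + 3) := ⟨_, rfl⟩
  obtain ⟨NB, hNB⟩ := pow_unbounded_of_one_lt (B + 4) (one_lt_two (α := ℝ))
  obtain ⟨J₀, hJ₀⟩ := exists_nat_ge ((d₀ : ℝ) * 2 / (κ * L) + |KK| / (Ea * L / 4) + NB * 2 / L + 1)
  refine Clp.mono (J₂ := J₀) (cP.and ((cT.and cH).and cA)) ?_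
  rintro J hJ F A ⟨hA0, ⟨gT, gH⟩, gA⟩ σ wl wa wb vp kap Hu HN al nu k b a s t hU hσ qa qb d D hN
  have hJ0 : (J₀ : ℝ) ≤ J := by exact_mod_cast hJ
  have hJ1 : (d₀ : ℝ) * 2 / (κ * L) + |KK| / (Ea * L / 4) + NB * 2 / L + 1 ≤ J := hJ₀.trans hJ0
  have j1 : 0 ≤ (d₀ : ℝ) * 2 / (κ * L) := by positivity
  have j2 : 0 ≤ |KK| / (Ea * L / 4) := by positivity
  have j0 : 0 ≤ NB * 2 / L := by positivity
  have hJp : (0 : ℝ) < J := by linarith only [hκ1, he₂0, he₂1, hnκ0, hx0k, hJ₀, hJ0, j1, j2, j0]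
  have hJn : 0 < J := by exact_mod_cast hJp
  have j3 : (d₀ : ℝ) * 2 ≤ κ * L * J := by
    have : (d₀ : ℝ) * 2 / (κ * L) ≤ J := by linarith only [hκ1, he₂0, he₂1, hnκ0, hx0k, hJ₀, hJ0, j2, j0]
    rw [div_le_iff₀ (by positivity)] at this
    linarith only [this]
  have j4 : |KK| ≤ Ea * L / 4 * J := by
    have : |KK| / (Ea * L / 4) ≤ J := by linarith only [hκ1, he₂0, he₂1, hnκ0, hx0k, hJ₀, hJ0, j1, j0]
    rw [div_le_iff₀ (by positivity)] at this
    linarith only [this]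
  have j5 : NB * 2 ≤ L * J := by
    have : NB * 2 / L ≤ J := by linarith only [hκ1, he₂0, he₂1, hnκ0, hx0k, hJ₀, hJ0, j1, j2]
    rw [div_le_iff₀ (by positivity)] at this
    linarith only [this]
  have hLJ : 0 < L * J := by positivity
  have hd1 := hN.d1
  have hd2 := hN.d2
  -- the block
  obtain ⟨X, hX⟩ : ∃ X, X = n * d := ⟨_, rfl⟩
  have hXr : (X : ℝ) = n * d := by rw [hX]; push_cast; ring
  have hX1 : n * κ * (L * J) / 2 ≤ (X : ℝ) := by
    rw [hXr]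
    have := mul_le_mul_of_nonneg_left hd1 hnp.le
    linarith only [this]
  have hX2 : (X : ℝ) ≤ n * κ * (L * J) := by
    rw [hXr]
    have := mul_le_mul_of_nonneg_left hd2 hnp.le
    linarith only [this]
  have hX3 : (X : ℝ) ≤ L * J / 4 := by
    refine hX2.trans ?_
    have h1 : 0 ≤ x₁ * (n * κ) := by positivity
    have := mul_le_mul_of_nonneg_right (show n * κ ≤ 1 / 4 by linarith only [hκ1, he₂0, he₂1, hx0k]) hLJ.le
    linarith only [this]
  have hdd : d₀ ≤ X := by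
    have h1 : (d : ℝ) ≤ X := by
      rw [hXr]
      have := mul_le_mul_of_nonneg_right hn0 (Nat.cast_nonneg (α := ℝ) d)
      linarith only [this]
    have : (d₀ : ℝ) ≤ X := by linarith only [j3, hd1, h1]
    exact_mod_cast this
  have hxX2 : x₁ * X ≤ L * J / 4 := by
    have h1 := mul_le_mul_of_nonneg_left hX2 hx10.le
    have h2 := mul_le_mul_of_nonneg_right (show x₁ * (n * κ) ≤ 1 / 4 by linarith only [hκ1, hnκ0]) hLJ.le
    linarith only [h1, h2]
  have hX00 : (0 : ℝ) ≤ X := Nat.cast_nonneg _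
  have hxX3 : x₀ * X ≤ x₁ * X := mul_le_mul_of_nonneg_right hx01 hX00
  have hxX4 : X ≤ x₁ * X := by
    have := mul_le_mul_of_nonneg_right hx1 hX00
    linarith only [this]
  have hxX1 : x₀ * n * κ * (L * J) / 2 ≤ x₀ * X := by
    have := mul_le_mul_of_nonneg_left hX1 hx₀.le
    linarith only [this]
  -- windows
  have hwab : wa ≤ wb := by
    have : (wa : ℝ) ≤ wb := by
      have := hN.ww
      have h1 : 0 ≤ cw * L * J := by positivity
      linarith only [this, h1]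
    exact_mod_cast this
  have hvm : ∀ w, wa ≤ w → w ≤ wb → vp w ≤ vp wb := fun w g1 g2 => hU.mono w wb g1 g2 le_rfl
  have hD1 := hN.D1
  rw [← hX] at hD1
  have hDv' : vp wb + X ≤ D := by
    have : (vp wb : ℝ) + X ≤ D := by linarith only [hxX4, hD1]
    exact_mod_cast this
  have hwX : wb + X ≤ J := by
    have h1 : (wb : ℝ) + X ≤ J := by
      have g1 := hN.wb1
      have g2 : (w₀ + L) * (J : ℝ) + L * J / 4 ≤ J := by
        have : (w₀ + L + L / 4) * (J : ℝ) ≤ 1 * J :=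
          mul_le_mul_of_nonneg_right (by linarith only [hw1, f4]) hJp.le
        linarith only [this]
      linarith only [hX3, g1, g2]
    exact_mod_cast h1
  have hinj := hU.bij.1
  have hlw := hU.lw
  have hwbJ := hU.wJ
  have hroom := hN.room
  have hl := isLaw_cond F.isLaw hA0
  have hpA : ∀ ω, 0 < Pool.Agent.H49.Ent.cond F.p A True ω → A ω ∧ 0 < F.p ω := by
    intro ω hω
    have := (cond_pos_iff F.isLaw.nonneg A True ω).1 hω
    exact ⟨by simpa using this.2, this.1⟩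
  have hR := hU.rc hA0 (D := D) (by omega)
  -- the levels
  have hlev : ∀ w q, wa ≤ w → w ≤ wb → q < qb → (vp w + q + w + X + NB ≤ J ∧
      vp w + q + X + NB ≤ Hu) ∧ (q + kap ≤ HN ∧ w + q + kap ≤ J) := by
    intro w q g1 g2 g3
    have r1 := hroom.u
    have r2 := hroom.n
    have r3 := hroom.uJ
    have r4 := hroom.nJ
    have q1 : (q : ℝ) ≤ qb := by exact_mod_cast g3.le
    have q2 : (w : ℝ) ≤ wb := by exact_mod_cast g2
    have q3 : (vp w : ℝ) ≤ vp wb := by exact_mod_cast hvm w g1 g2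
    refine ⟨⟨?_, ?_⟩, ?_, ?_⟩
    · have : (vp w : ℝ) + q + w + X + NB ≤ J := by linarith only [j5, hLJ, hX3, r3, q1, q2, q3]
      exact_mod_cast this
    · have : (vp w : ℝ) + q + X + NB ≤ Hu := by linarith only [j5, hLJ, hX3, r1, q1, q3]
      exact_mod_cast this
    · have : (q : ℝ) + kap ≤ HN := by linarith only [hLJ, r2, q1]
      exact_mod_cast this
    · have : (w : ℝ) + q + kap ≤ J := by linarith only [hLJ, r4, q1, q2]
      exact_mod_cast this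
  -- the shape
  have hcW : cw * L * J ≤ (wb + 1 - wa : ℕ) := by
    have g1 := hN.ww
    have g2 : ((wb + 1 - wa : ℕ) : ℝ) = (wb : ℝ) + 1 - wa := by
      rw [Nat.cast_sub (by omega)]
      push_cast
      ring
    rw [g2]
    linarith only [hκ1, he₂0, he₂1, hnκ0, hx0k, g1]
  have hcW' : γ * (cw * L * J) ≤ γ * (wb + 1 - wa : ℕ) := mul_le_mul_of_nonneg_left hcW hγ.le
  have hshape : Ush0 wa wb vp D X qa qb J γ := by
    refine ⟨hwab, hwX, ?_, ?_, ?_, hN.D2⟩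
    · refine le_trans ?_ hcW'
      have h1 := mul_le_mul_of_nonneg_right hκ2 hLJ.le
      have h2 : 0 ≤ n * κ * (L * J) := by positivity
      linarith only [hX2, h1]
    · refine le_trans ?_ hcW'
      have m1 := abs_le.1 (hN.lin wa le_rfl hwab)
      have m2 := abs_le.1 (hN.lin wb hwab le_rfl)
      have m3 := mul_le_mul_of_nonneg_right he₂2 hLJ.le
      have h2 : 0 ≤ γ * cw * (L * J) := by positivity
      linarith only [m1, m2, m3, m1.1, m1.2, m2.1, m2.2]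
    · rw [hX]
      exact hN.nd
  -- the hypotheses, with a side label
  have main : ∀ (K : Type) (Th : F.Ω → K), SLb F A wl Th →
      Uh0 (F.cnd Th) (Fam.pt F) (Pool.Agent.H49.Ent.cond F.p A True) σ wa wb vp D a s t
        (fun ω => al (Fam.pt F ω)) kap X qa qb x₀ η θ δ ε₁ (α / 2) 4 := by
    intro K Th hTh
    have hTw : ∀ w, wa ≤ w → w ≤ wb → Det F.p (slam F w) Th := by
      intro w g1 g2 ω ω' hω hω' e
      refine hTh.slp ω ω' hω hω' ?_
      rw [slam_coarse F (w := wl) (w' := w) (by omega) (by omega) ω,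
        slam_coarse F (w := wl) (w' := w) (by omega) (by omega) ω', e]
    have hsl : ∀ w, wa ≤ w → w ≤ wb → Det F.p (slam F w) (slam (F.cnd Th) w) := by
      intro w g1 g2 ω ω' hω hω' e
      have f1 := hTw w g1 g2 ω ω' hω hω' e
      have f2 := Prod.ext_iff.mp e
      have f3 := Prod.ext_iff.mp f2.2
      exact Prod.ext f2.1 (Prod.ext (Prod.ext f1 f3.1) f3.2)
    have hsl' : ∀ (w : ℕ) (ω ω' : F.Ω), slam (F.cnd Th) w ω = slam (F.cnd Th) w ω' →
        slam F w ω = slam F w ω' := by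
      intro w ω ω' e
      have f2 := Prod.ext_iff.mp e
      have f3 := Prod.ext_iff.mp f2.2
      exact Prod.ext f2.1 (Prod.ext (Prod.ext_iff.mp f3.1).2 f3.2)
    have fA : ∀ w q r X' : ℕ, wa ≤ w → w ≤ wb → qa ≤ q → q < qb → η * X ≤ X' → r + X' ≤ X →
        ∀ E : F.Ω → Prop, θ ≤ Pe (Pool.Agent.H49.Ent.cond F.p A True) E →
        α / 2 * X' * Real.log 2 ≤
        CH (Pool.Agent.H49.Ent.cond (Pool.Agent.H49.Ent.cond F.p A True) E True)
        (Uni.dg (r + X') (fun ω => F.md (cv (vp w) kap q) (frm σ (a w) s t) ω 0))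
        (fun ω => (Uni.dg r (fun ω => F.md (cv (vp w) kap q) (frm σ (a w) s t) ω 0) ω,
          (Fam.pt F ω, (F.cnd Th).blb w (cv (vp w) kap q) (frm σ (a w) s t) ω))) := by
      intro w q r X' g1 g2 g3 g4 g5 g6 E hE
      have hE' := hE
      rw [Pe_cond, le_div_iff₀ hA0] at hE'
      have hsub : Sub (fun ω => A ω ∧ E ω) A := fun ω hω => hω.1
      have hA'0 : 0 < Pe F.p (fun ω => A ω ∧ E ω) := lt_of_lt_of_le (by positivity) hE'
      have hl' := isLaw_cond F.isLaw hA'0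
      rw [cond_and' F.p hA0.ne']
      have hpE : ∀ ω, 0 < Pool.Agent.H49.Ent.cond F.p (fun ω => A ω ∧ E ω) True ω →
          A ω ∧ 0 < F.p ω := by
        intro ω hω
        have := (cond_pos_iff F.isLaw.nonneg (fun ω => A ω ∧ E ω) True ω).1 hω
        have h3 : A ω ∧ E ω := by simpa using this.2
        exact ⟨h3.1, this.1⟩
      obtain ⟨⟨v1, v2⟩, v3, v4⟩ := hlev w q g1 g2 g4
      have hvok := hU.vok (w := w) (q := q) g1 g2 (by omega) (by omega) (by omega) (by omega)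
      have hvis := hvok.ctx_vis (fun ω => A ω ∧ E ω) hsub hA'0
      have ec : vpr w (w + q) (w + vp w + q) (w + q + kap) = cv (vp w) kap q := by
        funext i
        fin_cases i
        · change w + q - w = q
          omega
        · change w + vp w + q - w = vp w + q
          omega
        · change w + q + kap - w = kap + q
          omega
      have hvis' : CH (Pool.Agent.H49.Ent.cond F.p (fun ω => A ω ∧ E ω) True)
          (F.blb w (cv (vp w) kap q) (frm σ (a w) s t)) (ptq F (σ 0) q) ≤ KK := by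
        have e2 : F.ctx σ w (w + q) (w + vp w + q) (w + q + kap) (a w) s t =
            F.blb w (cv (vp w) kap q) (frm σ (a w) s t) := by
          unfold Fam.ctx
          rw [ec]
          rfl
        rw [← e2, hKK]
        exact hvis
      have k1 := act_pt (Th := Th) hl' (fun ω ω' hω hω' e => hTh.pts ω ω' (hpE ω hω).1
        (hpE ω' hω').1 e) (w := w) (q := q) (r := r) (X' := X') (κ := kap) (v := vp w)
        (a' := a w) hvis'
      refine le_trans ?_ k1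
      have hqX : q + r + X' ≤ J := by
        have : q + X ≤ J := by omega
        omega
      have k2 := act_pq hl' (gA _ hsub hE') (q := q + r) (X := X') hqX
      rw [hσ]
      refine le_trans ?_ (sub_le_sub_right k2 _)
      rw [← hu]
      -- the growth of the activity
      have hXq : (q : ℝ) + X ≤ (q₀ + (M + 1) * L) * J := by
        have h1 := hN.qb1
        have h2 : (q : ℝ) ≤ qb := by exact_mod_cast g4.le
        have e4 : (q₀ + (M + 1) * L) * (J : ℝ) = (q₀ + M * L) * J + L * J := by ring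
        linarith only [hLJ, hX3, h1, h2]
      have hq1' : (q₀ - M * L) * (J : ℝ) ≤ q := hN.qa1.trans (by exact_mod_cast g3)
      have hX'0 : (0 : ℝ) ≤ X' := Nat.cast_nonneg _
      have hr0 : (0 : ℝ) ≤ r := Nat.cast_nonneg _
      have hrX : (r : ℝ) + X' ≤ X := by exact_mod_cast g6
      have hac : ∀ y : ℕ, (q : ℝ) ≤ y → (y : ℝ) ≤ q + X →
          |act ((y : ℚ) / J) - a₀ - α * ((((y : ℚ) / J : ℚ) : ℝ) - q₀)| ≤ e₃ * ((M + 2) * L) := by
        intro y y1 y2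
        have ey : (((y : ℚ) / J : ℚ) : ℝ) = y / J := by push_cast; ring
        have b1 : |(((y : ℚ) / J : ℚ) : ℝ) - q₀| ≤ (M + 2) * L := by
          rw [ey, abs_le]
          constructor
          · rw [neg_le_sub_iff_le_add]
            rw [← sub_le_iff_le_add, le_div_iff₀ hJp]
            have h1 : (q₀ - (M + 2) * L) * (J : ℝ) ≤ (q₀ - M * L) * J :=
              mul_le_mul_of_nonneg_right (by linarith only [hL]) hJp.le
            linarith only [hLJ, hq1', y1]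
          · rw [sub_le_iff_le_add, div_le_iff₀ hJp]
            have h1 : (q₀ + (M + 1) * L) * (J : ℝ) ≤ ((M + 2) * L + q₀) * J :=
              mul_le_mul_of_nonneg_right (by linarith only [hL]) hJp.le
            linarith only [hLJ, hXq, y2]
        have hML2 : (M + 2) * L < δ₂ := by
          have : 0 < (M + 2) * L := by positivity
          linarith only [hδ₂, f2]
        exact (hs2 _ (lt_of_le_of_lt b1 hML2)).trans (mul_le_mul_of_nonneg_left b1 he₃0.le)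
      exact by
       have n1 := abs_le.1 (hac (q + r) (by push_cast; linarith only) (by push_cast; linarith only [hrX]))
       have n2 := abs_le.1 (hac (q + r + X') (by push_cast; linarith only) (by push_cast; linarith only [hrX]))
       have e5 : ((((q + r + X' : ℕ) : ℚ) / J : ℚ) : ℝ) - ((((q + r : ℕ) : ℚ) / J : ℚ) : ℝ) =
           X' / J := by
         push_cast
         ring
       obtain ⟨A2, hA2⟩ : ∃ A2, A2 = act (((q + r + X' : ℕ) : ℚ) / J) := ⟨_, rfl⟩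
       obtain ⟨A1, hA1⟩ : ∃ A1, A1 = act (((q + r : ℕ) : ℚ) / J) := ⟨_, rfl⟩
       rw [← hA2] at n2 ⊢
       rw [← hA1] at n1 ⊢
       have n3 : α * (X' / J) - 2 * (e₃ * ((M + 2) * L)) ≤ A2 - A1 := by
         rw [← e5]
         linarith only [n2, n1, n1.2, n2.1]
       have n4 : α * X' * u - 2 * (e₃ * ((M + 2) * L)) * u * J ≤ (A2 - A1) * u * J := by
         have h1 := mul_le_mul_of_nonneg_right n3 (show 0 ≤ u * J by positivity)
         have e6 : (α * (X' / J) - 2 * (e₃ * ((M + 2) * L))) * (u * J) =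
             α * X' * u - 2 * (e₃ * ((M + 2) * L)) * u * J := by
           field_simp
         rw [e6] at h1
         linarith only [h1]
       have n5 : 2 * (e₃ * ((M + 2) * L)) * u * J ≤ Ea * L / 4 * J := by
         have h1 : 2 * (e₃ * ((M + 2) * L)) = Ea * L / 4 := by
           rw [← he₃m]
           ring
         rw [h1]
         have h2 : Ea * L / 4 * u ≤ Ea * L / 4 * 1 := mul_le_mul_of_nonneg_left hu1 (by positivity)
         have := mul_le_mul_of_nonneg_right h2 hJp.le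
         linarith only [this]
       have n6 : Ea * L * J ≤ α / 2 * X' * u := by
         have h1 : η * (n * κ * (L * J) / 2) ≤ X' :=
           (mul_le_mul_of_nonneg_left hX1 hη.le).trans g5
         have h2 := mul_le_mul_of_nonneg_left h1 (show 0 ≤ α / 2 * u by positivity)
         have h3 : Ea * L * J = α / 2 * u * (η * (n * κ * (L * J) / 2)) := by
           rw [hEa]
           ring
         rw [h3]
         linarith only [h2]
       have n7 := le_abs_self KK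
       have n8 : 0 ≤ Ea * L * J := by positivity
       linarith only [j4, n4, n5, n6, n7, n8]
    exact by
     refine ⟨?_, ?_, ?_, ?_, ?_⟩
     · intro ω ω' _ _ e
       refine Prod.ext ?_ ?_
       · unfold Uni.dg
         simp only [e]
       · exact (Prod.ext_iff.mp (Prod.ext_iff.mp e).2).1
     · -- time
       have h1 := tmw_of_tm hl (show wa ≤ J by omega) gT
       exact by
        have h2 : CH (Pool.Agent.H49.Ent.cond F.p A True) F.T (slam F wa) ≤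
            CH (Pool.Agent.H49.Ent.cond F.p A True) F.T (slam (F.cnd Th) wa) := by
          refine CH_mono_cond hl.nonneg ?_
          intro ω ω' hω hω' e
          exact hsl wa le_rfl hwab ω ω' (hpA ω hω).2 (hpA ω' hω').2 e
        refine le_trans ?_ (h1.trans h2)
        have h3 := mul_le_mul_of_nonneg_left hX1 hδ.le
        linarith only [h3]
     · -- slopes
       intro w g1 g2
       have hwJ1 := hN.wa1
       have hwJ2 := hN.wb1
       have g1' : (wa : ℝ) ≤ w := by exact_mod_cast g1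
       have g2' : (w : ℝ) ≤ wb := by exact_mod_cast g2
       refine gH σ wl wa wb vp kap Hu HN al nu k b a s t hU hσ w D _
         (slam (F.cnd Th) w) (x₀ * X) g1 g2 (hsl w g1 g2) ?_ ?_ ?_ ?_
       · intro ω ω' _ _ hω hω' e
         have e1 := hU.det g1 g2 ω ω' hω hω' (hsl' w ω ω' e)
         have e2 := Prod.ext_iff.mp e1
         have e3 := Prod.ext_iff.mp e2.2
         exact ⟨e2.1, e3.1, e3.2⟩
       · have : (w₁ : ℝ) * J ≤ (w₀ - L) * J := mul_le_mul_of_nonneg_right (by linarith only [hw₁']) hJp.le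
         linarith only [hwJ1, g1', this]
       · have h1 : ((w₀ + L) + h) * (J : ℝ) ≤ w₂ * J :=
           mul_le_mul_of_nonneg_right (by linarith only [hhL, hw₂]) hJp.le
         linarith only [hwJ2, g2', h1]
       · intro wg k1 k2 k3 k4
         have m1 := abs_le.1 (hN.lin w g1 g2)
         have m2 := mul_le_mul_of_nonneg_right (hrtg wg k3 k4) hJp.le
         have m4 : e₂ * L * J ≤ x₀ * n * κ * (L * J) / 16 := by
           have := mul_le_mul_of_nonneg_right he₂1 hLJ.le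
           linarith only [this]
         have m5 : 32 * (h * J) = x₀ * n * κ * (L * J) := by rw [hh]; ring
         have m6 : rt wg * J + 2 * h * J ≤ vp w + x₀ * X := by
           have hh1 : 0 ≤ x₀ * n * κ * (L * J) := by positivity
           linarith only [hxX1, m1, m2, m4, m5, m1.1]
         have m7 : (vp w : ℝ) ≤ vp wb := by exact_mod_cast hvm w g1 g2
         have m8 := hN.hh
         have m9 := hroom.u
         have m10 := hroom.n
         have hq0' : (0 : ℝ) ≤ qb := Nat.cast_nonneg _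
         refine ⟨m6, by linarith only [hxX3, hxX4, hxX1, hD1, m1, m2, m4, m5, m7], by linarith only [hLJ, hxX2, hxX3, hxX1, m1, m2, m4, m5, m7, m8], by linarith only [hLJ, hxX2, hxX3, hxX1, m1, m2, m4, m5, m7, m9], by linarith only [hLJ, hxX2, hxX3, hxX1, m1, m2, m4, m5, m7, m8, m10]⟩
     · exact fA
     · -- straightness
       intro w q g1 g2 g3 g4
       obtain ⟨⟨v1, v2⟩, v3, v4⟩ := hlev w q g1 g2 g4
       have hvw := hvm w g1 g2
       have hB4 : B ≤ 2 ^ NB := by linarith only [hκ1, he₂0, he₂1, hnκ0, hx0k, hNB]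
       refine Str_cnd Th (hU.str (fun ω hω => (hpA ω hω).1) g1 g2 (by omega) ?_ ?_ (by omega))
       · calc (B + 4) * 2 ^ (vp w + q + w + X) ≤ 2 ^ NB * 2 ^ (vp w + q + w + X) :=
               mul_le_mul_of_nonneg_right hNB.le (by positivity)
           _ = 2 ^ (NB + (vp w + q + w + X)) := (pow_add _ _ _).symm
           _ ≤ 2 ^ J := pow_le_pow_right₀ (by norm_num) (by omega)
       · calc B * 2 ^ (vp w + q + X) ≤ 2 ^ NB * 2 ^ (vp w + q + X) :=
               mul_le_mul_of_nonneg_right hB4 (by positivity)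
           _ = 2 ^ (NB + (vp w + q + X)) := (pow_add _ _ _).symm
           _ ≤ 2 ^ Hu := pow_le_pow_right₀ (by norm_num) (by omega)
  exact by
   rw [← hX]
   refine ⟨?_, fun K Th hTh => ?_⟩
   · -- no side label
     have hU0 := main Unit (fun _ => ()) (SLb.unit F A wl)
     have hbl : ∀ (w : ℕ) (c : Fin 3 → ℕ) (M : F.Ω → Fin 3 → Fin 3 → ℝ) (ω ω' : F.Ω),
         (F.cnd (fun _ : F.Ω => ())).blb w c M ω = (F.cnd (fun _ : F.Ω => ())).blb w c M ω' ↔
           F.blb w c M ω = F.blb w c M ω' := by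
       intro w c M ω ω'
       rw [blb_cnd]
       simp
     have hslu : ∀ (w : ℕ) (ω ω' : F.Ω), slam (F.cnd (fun _ : F.Ω => ())) w ω =
         slam (F.cnd (fun _ : F.Ω => ())) w ω' ↔ slam F w ω = slam F w ω' := by
       intro w ω ω'
       constructor
       · intro e
         have f2 := Prod.ext_iff.mp e
         have f3 := Prod.ext_iff.mp f2.2
         exact Prod.ext f2.1 (Prod.ext (Prod.ext_iff.mp f3.1).2 f3.2)
       · intro e
         have f2 := Prod.ext_iff.mp e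
         have f3 := Prod.ext_iff.mp f2.2
         exact Prod.ext f2.1 (Prod.ext (Prod.ext rfl f3.1) f3.2)
     refine hue F (Fam.pt F) _ σ wa wb vp D a s t _ kap X qa qb hR hdd hshape
       ⟨hU0.pt, ?_, ?_, ?_, ?_⟩
     · refine hU0.tm.trans (CH_mono_cond hl.nonneg ?_)
       intro ω ω' _ _ e
       exact (hslu wa ω ω').1 e
     · intro w g1 g2
       have h5 := hU0.h6 w g1 g2
       have h6 : dbl (Pool.Agent.H49.Ent.cond F.p A True) (slam F w) =
           dbl (Pool.Agent.H49.Ent.cond F.p A True) (slam (F.cnd (fun _ : F.Ω => ())) w) :=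
         dbl_congr hl.nonneg fun ω ω' _ _ => (hslu w ω ω').symm
       rw [h6]
       exact h5
     · intro w q r X' g1 g2 g3 g4 g5 g6 E hE
       refine (hU0.act w q r X' g1 g2 g3 g4 g5 g6 E hE).trans
         (CH_mono_cond (cond_nonneg hl.nonneg _ _) ?_)
       intro ω ω' _ _ e
       have e1 := Prod.ext_iff.mp e
       have e2 := Prod.ext_iff.mp e1.2
       exact Prod.ext e1.1 (Prod.ext e2.1 ((hbl _ _ _ ω ω').1 e2.2))
     · intro w q g1 g2 g3 g4
       obtain ⟨u', v', W', b1, b2⟩ := hU0.str w q g1 g2 g3 g4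
       refine ⟨u', v', W', ?_, b2⟩
       intro ω ω' hω hω' e
       have e1 := Prod.ext_iff.mp e
       exact b1 ω ω' hω hω' (Prod.ext e1.1 ((hbl _ _ _ ω ω').2 e1.2))
   · exact hue (F.cnd Th) (Fam.pt F) _ σ wa wb vp D a s t _ kap X qa qb (Rc_cnd hR Th) hdd hshape
       (main K Th hTh)

/-- **(UE)** in a class, `v = 0`. -/
theorem ue0_thm : UeStmt {v | v = 0} := by
  intro ε ρ α hε hρ hα
  obtain ⟨γ, x₁, hγ, hγ1, hx₁, h⟩ := ue0_body ε ρ α hε hρ hα
  refine ⟨1, γ, x₁, le_rfl, hγ, hγ1, hx₁, ?_⟩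
  intro v hv
  have hv : v = 0 := hv
  rw [hv]
  exact h 1 le_rfl

/-- **(UE)** in a class, `v ≥ 0`. -/
theorem ue_all : UeStmt {v | 0 ≤ v} := by
  rw [ueStmt_iff]
  intro ε ρ α hε hρ hα
  obtain ⟨n, γ, x₁, hn, hγ, hγ1, hx₁, h⟩ := (ueStmt_iff _).1 ue_thm ε ρ α hε hρ hα
  obtain ⟨γ', x₁', hγ', hγ1', hx₁', h'⟩ := ue0_body ε ρ α hε hρ hα
  refine ⟨n, min γ γ', max x₁ x₁', hn, lt_min hγ hγ', (min_le_left _ _).trans hγ1,
    lt_max_of_lt_left hx₁, ?_⟩
  intro v hv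
  have hv : 0 ≤ v := hv
  rcases lt_or_eq_of_le hv with h1 | h1
  · exact (h v h1).mono (min_le_left _ _) (le_max_left _ _)
  · rw [← h1]
    exact (h' n hn).mono (min_le_right _ _) (le_max_right _ _)

/-- The mean form follows. -/
theorem us_of_ue {V : Set ℝ} (hV : UeStmt V) : UsStmt V := by
  intro ε α hε hα
  have hl2 : 0 < Real.log 2 := Real.log_pos (by norm_num)
  obtain ⟨n, γ, x₁, hn, hγ, hγ1, hx₁, h⟩ := hV (ε / (2 * Real.log 2)) (ε / (4 * Real.log 2)) α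
    (by positivity) (by positivity) hα
  refine ⟨n, γ, x₁, hn, hγ, hγ1, hx₁, fun v hv M cw hM hcw => ?_⟩
  obtain ⟨κ₀, hκ₀, h1⟩ := h v hv M cw hM hcw
  refine ⟨κ₀, hκ₀, fun κ hκ hκκ => ?_⟩
  obtain ⟨e₂, he₂, h2⟩ := h1 κ hκ hκκ
  refine ⟨e₂, he₂, fun S a₁ R i₀ rt act w₀ v₀ q₀ a₀ b1 b2 b3 b4 b5 b6 b7 b8 b9 b10 b11 b12 => ?_⟩
  obtain ⟨L₀, hL₀, h3⟩ := h2 S a₁ R i₀ rt act w₀ v₀ q₀ a₀ b1 b2 b3 b4 b5 b6 b7 b8 b9 b10 b11 b12
  refine ⟨L₀, hL₀, fun L B C hL hLL => ?_⟩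
  have cP : Clp S (fun J F A => 0 < Pe F.p A) := Clp.of one_pos 0 fun J _ F A hS =>
    lt_of_lt_of_le (Real.exp_pos _) (b1 1 J F A hS).2.2.2
  refine Clp.mono (J₂ := 0) (cP.and (h3 L B C hL hLL)) ?_
  rintro J _ F A ⟨hA0, hc⟩ σ wl wa wb vp kap Hu HN al nu k b a s t hU hσ qa qb d D hN N hNN
  obtain ⟨⟨Bd, hB1, hB2⟩, h4⟩ := hc σ wl wa wb vp kap Hu HN al nu k b a s t hU hσ qa qb d D hN
  have hl := isLaw_cond F.isLaw hA0
  refine ⟨?_, fun K Th hTh => ?_⟩
  · exact sum_of_Uc hε hl hNN hB1 hB2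
  · obtain ⟨Bd', hB3, hB4⟩ := h4 K Th hTh
    exact sum_of_Uc (F := F.cnd Th) hε hl hNN hB3 hB4

/-- **(US)** in a class, `v ≥ 0`. -/
theorem us_all : UsStmt {v | 0 ≤ v} := us_of_ue ue_all

end Pool.UST
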